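import Pool.Agent.Lib.MP_225e67_ag.Defs

/-!
# Auxiliary notions used in the proofs only
-/

open scoped LinearAlgebra.Projectivization Topology ContDiff
open Metric

namespace Pool.Agent.Lib.MP_225e67_ag

/-- Complex projective space with homogeneous coordinates indexed by `ι`. -/
abbrev PSpace (ι : Type) : Type := ℙ ℂ (ι → ℂ)

variable {ι : Type} [Fintype ι]

/-- `f` is holomorphic at `z` as a map to projective space: near `z` it is given by a nowhere
vanishing holomorphic vector of homogeneous coordinates. -/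
def HolomorphicAt (f : ℂ → PSpace ι) (z : ℂ) : Prop :=
  ∃ F : ℂ → (ι → ℂ), AnalyticAt ℂ F z ∧
    ∀ᶠ t in 𝓝 z, ∃ h : F t ≠ 0, f t = Projectivization.mk ℂ (F t) h

/-- The closure of the set of pairs `(v, ξ)`, where `[v]` is a smooth point of `Z` and `ξ` is a
covector (acting by `w ↦ ∑ ξ i * w i`) that vanishes on the tangent space of the cone at `v`. -/
def conormalClosure (Z : Set (PSpace ι)) : Set ((ι → ℂ) × (ι → ℂ)) :=
  closure {x | x.1 ∈ regCone Z ∧ ∀ w ∈ coneTangent Z x.1, ∑ i, x.2 i * w i = 0}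

/-- The components `ζ ↦ η (∂ψ/∂ζ_k)` of the pull-back of the form `η` under `ψ`. -/
noncomputable def pullComp {d : ℕ} (η : (ι → ℂ) → (ι → ℂ)) (ψ : (Fin d → ℂ) → (ι → ℂ)) :
    (Fin d → ℂ) → (Fin d → ℂ) :=
  fun t k => ∑ i, η (ψ t) i * fderiv ℂ ψ t (Pi.single k 1) i

end Pool.Agent.Lib.MP_225e67_ag
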