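import Pool.Agent.Lib.MP_225e67_ag.Lim

open scoped LinearAlgebra.Projectivization Topology ENNReal ContDiff
open Metric Filter

namespace Pool.Agent.Lib.MP_225e67_ag

variable {ι : Type} [Fintype ι]

lemma reparam {X : Set (PSpace ι)} (n : ℕ) {f : ℂ → PSpace ι} (hf : IsDisc X f)
    (hs : 4 * (n : ℝ) + 2 < speed f 0) :
    ∃ l : ℂ → PSpace ι, (∀ z : ℂ, ‖z‖ < n → HolomorphicAt l z ∧ l z ∈ X ∧ speed l z ≤ 2) ∧
      speed l 0 = 1 := by
  have hf' : ∀ z ∈ ball (0 : ℂ) 1, HolomorphicAt f z := fun z hz => (hf z hz).1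
  set h : ℂ → PSpace ι := fun z => f (z / 2) with hh
  have hd2 : ∀ z : ℂ, HasDerivAt (fun z : ℂ => z / 2) (1 / 2) z := fun z =>
    (hasDerivAt_id z).div_const 2
  have ha2 : ∀ z : ℂ, AnalyticAt ℂ (fun z : ℂ => z / 2) z := fun z =>
    analyticAt_id.div_const
  have hin : ∀ z : ℂ, ‖z‖ ≤ 1 → z / 2 ∈ ball (0 : ℂ) 1 := by
    intro z hz
    rw [mem_ball_zero_iff, norm_div]
    norm_num
    linarith
  have hhol : ∀ z : ℂ, ‖z‖ ≤ 1 → HolomorphicAt h z ∧ h z ∈ X := by
    intro z hz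
    exact ⟨HolomorphicAt.comp (φ := fun z : ℂ => z / 2) (hf _ (hin z hz)).1 (ha2 z),
      (hf _ (hin z hz)).2⟩
  have hsp0 : speed h 0 = speed f 0 / 2 := by
    have := speed_comp (f := f) (φ := fun z : ℂ => z / 2) (z := 0)
      (by simpa using hf' 0 (by simp)) (hd2 0).differentiableAt
    rw [hh, this, (hd2 0).deriv]
    simp
    ring
  set φ : ℂ → ℝ := fun z => speed h z * (1 - ‖z‖ ^ 2) with hφ
  have hφc : ContinuousOn φ (closedBall (0 : ℂ) 1) := by
    intro z hz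
    rw [mem_closedBall_zero_iff] at hz
    refine ContinuousAt.continuousWithinAt ?_
    exact (hhol z hz).1.continuousAt_speed.mul (by fun_prop)
  obtain ⟨a, ha, hmax⟩ := (isCompact_closedBall (0 : ℂ) 1).exists_isMaxOn ⟨0, by simp⟩ hφc
  rw [mem_closedBall_zero_iff] at ha
  set M := φ a with hM
  have hM0 : 2 * (n : ℝ) + 1 < M := by
    have h1 : φ 0 ≤ M := hmax (by simp)
    have h2 : φ 0 = speed f 0 / 2 := by rw [hφ]; simp [hsp0]
    linarith
  have hn0 : (0 : ℝ) ≤ n := n.cast_nonneg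
  have hMpos : 0 < M := by linarith
  have ha1 : ‖a‖ < 1 := by
    rcases ha.lt_or_eq with h1 | h1
    · exact h1
    · exfalso
      have : M = 0 := by rw [hM, hφ]; simp [h1]
      linarith
  have hMc : (M : ℂ) ≠ 0 := by exact_mod_cast hMpos.ne'
  have hu : ∀ z : ℂ, ‖z‖ < M → ‖z / M‖ < 1 := by
    intro z hz
    rw [norm_div, Complex.norm_real, Real.norm_of_nonneg hMpos.le, div_lt_one hMpos]
    exact hz
  have hdM : ∀ z : ℂ, HasDerivAt (fun z : ℂ => z / M) (1 / M) z := fun z =>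
    (hasDerivAt_id z).div_const _
  have hder : ∀ z : ℂ, ‖z‖ < M → HasDerivAt (fun z : ℂ => mob a (z / M))
      (deriv (mob a) (z / M) * (1 / M)) z := by
    intro z hz
    exact (hasDerivAt_mob ha1 (hu z hz)).differentiableAt.hasDerivAt.comp z (hdM z)
  have hspl : ∀ z : ℂ, ‖z‖ < M → speed (fun z : ℂ => h (mob a (z / M))) z
      = φ (mob a (z / M)) / (M * (1 - ‖z / M‖ ^ 2)) := by
    intro z hz
    have h1 := norm_mob_lt ha1 (hu z hz)
    rw [speed_comp (f := h) (φ := fun z : ℂ => mob a (z / M)) (z := z) (hhol _ h1.le).1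
      (hder z hz).differentiableAt, (hder z hz).deriv, norm_mul, norm_deriv_mob ha1 (hu z hz),
      norm_div (1 : ℂ), norm_one, Complex.norm_real, Real.norm_of_nonneg hMpos.le]
    have h4 : 0 < 1 - ‖z / M‖ ^ 2 := by nlinarith [norm_nonneg (z / (M : ℂ)), hu z hz]
    rw [hφ]
    field_simp
  refine ⟨fun z => h (mob a (z / M)), fun z hz => ?_, ?_⟩
  · have hzM : ‖z‖ < M := by linarith
    have h1 := norm_mob_lt ha1 (hu z hzM)
    refine ⟨HolomorphicAt.comp (φ := fun z : ℂ => mob a (z / M)) (hhol _ h1.le).1 ?_,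
      (hhol _ h1.le).2, ?_⟩
    · exact AnalyticAt.comp (g := mob a) (f := fun z : ℂ => z / M) (analyticAt_mob ha1 (hu z hzM))
        analyticAt_id.div_const
    · rw [hspl z hzM]
      have h2 : φ (mob a (z / M)) ≤ M := hmax (by rw [mem_closedBall_zero_iff]; exact h1.le)
      have h3 : ‖z / M‖ ≤ 1 / 2 := by
        rw [norm_div, Complex.norm_real, Real.norm_of_nonneg hMpos.le, div_le_iff₀ hMpos]
        linarith
      have h4 : 1 / 2 ≤ 1 - ‖z / M‖ ^ 2 := by nlinarith [norm_nonneg (z / (M : ℂ))]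
      rw [div_le_iff₀ (by positivity)]
      nlinarith
  · rw [hspl 0 (by simpa using hMpos)]
    simp [mob_zero, ← hM, hMpos.ne']

/-- **Brody's lemma** for closed subvarieties of projective space. -/
theorem brody {X : Set (PSpace ι)} (hX : IsProjClosed X)
    (hne : ∀ f : ℂ → PSpace ι, (∀ z, HolomorphicAt f z ∧ f z ∈ X) → ∀ᶠ t in 𝓝 0, f t = f 0) :
    IsKobayashiHyperbolic X := by
  by_contra hcon
  have h1 : ∀ n : ℕ, ∃ f : ℂ → PSpace ι, IsDisc X f ∧ 4 * (n : ℝ) + 2 < speed f 0 := by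
    intro n
    by_contra h2
    push Not at h2
    exact hcon (hyperbolic_of_speed_bound (C := 4 * (n : ℝ) + 2) (by positivity) h2)
  choose f hf hs using h1
  choose l hl hl0 using fun n => reparam n (hf n) (hs n)
  obtain ⟨L, hL, hL2⟩ := exists_limit hX l hl hl0
  exact hL2 (hne L hL)

end Pool.Agent.Lib.MP_225e67_ag
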