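import Pool.Agent.Lib.MP_225e67_ag.Par

open scoped LinearAlgebra.Projectivization Topology ENNReal ContDiff
open Metric Filter

namespace Pool.Agent.Lib.MP_225e67_ag

section Root

variable {T : Type*} [MetricSpace T] (f : T → ℂ) (n : ℕ)

/-- the space of `n`-th roots of a function -/
abbrev RootSp : Type _ := {p : T × ℂ // p.2 ^ n = f p.1}

variable {f n}

lemma rootSp_open (hf : Continuous f) (hn : n ≠ 0) :
    IsOpenMap (fun p : RootSp f n => p.1.1) := by
  have : NeZero n := ⟨hn⟩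
  rw [isOpenMap_iff_nhds_le]
  rintro ⟨⟨t, y⟩, hty⟩ U hU
  rw [mem_map] at hU
  rw [nhds_subtype_eq_comap, mem_comap] at hU
  obtain ⟨V, hV, hVU⟩ := hU
  rw [nhds_prod_eq, mem_prod_iff] at hV
  obtain ⟨A, hA, B, hB, hAB⟩ := hV
  have h1 : (fun z : ℂ => z ^ n) '' B ∈ 𝓝 (y ^ n) :=
    (Complex.isOpenQuotientMap_pow n).isOpenMap.image_mem_nhds hB
  have hty' : y ^ n = f t := hty
  rw [hty'] at h1
  have h2 := hf.continuousAt.preimage_mem_nhds h1
  filter_upwards [hA, h2] with s hs1 hs2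
  obtain ⟨z, hz, hzs⟩ := hs2
  have : (⟨(s, z), hzs⟩ : RootSp f n) ∈ (fun p : RootSp f n => p.1.1) ⁻¹' U :=
    hVU (hAB (Set.mk_mem_prod hs1 hz))
  exact this

lemma rootSp_closed (hf : Continuous f) (hn : n ≠ 0) :
    IsClosedMap (fun p : RootSp f n => p.1.1) := by
  intro C hC
  rw [← isSeqClosed_iff_isClosed]
  intro s t hs hst
  choose c hcC hcs using hs
  have hb : ∃ R : ℝ, ∀ k, ‖(c k).1.2‖ ≤ R := by
    have h1 : Tendsto (fun k => f (s k)) atTop (𝓝 (f t)) := (hf.tendsto t).comp hst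
    obtain ⟨R, hR⟩ := h1.norm.bddAbove_range
    refine ⟨max R 1, fun k => ?_⟩
    have h2 : ‖(c k).1.2‖ ^ n ≤ R := by
      rw [← norm_pow, (c k).2]
      have := hcs k
      simp only at this
      rw [this]
      exact hR ⟨k, rfl⟩
    by_contra h3
    push Not at h3
    have h4 : 1 ≤ ‖(c k).1.2‖ := (le_max_right R 1).trans h3.le
    have h5 : ‖(c k).1.2‖ ≤ ‖(c k).1.2‖ ^ n := le_self_pow₀ h4 hn
    linarith [le_max_left R 1]
  obtain ⟨R, hR⟩ := hb
  obtain ⟨y, -, φ, hφ, hy⟩ := (isCompact_closedBall (0 : ℂ) R).tendsto_subseq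
    (x := fun k => (c k).1.2) (fun k => by simpa using hR k)
  have ht : Tendsto (fun k => (c (φ k)).1.1) atTop (𝓝 t) := by
    have : (fun k => (c (φ k)).1.1) = s ∘ φ := by
      funext k; exact hcs (φ k)
    rw [this]
    exact hst.comp hφ.tendsto_atTop
  have hlim : Tendsto (fun k => (c (φ k)).1) atTop (𝓝 (t, y)) := by
    have := ht.prodMk_nhds hy
    exact this
  have hE : y ^ n = f t := by
    have h1 : Tendsto (fun k => (c (φ k)).1.2 ^ n) atTop (𝓝 (y ^ n)) := hy.pow n
    have h2 : Tendsto (fun k => f (c (φ k)).1.1) atTop (𝓝 (f t)) := (hf.tendsto t).comp ht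
    have h3 : (fun k => (c (φ k)).1.2 ^ n) = fun k => f (c (φ k)).1.1 := by
      funext k; exact (c (φ k)).2
    rw [h3] at h1
    exact tendsto_nhds_unique h1 h2
  have hcl : Tendsto (fun k => c (φ k)) atTop (𝓝 (⟨(t, y), hE⟩ : RootSp f n)) := by
    rw [tendsto_subtype_rng]
    exact hlim
  have hmem : (⟨(t, y), hE⟩ : RootSp f n) ∈ C := hC.mem_of_tendsto hcl
    (Eventually.of_forall fun k => hcC (φ k))
  exact ⟨_, hmem, rfl⟩

lemma rootSp_connected [ConnectedSpace T] (hf : Continuous f) (hn : n ≠ 0) {t₀ : T}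
    (h0 : f t₀ = 0) : ConnectedSpace (RootSp f n) := by
  have hfib : ∀ p : RootSp f n, p.1.1 = t₀ → p = ⟨(t₀, 0), by simp [h0, hn]⟩ := by
    rintro ⟨⟨t, y⟩, hp⟩ rfl
    have : y ^ n = 0 := by rw [← h0]; exact hp
    have hy : y = 0 := pow_eq_zero_iff hn |>.1 this
    subst hy
    rfl
  have hclopen : ∀ s : Set (RootSp f n), IsClopen s → s.Nonempty →
      (⟨(t₀, 0), by simp [h0, hn]⟩ : RootSp f n) ∈ s := by
    intro s hs hne
    have h1 : IsClopen ((fun p : RootSp f n => p.1.1) '' s) :=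
      ⟨rootSp_closed hf hn _ hs.1, rootSp_open hf hn _ hs.2⟩
    have h2 := h1.eq_univ (hne.image _)
    have h3 : t₀ ∈ (fun p : RootSp f n => p.1.1) '' s := by rw [h2]; trivial
    obtain ⟨p, hp, hpt⟩ := h3
    rw [← hfib p hpt]
    exact hp
  have : PreconnectedSpace (RootSp f n) := by
    rw [preconnectedSpace_iff_clopen]
    intro s hs
    by_contra hcon
    push Not at hcon
    have h1 := hclopen s hs hcon.1
    have h2 := hclopen sᶜ hs.compl (Set.nonempty_compl.2 hcon.2)
    exact h2 h1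
  exact ⟨⟨⟨(t₀, 0), by simp [h0, hn]⟩⟩⟩

end Root

/-- the punctured plane of pairs -/
abbrev P2 : Type := {p : ℂ × ℂ // p ≠ 0}

instance : ConnectedSpace P2 := by
  have h : IsConnected ({0}ᶜ : Set (ℂ × ℂ)) := by
    refine isConnected_compl_singleton_of_one_lt_rank ?_ 0
    have : Module.finrank ℝ (ℂ × ℂ) = 4 := by
      rw [Module.finrank_prod, Complex.finrank_real_complex]
    rw [← Module.finrank_eq_rank, this]
    norm_num
  have := isConnected_iff_connectedSpace.1 h
  exact this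

/-- first stage -/
noncomputable def f1 (p : P2) : ℂ := (p.1.1 ^ 4 + p.1.2 ^ 4) / 2

noncomputable def bvec (q : RootSp f1 4) : Fin 3 → ℂ := ![q.1.1.1.1, q.1.1.1.2, q.1.2]

noncomputable def f2 (q : RootSp f1 4 × P2) : ℂ := FF (bvec q.1) q.2.1.1 q.2.1.2

noncomputable def g3 (q : RootSp f2 4) : Ix → ℂ :=
  Th (bvec q.1.1.1) q.1.1.2.1.1 q.1.1.2.1.2 q.1.2

lemma continuous_f1 : Continuous f1 := by unfold f1; fun_prop

lemma continuous_bvec : Continuous bvec := by
  unfold bvec
  refine continuous_pi fun i => ?_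
  fin_cases i
  · simp; fun_prop
  · simp; fun_prop
  · simp; fun_prop

lemma continuous_f2 : Continuous f2 := by
  unfold f2 FF pp qq
  have h0 : Continuous fun q : RootSp f1 4 × P2 => bvec q.1 := continuous_bvec.comp continuous_fst
  have h1 : ∀ i, Continuous fun q : RootSp f1 4 × P2 => bvec q.1 i := fun i =>
    (continuous_apply i).comp h0
  have := h1 0
  have := h1 1
  have := h1 2
  fun_prop

lemma continuous_g3 : Continuous g3 := by
  have h0 : Continuous fun q : RootSp f2 4 => bvec q.1.1.1 := by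
    refine continuous_bvec.comp ?_
    fun_prop
  have h1 : ∀ i, Continuous fun q : RootSp f2 4 => bvec q.1.1.1 i := fun i =>
    (continuous_apply i).comp h0
  refine continuous_pi fun a => ?_
  rcases a with _ | ⟨i, j⟩
  · unfold g3; simp only [Th_none]; fun_prop
  · unfold g3
    simp only [Th_some]
    have := h1 i
    fin_cases j
    · simp; fun_prop
    · simp; fun_prop
    · simp; fun_prop
    · simp; fun_prop

instance : ConnectedSpace (RootSp f1 4) := by
  obtain ⟨z, hz⟩ := IsAlgClosed.exists_pow_nat_eq (-1 : ℂ) (n := 4) (by norm_num)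
  refine rootSp_connected (t₀ := ⟨(z, 1), ?_⟩) continuous_f1 (by norm_num) ?_
  · intro h
    have := congrArg Prod.snd h
    simp at this
  · unfold f1
    simp [hz]

instance : ConnectedSpace (RootSp f2 4) := by
  obtain ⟨z, hz⟩ := IsAlgClosed.exists_pow_nat_eq (-1 : ℂ) (n := 4) (by norm_num)
  have hz8 : z ^ 8 = 1 := by
    rw [show z ^ 8 = (z ^ 4) ^ 2 by ring, hz]; norm_num
  have hz12 : z ^ 12 = -1 := by
    rw [show z ^ 12 = (z ^ 4) ^ 3 by ring, hz]; norm_num
  have hne : ((1 : ℂ), (1 : ℂ)) ≠ 0 := by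
    intro h
    have := congrArg Prod.snd h
    simp at this
  have hne2 : (z, (1 : ℂ)) ≠ 0 := by
    intro h
    have := congrArg Prod.snd h
    simp at this
  refine rootSp_connected (t₀ := (⟨(⟨(1, 1), hne⟩, 1), ?_⟩, ⟨(z, 1), hne2⟩)) continuous_f2
    (by norm_num) ?_
  · unfold f1; simp
  · unfold f2 FF pp qq bvec
    simp [hz, hz8, hz12]

lemma cone_XX_eq : cone XX = Set.range g3 := by
  ext v
  constructor
  · intro hv
    obtain ⟨b, x, w, y, hb, hxw, hveq, h1, h2⟩ := exists_param hv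
    have hb01 : (b 0, b 1) ≠ (0 : ℂ × ℂ) := by
      intro h
      apply hb
      have e0 : b 0 = 0 := congrArg Prod.fst h
      have e1 : b 1 = 0 := congrArg Prod.snd h
      have e2 : b 2 ^ 4 = 0 := by
        rw [e0, e1] at h1
        linear_combination (-1 / 2) * h1
      have e3 : b 2 = 0 := pow_eq_zero_iff (by norm_num) |>.1 e2
      funext i
      fin_cases i
      · exact e0
      · exact e1
      · exact e3
    have hxw' : (x, w) ≠ (0 : ℂ × ℂ) := by
      intro h
      have e0 : x = 0 := congrArg Prod.fst h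
      have e1 : w = 0 := congrArg Prod.snd h
      exact hxw.elim (fun h => h e0) (fun h => h e1)
    have hq : (b 2) ^ 4 = f1 ⟨(b 0, b 1), hb01⟩ := by
      unfold f1
      simp only
      linear_combination (-1 / 2) * h1
    have hbv : bvec ⟨(⟨(b 0, b 1), hb01⟩, b 2), hq⟩ = b := by
      unfold bvec
      funext i
      fin_cases i <;> rfl
    refine ⟨⟨((⟨(⟨(b 0, b 1), hb01⟩, b 2), hq⟩, ⟨(x, w), hxw'⟩), y), ?_⟩, ?_⟩
    · unfold f2
      simp only [hbv]
      exact h2
    · unfold g3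
      simp only [hbv]
      exact hveq.symm
  · rintro ⟨⟨⟨⟨⟨⟨⟨⟨b0, b1⟩, hb⟩, b2⟩, hq⟩, ⟨⟨x, w⟩, hxw⟩⟩, y⟩, hy⟩, rfl⟩
    unfold g3
    simp only
    have hxw' : x ≠ 0 ∨ w ≠ 0 := by
      by_contra h
      push Not at h
      apply hxw
      rw [h.1, h.2]; rfl
    refine Th_mem_cone ?_ hxw' ?_ ?_
    · intro h
      apply hb
      have e0 : b0 = 0 := congrFun h 0
      have e1 : b1 = 0 := congrFun h 1
      rw [e0, e1]; rfl
    · unfold bvec
      unfold f1 at hq
      show b0 ^ 4 + b1 ^ 4 = 2 * b2 ^ 4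
      have hq' : b2 ^ 4 = (b0 ^ 4 + b1 ^ 4) / 2 := hq
      linear_combination (-2) * hq'
    · exact hy

lemma isConnected_cone_XX : IsConnected (cone XX) := by
  rw [cone_XX_eq]
  exact isConnected_range continuous_g3

end Pool.Agent.Lib.MP_225e67_ag
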