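import Pool.Agent.Lib.MP_225e67_ag.TX
import Pool.Agent.Lib.MP_225e67_ag.Conn

open scoped LinearAlgebra.Projectivization Topology ENNReal ContDiff
open Metric Filter

namespace Pool.Agent.Lib.MP_225e67_ag

lemma finrank_ker_JJ {c : Fin 6 → ℂ} (hb : bb c ≠ 0) (hxw : c 3 ≠ 0 ∨ c 4 ≠ 0)
    (hG : GG c = 0) : Module.finrank ℂ (JJ c).toLinearMap.ker = 4 := by
  have h1 := LinearMap.finrank_range_add_finrank_ker (JJ c).toLinearMap
  have h2 : (JJ c).toLinearMap.range = ⊤ := LinearMap.range_eq_top.2 (JJ_surj hb hxw hG)
  rw [h2, finrank_top, Module.finrank_prod, Module.finrank_self, Module.finrank_fin_fun] at h1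
  omega

lemma finrank_coneTangent_T6 {c : Fin 6 → ℂ} (hb : bb c ≠ 0) (hxw : c 3 ≠ 0 ∨ c 4 ≠ 0)
    (hG : GG c = 0) (hP : PP c = 0) : Module.finrank ℂ (coneTangent XX (T6 c)) = 3 := by
  set K := (JJ c).toLinearMap.ker with hK
  set L : K →ₗ[ℂ] (Ix → ℂ) := (dTh c).domRestrict K with hL
  have hrange : coneTangent XX (T6 c) = L.range := by
    ext N
    rw [mem_coneTangent_iff hb hxw hG hP, LinearMap.mem_range]
    constructor
    · rintro ⟨e, he, rfl⟩
      exact ⟨⟨e, he⟩, rfl⟩
    · rintro ⟨⟨e, he⟩, rfl⟩
      exact ⟨e, he, rfl⟩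
  rw [hrange]
  have h1 := LinearMap.finrank_range_add_finrank_ker L
  have h4K : Module.finrank ℂ K = 4 := finrank_ker_JJ hb hxw hG
  rw [h4K] at h1
  have h2 : Module.finrank ℂ L.ker = 1 := by
    set ε : Fin 6 → ℂ := ![-3 * c 0, -3 * c 1, -3 * c 2, c 3, c 4, 0] with hε
    have hε1 : dG c ε = 0 := by
      rw [dG_apply]
      have : 4 * c 0 ^ 3 * (-3 * c 0) + 4 * c 1 ^ 3 * (-3 * c 1) - 8 * c 2 ^ 3 * (-3 * c 2) = 0 := by
        unfold GG at hG
        linear_combination (-12) * hG
      exact this
    have hε2 : dP c ε = 0 := by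
      rw [dP_apply]
      have : 4 * c 5 ^ 3 * 0 - 4 * c 0 ^ 3 * (fp c + 2 * fq c) * (-3 * c 0)
        + 4 * c 1 ^ 3 * (fp c + 2 * fq c) * (-3 * c 1) - 4 * c 2 ^ 3 * (fp c + fq c) * (-3 * c 2)
        - Fx c * c 3 - Fw c * c 4 = 0 := by
        unfold fp fq Fx Fw pp qq
        simp only [bb_zero, bb_one, bb_two]
        ring
      exact this
    have hεK : ε ∈ K := by
      rw [hK]
      show JJ c ε = 0
      rw [JJ_apply, hε1, hε2]; rfl
    have hεL : (⟨ε, hεK⟩ : K) ∈ L.ker := by
      show dTh c ε = 0
      funext a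
      rcases a with _ | ⟨i, j⟩
      · rfl
      · rw [dTh_some]
        have hb3 : bb ε i = -3 * bb c i := by fin_cases i <;> rfl
        have h3 : ε 3 = c 3 := rfl
        have h4 : ε 4 = c 4 := rfl
        rw [hb3, h3, h4]
        fin_cases j
        · simp only [Fin.zero_eta, mon_zero, dmon_zero, Pi.zero_apply]; ring
        · simp only [Fin.mk_one, mon_one, dmon_one, Pi.zero_apply]; ring
        · simp only [Fin.reduceFinMk, mon_two, dmon_two, Pi.zero_apply]; ring
        · simp only [Fin.reduceFinMk, mon_three, dmon_three, Pi.zero_apply]; ring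
    refine finrank_eq_one (⟨⟨ε, hεK⟩, hεL⟩ : L.ker) ?_ ?_
    · intro h
      have h3 : ε = 0 := congrArg (fun z : L.ker => (z : K).1) h
      have h4 := congrFun h3 3
      have h5 := congrFun h3 4
      rcases hxw with h | h
      · exact h h4
      · exact h h5
    · rintro ⟨⟨e, heK⟩, heL⟩
      have he : dTh c e = 0 := heL
      have hij : ∀ (i : Fin 3) (j : Fin 4), bb e i * mon (c 3) (c 4) j
          + bb c i * dmon (c 3) (c 4) (e 3) (e 4) j = 0 := by
        intro i j
        have := congrFun he (some (i, j))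
        rwa [dTh_some] at this
      have he5 : e 5 = 0 := congrFun he none
      obtain ⟨k, hk⟩ := Function.ne_iff.1 hb
      have hk' : bb c k ≠ 0 := hk
      obtain ⟨t, ht3, ht4, htb⟩ : ∃ t, e 3 = t * c 3 ∧ e 4 = t * c 4 ∧
          ∀ i, bb e i = t * (-3 * bb c i) := by
        by_cases hw : c 4 = 0
        · have hx : c 3 ≠ 0 := by
            rcases hxw with h | h
            · exact h
            · exact absurd hw h
          obtain ⟨t, ht⟩ : ∃ t, e 3 = t * c 3 := ⟨e 3 / c 3, by field_simp⟩
          refine ⟨t, ht, ?_, ?_⟩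
          · have h0 := hij k 0
            have h1 := hij k 1
            simp only [mon_zero, dmon_zero, mon_one, dmon_one, hw] at h0 h1
            rw [hw]
            have h2 : bb c k * c 3 ^ 2 ≠ 0 := mul_ne_zero hk' (pow_ne_zero _ hx)
            apply mul_left_cancel₀ h2
            linear_combination h1
          · intro i
            have h0 := hij i 0
            simp only [mon_zero, dmon_zero] at h0
            rw [ht] at h0
            apply mul_left_cancel₀ (pow_ne_zero 3 hx)
            linear_combination h0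
        · obtain ⟨t, ht⟩ : ∃ t, e 4 = t * c 4 := ⟨e 4 / c 4, by field_simp⟩
          refine ⟨t, ?_, ht, ?_⟩
          · have h0 := hij k 3
            have h1 := hij k 2
            simp only [mon_two, dmon_two, mon_three, dmon_three] at h0 h1
            have h2 : bb c k * c 4 ^ 3 ≠ 0 := mul_ne_zero hk' (pow_ne_zero _ hw)
            rw [ht] at h0 h1
            apply mul_left_cancel₀ h2
            linear_combination c 4 * h1 - c 3 * h0
          · intro i
            have h0 := hij i 3
            simp only [mon_three, dmon_three] at h0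
            rw [ht] at h0
            apply mul_left_cancel₀ (pow_ne_zero 3 hw)
            linear_combination h0
      refine ⟨t, ?_⟩
      apply Subtype.ext
      apply Subtype.ext
      show t • ε = e
      funext a
      fin_cases a
      · have := htb 0
        simp only [bb_zero] at this
        exact this.symm
      · have := htb 1
        simp only [bb_one] at this
        exact this.symm
      · have := htb 2
        simp only [bb_two] at this
        exact this.symm
      · exact ht3.symm
      · exact ht4.symm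
      · show t * 0 = e 5
        rw [he5, mul_zero]
  omega

theorem isProjectiveManifold_XX : IsProjectiveManifold XX := by
  refine ⟨isProjClosed_XX, isConnected_cone_XX, 2, fun v hv => ?_⟩
  obtain ⟨b, x, w, y, hb, hxw, hveq, h1, h2⟩ := exists_param hv
  set c : Fin 6 → ℂ := ![b 0, b 1, b 2, x, w, y] with hc
  have hbb : bb c = b := by funext i; fin_cases i <;> rfl
  have hT : T6 c = v := by
    rw [hveq]
    show Th (bb c) x w y = Th b x w y
    rw [hbb]
  rw [← hT]
  refine finrank_coneTangent_T6 (by rw [hbb]; exact hb) hxw ?_ ?_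
  · show b 0 ^ 4 + b 1 ^ 4 - 2 * b 2 ^ 4 = 0
    linear_combination h1
  · rw [PP_eq, hbb]
    show y ^ 4 - FF b x w = 0
    linear_combination h2

end Pool.Agent.Lib.MP_225e67_ag
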