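import Mathlib

/-!
# Definitions for the conormal intersection number problem

Everything happens in a complex projective space `ℙ ℂ (ι → ℂ)` with homogeneous coordinates indexed
by a finite type `ι`.  Subsets of projective space are handled through their punctured affine
cones.
-/

open scoped LinearAlgebra.Projectivization Topology ContDiff
open Metric

namespace Pool.Agent.Lib.MP_225e67_ag

variable {ι : Type} [Fintype ι]

/-- The punctured affine cone of `X`: the nonzero vectors of homogeneous coordinates of the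
points of `X`. -/
def cone (X : Set (ℙ ℂ (ι → ℂ))) : Set (ι → ℂ) :=
  {v | ∃ h : v ≠ 0, Projectivization.mk ℂ v h ∈ X}

/-- `X` is a closed algebraic subset: the common zero locus of some homogeneous polynomials. -/
def IsProjClosed (X : Set (ℙ ℂ (ι → ℂ))) : Prop :=
  ∃ I : Set (MvPolynomial ι ℂ), (∀ f ∈ I, ∃ n, f.IsHomogeneous n) ∧
    ∀ (v : ι → ℂ) (h : v ≠ 0),
      Projectivization.mk ℂ v h ∈ X ↔ ∀ f ∈ I, MvPolynomial.eval v f = 0

/-- The Zariski tangent space at `v` of the affine cone over `X`: the (span of the) vectors killed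
by the differentials at `v` of all polynomials that vanish on the cone; these vectors form a
subspace already.  It contains the Euler direction `ℂ v`, and for `v` in the cone its quotient by
`ℂ v` is (up to the usual twist) the Zariski tangent space of `X` at the point `[v]`. -/
def coneTangent (X : Set (ℙ ℂ (ι → ℂ))) (v : ι → ℂ) : Submodule ℂ (ι → ℂ) :=
  Submodule.span ℂ {w | ∀ f : MvPolynomial ι ℂ, (∀ u ∈ cone X, MvPolynomial.eval u f = 0) →
    ∑ i, MvPolynomial.eval v (MvPolynomial.pderiv i f) * w i = 0}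

/-- `X` is a complex projective manifold: a closed algebraic subset of projective space which is
connected (equivalently its punctured cone is connected) and smooth, all Zariski tangent spaces
having the same dimension `d`, the dimension of `X`. -/
structure IsProjectiveManifold (X : Set (ℙ ℂ (ι → ℂ))) : Prop where
  closed : IsProjClosed X
  connected : IsConnected (cone X)
  smooth : ∃ d : ℕ, ∀ v ∈ cone X, Module.finrank ℂ (coneTangent X v) = d + 1

/-- `Z` is a closed irreducible subvariety of `X`: a nonempty closed algebraic subset whose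
vanishing ideal is prime. -/
structure IsIrredSubvariety (Z X : Set (ℙ ℂ (ι → ℂ))) : Prop where
  subset : Z ⊆ X
  closed : IsProjClosed Z
  nonempty : Z.Nonempty
  irred : ∀ f g : MvPolynomial ι ℂ, (∀ v ∈ cone Z, MvPolynomial.eval v (f * g) = 0) →
    (∀ v ∈ cone Z, MvPolynomial.eval v f = 0) ∨ (∀ v ∈ cone Z, MvPolynomial.eval v g = 0)

/-! ### Kobayashi hyperbolicity -/

/-- `f` restricts to a holomorphic map from the open unit disc to `X`: near each point of the disc
it is given by a nowhere vanishing holomorphic vector of homogeneous coordinates, and its values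
on the disc lie in `X`. -/
def IsDisc (X : Set (ℙ ℂ (ι → ℂ))) (f : ℂ → ℙ ℂ (ι → ℂ)) : Prop :=
  ∀ z ∈ ball (0 : ℂ) 1,
    (∃ F : ℂ → (ι → ℂ), AnalyticAt ℂ F z ∧
      ∀ᶠ t in 𝓝 z, ∃ h : F t ≠ 0, f t = Projectivization.mk ℂ (F t) h) ∧ f z ∈ X

/-- The Poincare distance of two points of the open unit disc. -/
noncomputable def poincareDist (a b : ℂ) : ℝ :=
  Real.log ((1 + ‖(a - b) / (1 - (starRingEnd ℂ) a * b)‖) /
    (1 - ‖(a - b) / (1 - (starRingEnd ℂ) a * b)‖))

/-- `X` is Kobayashi hyperbolic: for two distinct points `p`, `q` of `X` the Kobayashi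
pseudodistance, which is the infimum of the total Poincare lengths `∑ i, poincareDist (a i) (b i)`
of the chains of holomorphic discs `g 0, ..., g k` in `X` from `p = g 0 (a 0)` to `q = g k (b k)`,
consecutive discs satisfying `g i (b i) = g (i + 1) (a (i + 1))`, is positive. -/
def IsKobayashiHyperbolic (X : Set (ℙ ℂ (ι → ℂ))) : Prop :=
  ∀ p ∈ X, ∀ q ∈ X, p ≠ q → ∃ δ : ℝ, 0 < δ ∧
    ∀ (k : ℕ) (g : ℕ → ℂ → ℙ ℂ (ι → ℂ)) (a b : ℕ → ℂ),
      (∀ i, IsDisc X (g i) ∧ a i ∈ ball (0 : ℂ) 1 ∧ b i ∈ ball (0 : ℂ) 1) →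
      g 0 (a 0) = p → g k (b k) = q → (∀ i, i < k → g i (b i) = g (i + 1) (a (i + 1))) →
      δ ≤ ∑ i ∈ Finset.range (k + 1), poincareDist (a i) (b i)

/-! ### The conormal variety and the intersection number -/

/-- The vectors of homogeneous coordinates of the smooth points of an irreducible `Z`: the points
of the cone where the Zariski tangent space has the least dimension. -/
def regCone (Z : Set (ℙ ℂ (ι → ℂ))) : Set (ι → ℂ) :=
  {v | v ∈ cone Z ∧ ∀ u ∈ cone Z,
    Module.finrank ℂ (coneTangent Z v) ≤ Module.finrank ℂ (coneTangent Z u)}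

/-- A `C^∞` section of the holomorphic cotangent bundle of projective space (a smooth
`(1,0)`-form), written in homogeneous coordinates as `∑ η v i * d v i`. -/
structure IsSmoothForm (η : (ι → ℂ) → (ι → ℂ)) : Prop where
  smooth : ContDiffOn ℝ ∞ η {0}ᶜ
  basic : ∀ v : ι → ℂ, v ≠ 0 → ∑ i, η v i * v i = 0
  homog : ∀ (c : ℂ) (v : ι → ℂ), c ≠ 0 → v ≠ 0 → η (c • v) = c⁻¹ • η v

/-- The value at `[v]` of the section of `T^*X` that `η` induces lies in the conormal variety
`T^*_Z X`: the restriction of `η v` to the tangent space of `X` is the restriction of a covector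
`ζ` that lies over `v` in the closure of the set of pairs `(u, ξ)`, where `[u]` is a smooth point
of `Z` and `ξ` is a covector (acting by `w ↦ ∑ ξ i * w i`) that vanishes on the tangent space of
the cone of `Z` at `u`. -/
def MeetsConormal (X Z : Set (ℙ ℂ (ι → ℂ))) (η : (ι → ℂ) → (ι → ℂ)) (v : ι → ℂ) : Prop :=
  ∃ ζ : ι → ℂ, (∀ w ∈ coneTangent X v, ∑ i, ζ i * w i = ∑ i, η v i * w i) ∧
    (v, ζ) ∈ closure {x : (ι → ℂ) × (ι → ℂ) | x.1 ∈ regCone Z ∧
      ∀ w ∈ coneTangent Z x.1, ∑ i, x.2 i * w i = 0}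

/-- The graph of the section of `T^*X` induced by `η` meets `T^*_Z X` transversally at the smooth
point `p` of `Z`, with local intersection sign `ε`.  Here `ψ` is a local holomorphic
parametrisation of `Z` around `p` (lifted to the cone); the restriction of `η` to `Z`, whose
components are `t ↦ η (∂ψ/∂t_k)`, has a nondegenerate zero at `p`, and `ε` is the sign of the real
determinant of the derivative `D` of its components, which is the sign of the intersection in the
complex manifold `T^*X`. -/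
def HasSign (Z : Set (ℙ ℂ (ι → ℂ))) (η : (ι → ℂ) → (ι → ℂ)) (p : ℙ ℂ (ι → ℂ)) (ε : ℤ) : Prop :=
  ∃ (d : ℕ) (ψ : (Fin d → ℂ) → (ι → ℂ)) (D : (Fin d → ℂ) →L[ℝ] (Fin d → ℂ)),
    AnalyticAt ℂ ψ 0 ∧ (∃ h : ψ 0 ≠ 0, Projectivization.mk ℂ (ψ 0) h = p) ∧
    (∀ᶠ t in 𝓝 0, ψ t ∈ cone Z) ∧ ψ 0 ∈ regCone Z ∧
    LinearIndependent ℂ
      (Fin.cons (ψ 0) (fun k => fderiv ℂ ψ 0 (Pi.single k 1)) : Fin (d + 1) → (ι → ℂ)) ∧
    Submodule.span ℂ (Set.range
      (Fin.cons (ψ 0) (fun k => fderiv ℂ ψ 0 (Pi.single k 1)) : Fin (d + 1) → (ι → ℂ)))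
      = coneTangent Z (ψ 0) ∧
    (∀ k : Fin d, ∑ i, η (ψ 0) i * fderiv ℂ ψ 0 (Pi.single k 1) i = 0) ∧
    HasFDerivAt (𝕜 := ℝ)
      (fun (t : Fin d → ℂ) (k : Fin d) => ∑ i, η (ψ t) i * fderiv ℂ ψ t (Pi.single k 1) i) D 0 ∧
    D.toLinearMap.det ≠ 0 ∧ ε = SignType.sign D.toLinearMap.det

/-- `n` is the intersection number of `T^*_Z X` with the zero section of `T^*X`.  The zero section
is moved to the graph of a `C^∞` section of `T^*X`, induced by `η`, which meets the closed conic
variety `T^*_Z X` in finitely many points (those over the finite set `S`), all of them over smooth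
points of `Z` and all transversal; `n` is the sum of the signs. -/
def IsConormalIntersectionNumber (X Z : Set (ℙ ℂ (ι → ℂ))) (n : ℤ) : Prop :=
  ∃ (η : (ι → ℂ) → (ι → ℂ)) (S : Finset (ℙ ℂ (ι → ℂ))) (ε : ℙ ℂ (ι → ℂ) → ℤ),
    IsSmoothForm η ∧
    (∀ (v : ι → ℂ) (h : v ≠ 0), Projectivization.mk ℂ v h ∈ S ↔
      v ∈ cone Z ∧ MeetsConormal X Z η v) ∧
    (∀ p ∈ S, HasSign Z η p (ε p)) ∧ n = ∑ p ∈ S, ε p

end Pool.Agent.Lib.MP_225e67_ag
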