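import Pool.Agent.Lib.MP_225e67_ag.Base

open scoped LinearAlgebra.Projectivization Topology ENNReal ContDiff
open Metric Filter

namespace Pool.Agent.Lib.MP_225e67_ag

section PM

variable {ι : Type} [Fintype ι]

/-- squared euclidean norm -/
noncomputable def nrm (v : ι → ℂ) : ℝ := ∑ i, ‖v i‖ ^ 2

/-- the projector associated with a vector -/
noncomputable def Psi (v : ι → ℂ) : ι → ι → ℂ :=
  fun i k => v i * (starRingEnd ℂ) (v k) / (nrm v : ℂ)

lemma nrm_nonneg (v : ι → ℂ) : 0 ≤ nrm v := Finset.sum_nonneg fun _ _ => by positivity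

lemma nrm_pos {v : ι → ℂ} (h : v ≠ 0) : 0 < nrm v := by
  obtain ⟨i, hi⟩ := Function.ne_iff.1 h
  refine Finset.sum_pos' (fun _ _ => by positivity) ⟨i, Finset.mem_univ _, ?_⟩
  have : 0 < ‖v i‖ := norm_pos_iff.2 hi
  positivity

lemma nrm_smul (c : ℂ) (v : ι → ℂ) : nrm (c • v) = ‖c‖ ^ 2 * nrm v := by
  unfold nrm
  rw [Finset.mul_sum]
  refine Finset.sum_congr rfl fun i _ => ?_
  simp [mul_pow]

lemma le_nrm (v : ι → ℂ) (i : ι) : ‖v i‖ ^ 2 ≤ nrm v :=
  Finset.single_le_sum (f := fun i => ‖v i‖ ^ 2) (fun _ _ => by positivity) (Finset.mem_univ i)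

lemma Psi_smul {c : ℂ} (hc : c ≠ 0) (v : ι → ℂ) : Psi (c • v) = Psi v := by
  funext i k
  unfold Psi
  rw [nrm_smul]
  have h1 : (starRingEnd ℂ) c ≠ 0 := by simpa using hc
  have h2 : ((‖c‖ ^ 2 : ℝ) : ℂ) = c * (starRingEnd ℂ) c := by
    rw [Complex.mul_conj, Complex.normSq_eq_norm_sq]
  simp only [Pi.smul_apply, smul_eq_mul, map_mul, Complex.ofReal_mul]
  rw [h2]
  rw [show c * v i * ((starRingEnd ℂ) c * (starRingEnd ℂ) (v k))
    = (c * (starRingEnd ℂ) c) * (v i * (starRingEnd ℂ) (v k)) by ring]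
  rw [mul_div_mul_left _ _ (mul_ne_zero hc h1)]

/-- the projector of a point of projective space -/
noncomputable def pm (P : PSpace ι) : ι → ι → ℂ := Psi P.rep

lemma pm_mk (v : ι → ℂ) (h : v ≠ 0) : pm (Projectivization.mk ℂ v h) = Psi v := by
  obtain ⟨a, ha⟩ := Projectivization.exists_smul_eq_mk_rep ℂ v h
  unfold pm
  rw [← ha]
  exact Psi_smul a.ne_zero v

lemma norm_Psi_le (v : ι → ℂ) : ‖Psi v‖ ≤ 1 := by
  rw [pi_norm_le_iff_of_nonneg zero_le_one]
  intro i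
  rw [pi_norm_le_iff_of_nonneg zero_le_one]
  intro k
  unfold Psi
  rcases eq_or_ne v 0 with rfl | h
  · simp
  have h0 := nrm_pos h
  rw [norm_div, norm_mul, RCLike.norm_conj, Complex.norm_real, Real.norm_of_nonneg h0.le,
    div_le_one h0]
  have h1 := le_nrm v i
  have h2 := le_nrm v k
  nlinarith [sq_nonneg (‖v i‖ - ‖v k‖)]

lemma norm_pm_le (P : PSpace ι) : ‖pm P‖ ≤ 1 := norm_Psi_le _

lemma Psi_diag (v : ι → ℂ) (j : ι) : Psi v j j = ((‖v j‖ ^ 2 / nrm v : ℝ) : ℂ) := by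
  unfold Psi
  rw [Complex.mul_conj, Complex.normSq_eq_norm_sq]
  push_cast
  ring

lemma Psi_diag_ne {v : ι → ℂ} (hv : v ≠ 0) (j : ι) : Psi v j j ≠ 0 ↔ v j ≠ 0 := by
  rw [Psi_diag]
  have h0 := nrm_pos hv
  constructor
  · intro h hj
    apply h
    simp [hj]
  · intro h
    have : 0 < ‖v j‖ := norm_pos_iff.2 h
    have h3 : (‖v j‖ ^ 2 / nrm v : ℝ) ≠ 0 := by positivity
    exact_mod_cast h3

/-- the ratio recovered from the projector -/
lemma Psi_ratio {v : ι → ℂ} (hv : v ≠ 0) {j : ι} (hj : v j ≠ 0) (i : ι) :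
    Psi v i j / Psi v j j = v i / v j := by
  unfold Psi
  have h0 : (nrm v : ℂ) ≠ 0 := by exact_mod_cast (nrm_pos hv).ne'
  have h1 : (starRingEnd ℂ) (v j) ≠ 0 := by simpa using hj
  field_simp

lemma Psi_inj {v w : ι → ℂ} (hv : v ≠ 0) (hw : w ≠ 0) (h : Psi v = Psi w) :
    Projectivization.mk ℂ v hv = Projectivization.mk ℂ w hw := by
  obtain ⟨j, hj⟩ := Function.ne_iff.1 hv
  have hj' : v j ≠ 0 := hj
  have hwj : w j ≠ 0 := by
    rw [← Psi_diag_ne hw, ← h, Psi_diag_ne hv]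
    exact hj'
  rw [Projectivization.mk_eq_mk_iff']
  refine ⟨v j / w j, ?_⟩
  funext i
  have h1 := Psi_ratio hv hj' i
  have h2 := Psi_ratio hw hwj i
  rw [h, h2] at h1
  simp only [Pi.smul_apply, smul_eq_mul]
  field_simp at h1 ⊢
  linear_combination h1

lemma pm_injective : Function.Injective (pm : PSpace ι → ι → ι → ℂ) := by
  intro P Q h
  induction P using Projectivization.ind with
  | h v hv =>
    induction Q using Projectivization.ind with
    | h w hw =>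
      rw [pm_mk, pm_mk] at h
      exact Psi_inj hv hw h

lemma contDiff_nrm : ContDiff ℝ ∞ (nrm : (ι → ℂ) → ℝ) := by
  unfold nrm
  refine ContDiff.sum fun i _ => ?_
  have h1 : ContDiff ℝ ∞ (fun v : ι → ℂ => v i) := contDiff_apply ℝ ℂ i
  exact h1.norm_sq ℝ

lemma contDiffAt_Psi {v : ι → ℂ} (hv : v ≠ 0) : ContDiffAt ℝ ∞ (Psi : (ι → ℂ) → _) v := by
  have h0 : nrm v ≠ 0 := (nrm_pos hv).ne'
  rw [contDiffAt_pi]
  intro i
  rw [contDiffAt_pi]
  intro k
  have h1 : ContDiff ℝ ∞ (fun v : ι → ℂ => v i) := contDiff_apply ℝ ℂ i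
  have h2 : ContDiff ℝ ∞ (fun v : ι → ℂ => v k) := contDiff_apply ℝ ℂ k
  have h3 : ContDiff ℝ ∞ (fun v : ι → ℂ => (starRingEnd ℂ) (v k)) :=
    Complex.conjCLE.contDiff.comp h2
  have h4 : ContDiff ℝ ∞ (fun v : ι → ℂ => ((nrm v : ℝ) : ℂ)) :=
    Complex.ofRealCLM.contDiff.comp contDiff_nrm
  have h5 : ((nrm v : ℝ) : ℂ) ≠ 0 := by exact_mod_cast h0
  have h6 : ContDiffAt ℝ ∞ (fun v : ι → ℂ => (v i * (starRingEnd ℂ) (v k))) v :=
    (h1.mul h3).contDiffAt
  exact h6.mul (h4.contDiffAt.inv h5)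

end PM


section Compact

variable {ι : Type} [Fintype ι]

lemma isCompact_sphere_nrm : IsCompact {v : ι → ℂ | nrm v = 1} := by
  refine Metric.isCompact_of_isClosed_isBounded ?_ ?_
  · exact isClosed_eq contDiff_nrm.continuous continuous_const
  · rw [isBounded_iff_forall_norm_le]
    refine ⟨1, fun v hv => ?_⟩
    rw [pi_norm_le_iff_of_nonneg zero_le_one]
    intro i
    have h1 := le_nrm v i
    rw [show nrm v = 1 from hv] at h1
    nlinarith [norm_nonneg (v i)]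

lemma isCompact_image_pm {X : Set (PSpace ι)} (hX : IsProjClosed X) : IsCompact (pm '' X) := by
  obtain ⟨I, hI, h⟩ := hX
  have hc : IsCompact {v : ι → ℂ | nrm v = 1 ∧ ∀ f ∈ I, MvPolynomial.eval v f = 0} := by
    refine isCompact_sphere_nrm.inter_right (t := {v : ι → ℂ | ∀ f ∈ I,
      MvPolynomial.eval v f = 0}) ?_
    have : {v : ι → ℂ | ∀ f ∈ I, MvPolynomial.eval v f = 0}
      = ⋂ f ∈ I, {v : ι → ℂ | MvPolynomial.eval v f = 0} := by
      ext v; simp
    rw [this]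
    exact isClosed_biInter fun f _ => isClosed_eq (MvPolynomial.continuous_eval f)
      continuous_const
  have himg : pm '' X = Psi '' {v : ι → ℂ | nrm v = 1 ∧ ∀ f ∈ I, MvPolynomial.eval v f = 0} := by
    ext A
    constructor
    · rintro ⟨P, hP, rfl⟩
      induction P using Projectivization.ind with
      | h v hv =>
        have h0 := nrm_pos hv
        have h1 : (0 : ℝ) < (Real.sqrt (nrm v))⁻¹ := inv_pos.2 (Real.sqrt_pos.2 h0)
        set c : ℂ := (((Real.sqrt (nrm v))⁻¹ : ℝ) : ℂ) with hc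
        have hc0 : c ≠ 0 := by rw [hc]; exact_mod_cast h1.ne'
        have hcv : c • v ≠ 0 := smul_ne_zero hc0 hv
        have hmk : Projectivization.mk ℂ (c • v) hcv = Projectivization.mk ℂ v hv := by
          rw [Projectivization.mk_eq_mk_iff']
          exact ⟨c, rfl⟩
        refine ⟨c • v, ⟨?_, ?_⟩, ?_⟩
        · rw [nrm_smul, hc, Complex.norm_real, Real.norm_of_nonneg h1.le, inv_pow,
            Real.sq_sqrt h0.le]
          exact inv_mul_cancel₀ h0.ne'
        · have := (h (c • v) hcv).1 (by rw [hmk]; exact hP)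
          exact this
        · rw [Psi_smul hc0, pm_mk]
    · rintro ⟨v, ⟨h1, h2⟩, rfl⟩
      have hv : v ≠ 0 := by
        rintro rfl
        simp [nrm] at h1
      exact ⟨Projectivization.mk ℂ v hv, (h v hv).2 h2, pm_mk v hv⟩
  rw [himg]
  refine hc.image_of_continuousOn ?_
  rintro v ⟨h1, -⟩
  have hv : v ≠ 0 := by
    rintro rfl
    simp [nrm] at h1
  exact (contDiffAt_Psi hv).continuousAt.continuousWithinAt

end Compact

section Speed

variable {ι : Type} [Fintype ι]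

/-- the speed of a map to projective space -/
noncomputable def speed (f : ℂ → PSpace ι) (z : ℂ) : ℝ := ‖fderiv ℝ (fun t => pm (f t)) z‖

lemma speed_nonneg (f : ℂ → PSpace ι) (z : ℂ) : 0 ≤ speed f z := norm_nonneg _

lemma HolomorphicAt.contDiffAt {f : ℂ → PSpace ι} {z : ℂ} (h : HolomorphicAt f z) :
    ContDiffAt ℝ ∞ (fun t => pm (f t)) z := by
  obtain ⟨F, hF, hf⟩ := h
  have h0 : F z ≠ 0 := (hf.self_of_nhds).1
  have h1 : ContDiffAt ℝ ∞ F z := (hF.contDiffAt (n := ∞)).restrict_scalars ℝ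
  have h2 : ContDiffAt ℝ ∞ (fun t => Psi (F t)) z := (contDiffAt_Psi h0).comp z h1
  refine h2.congr_of_eventuallyEq ?_
  filter_upwards [hf] with t ht
  obtain ⟨h3, h4⟩ := ht
  rw [h4, pm_mk]

lemma HolomorphicAt.continuousAt_speed {f : ℂ → PSpace ι} {z : ℂ} (h : HolomorphicAt f z) :
    ContinuousAt (speed f) z := by
  have h1 : ContinuousAt (fderiv ℝ (fun t => pm (f t))) z :=
    (h.contDiffAt.fderiv_right (m := 0) (by norm_cast)).continuousAt
  exact h1.norm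

lemma HolomorphicAt.differentiableAt {f : ℂ → PSpace ι} {z : ℂ} (h : HolomorphicAt f z) :
    DifferentiableAt ℝ (fun t => pm (f t)) z :=
  h.contDiffAt.differentiableAt (by norm_cast)

lemma HolomorphicAt.comp {f : ℂ → PSpace ι} {φ : ℂ → ℂ} {z : ℂ} (h : HolomorphicAt f (φ z))
    (hφ : AnalyticAt ℂ φ z) : HolomorphicAt (fun t => f (φ t)) z := by
  obtain ⟨F, hF, hf⟩ := h
  refine ⟨fun t => F (φ t), hF.comp hφ, ?_⟩
  exact hφ.continuousAt.eventually hf

lemma norm_comp_mul {F : Type*} [NormedAddCommGroup F] [NormedSpace ℝ F] (A : ℂ →L[ℝ] F)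
    (B : ℂ →L[ℝ] ℂ) (c : ℂ) (hB : ∀ z, B z = c * z) : ‖A.comp B‖ = ‖c‖ * ‖A‖ := by
  rcases eq_or_ne c 0 with rfl | hc
  · have : B = 0 := by ext z; simp [hB]
    simp [this]
  have hc0 : 0 < ‖c‖ := norm_pos_iff.2 hc
  apply le_antisymm
  · refine ContinuousLinearMap.opNorm_le_bound _ (by positivity) fun z => ?_
    rw [ContinuousLinearMap.comp_apply, hB]
    calc ‖A (c * z)‖ ≤ ‖A‖ * ‖c * z‖ := A.le_opNorm _
      _ = ‖c‖ * ‖A‖ * ‖z‖ := by rw [norm_mul]; ring
  · rw [mul_comm, ← le_div_iff₀ hc0]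
    refine ContinuousLinearMap.opNorm_le_bound _ (by positivity) fun z => ?_
    have h1 : A z = (A.comp B) (z / c) := by
      rw [ContinuousLinearMap.comp_apply, hB, mul_div_cancel₀ _ hc]
    rw [h1]
    calc ‖(A.comp B) (z / c)‖ ≤ ‖A.comp B‖ * ‖z / c‖ := (A.comp B).le_opNorm _
      _ = ‖A.comp B‖ / ‖c‖ * ‖z‖ := by rw [norm_div]; ring

lemma speed_comp {f : ℂ → PSpace ι} {φ : ℂ → ℂ} {z : ℂ} (h : HolomorphicAt f (φ z))
    (hφ : DifferentiableAt ℂ φ z) :
    speed (fun t => f (φ t)) z = ‖deriv φ z‖ * speed f (φ z) := by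
  unfold speed
  have h1 : DifferentiableAt ℝ φ z := hφ.restrictScalars ℝ
  have h2 := fderiv_comp (𝕜 := ℝ) z (g := fun t => pm (f t)) h.differentiableAt h1
  have h3 : (fun t => pm (f (φ t))) = (fun t => pm (f t)) ∘ φ := rfl
  rw [h3, h2]
  refine norm_comp_mul _ _ _ fun t => ?_
  rw [hφ.fderiv_restrictScalars ℝ]
  simp only [ContinuousLinearMap.coe_restrictScalars']
  rw [hφ.hasDerivAt.hasFDerivAt.fderiv]
  simp [mul_comm]

/-- near a point, the speed is controlled by the derivative of the ratios -/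
lemma speed_eq_of_eventuallyEq {f : ℂ → PSpace ι} {r : ℂ → (ι → ℂ)} {z : ℂ}
    (h : ∀ᶠ t in 𝓝 z, pm (f t) = Psi (r t)) (hr : DifferentiableAt ℂ r z) (h0 : r z ≠ 0) :
    speed f z ≤ ‖fderiv ℝ (Psi : (ι → ℂ) → _) (r z)‖ * ‖deriv r z‖ := by
  unfold speed
  have h1 : DifferentiableAt ℝ r z := hr.restrictScalars ℝ
  have h2 : fderiv ℝ (fun t => pm (f t)) z = fderiv ℝ (Psi ∘ r) z :=
    Filter.EventuallyEq.fderiv_eq h
  rw [h2, fderiv_comp (𝕜 := ℝ) z ((contDiffAt_Psi h0).differentiableAt (by norm_cast)) h1]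
  refine (ContinuousLinearMap.opNorm_comp_le _ _).trans ?_
  gcongr
  rw [hr.fderiv_restrictScalars ℝ]
  refine ContinuousLinearMap.opNorm_le_bound _ (norm_nonneg _) fun t => ?_
  simp only [ContinuousLinearMap.coe_restrictScalars']
  rw [hr.hasDerivAt.hasFDerivAt.fderiv]
  simp [norm_smul, mul_comm]

end Speed

end Pool.Agent.Lib.MP_225e67_ag
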