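import Pool.Agent.Lib.MP_225e67_ag.ZC3
import Pool.Agent.Lib.MP_225e67_ag.Proj

open scoped LinearAlgebra.Projectivization Topology ENNReal ContDiff
open Metric Filter

namespace Pool.Agent.Lib.MP_225e67_ag

/-- the two auxiliary quadrics -/
def q1 (v : Ix → ℂ) : ℂ := 2 * (v (some (0, 1)) * v (some (0, 3))) - v (some (0, 0)) ^ 2
def q2 (v : Ix → ℂ) : ℂ := v (some (0, 2)) * v (some (0, 3)) - 2 * (v (some (0, 0)) * v (some (0, 1)))

/-- the smooth form -/
noncomputable def eta (v : Ix → ℂ) : Ix → ℂ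
  | none => ((starRingEnd ℂ) (q1 v) * v (some (0, 1)) + (starRingEnd ℂ) (q2 v) * v (some (0, 2)))
      / (nrm v : ℂ) ^ 2
  | some (i, j) => if i = 0 then
      (![0, -((starRingEnd ℂ) (q1 v) * v none), -((starRingEnd ℂ) (q2 v) * v none), 0] j)
        / (nrm v : ℂ) ^ 2 else 0

lemma eta_none (v : Ix → ℂ) : eta v none =
    ((starRingEnd ℂ) (q1 v) * v (some (0, 1)) + (starRingEnd ℂ) (q2 v) * v (some (0, 2)))
      / (nrm v : ℂ) ^ 2 := rfl

lemma eta_pair (v w : Ix → ℂ) : ∑ a, eta v a * w a =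
    ((starRingEnd ℂ) (q1 v) * (v (some (0, 1)) * w none - v none * w (some (0, 1)))
      + (starRingEnd ℂ) (q2 v) * (v (some (0, 2)) * w none - v none * w (some (0, 2))))
      / (nrm v : ℂ) ^ 2 := by
  rw [Fintype.sum_option, Fintype.sum_prod_type, Fin.sum_univ_three, Fin.sum_univ_four,
    Fin.sum_univ_four, Fin.sum_univ_four]
  simp only [eta]
  simp
  ring

lemma q1_smul (c : ℂ) (v : Ix → ℂ) : q1 (c • v) = c ^ 2 * q1 v := by
  unfold q1
  simp only [Pi.smul_apply, smul_eq_mul]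
  ring

lemma q2_smul (c : ℂ) (v : Ix → ℂ) : q2 (c • v) = c ^ 2 * q2 v := by
  unfold q2
  simp only [Pi.smul_apply, smul_eq_mul]
  ring

lemma isSmoothForm_eta : IsSmoothForm eta := by
  refine ⟨?_, ?_, ?_⟩
  · have hp : ∀ a : Ix, ContDiff ℝ ∞ (fun v : Ix → ℂ => v a) := fun a => contDiff_apply ℝ ℂ a
    have h1 : ContDiff ℝ ∞ q1 :=
      (contDiff_const.mul ((hp _).mul (hp _))).sub ((hp _).pow 2)
    have h2 : ContDiff ℝ ∞ q2 :=
      ((hp _).mul (hp _)).sub (contDiff_const.mul ((hp _).mul (hp _)))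
    have h1c : ContDiff ℝ ∞ (fun v => (starRingEnd ℂ) (q1 v)) :=
      Complex.conjCLE.contDiff.comp h1
    have h2c : ContDiff ℝ ∞ (fun v => (starRingEnd ℂ) (q2 v)) :=
      Complex.conjCLE.contDiff.comp h2
    have hn : ContDiff ℝ ∞ (fun v : Ix → ℂ => ((nrm v : ℝ) : ℂ) ^ 2) :=
      (Complex.ofRealCLM.contDiff.comp contDiff_nrm).pow 2
    have hn0 : ∀ v : Ix → ℂ, v ∈ ({0}ᶜ : Set (Ix → ℂ)) → ((nrm v : ℝ) : ℂ) ^ 2 ≠ 0 := by
      intro v hv
      have := (nrm_pos (show v ≠ 0 from hv)).ne'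
      exact pow_ne_zero _ (by exact_mod_cast this)
    have hni : ContDiffOn ℝ ∞ (fun v : Ix → ℂ => (((nrm v : ℝ) : ℂ) ^ 2)⁻¹) {0}ᶜ :=
      hn.contDiffOn.inv hn0
    rw [contDiffOn_pi]
    intro a
    rcases a with _ | ⟨i, j⟩
    · simp only [eta, div_eq_mul_inv]
      exact (((h1c.mul (hp _)).add (h2c.mul (hp _))).contDiffOn).mul hni
    · simp only [eta, div_eq_mul_inv]
      by_cases hi : i = 0
      · simp only [hi, if_true]
        fin_cases j
        · simp
          exact contDiffOn_const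
        · simp only [Fin.mk_one, Matrix.cons_val_one, Matrix.cons_val_zero]
          exact ((h1c.mul (hp _)).neg.contDiffOn).mul hni
        · simp only [Fin.reduceFinMk, Matrix.cons_val]
          exact ((h2c.mul (hp _)).neg.contDiffOn).mul hni
        · simp
          exact contDiffOn_const
      · simp only [hi, if_false]
        exact contDiffOn_const
  · intro v _
    rw [eta_pair]
    ring
  · intro c v hc hv
    have hcc : (starRingEnd ℂ) c ≠ 0 := by simpa using hc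
    have hn0 : ((nrm v : ℝ) : ℂ) ≠ 0 := by
      have := (nrm_pos hv).ne'
      exact_mod_cast this
    have hnc : ((nrm (c • v) : ℝ) : ℂ) = (c * (starRingEnd ℂ) c) * ((nrm v : ℝ) : ℂ) := by
      rw [nrm_smul, Complex.mul_conj, Complex.normSq_eq_norm_sq]
      push_cast
      ring
    have key : ∀ p q : ℂ, p = (starRingEnd ℂ) c ^ 2 * c * q →
        p / ((nrm (c • v) : ℝ) : ℂ) ^ 2 = c⁻¹ * (q / ((nrm v : ℝ) : ℂ) ^ 2) := by
      intro p q h
      rw [hnc, h]
      field_simp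
    funext a
    rw [Pi.smul_apply, smul_eq_mul]
    rcases a with _ | ⟨i, j⟩
    · simp only [eta]
      apply key
      rw [q1_smul, q2_smul]
      simp only [map_mul, map_pow, Pi.smul_apply, smul_eq_mul]
      ring
    · simp only [eta]
      by_cases hi : i = 0
      · simp only [hi, if_true]
        fin_cases j
        · simp
        · simp only [Fin.mk_one, Matrix.cons_val_one, Matrix.cons_val_zero]
          apply key
          rw [q1_smul]
          simp only [map_mul, map_pow, Pi.smul_apply, smul_eq_mul]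
          ring
        · simp only [Fin.reduceFinMk, Matrix.cons_val]
          apply key
          rw [q2_smul]
          simp only [map_mul, map_pow, Pi.smul_apply, smul_eq_mul]
          ring
        · simp
      · simp only [hi, if_false, mul_zero]

lemma q1_ZT (x w y : ℂ) : q1 (ZT x w y) = x ^ 2 * (2 * w ^ 4 - x ^ 4) := by
  unfold q1
  simp only [ZT_some, mon_zero, mon_one, mon_three]
  ring

lemma q2_ZT (x w y : ℂ) : q2 (ZT x w y) = x * w * (w ^ 4 - 2 * x ^ 4) := by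
  unfold q2
  simp only [ZT_some, mon_zero, mon_one, mon_two, mon_three]
  ring

/-- positivity of the bracket -/
lemma bracket_pos {x w : ℂ} (hxw : x ≠ 0 ∨ w ≠ 0) :
    0 < ‖x‖ ^ 2 * ‖2 * w ^ 4 - x ^ 4‖ ^ 2 + ‖w‖ ^ 2 * ‖w ^ 4 - 2 * x ^ 4‖ ^ 2 := by
  by_contra hcon
  push Not at hcon
  have h1 : 0 ≤ ‖x‖ ^ 2 * ‖2 * w ^ 4 - x ^ 4‖ ^ 2 := by positivity
  have h2 : 0 ≤ ‖w‖ ^ 2 * ‖w ^ 4 - 2 * x ^ 4‖ ^ 2 := by positivity
  have h3 : ‖x‖ ^ 2 * ‖2 * w ^ 4 - x ^ 4‖ ^ 2 = 0 := by linarith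
  have h4 : ‖w‖ ^ 2 * ‖w ^ 4 - 2 * x ^ 4‖ ^ 2 = 0 := by linarith
  rw [← mul_pow, ← norm_mul, pow_eq_zero_iff two_ne_zero, norm_eq_zero] at h3 h4
  by_cases hx : x = 0
  · rw [hx] at h4
    have : w ^ 5 = 0 := by linear_combination h4
    have hw : w = 0 := pow_eq_zero_iff (by norm_num) |>.1 this
    exact hxw.elim (fun h => h hx) (fun h => h hw)
  · have h5 : 2 * w ^ 4 - x ^ 4 = 0 := (mul_eq_zero.1 h3).resolve_left hx
    have h6 : w ^ 5 = 0 := by
      have : w * (w ^ 4 - 2 * (2 * w ^ 4)) = 0 := by linear_combination h4 - 2 * w * h5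
      linear_combination (-1 / 3) * this
    have hw : w = 0 := pow_eq_zero_iff (by norm_num) |>.1 h6
    rw [hw] at h5
    have h7 : x ^ 4 = 0 := by linear_combination -h5
    exact hx (pow_eq_zero_iff (by norm_num) |>.1 h7)

end Pool.Agent.Lib.MP_225e67_ag
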