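import Pool.Agent.Lib.MP_225e67_ag.FO1

open scoped LinearAlgebra.Projectivization Topology ENNReal
open Metric Filter

namespace Pool.Agent.Lib.MP_225e67_ag

/-- auxiliary quartic -/
def Qf (u : Ix → ℂ) : ℂ :=
  u (some (0, 0)) * u (some (0, 1)) ^ 3 + 2 * u (some (0, 1)) * u (some (0, 2)) ^ 3
    + u (some (0, 2)) * u (some (0, 3)) ^ 3

/-- a tangent vector field of the curve -/
noncomputable def E2 (u : Ix → ℂ) : Ix → ℂ
  | none => 3 * Qf u / u none ^ 3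
  | some (_, j) => ![0, u (some (0, 0)), 2 * u (some (0, 1)), 3 * u (some (0, 2))] j

lemma E2_ZT (x w y : ℂ) : E2 (ZT x w y) = LZ x w y ![0, x] := by
  funext a
  rcases a with _ | ⟨i, j⟩
  · simp only [E2, Qf, ZT_some, ZT_none, mon_zero, mon_one, mon_two, mon_three, LZ_none,
      Matrix.cons_val_zero, Matrix.cons_val_one]
    ring
  · simp only [E2, LZ_some, ZT_some, mon_zero, mon_one, mon_two, Matrix.cons_val_zero,
      Matrix.cons_val_one]
    fin_cases j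
    · simp
    · simp; ring
    · simp; ring
    · simp; ring

lemma E2_mem {u : Ix → ℂ} (hu : u ∈ regCone ZZ) : E2 u ∈ coneTangent ZZ u := by
  obtain ⟨h1, h2⟩ := mem_regCone_iff.1 hu
  obtain ⟨x, w, y, hxw, rfl, hy⟩ := mem_cone_ZZ_iff.1 h1
  rw [E2_ZT]
  exact LZ_mem hxw h2 hy _

lemma continuousAt_E2 {v : Ix → ℂ} (hv : v none ≠ 0) : ContinuousAt E2 v := by
  have hp : ∀ a : Ix, ContinuousAt (fun v : Ix → ℂ => v a) v := fun a =>
    (continuous_apply a).continuousAt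
  rw [continuousAt_pi]
  intro a
  rcases a with _ | ⟨i, j⟩
  · simp only [E2, Qf]
    exact (continuousAt_const.mul ((((hp _).mul ((hp _).pow 3)).add
      ((continuousAt_const.mul (hp _)).mul ((hp _).pow 3))).add ((hp _).mul ((hp _).pow 3)))).div
      ((hp _).pow 3) (pow_ne_zero _ hv)
  · simp only [E2]
    fin_cases j
    · simp only [Fin.zero_eta, Matrix.cons_val_zero]
      exact continuousAt_const
    · simp only [Fin.mk_one, Matrix.cons_val_one, Matrix.cons_val_zero]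
      exact hp _
    · simp only [Fin.reduceFinMk, Matrix.cons_val]
      exact continuousAt_const.mul (hp _)
    · simp only [Fin.reduceFinMk, Matrix.cons_val]
      exact continuousAt_const.mul (hp _)

/-- the value of the form on the vector field -/
lemma eta_E2 {x w y : ℂ} (hy : y ≠ 0) (hZ : y ^ 4 = (x ^ 4 + w ^ 4) ^ 3) :
    ∑ a, eta (ZT x w y) a * E2 (ZT x w y) a =
      (x ^ 4 + w ^ 4) ^ 2 / (y ^ 3 * (nrm (ZT x w y) : ℂ) ^ 2) * (x * ((‖x‖ ^ 2 : ℝ) : ℂ)) *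
      ((‖x‖ ^ 2 * ‖2 * w ^ 4 - x ^ 4‖ ^ 2 + ‖w‖ ^ 2 * ‖w ^ 4 - 2 * x ^ 4‖ ^ 2 : ℝ) : ℂ) := by
  rw [eta_pair, q1_ZT, q2_ZT, E2_ZT]
  simp only [ZT_some, ZT_none, LZ_none, LZ_some, mon_one, mon_two, dmon_one, dmon_two,
    Matrix.cons_val_zero, Matrix.cons_val_one]
  push_cast
  simp only [← Complex.mul_conj']
  have e1 : x ^ 2 * w * (3 * (x ^ 4 + w ^ 4) ^ 2 * (x ^ 3 * 0 + w ^ 3 * x) / y ^ 3)
      - y * (2 * x * w * 0 + x ^ 2 * x)
      = (x ^ 4 + w ^ 4) ^ 2 / y ^ 3 * (x ^ 3 * (2 * w ^ 4 - x ^ 4)) := by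
    field_simp
    linear_combination (-x ^ 3) * hZ
  have e2 : x * w ^ 2 * (3 * (x ^ 4 + w ^ 4) ^ 2 * (x ^ 3 * 0 + w ^ 3 * x) / y ^ 3)
      - y * (w ^ 2 * 0 + 2 * x * w * x)
      = (x ^ 4 + w ^ 4) ^ 2 / y ^ 3 * (x ^ 2 * w * (w ^ 4 - 2 * x ^ 4)) := by
    field_simp
    linear_combination (-2 * x ^ 2 * w) * hZ
  rw [e1, e2]
  simp only [map_mul, map_pow, map_sub, map_ofNat]
  rw [mul_comm (y ^ 3), ← div_div, div_right_comm]
  ring

end Pool.Agent.Lib.MP_225e67_ag
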