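import Pool.Agent.Lib.MP_225e67_ag.FO2

open scoped LinearAlgebra.Projectivization Topology ENNReal
open Metric Filter

namespace Pool.Agent.Lib.MP_225e67_ag

/-- a limiting tangent vector is killed by the form if the form meets the conormal variety -/
lemma eta_kill {v e : Ix → ℂ} {E : (Ix → ℂ) → (Ix → ℂ)}
    (hE : Tendsto E (𝓝[regCone ZZ] v) (𝓝 e))
    (hT : ∀ᶠ u in 𝓝[regCone ZZ] v, E u ∈ coneTangent ZZ u)
    (h : MeetsConormal XX ZZ eta v) : ∑ a, eta v a * e a = 0 := by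
  obtain ⟨ζ, h1, h2⟩ := h
  obtain ⟨h3, h4⟩ := closure_kill hE hT h2
  rw [← h1 e (coneTangent_mono ZZ_subset v h4)]
  exact h3

lemma meets_smooth {x w y : ℂ} (hxw : x ≠ 0 ∨ w ≠ 0) (hy : y ≠ 0)
    (hZ : y ^ 4 = (x ^ 4 + w ^ 4) ^ 3) (h : MeetsConormal XX ZZ eta (ZT x w y)) : x = 0 := by
  have h1 := eta_kill (v := ZT x w y) (e := E2 (ZT x w y)) (E := E2)
    ((continuousAt_E2 (v := ZT x w y) hy).tendsto.mono_left nhdsWithin_le_nhds)
    (by filter_upwards [self_mem_nhdsWithin] with u hu using E2_mem hu) h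
  rw [eta_E2 hy hZ] at h1
  have hb := (bracket_pos hxw).ne'
  have hb' : ((‖x‖ ^ 2 * ‖2 * w ^ 4 - x ^ 4‖ ^ 2 + ‖w‖ ^ 2 * ‖w ^ 4 - 2 * x ^ 4‖ ^ 2 : ℝ) : ℂ) ≠ 0 := by
    exact_mod_cast hb
  have h2 := (mul_eq_zero.1 h1).resolve_right hb'
  have hA : x ^ 4 + w ^ 4 ≠ 0 := by
    intro hA
    rw [hA] at hZ
    exact hy (pow_eq_zero_iff (n := 4) (by norm_num) |>.1 (by rw [hZ]; norm_num))
  have hn : (nrm (ZT x w y) : ℂ) ≠ 0 := by
    have h0 : ZT x w y ≠ 0 := fun h => hy (congrFun h none)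
    have := (nrm_pos h0).ne'
    exact_mod_cast this
  have h3 : (x ^ 4 + w ^ 4) ^ 2 / (y ^ 3 * (nrm (ZT x w y) : ℂ) ^ 2) ≠ 0 :=
    div_ne_zero (pow_ne_zero _ hA) (mul_ne_zero (pow_ne_zero _ hy) (pow_ne_zero _ hn))
  have h4 := (mul_eq_zero.1 h2).resolve_left h3
  rcases mul_eq_zero.1 h4 with h5 | h5
  · exact h5
  · have h6 : ‖x‖ ^ 2 = 0 := by exact_mod_cast h5
    exact norm_eq_zero.1 (pow_eq_zero_iff two_ne_zero |>.1 h6)

/-- convergence to zero can be tested on fourth powers -/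
lemma tendsto_zero_of_pow {α : Type*} {l : Filter α} {c : α → ℂ}
    (h : Tendsto (fun t => c t ^ 4) l (𝓝 0)) : Tendsto c l (𝓝 0) := by
  rw [Metric.tendsto_nhds] at h ⊢
  intro ε hε
  filter_upwards [h (ε ^ 4) (by positivity)] with t ht
  rw [dist_zero_right] at ht ⊢
  rw [norm_pow] at ht
  exact lt_of_pow_lt_pow_left₀ 4 hε.le ht

/-- the unit vector in the last direction -/
def eN : Ix → ℂ
  | none => 1
  | some _ => 0

lemma meets_singular {x w : ℂ} (hxw : x ≠ 0 ∨ w ≠ 0) (hA : x ^ 4 + w ^ 4 = 0)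
    (h : MeetsConormal XX ZZ eta (ZT x w 0)) : False := by
  have hx : x ≠ 0 := by
    rintro rfl
    have hw : w ^ 4 = 0 := by linear_combination hA
    have hw := pow_eq_zero_iff (n := 4) (by norm_num) |>.1 hw
    exact hxw.elim (fun h => h rfl) (fun h => h hw)
  have hw : w ≠ 0 := by
    rintro rfl
    have hx' : x ^ 4 = 0 := by linear_combination hA
    exact hx (pow_eq_zero_iff (n := 4) (by norm_num) |>.1 hx')
  set v := ZT x w 0 with hv
  have hp : ∀ a : Ix, ContinuousAt (fun v : Ix → ℂ => v a) v := fun a =>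
    (continuous_apply a).continuousAt
  have hv0 : v (some (0, 0)) = x ^ 3 := by simp [hv]
  have hv1 : v (some (0, 1)) = x ^ 2 * w := by simp [hv]
  have hv3 : v (some (0, 3)) = w ^ 3 := by simp [hv]
  set c : (Ix → ℂ) → ℂ := fun u => u none ^ 3 / (3 * Qf u) with hc
  have hev : ∀ᶠ u in 𝓝[regCone ZZ] v, u ∈ regCone ZZ ∧ u (some (0, 0)) ≠ 0 ∧
      u (some (0, 3)) ≠ 0 := by
    have e1 : ∀ᶠ u in 𝓝[regCone ZZ] v, u (some (0, 0)) ≠ 0 :=
      ((hp (some (0, 0))).eventually_ne (by rw [hv0]; exact pow_ne_zero _ hx)).filter_mono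
        nhdsWithin_le_nhds
    have e2 : ∀ᶠ u in 𝓝[regCone ZZ] v, u (some (0, 3)) ≠ 0 :=
      ((hp (some (0, 3))).eventually_ne (by rw [hv3]; exact pow_ne_zero _ hw)).filter_mono
        nhdsWithin_le_nhds
    filter_upwards [self_mem_nhdsWithin, e1, e2] with u h1 h2 h3
    exact ⟨h1, h2, h3⟩
  have hfacts : ∀ᶠ u in 𝓝[regCone ZZ] v, u none ≠ 0 ∧ Qf u ≠ 0 ∧
      c u ^ 4 = (u (some (0, 0)) ^ 4 + u (some (0, 1)) ^ 4)
        / (81 * (u (some (0, 0)) ^ 4 * u (some (0, 3)) ^ 4)) := by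
    filter_upwards [hev] with u hu
    obtain ⟨h1, h2, h3⟩ := hu
    obtain ⟨h4, h5⟩ := mem_regCone_iff.1 h1
    obtain ⟨x', w', y', hxw', rfl, hy'⟩ := mem_cone_ZZ_iff.1 h4
    have hy0 : y' ≠ 0 := h5
    rw [ZT_some, mon_zero] at h2
    rw [ZT_some, mon_three] at h3
    have hx' : x' ≠ 0 := by rintro rfl; simp at h2
    have hw' : w' ≠ 0 := by rintro rfl; simp at h3
    have hA' : x' ^ 4 + w' ^ 4 ≠ 0 := by
      intro hA
      rw [hA] at hy'
      exact hy0 (pow_eq_zero_iff (n := 4) (by norm_num) |>.1 (by rw [hy']; norm_num))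
    have hQ : Qf (ZT x' w' y') = x' * w' ^ 3 * (x' ^ 4 + w' ^ 4) ^ 2 := by
      simp only [Qf, ZT_some, mon_zero, mon_one, mon_two, mon_three]
      ring
    have hQ0 : Qf (ZT x' w' y') ≠ 0 := by
      rw [hQ]
      exact mul_ne_zero (mul_ne_zero hx' (pow_ne_zero _ hw')) (pow_ne_zero _ hA')
    refine ⟨h5, hQ0, ?_⟩
    have h6 : c (ZT x' w' y') ^ 4 = (y' ^ 4) ^ 3 / (81 * (Qf (ZT x' w' y')) ^ 4) := by
      rw [hc]
      simp only [ZT_none]
      rw [div_pow]
      ring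
    rw [h6, hy', hQ]
    simp only [ZT_some, mon_zero, mon_one, mon_three]
    field_simp
  have hc0 : Tendsto c (𝓝[regCone ZZ] v) (𝓝 0) := by
    apply tendsto_zero_of_pow
    have h1 : Tendsto (fun u : Ix → ℂ => (u (some (0, 0)) ^ 4 + u (some (0, 1)) ^ 4)
        / (81 * (u (some (0, 0)) ^ 4 * u (some (0, 3)) ^ 4))) (𝓝[regCone ZZ] v) (𝓝 0) := by
      have h2 : ContinuousAt (fun u : Ix → ℂ => (u (some (0, 0)) ^ 4 + u (some (0, 1)) ^ 4)
        / (81 * (u (some (0, 0)) ^ 4 * u (some (0, 3)) ^ 4))) v := by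
        refine (((hp _).pow 4).add ((hp _).pow 4)).div
          (continuousAt_const.mul (((hp _).pow 4).mul ((hp _).pow 4))) ?_
        rw [hv0, hv3]
        exact mul_ne_zero (by norm_num) (mul_ne_zero (pow_ne_zero _ (pow_ne_zero _ hx))
          (pow_ne_zero _ (pow_ne_zero _ hw)))
      have h3 := h2.tendsto.mono_left (nhdsWithin_le_nhds (s := regCone ZZ))
      have h4 : (v (some (0, 0)) ^ 4 + v (some (0, 1)) ^ 4)
        / (81 * (v (some (0, 0)) ^ 4 * v (some (0, 3)) ^ 4)) = 0 := by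
        rw [hv0, hv1]
        have : (x ^ 3) ^ 4 + (x ^ 2 * w) ^ 4 = 0 := by linear_combination x ^ 8 * hA
        rw [this, zero_div]
      rw [h4] at h3
      exact h3
    refine (tendsto_congr' ?_).2 h1
    filter_upwards [hfacts] with u hu
    exact hu.2.2
  have hE : Tendsto (fun u => c u • E2 u) (𝓝[regCone ZZ] v) (𝓝 eN) := by
    rw [tendsto_pi_nhds]
    intro a
    rcases a with _ | ⟨i, j⟩
    · refine (tendsto_congr' ?_).2 tendsto_const_nhds
      filter_upwards [hfacts] with u hu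
      obtain ⟨h1, h2, -⟩ := hu
      simp only [Pi.smul_apply, smul_eq_mul, E2, eN, hc]
      field_simp
    · have h1 : Tendsto (fun u => E2 u (some (i, j))) (𝓝[regCone ZZ] v)
          (𝓝 (E2 v (some (i, j)))) := by
        have : ContinuousAt (fun u => E2 u (some (i, j))) v := by
          simp only [E2]
          fin_cases j
          · simp only [Fin.zero_eta, Matrix.cons_val_zero]
            exact continuousAt_const
          · simp only [Fin.mk_one, Matrix.cons_val_one, Matrix.cons_val_zero]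
            exact hp _
          · simp only [Fin.reduceFinMk, Matrix.cons_val]
            exact continuousAt_const.mul (hp _)
          · simp only [Fin.reduceFinMk, Matrix.cons_val]
            exact continuousAt_const.mul (hp _)
        exact this.tendsto.mono_left nhdsWithin_le_nhds
      have h2 := hc0.mul h1
      rw [zero_mul] at h2
      exact h2
  have hk := eta_kill hE (by
    filter_upwards [self_mem_nhdsWithin] with u hu
    exact Submodule.smul_mem _ _ (E2_mem hu)) h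
  rw [eta_pair] at hk
  have hq1 : q1 v = 3 * (x ^ 2 * w ^ 4) := by
    rw [hv, q1_ZT]; linear_combination (-x ^ 2) * hA
  have hq2 : q2 v = 3 * (x * w * w ^ 4) := by
    rw [hv, q2_ZT]; linear_combination (-2 * x * w) * hA
  have hv2 : v (some (0, 2)) = x * w ^ 2 := by simp [hv]
  have hvn : v none = 0 := rfl
  rw [hq1, hq2, hv1, hv2, hvn] at hk
  have hn : (nrm v : ℂ) ≠ 0 := by
    have h0 : v ≠ 0 := by
      intro h
      have := congrFun h (some (0, 0))
      rw [hv0] at this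
      exact (pow_ne_zero 3 hx) this
    have := (nrm_pos h0).ne'
    exact_mod_cast this
  have hk2 := (div_eq_zero_iff.1 hk).resolve_right (pow_ne_zero 2 hn)
  have hk3 : (starRingEnd ℂ) (w ^ 4) * w *
      ((‖x‖ ^ 2 * (‖x‖ ^ 2 + ‖w‖ ^ 2) : ℝ) : ℂ) = 0 := by
    push_cast
    simp only [← Complex.mul_conj']
    simp only [eN, map_mul, map_pow, map_ofNat] at hk2 ⊢
    linear_combination (1 / 3) * hk2
  have hpos : 0 < ‖x‖ ^ 2 * (‖x‖ ^ 2 + ‖w‖ ^ 2) := by
    have h1 : 0 < ‖x‖ := norm_pos_iff.2 hx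
    positivity
  have hpos' : ((‖x‖ ^ 2 * (‖x‖ ^ 2 + ‖w‖ ^ 2) : ℝ) : ℂ) ≠ 0 := by
    exact_mod_cast hpos.ne'
  have hk4 := (mul_eq_zero.1 hk3).resolve_right hpos'
  rcases mul_eq_zero.1 hk4 with h1 | h1
  · rw [map_eq_zero] at h1
    exact (pow_ne_zero 4 hw) h1
  · exact hw h1

lemma meets_iff {v : Ix → ℂ} (hv : v ∈ cone ZZ) :
    MeetsConormal XX ZZ eta v ↔ v (some (0, 0)) = 0 := by
  obtain ⟨x, w, y, hxw, rfl, hy⟩ := mem_cone_ZZ_iff.1 hv
  rw [ZT_some, mon_zero]
  constructor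
  · intro h
    by_cases hy0 : y = 0
    · exfalso
      subst hy0
      refine meets_singular hxw ?_ h
      have : (x ^ 4 + w ^ 4) ^ 3 = 0 := by rw [← hy]; norm_num
      exact pow_eq_zero_iff (by norm_num) |>.1 this
    · rw [meets_smooth hxw hy0 hy h]; norm_num
  · intro h
    have hx : x = 0 := pow_eq_zero_iff (by norm_num) |>.1 h
    subst hx
    have hw : w ≠ 0 := by
      rcases hxw with h | h
      · exact absurd rfl h
      · exact h
    have hy0 : y ≠ 0 := by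
      rintro rfl
      have : w ^ 12 = 0 := by linear_combination -hy
      exact hw (pow_eq_zero_iff (by norm_num) |>.1 this)
    refine ⟨eta (ZT 0 w y), fun _ _ => rfl, subset_closure ⟨mem_regCone_iff.2 ⟨hv, hy0⟩, ?_⟩⟩
    intro N _
    rw [eta_pair, q1_ZT, q2_ZT]
    simp

end Pool.Agent.Lib.MP_225e67_ag
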