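import Pool.Agent.Lib.MP_225e67_ag.FO3

open scoped LinearAlgebra.Projectivization Topology ENNReal
open Metric Filter

namespace Pool.Agent.Lib.MP_225e67_ag

/-- the last coordinate along the local parametrisation -/
noncomputable def Ys (y0 s : ℂ) : ℂ := y0 * Complex.exp (3 / 4 * Complex.log (1 + s ^ 4))

lemma Ys_zero (y0 : ℂ) : Ys y0 0 = y0 := by simp [Ys]

lemma slit {s : ℂ} (hs : ‖s‖ < 1) : 1 + s ^ 4 ∈ Complex.slitPlane := by
  apply Complex.mem_slitPlane_of_norm_lt_one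
  rw [norm_pow]
  exact pow_lt_one₀ (norm_nonneg _) hs (by norm_num)

lemma Ys_pow {y0 s : ℂ} (hs : ‖s‖ < 1) (hy0 : y0 ^ 4 = 1) : Ys y0 s ^ 4 = (s ^ 4 + 1 ^ 4) ^ 3 := by
  unfold Ys
  rw [mul_pow, exp_three_quarter _ (Complex.slitPlane_ne_zero (slit hs)), hy0]
  ring

lemma hasDerivAt_Ys (y0 : ℂ) {s : ℂ} (hs : ‖s‖ < 1) :
    HasDerivAt (Ys y0) (3 * s ^ 3 * Ys y0 s / (1 + s ^ 4)) s := by
  have h1 : HasDerivAt (fun s : ℂ => 1 + s ^ 4) (4 * s ^ 3) s := by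
    have := ((hasDerivAt_id s).pow 4).const_add 1
    refine this.congr_deriv ?_
    simp
  have h2 := (((h1.clog (slit hs)).const_mul (3 / 4 : ℂ)).cexp).const_mul y0
  refine h2.congr_deriv ?_
  unfold Ys
  field_simp

/-- velocity of the local parametrisation -/
noncomputable def chi' (y0 s : ℂ) : Ix → ℂ
  | none => 3 * s ^ 3 * Ys y0 s / (1 + s ^ 4)
  | some (_, j) => dmon s 1 1 0 j

noncomputable def chi (y0 s : ℂ) : Ix → ℂ := ZT s 1 (Ys y0 s)

lemma hasDerivAt_chi (y0 : ℂ) {s : ℂ} (hs : ‖s‖ < 1) : HasDerivAt (chi y0) (chi' y0 s) s := by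
  rw [hasDerivAt_pi]
  intro a
  rcases a with _ | ⟨i, j⟩
  · exact hasDerivAt_Ys y0 hs
  · simp only [chi, ZT_some, chi']
    exact hasDerivAt_mon (hasDerivAt_id s) (hasDerivAt_const s 1) j

noncomputable def psi (y0 : ℂ) (t : Fin 1 → ℂ) : Ix → ℂ := chi y0 (t 0)

lemma fderiv_psi (y0 : ℂ) {t : Fin 1 → ℂ} (ht : ‖t 0‖ < 1) :
    fderiv ℂ (psi y0) t (Pi.single 0 1) = chi' y0 (t 0) := by
  have h1 : HasFDerivAt (fun t : Fin 1 → ℂ => t 0) (ContinuousLinearMap.proj 0) t :=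
    (ContinuousLinearMap.proj (R := ℂ) (φ := fun _ : Fin 1 => ℂ) 0).hasFDerivAt
  have h2 := (hasDerivAt_chi y0 ht).hasFDerivAt.comp t h1
  have h3 : psi y0 = chi y0 ∘ fun t : Fin 1 → ℂ => t 0 := rfl
  rw [h3, h2.fderiv]
  simp

lemma analyticAt_psi (y0 : ℂ) : AnalyticAt ℂ (psi y0) 0 := by
  have h1 : AnalyticAt ℂ (fun t : Fin 1 → ℂ => t 0) 0 :=
    (ContinuousLinearMap.proj (R := ℂ) (φ := fun _ : Fin 1 => ℂ) 0).analyticAt 0
  rw [analyticAt_pi_iff]
  intro a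
  rcases a with _ | ⟨i, j⟩
  · show AnalyticAt ℂ (fun t : Fin 1 → ℂ => y0 * Complex.exp (3 / 4 * Complex.log (1 + t 0 ^ 4))) 0
    refine analyticAt_const.mul (AnalyticAt.cexp (analyticAt_const.mul
      (AnalyticAt.clog (analyticAt_const.add (h1.pow 4)) ?_)))
    simp
  · simp only [psi, chi, ZT_some]
    fin_cases j
    · simp only [Fin.zero_eta, mon_zero]
      exact h1.pow 3
    · simp only [Fin.mk_one, mon_one]
      exact (h1.pow 2).mul analyticAt_const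
    · simp only [Fin.reduceFinMk, mon_two]
      exact h1.mul analyticAt_const
    · simp only [Fin.reduceFinMk, mon_three]
      exact analyticAt_const

/-- the factor of the pulled back form -/
noncomputable def Hf (y0 s : ℂ) : ℂ :=
  -(Ys y0 s) / ((1 + s ^ 4) * (nrm (chi y0 s) : ℂ) ^ 2) *
    ((starRingEnd ℂ) s * s * ((starRingEnd ℂ) (2 - s ^ 4) * (2 - s ^ 4))
      + (starRingEnd ℂ) (1 - 2 * s ^ 4) * (1 - 2 * s ^ 4))

lemma pull_formula (y0 : ℂ) {t : Fin 1 → ℂ} (ht : ‖t 0‖ < 1) :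
    pullComp eta (psi y0) t = fun _ => (starRingEnd ℂ) (t 0) * Hf y0 (t 0) := by
  funext k
  have hk : k = 0 := Subsingleton.elim _ _
  subst hk
  unfold pullComp
  rw [fderiv_psi y0 ht]
  have hs : 1 + (t 0) ^ 4 ≠ 0 := Complex.slitPlane_ne_zero (slit ht)
  obtain ⟨s, hsd⟩ : ∃ s, s = t 0 := ⟨_, rfl⟩
  rw [← hsd] at hs ⊢
  have hpsi : psi y0 t = ZT s 1 (Ys y0 s) := by rw [hsd]; rfl
  have hchi : chi y0 s = ZT s 1 (Ys y0 s) := rfl
  rw [hpsi, eta_pair, q1_ZT, q2_ZT]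
  unfold Hf
  rw [hchi]
  simp only [ZT_some, ZT_none, mon_one, mon_two, chi', dmon_one, dmon_two]
  obtain ⟨Y, hY⟩ : ∃ Y, Y = Ys y0 s := ⟨_, rfl⟩
  obtain ⟨n, hn⟩ : ∃ n : ℂ, n = (nrm (ZT s 1 (Ys y0 s)) : ℂ) := ⟨_, rfl⟩
  rw [← hn, ← hY]
  have e1 : s ^ 2 * 1 * (3 * s ^ 3 * Y / (1 + s ^ 4)) - Y * (2 * s * 1 * 1 + s ^ 2 * 0)
      = -(Y / (1 + s ^ 4)) * (s * (2 - s ^ 4)) := by
    field_simp
    ring
  have e2 : s * 1 ^ 2 * (3 * s ^ 3 * Y / (1 + s ^ 4)) - Y * (1 ^ 2 * 1 + 2 * s * 1 * 0)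
      = -(Y / (1 + s ^ 4)) * (1 - 2 * s ^ 4) := by
    field_simp
    ring
  rw [e1, e2]
  simp only [map_mul, map_pow, map_sub, map_ofNat, map_one, one_pow, mul_one]
  rw [← div_div]
  ring

lemma nrm_chi_zero {y0 : ℂ} (hy0 : y0 ^ 4 = 1) : nrm (chi y0 0) = 4 := by
  have h1 : ‖y0‖ = 1 := by
    have h2 : ‖y0‖ ^ 4 = 1 := by rw [← norm_pow, hy0, norm_one]
    exact (pow_eq_one_iff_of_nonneg (norm_nonneg _) (by norm_num)).1 h2
  unfold nrm
  rw [Fintype.sum_option, Fintype.sum_prod_type, Fin.sum_univ_three, Fin.sum_univ_four,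
    Fin.sum_univ_four, Fin.sum_univ_four]
  simp [chi, Ys_zero, h1]
  norm_num

lemma Hf_zero {y0 : ℂ} (hy0 : y0 ^ 4 = 1) : Hf y0 0 = -(y0 / 16) := by
  unfold Hf
  rw [nrm_chi_zero hy0, Ys_zero]
  simp
  ring

lemma continuousAt_Hf {y0 : ℂ} (hy0 : y0 ^ 4 = 1) : ContinuousAt (Hf y0) 0 := by
  have h1 : ContinuousAt (Ys y0) 0 := (hasDerivAt_Ys y0 (s := 0) (by simp)).continuousAt
  have h2 : ContinuousAt (chi y0) 0 := (hasDerivAt_chi y0 (s := 0) (by simp)).continuousAt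
  have h3 : ContinuousAt (fun s => ((nrm (chi y0 s) : ℝ) : ℂ)) 0 :=
    Complex.continuous_ofReal.continuousAt.comp (contDiff_nrm.continuous.continuousAt.comp h2)
  have hc : Continuous (fun s : ℂ => (starRingEnd ℂ) s) := Complex.continuous_conj
  unfold Hf
  refine ContinuousAt.mul (h1.neg.div ?_ ?_) ?_
  · exact ContinuousAt.mul (by fun_prop) (h3.pow 2)
  · rw [nrm_chi_zero hy0]; norm_num
  · have h4 : Continuous (fun s : ℂ => (starRingEnd ℂ) s * s
        * ((starRingEnd ℂ) (2 - s ^ 4) * (2 - s ^ 4))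
        + (starRingEnd ℂ) (1 - 2 * s ^ 4) * (1 - 2 * s ^ 4)) := by
      have h5 : Continuous (fun s : ℂ => (starRingEnd ℂ) (2 - s ^ 4)) := hc.comp (by fun_prop)
      have h6 : Continuous (fun s : ℂ => (starRingEnd ℂ) (1 - 2 * s ^ 4)) := hc.comp (by fun_prop)
      fun_prop
    exact h4.continuousAt

/-- product of a differentiable function vanishing at the origin with a continuous one -/
lemma hasFDerivAt_mul_cont {E : Type*} [NormedAddCommGroup E] [NormedSpace ℝ E] {g H : E → ℂ}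
    {g' : E →L[ℝ] ℂ} {x : E} (hg : HasFDerivAt g g' x) (h0 : g x = 0) (hH : ContinuousAt H x) :
    HasFDerivAt (fun t => g t * H t) (H x • g') x := by
  have h1 : HasFDerivAt (fun t => g t * H x) (H x • g') x :=
    (hg.mul_const' (H x)).congr_fderiv (by ext v; simp)
  have h2 : (fun t => g t * (H t - H x)) =o[𝓝 x] fun t => t - x := by
    have h3 : (fun t => g t) =O[𝓝 x] fun t => ‖t - x‖ := by
      have := hg.isBigO_sub.norm_right
      simpa [h0] using this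
    have h4 : (fun t => H t - H x) =o[𝓝 x] fun _ => (1 : ℝ) := by
      rw [Asymptotics.isLittleO_one_iff]
      have := hH.tendsto.sub_const (H x)
      simpa using this
    have h5 := h3.mul_isLittleO h4
    simp only [mul_one] at h5
    exact Asymptotics.isLittleO_norm_right.1 h5
  rw [hasFDerivAt_iff_isLittleO] at h1 ⊢
  have h3 := h1.add h2
  refine h3.congr_left fun t => ?_
  ring

/-- the real derivative of the pulled back form -/
noncomputable def Dr (c : ℂ) : (Fin 1 → ℂ) →L[ℝ] (Fin 1 → ℂ) :=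
  ContinuousLinearMap.pi fun _ =>
    c • ((Complex.conjCLE : ℂ →L[ℝ] ℂ).comp (ContinuousLinearMap.proj (R := ℝ) (φ := fun _ : Fin 1 => ℂ) 0))

lemma Dr_apply (c : ℂ) (t : Fin 1 → ℂ) (k : Fin 1) : Dr c t k = c * (starRingEnd ℂ) (t 0) := by
  simp [Dr]

lemma det_Dr (c : ℂ) : (Dr c).toLinearMap.det = -Complex.normSq c := by
  have h1 := LinearMap.det_conj (Dr c).toLinearMap (LinearEquiv.funUnique (Fin 1) ℝ ℂ)
  rw [← h1]
  have h2 : ((LinearEquiv.funUnique (Fin 1) ℝ ℂ : (Fin 1 → ℂ) ≃ₗ[ℝ] ℂ) : (Fin 1 → ℂ) →ₗ[ℝ] ℂ) ∘ₗ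
      (Dr c).toLinearMap ∘ₗ ((LinearEquiv.funUnique (Fin 1) ℝ ℂ).symm : ℂ →ₗ[ℝ] (Fin 1 → ℂ))
      = (LinearMap.mulLeft ℝ c) ∘ₗ Complex.conjAe.toLinearEquiv.toLinearMap := by
    ext z
    simp [Dr_apply]
  rw [h2, LinearMap.det_comp, Complex.det_conjAe]
  have h3 : (LinearMap.mulLeft ℝ c).det = Complex.normSq c := by
    rw [← Algebra.norm_complex_apply, Algebra.norm_apply]
    rfl
  rw [h3]
  ring

lemma hasFDerivAt_pull {y0 : ℂ} (hy0 : y0 ^ 4 = 1) :
    HasFDerivAt (𝕜 := ℝ) (pullComp eta (psi y0)) (Dr (-(y0 / 16))) 0 := by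
  have h1 : HasFDerivAt (𝕜 := ℝ) (fun t : Fin 1 → ℂ => (starRingEnd ℂ) (t 0))
      ((Complex.conjCLE : ℂ →L[ℝ] ℂ).comp
        (ContinuousLinearMap.proj (R := ℝ) (φ := fun _ : Fin 1 => ℂ) 0)) 0 :=
    ((Complex.conjCLE : ℂ →L[ℝ] ℂ).comp
        (ContinuousLinearMap.proj (R := ℝ) (φ := fun _ : Fin 1 => ℂ) 0)).hasFDerivAt
  have h2 : ContinuousAt (fun t : Fin 1 → ℂ => Hf y0 (t 0)) 0 := by
    have h3 : ContinuousAt (fun t : Fin 1 → ℂ => t 0) 0 := (continuous_apply 0).continuousAt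
    exact ContinuousAt.comp (g := Hf y0) (f := fun t : Fin 1 → ℂ => t 0)
      (by simpa using continuousAt_Hf hy0) h3
  have h3 := hasFDerivAt_mul_cont h1 (by simp) h2
  have h4 : HasFDerivAt (𝕜 := ℝ) (fun (t : Fin 1 → ℂ) (_ : Fin 1) =>
      (starRingEnd ℂ) (t 0) * Hf y0 (t 0)) (Dr (-(y0 / 16))) 0 := by
    rw [hasFDerivAt_pi']
    intro k
    refine h3.congr_fderiv ?_
    ext t
    simp only [Pi.zero_apply, Hf_zero hy0, ContinuousLinearMap.comp_apply]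
    simp [Dr]
  refine h4.congr_of_eventuallyEq ?_
  have h5 : ∀ᶠ t : Fin 1 → ℂ in 𝓝 0, ‖t 0‖ < 1 := by
    have h6 : ContinuousAt (fun t : Fin 1 → ℂ => ‖t 0‖) 0 :=
      (continuous_apply 0).norm.continuousAt
    exact h6.eventually_lt_const (by simp)
  filter_upwards [h5] with t ht
  exact pull_formula y0 ht

lemma ZT_point (y0 : ℂ) : ZT 0 1 y0 ≠ 0 := by
  intro h
  have := congrFun h (some (0, 3))
  simp at this

lemma point_mem {y0 : ℂ} (hy0 : y0 ^ 4 = 1) : ZT 0 1 y0 ∈ cone ZZ :=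
  mem_cone_ZZ_iff.2 ⟨0, 1, y0, Or.inr one_ne_zero, rfl, by rw [hy0]; norm_num⟩

theorem hasSign {y0 : ℂ} (hy0 : y0 ^ 4 = 1) :
    HasSign ZZ eta (Projectivization.mk ℂ (ZT 0 1 y0) (ZT_point y0)) (-1) := by
  have hy00 : y0 ≠ 0 := by
    rintro rfl
    norm_num at hy0
  have hpsi0 : psi y0 0 = ZT 0 1 y0 := by
    show ZT ((0 : Fin 1 → ℂ) 0) 1 (Ys y0 ((0 : Fin 1 → ℂ) 0)) = _
    rw [Pi.zero_apply, Ys_zero]
  have hfd : ∀ k : Fin 1, fderiv ℂ (psi y0) 0 (Pi.single k 1) = chi' y0 0 := by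
    intro k
    have hk : k = 0 := Subsingleton.elim _ _
    subst hk
    have := fderiv_psi y0 (t := 0) (by simp)
    simpa using this
  have hli : LinearIndependent ℂ
      (Fin.cons (psi y0 0) (fun k => fderiv ℂ (psi y0) 0 (Pi.single k 1)) :
        Fin (1 + 1) → (Ix → ℂ)) := by
    rw [Fintype.linearIndependent_iff]
    intro g hg
    rw [Fin.sum_univ_two] at hg
    simp only [Fin.cons_zero, Fin.cons_one, hfd, hpsi0] at hg
    have h3 := congrFun hg (some (0, 3))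
    have h2 := congrFun hg (some (0, 2))
    simp [chi'] at h3 h2
    intro i
    fin_cases i
    · exact h3
    · exact h2
  have hspan : Submodule.span ℂ (Set.range
      (Fin.cons (psi y0 0) (fun k => fderiv ℂ (psi y0) 0 (Pi.single k 1)) :
        Fin (1 + 1) → (Ix → ℂ))) = coneTangent ZZ (psi y0 0) := by
    have hle : Submodule.span ℂ (Set.range
      (Fin.cons (psi y0 0) (fun k => fderiv ℂ (psi y0) 0 (Pi.single k 1)) :
        Fin (1 + 1) → (Ix → ℂ))) ≤ coneTangent ZZ (psi y0 0) := by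
      rw [Submodule.span_le]
      rintro _ ⟨i, rfl⟩
      have hrange := coneTangent_ZZ_eq (x := 0) (w := 1) (y := y0) (Or.inr one_ne_zero) hy00
        (by rw [hy0]; norm_num)
      rw [hpsi0, hrange]
      have hy3 : (y0 ^ 3)⁻¹ = y0 := by
        apply inv_eq_of_mul_eq_one_left
        linear_combination hy0
      fin_cases i
      · refine ⟨![0, 1 / 3], ?_⟩
        simp only [Fin.zero_eta, Fin.cons_zero]
        funext a
        rcases a with _ | ⟨i, j⟩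
        · simp [hy3]
        · fin_cases j <;> simp
      · refine ⟨![1, 0], ?_⟩
        simp only [Fin.mk_one, Fin.cons_one, hfd]
        funext a
        rcases a with _ | ⟨i, j⟩
        · simp [chi']
        · fin_cases j <;> simp [chi']
    refine Submodule.eq_of_le_of_finrank_eq hle ?_
    rw [finrank_span_eq_card hli, hpsi0, finrank_coneTangent_ZZ (Or.inr one_ne_zero) hy00
      (by rw [hy0]; norm_num)]
    simp
  refine ⟨1, psi y0, Dr (-(y0 / 16)), analyticAt_psi y0, ⟨by rw [hpsi0]; exact ZT_point y0, ?_⟩,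
    ?_, ?_, hli, hspan, ?_, hasFDerivAt_pull hy0, ?_, ?_⟩
  · congr 1
  · have h5 : ∀ᶠ t : Fin 1 → ℂ in 𝓝 0, ‖t 0‖ < 1 := by
      have h6 : ContinuousAt (fun t : Fin 1 → ℂ => ‖t 0‖) 0 :=
        (continuous_apply 0).norm.continuousAt
      exact h6.eventually_lt_const (by simp)
    filter_upwards [h5] with t ht
    exact mem_cone_ZZ_iff.2 ⟨t 0, 1, _, Or.inr one_ne_zero, rfl, Ys_pow ht hy0⟩
  · rw [hpsi0]
    exact mem_regCone_iff.2 ⟨point_mem hy0, hy00⟩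
  · intro k
    have h1 := congrFun (pull_formula y0 (t := 0) (by simp)) k
    simp only [Pi.zero_apply, map_zero, zero_mul] at h1
    exact h1
  · rw [det_Dr, neg_ne_zero, Ne, Complex.normSq_eq_zero, neg_eq_zero]
    exact div_ne_zero hy00 (by norm_num)
  · rw [det_Dr]
    have h1 : 0 < Complex.normSq (-(y0 / 16)) := by
      rw [Complex.normSq_pos]
      exact neg_ne_zero.2 (div_ne_zero hy00 (by norm_num))
    rw [sign_neg (neg_neg_of_pos h1)]
    rfl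

end Pool.Agent.Lib.MP_225e67_ag
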