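import Pool.Agent.Lib.MP_225e67_ag.FO4

open scoped LinearAlgebra.Projectivization

namespace Pool.Agent.Lib.MP_225e67_ag

/-- the intersection number of the conormal variety of the curve with the zero section -/
theorem intersectionNumber : IsConormalIntersectionNumber XX ZZ (-4) := by
  classical
  have hζ := Complex.isPrimitiveRoot_exp 4 (by norm_num)
  obtain ⟨ζ, hζd⟩ : ∃ ζ : ℂ, ζ = Complex.exp (2 * Real.pi * Complex.I / ((4 : ℕ) : ℂ)) :=
    ⟨_, rfl⟩
  rw [← hζd] at hζ
  have hpow : ∀ k : Fin 4, (ζ ^ (k : ℕ)) ^ 4 = 1 := by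
    intro k
    rw [← pow_mul, mul_comm, pow_mul, hζ.pow_eq_one, one_pow]
  obtain ⟨pt, hpt⟩ : ∃ pt : Fin 4 → ℙ ℂ (Ix → ℂ), ∀ k, pt k =
      Projectivization.mk ℂ (ZT 0 1 (ζ ^ (k : ℕ))) (ZT_point _) := ⟨_, fun _ => rfl⟩
  have hinj : Function.Injective pt := by
    intro k l hkl
    rw [hpt, hpt, Projectivization.mk_eq_mk_iff'] at hkl
    obtain ⟨c, hc⟩ := hkl
    have h1 := congrFun hc (some (0, 3))
    have h2 := congrFun hc none
    simp only [Pi.smul_apply, ZT_some, mon_three, ZT_none, smul_eq_mul, one_pow, mul_one] at h1 h2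
    rw [h1, one_mul] at h2
    exact Fin.ext (hζ.pow_inj l.2 k.2 h2).symm
  refine ⟨eta, Finset.univ.image pt, fun _ => -1, isSmoothForm_eta, ?_, ?_, ?_⟩
  · intro v hv
    rw [Finset.mem_image]
    constructor
    · rintro ⟨k, -, hk⟩
      have hk' := hk
      rw [hpt, Projectivization.mk_eq_mk_iff'] at hk'
      obtain ⟨c, hc⟩ := hk'
      have hvZ : v ∈ cone ZZ := by
        refine ⟨hv, ?_⟩
        rw [← hk, hpt]
        exact (point_mem (hpow k)).2
      refine ⟨hvZ, (meets_iff hvZ).2 ?_⟩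
      have hc0 : c ≠ 0 := by
        rintro rfl
        rw [zero_smul] at hc
        exact ZT_point _ hc.symm
      have h1 := congrFun hc (some (0, 0))
      simp only [Pi.smul_apply, smul_eq_mul, ZT_some, mon_zero] at h1
      have h2 : c * v (some (0, 0)) = 0 := by rw [h1]; norm_num
      exact (mul_eq_zero.1 h2).resolve_left hc0
    · rintro ⟨hvZ, hm⟩
      have h0 := (meets_iff hvZ).1 hm
      obtain ⟨x, w, y, hxw, rfl, hy⟩ := mem_cone_ZZ_iff.1 hvZ
      rw [ZT_some, mon_zero] at h0
      have hx : x = 0 := (pow_eq_zero_iff (by norm_num)).1 h0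
      subst hx
      have hw : w ≠ 0 := by
        rcases hxw with h | h
        · exact absurd rfl h
        · exact h
      have hyw : (y / w ^ 3) ^ 4 = 1 := by
        rw [div_pow, hy]
        field_simp
        ring
      obtain ⟨k, hk, hk2⟩ := hζ.eq_pow_of_pow_eq_one hyw
      refine ⟨⟨k, hk⟩, Finset.mem_univ _, ?_⟩
      rw [hpt, Projectivization.mk_eq_mk_iff']
      refine ⟨(w ^ 3)⁻¹, ?_⟩
      funext a
      rcases a with _ | ⟨i, j⟩
      · simp only [Pi.smul_apply, smul_eq_mul, ZT_none]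
        rw [hk2]
        field_simp
      · simp only [Pi.smul_apply, smul_eq_mul, ZT_some]
        fin_cases j
        · simp
        · simp
        · simp
        · simp [hw]
  · intro p hp
    obtain ⟨k, -, rfl⟩ := Finset.mem_image.1 hp
    rw [hpt]
    exact hasSign (hpow k)
  · rw [Finset.sum_const, Finset.card_image_of_injective _ hinj]
    simp

end Pool.Agent.Lib.MP_225e67_ag
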