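import Mathlib

open Metric Filter Topology Complex

namespace Pool.Agent.Lib.MP_225e67_ag

/-- squared euclidean norm of a vector in `ℂ^3` -/
noncomputable def nsq (v : Fin 3 → ℂ) : ℝ := ‖v 0‖ ^ 2 + ‖v 1‖ ^ 2 + ‖v 2‖ ^ 2

/-- squared euclidean norm of the cross product -/
noncomputable def wsq (u v : Fin 3 → ℂ) : ℝ :=
  ‖u 0 * v 1 - u 1 * v 0‖ ^ 2 + ‖u 1 * v 2 - u 2 * v 1‖ ^ 2 + ‖u 2 * v 0 - u 0 * v 2‖ ^ 2

lemma lagrange (u v : Fin 3 → ℂ) :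
    nsq u * nsq v = ‖(starRingEnd ℂ) (u 0) * v 0 + (starRingEnd ℂ) (u 1) * v 1
      + (starRingEnd ℂ) (u 2) * v 2‖ ^ 2 + wsq u v := by
  simp only [nsq, wsq, ← Complex.normSq_eq_norm_sq, Complex.normSq_apply]
  simp only [Complex.add_re, Complex.add_im, Complex.mul_re, Complex.mul_im, Complex.sub_re,
    Complex.sub_im, Complex.conj_re, Complex.conj_im]
  ring

lemma nsq_nonneg (v : Fin 3 → ℂ) : 0 ≤ nsq v := by unfold nsq; positivity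

lemma wsq_nonneg (u v : Fin 3 → ℂ) : 0 ≤ wsq u v := by unfold wsq; positivity

lemma nsq_pos {v : Fin 3 → ℂ} (h : v ≠ 0) : 0 < nsq v := by
  unfold nsq
  by_contra hc
  apply h
  have h0 : ‖v 0‖ ^ 2 = 0 := by nlinarith [sq_nonneg ‖v 0‖, sq_nonneg ‖v 1‖, sq_nonneg ‖v 2‖]
  have h1 : ‖v 1‖ ^ 2 = 0 := by nlinarith [sq_nonneg ‖v 0‖, sq_nonneg ‖v 1‖, sq_nonneg ‖v 2‖]
  have h2 : ‖v 2‖ ^ 2 = 0 := by nlinarith [sq_nonneg ‖v 0‖, sq_nonneg ‖v 1‖, sq_nonneg ‖v 2‖]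
  ext i
  fin_cases i
  · simpa using h0
  · simpa using h1
  · simpa using h2

/-- the identity behind the Poincare factor -/
lemma poinc_identity (r : ℝ) (z0 z : ℂ) (hs : r ^ 2 - ‖z0‖ ^ 2 ≠ 0) :
    r ^ 2 - ‖z‖ ^ 2 = (r ^ 2 - ‖z0‖ ^ 2) *
      ‖1 - (starRingEnd ℂ) z0 * (z - z0) / ((r ^ 2 - ‖z0‖ ^ 2 : ℝ) : ℂ)‖ ^ 2
      - r ^ 2 / (r ^ 2 - ‖z0‖ ^ 2) * ‖z - z0‖ ^ 2 := by
  set s := r ^ 2 - ‖z0‖ ^ 2 with hsdef
  have h1 : (1 - (starRingEnd ℂ) z0 * (z - z0) / (s : ℂ)) =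
      ((s : ℂ) - (starRingEnd ℂ) z0 * (z - z0)) / (s : ℂ) := by
    field_simp [Complex.ofReal_ne_zero.mpr hs]
  rw [h1, norm_div, div_pow]
  have h2 : ‖(s : ℂ)‖ ^ 2 = s ^ 2 := by
    rw [Complex.norm_real, Real.norm_eq_abs, sq_abs]
  rw [h2]
  have h3 : ‖(s : ℂ) - (starRingEnd ℂ) z0 * (z - z0)‖ ^ 2 =
      s ^ 2 - s * (‖z‖ ^ 2 - ‖z0‖ ^ 2 - ‖z - z0‖ ^ 2) + ‖z0‖ ^ 2 * ‖z - z0‖ ^ 2 := by
    simp only [← Complex.normSq_eq_norm_sq, Complex.normSq_apply]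
    simp only [Complex.mul_re, Complex.mul_im, Complex.sub_re,
      Complex.sub_im, Complex.conj_re, Complex.conj_im, Complex.ofReal_re, Complex.ofReal_im]
    ring
  rw [h3]
  field_simp
  have h4 : r ^ 2 = s + ‖z0‖ ^ 2 := by rw [hsdef]; ring
  rw [h4]
  ring

lemma localmax_ineq {r : ℝ} {z0 : ℂ} (hz0 : ‖z0‖ < r) {h : ℂ → ℂ} {g : ℂ → Fin 3 → ℂ}
    (hh : AnalyticAt ℂ h z0) (hg : AnalyticAt ℂ g z0) (hh0 : h z0 ≠ 0) (hg0 : g z0 ≠ 0)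
    (hmax : ∀ᶠ z in 𝓝 z0, ‖h z‖ ^ 2 * nsq (g z) * (r ^ 2 - ‖z‖ ^ 2) ^ 2 ≤
      ‖h z0‖ ^ 2 * nsq (g z0) * (r ^ 2 - ‖z0‖ ^ 2) ^ 2) :
    wsq (g z0) (deriv g z0) * (r ^ 2 - ‖z0‖ ^ 2) ^ 2 ≤ 2 * r ^ 2 * (nsq (g z0)) ^ 2 := by
  by_contra hlt
  push Not at hlt
  have hs : 0 < r ^ 2 - ‖z0‖ ^ 2 := by
    have := norm_nonneg z0
    nlinarith
  set s : ℝ := r ^ 2 - ‖z0‖ ^ 2 with hsdef
  set n0 : ℝ := nsq (g z0) with hn0
  have hn0pos : 0 < n0 := nsq_pos hg0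
  have hgd : HasDerivAt g (deriv g z0) z0 := hg.differentiableAt.hasDerivAt
  have hgi : ∀ i, AnalyticAt ℂ (fun z => g z i) z0 := by
    intro i
    exact (analyticAt_pi_iff.mp hg) i
  have hgdi : ∀ i, HasDerivAt (fun z => g z i) (deriv g z0 i) z0 := by
    intro i
    exact (hasDerivAt_pi.mp hgd) i
  -- the holomorphic functions
  set A : ℂ → ℂ := fun z => (starRingEnd ℂ) (g z0 0) * g z 0 + (starRingEnd ℂ) (g z0 1) * g z 1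
      + (starRingEnd ℂ) (g z0 2) * g z 2 with hA
  set m : ℂ → ℂ := fun z => 1 - (starRingEnd ℂ) z0 * (z - z0) / ((s : ℝ) : ℂ) with hm
  set E : ℂ → ℂ := fun z => h z * A z * (m z) ^ 2 with hE
  have hAan : AnalyticAt ℂ A z0 := by
    refine ((analyticAt_const.mul (hgi 0)).add (analyticAt_const.mul (hgi 1))).add
      (analyticAt_const.mul (hgi 2))
  have hman : AnalyticAt ℂ m z0 := by
    have : AnalyticAt ℂ (fun z : ℂ => 1 - (starRingEnd ℂ) z0 * (z - z0) / ((s : ℝ) : ℂ)) z0 := by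
      fun_prop
    exact this
  have hEan : AnalyticAt ℂ E z0 := (hh.mul hAan).mul (hman.pow 2)
  have hA0 : A z0 = (n0 : ℂ) := by
    simp only [hA, hn0, nsq]
    rw [← Complex.normSq_eq_conj_mul_self, ← Complex.normSq_eq_conj_mul_self,
      ← Complex.normSq_eq_conj_mul_self]
    push_cast [Complex.normSq_eq_norm_sq]
    ring
  have hm0 : m z0 = 1 := by simp [hm]
  have hE0 : ‖E z0‖ ^ 2 = ‖h z0‖ ^ 2 * n0 ^ 2 := by
    simp only [hE, hA0, hm0, one_pow, mul_one, norm_mul, mul_pow]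
    rw [Complex.norm_real, Real.norm_eq_abs, sq_abs]
  -- the quotients
  set b1 : ℂ → ℂ := fun z => g z0 0 * g z 1 - g z0 1 * g z 0 with hb1
  set b2 : ℂ → ℂ := fun z => g z0 1 * g z 2 - g z0 2 * g z 1 with hb2
  set b3 : ℂ → ℂ := fun z => g z0 2 * g z 0 - g z0 0 * g z 2 with hb3
  have hb1d : HasDerivAt b1 (g z0 0 * deriv g z0 1 - g z0 1 * deriv g z0 0) z0 :=
    ((hgdi 1).const_mul _).sub ((hgdi 0).const_mul _)
  have hb2d : HasDerivAt b2 (g z0 1 * deriv g z0 2 - g z0 2 * deriv g z0 1) z0 :=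
    ((hgdi 2).const_mul _).sub ((hgdi 1).const_mul _)
  have hb3d : HasDerivAt b3 (g z0 2 * deriv g z0 0 - g z0 0 * deriv g z0 2) z0 :=
    ((hgdi 0).const_mul _).sub ((hgdi 2).const_mul _)
  have hb10 : b1 z0 = 0 := by simp only [hb1]; ring
  have hb20 : b2 z0 = 0 := by simp only [hb2]; ring
  have hb30 : b3 z0 = 0 := by simp only [hb3]; ring
  have hwsq : ∀ z, wsq (g z0) (g z) = ‖b1 z‖ ^ 2 + ‖b2 z‖ ^ 2 + ‖b3 z‖ ^ 2 := fun z => rfl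
  have hsl : ∀ b : ℂ → ℂ, ∀ b' : ℂ, HasDerivAt b b' z0 →
      Tendsto (fun z => ‖slope b z0 z‖ ^ 2) (𝓝[≠] z0) (𝓝 (‖b'‖ ^ 2)) := by
    intro b b' hb
    exact ((hasDerivAt_iff_tendsto_slope.mp hb).norm).pow 2
  set S : ℂ → ℝ := fun z => ‖slope b1 z0 z‖ ^ 2 + ‖slope b2 z0 z‖ ^ 2 + ‖slope b3 z0 z‖ ^ 2 with hS
  have hSlim : Tendsto S (𝓝[≠] z0) (𝓝 (wsq (g z0) (deriv g z0))) :=
    ((hsl _ _ hb1d).add (hsl _ _ hb2d)).add (hsl _ _ hb3d)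
  have hgcont : ContinuousAt g z0 := hg.continuousAt
  have hmlim : Tendsto (fun z => ‖m z‖) (𝓝[≠] z0) (𝓝 1) := by
    have : Tendsto (fun z => ‖m z‖) (𝓝 z0) (𝓝 ‖m z0‖) := hman.continuousAt.norm
    rw [hm0, norm_one] at this
    exact this.mono_left nhdsWithin_le_nhds
  have hAlim : Tendsto (fun z => ‖A z‖ ^ 2) (𝓝[≠] z0) (𝓝 (n0 ^ 2)) := by
    have : Tendsto (fun z => ‖A z‖ ^ 2) (𝓝 z0) (𝓝 (‖A z0‖ ^ 2)) :=
      (hAan.continuousAt.norm).pow 2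
    rw [hA0, Complex.norm_real, Real.norm_eq_abs, sq_abs] at this
    exact this.mono_left nhdsWithin_le_nhds
  have hwlim : Tendsto (fun z => wsq (g z0) (g z)) (𝓝[≠] z0) (𝓝 0) := by
    have h1 : Tendsto (fun z => ‖b1 z‖ ^ 2 + ‖b2 z‖ ^ 2 + ‖b3 z‖ ^ 2) (𝓝 z0)
        (𝓝 (‖b1 z0‖ ^ 2 + ‖b2 z0‖ ^ 2 + ‖b3 z0‖ ^ 2)) :=
      (((hb1d.continuousAt.norm).pow 2).add ((hb2d.continuousAt.norm).pow 2)).add
        ((hb3d.continuousAt.norm).pow 2)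
    rw [hb10, hb20, hb30] at h1
    simp only [norm_zero, ne_eq, OfNat.ofNat_ne_zero, not_false_eq_true, zero_pow, add_zero] at h1
    exact h1.mono_left nhdsWithin_le_nhds
  set curly : ℂ → ℝ := fun z => S z * (s ^ 2 * ‖m z‖ ^ 4)
      - 2 * r ^ 2 * ‖m z‖ ^ 2 * (‖A z‖ ^ 2 + wsq (g z0) (g z)) with hcurly
  have hcl : Tendsto curly (𝓝[≠] z0) (𝓝 (wsq (g z0) (deriv g z0) * (s ^ 2 * 1 ^ 4)
      - 2 * r ^ 2 * 1 ^ 2 * (n0 ^ 2 + 0))) :=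
    (hSlim.mul (tendsto_const_nhds.mul (hmlim.pow 4))).sub
      ((tendsto_const_nhds.mul (hmlim.pow 2)).mul (hAlim.add hwlim))
  have hpos : 0 < wsq (g z0) (deriv g z0) * (s ^ 2 * 1 ^ 4)
      - 2 * r ^ 2 * 1 ^ 2 * (n0 ^ 2 + 0) := by linarith
  have hev : ∀ᶠ z in 𝓝[≠] z0, 0 < curly z := hcl.eventually (lt_mem_nhds hpos)
  have hhne : ∀ᶠ z in 𝓝[≠] z0, h z ≠ 0 :=
    (hh.continuousAt.eventually_ne hh0).filter_mono nhdsWithin_le_nhds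
  have hmax' : ∀ᶠ z in 𝓝[≠] z0, ‖h z‖ ^ 2 * nsq (g z) * (r ^ 2 - ‖z‖ ^ 2) ^ 2 ≤
      ‖h z0‖ ^ 2 * nsq (g z0) * (r ^ 2 - ‖z0‖ ^ 2) ^ 2 := hmax.filter_mono nhdsWithin_le_nhds
  have hne : ∀ᶠ z in 𝓝[≠] z0, z ≠ z0 := self_mem_nhdsWithin
  have key : ∀ᶠ z in 𝓝[≠] z0, ‖E z‖ ^ 2 < ‖E z0‖ ^ 2 := by
    filter_upwards [hev, hhne, hmax', hne] with z hz1 hz2 hz3 hz4
    have hid := poinc_identity r z0 z hs.ne'
    rw [← hsdef] at hid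
    have hmz : ‖m z‖ = ‖1 - (starRingEnd ℂ) z0 * (z - z0) / ((s : ℝ) : ℂ)‖ := rfl
    rw [← hmz] at hid
    have hlag := lagrange (g z0) (g z)
    rw [← hn0] at hlag
    have hAz : ‖A z‖ = ‖(starRingEnd ℂ) (g z0 0) * g z 0 + (starRingEnd ℂ) (g z0 1) * g z 1
      + (starRingEnd ℂ) (g z0 2) * g z 2‖ := rfl
    rw [← hAz] at hlag
    set ζ : ℝ := ‖z - z0‖ with hζ
    have hζpos : 0 < ζ := norm_pos_iff.mpr (sub_ne_zero.mpr hz4)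
    have hslope : ∀ b : ℂ → ℂ, b z0 = 0 → ‖b z‖ ^ 2 = ‖slope b z0 z‖ ^ 2 * ζ ^ 2 := by
      intro b hb
      have : b z = slope b z0 z * (z - z0) := by
        rw [slope_def_field, hb, sub_zero, div_mul_cancel₀]
        exact sub_ne_zero.mpr hz4
      rw [this, norm_mul, mul_pow]
    have hw : wsq (g z0) (g z) = S z * ζ ^ 2 := by
      rw [hwsq, hslope b1 hb10, hslope b2 hb20, hslope b3 hb30]
      simp only [hS]; ring
    have hE2 : ‖E z‖ ^ 2 = ‖h z‖ ^ 2 * ‖A z‖ ^ 2 * ‖m z‖ ^ 4 := by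
      simp only [hE, norm_mul, norm_pow]; ring
    have hhpos : 0 < ‖h z‖ ^ 2 := by positivity
    have hnn : 0 ≤ ‖A z‖ ^ 2 + wsq (g z0) (g z) := by
      have := wsq_nonneg (g z0) (g z); positivity
    -- lower bound for the square of the Poincare factor
    have hP : s ^ 2 * ‖m z‖ ^ 4 - 2 * r ^ 2 * ‖m z‖ ^ 2 * ζ ^ 2 ≤ (r ^ 2 - ‖z‖ ^ 2) ^ 2 := by
      rw [hid]
      have : (s * ‖m z‖ ^ 2 - r ^ 2 / s * ζ ^ 2) ^ 2 =
          s ^ 2 * ‖m z‖ ^ 4 - 2 * r ^ 2 * ‖m z‖ ^ 2 * ζ ^ 2 + (r ^ 2 / s * ζ ^ 2) ^ 2 := by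
        field_simp
        ring
      rw [this]
      nlinarith [sq_nonneg (r ^ 2 / s * ζ ^ 2)]
    have h5 : n0 * nsq (g z) * (r ^ 2 - ‖z‖ ^ 2) ^ 2 >
        ‖A z‖ ^ 2 * (s ^ 2 * ‖m z‖ ^ 4) := by
      rw [hlag]
      have h6 : (‖A z‖ ^ 2 + wsq (g z0) (g z)) * (s ^ 2 * ‖m z‖ ^ 4 - 2 * r ^ 2 * ‖m z‖ ^ 2 * ζ ^ 2)
          ≤ (‖A z‖ ^ 2 + wsq (g z0) (g z)) * (r ^ 2 - ‖z‖ ^ 2) ^ 2 :=
        mul_le_mul_of_nonneg_left hP hnn
      have h7 : (‖A z‖ ^ 2 + wsq (g z0) (g z)) * (s ^ 2 * ‖m z‖ ^ 4 - 2 * r ^ 2 * ‖m z‖ ^ 2 * ζ ^ 2)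
          = ‖A z‖ ^ 2 * (s ^ 2 * ‖m z‖ ^ 4) + ζ ^ 2 * curly z := by
        simp only [hcurly]
        rw [hw]; ring
      have h8 : 0 < ζ ^ 2 * curly z := by positivity
      linarith
    have h9 : ‖h z‖ ^ 2 * (n0 * nsq (g z) * (r ^ 2 - ‖z‖ ^ 2) ^ 2) ≤
        n0 * (‖h z0‖ ^ 2 * n0 * s ^ 2) := by
      have := mul_le_mul_of_nonneg_left hz3 hn0pos.le
      rw [← hn0, ← hsdef] at this
      linarith
    have h10 : ‖h z‖ ^ 2 * (‖A z‖ ^ 2 * (s ^ 2 * ‖m z‖ ^ 4)) <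
        ‖h z‖ ^ 2 * (n0 * nsq (g z) * (r ^ 2 - ‖z‖ ^ 2) ^ 2) :=
      mul_lt_mul_of_pos_left h5 hhpos
    have h11 : s ^ 2 * ‖E z‖ ^ 2 < s ^ 2 * ‖E z0‖ ^ 2 := by
      rw [hE2, hE0]
      have e1 : s ^ 2 * (‖h z‖ ^ 2 * ‖A z‖ ^ 2 * ‖m z‖ ^ 4) =
          ‖h z‖ ^ 2 * (‖A z‖ ^ 2 * (s ^ 2 * ‖m z‖ ^ 4)) := by ring
      have e2 : s ^ 2 * (‖h z0‖ ^ 2 * n0 ^ 2) = n0 * (‖h z0‖ ^ 2 * n0 * s ^ 2) := by ring
      rw [e1, e2]
      exact lt_of_lt_of_le h10 h9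
    have hs2 : 0 < s ^ 2 := by positivity
    exact lt_of_mul_lt_mul_left h11 hs2.le
  have hloc : IsLocalMax (norm ∘ E) z0 := by
    have h1 : ∀ᶠ z in 𝓝[≠] z0, (norm ∘ E) z ≤ (norm ∘ E) z0 := by
      filter_upwards [key] with z hz
      exact (abs_le_of_sq_le_sq' hz.le (norm_nonneg _)).2
    have h2 := eventually_nhdsWithin_iff.mp h1
    filter_upwards [h2] with z hz
    by_cases hzz : z = z0
    · rw [hzz]
    · exact hz hzz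
  have hdiff : ∀ᶠ z in 𝓝 z0, DifferentiableAt ℂ E z :=
    hEan.eventually_analyticAt.mono fun z hz => hz.differentiableAt
  have heq := Complex.norm_eventually_eq_of_isLocalMax hdiff hloc
  have heq' : ∀ᶠ z in 𝓝[≠] z0, ‖E z‖ = ‖E z0‖ := heq.filter_mono nhdsWithin_le_nhds
  obtain ⟨z, hz1, hz2⟩ := (key.and heq').exists
  rw [hz2] at hz1
  exact lt_irrefl _ hz1

theorem ahlfors {r κ : ℝ} (hr : 0 < r) (hκ : 0 < κ) (U : ℂ → ℝ)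
    (hU : ContinuousOn U (closedBall 0 r)) (hUnn : ∀ z, 0 ≤ U z)
    (hloc : ∀ z0 ∈ ball (0 : ℂ) r, 0 < U z0 → ∃ (h : ℂ → ℂ) (g : ℂ → Fin 3 → ℂ),
      AnalyticAt ℂ h z0 ∧ AnalyticAt ℂ g z0 ∧ h z0 ≠ 0 ∧ g z0 ≠ 0 ∧
      (∀ᶠ z in 𝓝 z0, U z ^ 2 = ‖h z‖ ^ 2 * nsq (g z)) ∧
      κ * U z0 ^ 2 * nsq (g z0) ^ 2 ≤ wsq (g z0) (deriv g z0)) :
    κ * U 0 ^ 2 * r ^ 2 ≤ 2 := by
  set φ : ℂ → ℝ := fun z => U z * (r ^ 2 - ‖z‖ ^ 2) with hφ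
  have hφc : ContinuousOn φ (closedBall 0 r) := by
    refine hU.mul ?_
    fun_prop
  obtain ⟨z0, hz0, hmax⟩ := (isCompact_closedBall (0 : ℂ) r).exists_isMaxOn
    (nonempty_closedBall.mpr hr.le) hφc
  have h0 : φ 0 ≤ φ z0 := hmax (mem_closedBall_self hr.le)
  have hφ0 : φ 0 = U 0 * r ^ 2 := by simp [hφ]
  have hz0n : ‖z0‖ ≤ r := by simpa using hz0
  by_cases hpos : 0 < φ z0
  · have hz0lt : ‖z0‖ < r := by
      rcases hz0n.lt_or_eq with h | h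
      · exact h
      · exfalso
        simp only [hφ, h, sub_self, mul_zero] at hpos
        exact lt_irrefl _ hpos
    have hs : 0 < r ^ 2 - ‖z0‖ ^ 2 := by
      have := norm_nonneg z0
      nlinarith
    have hUpos : 0 < U z0 := by
      by_contra hc
      have : U z0 = 0 := le_antisymm (not_lt.mp hc) (hUnn z0)
      simp only [hφ, this, zero_mul] at hpos
      exact lt_irrefl _ hpos
    obtain ⟨h, g, hh, hg, hh0, hg0, hUe, hKe⟩ := hloc z0 (by simpa using hz0lt) hUpos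
    have hball : ∀ᶠ z in 𝓝 z0, z ∈ ball (0 : ℂ) r :=
      isOpen_ball.eventually_mem (by simpa using hz0lt)
    have hU0 : U z0 ^ 2 = ‖h z0‖ ^ 2 * nsq (g z0) := hUe.self_of_nhds
    have hm : ∀ᶠ z in 𝓝 z0, ‖h z‖ ^ 2 * nsq (g z) * (r ^ 2 - ‖z‖ ^ 2) ^ 2 ≤
        ‖h z0‖ ^ 2 * nsq (g z0) * (r ^ 2 - ‖z0‖ ^ 2) ^ 2 := by
      filter_upwards [hUe, hball] with z hz1 hz2
      rw [← hz1, ← hU0]
      have h1 : φ z ≤ φ z0 := hmax (ball_subset_closedBall hz2)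
      have h2 : 0 ≤ φ z := by
        have h3 : ‖z‖ < r := by simpa using hz2
        have h4 : 0 ≤ r ^ 2 - ‖z‖ ^ 2 := by nlinarith [norm_nonneg z]
        exact mul_nonneg (hUnn z) h4
      have h5 : φ z ^ 2 ≤ φ z0 ^ 2 := pow_le_pow_left₀ h2 h1 2
      simp only [hφ, mul_pow] at h5
      exact h5
    have hkey := localmax_ineq hz0lt hh hg hh0 hg0 hm
    have hn0 : 0 < nsq (g z0) := nsq_pos hg0
    have h6 : κ * U z0 ^ 2 * nsq (g z0) ^ 2 * (r ^ 2 - ‖z0‖ ^ 2) ^ 2 ≤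
        2 * r ^ 2 * nsq (g z0) ^ 2 :=
      le_trans (mul_le_mul_of_nonneg_right hKe (sq_nonneg _)) hkey
    have h7 : κ * φ z0 ^ 2 ≤ 2 * r ^ 2 := by
      have hn2 : 0 < nsq (g z0) ^ 2 := by positivity
      have : (κ * φ z0 ^ 2) * nsq (g z0) ^ 2 ≤ (2 * r ^ 2) * nsq (g z0) ^ 2 := by
        simp only [hφ]
        calc κ * (U z0 * (r ^ 2 - ‖z0‖ ^ 2)) ^ 2 * nsq (g z0) ^ 2
            = κ * U z0 ^ 2 * nsq (g z0) ^ 2 * (r ^ 2 - ‖z0‖ ^ 2) ^ 2 := by ring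
          _ ≤ _ := h6
      exact le_of_mul_le_mul_right this hn2
    have h8 : φ 0 ^ 2 ≤ φ z0 ^ 2 := by
      have : 0 ≤ φ 0 := by rw [hφ0]; exact mul_nonneg (hUnn 0) (by positivity)
      exact pow_le_pow_left₀ this h0 2
    have h9 : κ * φ 0 ^ 2 ≤ 2 * r ^ 2 := le_trans (mul_le_mul_of_nonneg_left h8 hκ.le) h7
    rw [hφ0] at h9
    have hr2 : 0 < r ^ 2 := by positivity
    have h10 : (κ * U 0 ^ 2 * r ^ 2) * r ^ 2 ≤ 2 * r ^ 2 := by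
      calc (κ * U 0 ^ 2 * r ^ 2) * r ^ 2 = κ * (U 0 * r ^ 2) ^ 2 := by ring
        _ ≤ _ := h9
    exact le_of_mul_le_mul_right h10 hr2
  · have h1 : φ 0 ≤ 0 := le_trans h0 (not_lt.mp hpos)
    rw [hφ0] at h1
    have h2 : U 0 = 0 := by
      have hr2 : 0 < r ^ 2 := by positivity
      have h3 : U 0 ≤ 0 := by
        by_contra hc
        push Not at hc
        have := mul_pos hc hr2
        linarith
      exact le_antisymm h3 (hUnn 0)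
    rw [h2]
    norm_num

/-- sum of sixth powers -/
noncomputable def n6 (v : Fin 3 → ℂ) : ℝ := ‖v 0‖ ^ 6 + ‖v 1‖ ^ 6 + ‖v 2‖ ^ 6

lemma n6_le (v : Fin 3 → ℂ) : n6 v ≤ nsq v ^ 3 := by
  unfold n6 nsq
  have a := sq_nonneg ‖v 0‖
  have b := sq_nonneg ‖v 1‖
  have c := sq_nonneg ‖v 2‖
  have : (‖v 0‖ ^ 2 + ‖v 1‖ ^ 2 + ‖v 2‖ ^ 2) ^ 3 - (‖v 0‖ ^ 6 + ‖v 1‖ ^ 6 + ‖v 2‖ ^ 6)
    = 3 * (‖v 0‖ ^ 2 + ‖v 1‖ ^ 2) * (‖v 1‖ ^ 2 + ‖v 2‖ ^ 2) * (‖v 0‖ ^ 2 + ‖v 2‖ ^ 2) := by ring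
  have h2 : 0 ≤ 3 * (‖v 0‖ ^ 2 + ‖v 1‖ ^ 2) * (‖v 1‖ ^ 2 + ‖v 2‖ ^ 2) * (‖v 0‖ ^ 2 + ‖v 2‖ ^ 2) := by
    positivity
  linarith

lemma le_n6 (v : Fin 3 → ℂ) : nsq v ^ 3 ≤ 9 * n6 v := by
  unfold n6 nsq
  set a := ‖v 0‖ ^ 2 with ha
  set b := ‖v 1‖ ^ 2 with hb
  set c := ‖v 2‖ ^ 2 with hc
  have ha0 : 0 ≤ a := sq_nonneg _
  have hb0 : 0 ≤ b := sq_nonneg _
  have hc0 : 0 ≤ c := sq_nonneg _
  have e1 : ‖v 0‖ ^ 6 = a ^ 3 := by rw [ha]; ring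
  have e2 : ‖v 1‖ ^ 6 = b ^ 3 := by rw [hb]; ring
  have e3 : ‖v 2‖ ^ 6 = c ^ 3 := by rw [hc]; ring
  rw [e1, e2, e3]
  have p1 : 0 ≤ (a + b) * (a - b) ^ 2 := mul_nonneg (by linarith) (sq_nonneg _)
  have p2 : 0 ≤ (b + c) * (b - c) ^ 2 := mul_nonneg (by linarith) (sq_nonneg _)
  have p3 : 0 ≤ (a + c) * (a - c) ^ 2 := mul_nonneg (by linarith) (sq_nonneg _)
  have p4 : 0 ≤ (a + b + c) * ((a - b) ^ 2 + (b - c) ^ 2 + (a - c) ^ 2) :=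
    mul_nonneg (by linarith) (by positivity)
  nlinarith [p1, p2, p3, p4]

lemma n6_pos {v : Fin 3 → ℂ} (h : v ≠ 0) : 0 < n6 v := by
  have h1 := nsq_pos h
  have h2 := le_n6 v
  have h3 : 0 < nsq v ^ 3 := by positivity
  linarith

/-- Schwarz-Pick type estimate for holomorphic maps of a disc to the Fermat quartic. -/
theorem fermat_bound {r : ℝ} (hr : 0 < r) {g : ℂ → Fin 3 → ℂ}
    (hg : AnalyticOnNhd ℂ g (closedBall 0 r)) (hne : ∀ z ∈ closedBall (0 : ℂ) r, g z ≠ 0)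
    (hF : ∀ z ∈ closedBall (0 : ℂ) r, g z 0 ^ 4 + g z 1 ^ 4 + g z 2 ^ 4 = 0) :
    wsq (g 0) (deriv g 0) * r ^ 2 ≤ 18 * nsq (g 0) ^ 2 := by
  set W : ℂ → ℝ := fun z => wsq (g z) (deriv g z) with hW
  set U : ℂ → ℝ := fun z => Real.sqrt (W z * nsq (g z) / n6 (g z)) with hUdef
  have hUnn : ∀ z, 0 ≤ U z := fun z => Real.sqrt_nonneg _
  have hgc : ContinuousOn g (closedBall 0 r) := hg.continuousOn
  have hg'c : ContinuousOn (deriv g) (closedBall 0 r) := hg.deriv.continuousOn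
  have hgi : ∀ i, ContinuousOn (fun z => g z i) (closedBall 0 r) := fun i =>
    (continuousOn_pi.mp hgc) i
  have hgi' : ∀ i, ContinuousOn (fun z => deriv g z i) (closedBall 0 r) := fun i =>
    (continuousOn_pi.mp hg'c) i
  have hWc : ContinuousOn W (closedBall 0 r) := by
    simp only [hW, wsq]
    exact (((((hgi 0).mul (hgi' 1)).sub ((hgi 1).mul (hgi' 0))).norm.pow 2).add
      ((((hgi 1).mul (hgi' 2)).sub ((hgi 2).mul (hgi' 1))).norm.pow 2)).add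
      ((((hgi 2).mul (hgi' 0)).sub ((hgi 0).mul (hgi' 2))).norm.pow 2)
  have hnc : ContinuousOn (fun z => nsq (g z)) (closedBall 0 r) := by
    simp only [nsq]
    exact (((hgi 0).norm.pow 2).add ((hgi 1).norm.pow 2)).add ((hgi 2).norm.pow 2)
  have h6c : ContinuousOn (fun z => n6 (g z)) (closedBall 0 r) := by
    simp only [n6]
    exact (((hgi 0).norm.pow 6).add ((hgi 1).norm.pow 6)).add ((hgi 2).norm.pow 6)
  have hUc : ContinuousOn U (closedBall 0 r) := by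
    refine ContinuousOn.sqrt ?_
    exact (hWc.mul hnc).div h6c (fun z hz => (n6_pos (hne z hz)).ne')
  have hWnn : ∀ z, 0 ≤ W z := fun z => wsq_nonneg _ _
  have hUsq : ∀ z, U z ^ 2 = W z * nsq (g z) / n6 (g z) := by
    intro z
    simp only [hUdef]
    rw [Real.sq_sqrt]
    have h1 := nsq_nonneg (g z)
    have h2 : 0 ≤ n6 (g z) := by unfold n6; positivity
    have h3 := hWnn z
    positivity
  have hmain := ahlfors hr (κ := 1 / 9) (by norm_num) U hUc hUnn ?_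
  · have h0 : (0 : ℂ) ∈ closedBall (0 : ℂ) r := mem_closedBall_self hr.le
    rw [hUsq] at hmain
    have hn := nsq_pos (hne 0 h0)
    have h6 := n6_pos (hne 0 h0)
    have h6le := n6_le (g 0)
    have hW0 := hWnn 0
    -- W ≤ nsq^2 * U^2
    have h1 : W 0 ≤ nsq (g 0) ^ 2 * (W 0 * nsq (g 0) / n6 (g 0)) := by
      rw [← mul_div_assoc, le_div_iff₀ h6]
      calc W 0 * n6 (g 0) ≤ W 0 * nsq (g 0) ^ 3 := mul_le_mul_of_nonneg_left h6le hW0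
        _ = nsq (g 0) ^ 2 * (W 0 * nsq (g 0)) := by ring
    have h2 : W 0 * nsq (g 0) / n6 (g 0) * r ^ 2 ≤ 18 := by linarith
    calc wsq (g 0) (deriv g 0) * r ^ 2 = W 0 * r ^ 2 := rfl
      _ ≤ nsq (g 0) ^ 2 * (W 0 * nsq (g 0) / n6 (g 0)) * r ^ 2 :=
        mul_le_mul_of_nonneg_right h1 (by positivity)
      _ = nsq (g 0) ^ 2 * (W 0 * nsq (g 0) / n6 (g 0) * r ^ 2) := by ring
      _ ≤ nsq (g 0) ^ 2 * 18 := mul_le_mul_of_nonneg_left h2 (by positivity)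
      _ = _ := by ring
  · intro z0 hz0 hUz0
    have hz0' : z0 ∈ closedBall (0 : ℂ) r := ball_subset_closedBall hz0
    have hgz0 : AnalyticAt ℂ g z0 := hg z0 hz0'
    have hne0 := hne z0 hz0'
    have hgia : ∀ i, AnalyticAt ℂ (fun z => g z i) z0 := fun i => (analyticAt_pi_iff.mp hgz0) i
    have hgia' : ∀ i, AnalyticAt ℂ (fun z => deriv g z i) z0 := fun i =>
      (analyticAt_pi_iff.mp hgz0.deriv) i
    -- relations near z0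
    have hev1 : ∀ᶠ z in 𝓝 z0, z ∈ ball (0 : ℂ) r := isOpen_ball.eventually_mem hz0
    have hrel : ∀ᶠ z in 𝓝 z0, g z 0 ^ 4 + g z 1 ^ 4 + g z 2 ^ 4 = 0 ∧
        g z 0 ^ 3 * deriv g z 0 + g z 1 ^ 3 * deriv g z 1 + g z 2 ^ 3 * deriv g z 2 = 0 := by
      filter_upwards [hev1] with z hz
      refine ⟨hF z (ball_subset_closedBall hz), ?_⟩
      have hgz : AnalyticAt ℂ g z := hg z (ball_subset_closedBall hz)
      have hd : ∀ i, HasDerivAt (fun z => g z i) (deriv g z i) z := fun i =>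
        (hasDerivAt_pi.mp hgz.differentiableAt.hasDerivAt) i
      have h1 : HasDerivAt (fun z => g z 0 ^ 4 + g z 1 ^ 4 + g z 2 ^ 4)
          (((4 : ℕ) : ℂ) * g z 0 ^ 3 * deriv g z 0 + ((4 : ℕ) : ℂ) * g z 1 ^ 3 * deriv g z 1
            + ((4 : ℕ) : ℂ) * g z 2 ^ 3 * deriv g z 2) z :=
        (((hd 0).pow 4).add ((hd 1).pow 4)).add ((hd 2).pow 4)
      have h2 : HasDerivAt (fun z => g z 0 ^ 4 + g z 1 ^ 4 + g z 2 ^ 4) 0 z := by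
        have : (fun z => g z 0 ^ 4 + g z 1 ^ 4 + g z 2 ^ 4) =ᶠ[𝓝 z] fun _ => (0 : ℂ) := by
          filter_upwards [isOpen_ball.eventually_mem hz] with t ht
          exact hF t (ball_subset_closedBall ht)
        exact (hasDerivAt_const z (0 : ℂ)).congr_of_eventuallyEq this
      have h3 := h1.unique h2
      push_cast at h3
      linear_combination h3 / 4
    -- choice of a nonvanishing component
    have hex : ∃ k, g z0 k ≠ 0 := by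
      by_contra hc
      push Not at hc
      exact hne0 (funext hc)
    set X0 : ℂ → ℂ := fun z => g z 1 * deriv g z 2 - g z 2 * deriv g z 1 with hX0
    set X1 : ℂ → ℂ := fun z => g z 2 * deriv g z 0 - g z 0 * deriv g z 2 with hX1
    set X2 : ℂ → ℂ := fun z => g z 0 * deriv g z 1 - g z 1 * deriv g z 0 with hX2
    have hWX : ∀ z, W z = ‖X2 z‖ ^ 2 + ‖X0 z‖ ^ 2 + ‖X1 z‖ ^ 2 := fun z => rfl
    have hX0a : AnalyticAt ℂ X0 z0 := ((hgia 1).mul (hgia' 2)).sub ((hgia 2).mul (hgia' 1))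
    have hX1a : AnalyticAt ℂ X1 z0 := ((hgia 2).mul (hgia' 0)).sub ((hgia 0).mul (hgia' 2))
    have hX2a : AnalyticAt ℂ X2 z0 := ((hgia 0).mul (hgia' 1)).sub ((hgia 1).mul (hgia' 0))
    have hcross : ∀ᶠ z in 𝓝 z0, X0 z * g z 1 ^ 3 = X1 z * g z 0 ^ 3 ∧
        X1 z * g z 2 ^ 3 = X2 z * g z 1 ^ 3 ∧ X2 z * g z 0 ^ 3 = X0 z * g z 2 ^ 3 := by
      filter_upwards [hrel] with z hz
      obtain ⟨e1, e2⟩ := hz
      refine ⟨?_, ?_, ?_⟩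
      · simp only [hX0, hX1]; linear_combination (deriv g z 2) * e1 - (g z 2) * e2
      · simp only [hX2, hX1]; linear_combination (deriv g z 0) * e1 - (g z 0) * e2
      · simp only [hX2, hX0]; linear_combination (deriv g z 1) * e1 - (g z 1) * e2
    -- the local factor h
    have hexh : ∃ h : ℂ → ℂ, AnalyticAt ℂ h z0 ∧ ∀ᶠ z in 𝓝 z0, W z = ‖h z‖ ^ 2 * n6 (g z) := by
      obtain ⟨k, hk⟩ := hex
      have hgk : ∀ᶠ z in 𝓝 z0, g z k ≠ 0 := (hgia k).continuousAt.eventually_ne hk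
      fin_cases k
      · refine ⟨fun z => X0 z / g z 0 ^ 3, hX0a.div ((hgia 0).pow 3) (pow_ne_zero 3 hk), ?_⟩
        filter_upwards [hcross, hgk] with z hz hz2
        obtain ⟨e1, e2, e3⟩ := hz
        have hz2' : g z 0 ≠ 0 := hz2
        have f1 : X1 z = X0 z / g z 0 ^ 3 * g z 1 ^ 3 := by
          field_simp; linear_combination -e1
        have f2 : X2 z = X0 z / g z 0 ^ 3 * g z 2 ^ 3 := by
          field_simp; linear_combination e3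
        have f0 : X0 z = X0 z / g z 0 ^ 3 * g z 0 ^ 3 := by field_simp
        rw [hWX]
        have n0 : ‖X0 z‖ ^ 2 = ‖X0 z / g z 0 ^ 3‖ ^ 2 * ‖g z 0‖ ^ 6 := by
          conv_lhs => rw [f0]
          rw [norm_mul, norm_pow]; ring
        have n1 : ‖X1 z‖ ^ 2 = ‖X0 z / g z 0 ^ 3‖ ^ 2 * ‖g z 1‖ ^ 6 := by
          rw [f1, norm_mul, norm_pow]; ring
        have n2 : ‖X2 z‖ ^ 2 = ‖X0 z / g z 0 ^ 3‖ ^ 2 * ‖g z 2‖ ^ 6 := by
          rw [f2, norm_mul, norm_pow]; ring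
        rw [n0, n1, n2]
        simp only [n6]; ring
      · refine ⟨fun z => X1 z / g z 1 ^ 3, hX1a.div ((hgia 1).pow 3) (pow_ne_zero 3 hk), ?_⟩
        filter_upwards [hcross, hgk] with z hz hz2
        obtain ⟨e1, e2, e3⟩ := hz
        have hz2' : g z 1 ≠ 0 := hz2
        have f1 : X0 z = X1 z / g z 1 ^ 3 * g z 0 ^ 3 := by
          field_simp; linear_combination e1
        have f2 : X2 z = X1 z / g z 1 ^ 3 * g z 2 ^ 3 := by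
          field_simp; linear_combination -e2
        have f0 : X1 z = X1 z / g z 1 ^ 3 * g z 1 ^ 3 := by field_simp
        rw [hWX]
        have n0 : ‖X1 z‖ ^ 2 = ‖X1 z / g z 1 ^ 3‖ ^ 2 * ‖g z 1‖ ^ 6 := by
          conv_lhs => rw [f0]
          rw [norm_mul, norm_pow]; ring
        have n1 : ‖X0 z‖ ^ 2 = ‖X1 z / g z 1 ^ 3‖ ^ 2 * ‖g z 0‖ ^ 6 := by
          rw [f1, norm_mul, norm_pow]; ring
        have n2 : ‖X2 z‖ ^ 2 = ‖X1 z / g z 1 ^ 3‖ ^ 2 * ‖g z 2‖ ^ 6 := by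
          rw [f2, norm_mul, norm_pow]; ring
        rw [n0, n1, n2]
        simp only [n6]; ring
      · refine ⟨fun z => X2 z / g z 2 ^ 3, hX2a.div ((hgia 2).pow 3) (pow_ne_zero 3 hk), ?_⟩
        filter_upwards [hcross, hgk] with z hz hz2
        obtain ⟨e1, e2, e3⟩ := hz
        have hz2' : g z 2 ≠ 0 := hz2
        have f1 : X0 z = X2 z / g z 2 ^ 3 * g z 0 ^ 3 := by
          field_simp; linear_combination -e3
        have f2 : X1 z = X2 z / g z 2 ^ 3 * g z 1 ^ 3 := by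
          field_simp; linear_combination e2
        have f0 : X2 z = X2 z / g z 2 ^ 3 * g z 2 ^ 3 := by field_simp
        rw [hWX]
        have n0 : ‖X2 z‖ ^ 2 = ‖X2 z / g z 2 ^ 3‖ ^ 2 * ‖g z 2‖ ^ 6 := by
          conv_lhs => rw [f0]
          rw [norm_mul, norm_pow]; ring
        have n1 : ‖X0 z‖ ^ 2 = ‖X2 z / g z 2 ^ 3‖ ^ 2 * ‖g z 0‖ ^ 6 := by
          rw [f1, norm_mul, norm_pow]; ring
        have n2 : ‖X1 z‖ ^ 2 = ‖X2 z / g z 2 ^ 3‖ ^ 2 * ‖g z 1‖ ^ 6 := by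
          rw [f2, norm_mul, norm_pow]; ring
        rw [n0, n1, n2]
        simp only [n6]; ring
    obtain ⟨h, hha, hhW⟩ := hexh
    have hnez : ∀ᶠ z in 𝓝 z0, g z ≠ 0 := hgz0.continuousAt.eventually_ne hne0
    have hU2 : ∀ᶠ z in 𝓝 z0, U z ^ 2 = ‖h z‖ ^ 2 * nsq (g z) := by
      filter_upwards [hhW, hnez] with z hz hz2
      rw [hUsq, hz]
      have := n6_pos hz2
      field_simp
    have hU20 := hU2.self_of_nhds
    have hW0 := hhW.self_of_nhds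
    refine ⟨h, g, hha, hgz0, ?_, hne0, hU2, ?_⟩
    · intro hc
      rw [hc, norm_zero] at hU20
      simp only [ne_eq, OfNat.ofNat_ne_zero, not_false_eq_true, zero_pow, zero_mul] at hU20
      have : U z0 ^ 2 ≠ 0 := pow_ne_zero 2 hUz0.ne'
      exact this hU20
    · have h1 : wsq (g z0) (deriv g z0) = ‖h z0‖ ^ 2 * n6 (g z0) := hW0
      rw [h1, hU20]
      have h2 := le_n6 (g z0)
      have h3 : 0 ≤ ‖h z0‖ ^ 2 := sq_nonneg _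
      have h4 := mul_le_mul_of_nonneg_left h2 h3
      calc 1 / 9 * (‖h z0‖ ^ 2 * nsq (g z0)) * nsq (g z0) ^ 2
          = 1 / 9 * (‖h z0‖ ^ 2 * nsq (g z0) ^ 3) := by ring
        _ ≤ 1 / 9 * (‖h z0‖ ^ 2 * (9 * n6 (g z0))) := by linarith
        _ = _ := by ring

end Pool.Agent.Lib.MP_225e67_ag
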