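import Pool.Agent.Lib.MP_225e67_ag.Mob

open scoped LinearAlgebra.Projectivization Topology ENNReal ContDiff
open Metric Filter

namespace Pool.Agent.Lib.MP_225e67_ag

variable {ι : Type} [Fintype ι]

/-- the ratios recovered from a projector -/
noncomputable def rat (j : ι) (P : PSpace ι) : ι → ℂ := fun i => pm P i j / pm P j j

lemma rat_mk (j : ι) {v : ι → ℂ} (hv : v ≠ 0) (hj : v j ≠ 0) :
    rat j (Projectivization.mk ℂ v hv) = fun i => v i / v j := by
  funext i
  unfold rat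
  rw [pm_mk, Psi_ratio hv hj]

lemma Psi_rat {j : ι} {P : PSpace ι} (h : pm P j j ≠ 0) : Psi (rat j P) = pm P := by
  induction P using Projectivization.ind with
  | h v hv =>
    rw [pm_mk] at h ⊢
    rw [Psi_diag_ne hv] at h
    rw [rat_mk j hv h]
    have : (fun i => v i / v j) = (v j)⁻¹ • v := by
      funext i; simp [div_eq_mul_inv, mul_comm]
    rw [this, Psi_smul (inv_ne_zero h)]

lemma rat_self {j : ι} {P : PSpace ι} (h : pm P j j ≠ 0) : rat j P j = 1 := by
  unfold rat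
  exact div_self h

lemma rat_ne_zero {j : ι} {P : PSpace ι} (h : pm P j j ≠ 0) : rat j P ≠ 0 := by
  intro h0
  have := rat_self h
  rw [h0] at this
  simp at this

lemma mk_rat {j : ι} {P : PSpace ι} (h : pm P j j ≠ 0) :
    P = Projectivization.mk ℂ (rat j P) (rat_ne_zero h) := by
  apply pm_injective
  rw [pm_mk, Psi_rat h]

lemma exists_pm_ne (P : PSpace ι) : ∃ j, pm P j j ≠ 0 := by
  induction P using Projectivization.ind with
  | h v hv =>
    obtain ⟨j, hj⟩ := Function.ne_iff.1 hv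
    exact ⟨j, by rw [pm_mk, Psi_diag_ne hv]; exact hj⟩

lemma HolomorphicAt.analyticAt_rat {f : ℂ → PSpace ι} {z : ℂ} (h : HolomorphicAt f z) {j : ι}
    (hj : pm (f z) j j ≠ 0) : AnalyticAt ℂ (fun t => rat j (f t)) z := by
  obtain ⟨F, hF, hf⟩ := h
  obtain ⟨h0, h1⟩ := hf.self_of_nhds
  have h2 : F z j ≠ 0 := by
    rw [h1, pm_mk, Psi_diag_ne h0] at hj
    exact hj
  have hFi : ∀ i, AnalyticAt ℂ (fun t => F t i) z := fun i =>
    (analyticAt_pi_iff.1 hF) i
  have h3 : AnalyticAt ℂ (fun t => (fun i => F t i / F t j)) z := by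
    rw [analyticAt_pi_iff]
    intro i
    exact (hFi i).div (hFi j) h2
  refine h3.congr ?_
  have h4 : ∀ᶠ t in 𝓝 z, F t j ≠ 0 := (hFi j).continuousAt.eventually_ne h2
  filter_upwards [hf, h4] with t ht ht2
  obtain ⟨h5, h6⟩ := ht
  rw [h6, rat_mk j h5 ht2]

lemma norm_rat_sub_le {j : ι} {P Q : PSpace ι} {c : ℝ} (hc : 0 < c) (hP : c ≤ ‖pm P j j‖)
    (hQ : c ≤ ‖pm Q j j‖) : ‖rat j P - rat j Q‖ ≤ 2 / c ^ 2 * ‖pm P - pm Q‖ := by
  rw [pi_norm_le_iff_of_nonneg (by positivity)]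
  intro i
  have hP0 : pm P j j ≠ 0 := by
    intro h; rw [h, norm_zero] at hP; linarith
  have hQ0 : pm Q j j ≠ 0 := by
    intro h; rw [h, norm_zero] at hQ; linarith
  have hij : ∀ i k, ‖pm P i k - pm Q i k‖ ≤ ‖pm P - pm Q‖ := fun i k =>
    (norm_le_pi_norm ((pm P - pm Q) i) k).trans (norm_le_pi_norm (pm P - pm Q) i)
  have hle : ∀ (R : PSpace ι) i k, ‖pm R i k‖ ≤ 1 := fun R i k =>
    ((norm_le_pi_norm (pm R i) k).trans (norm_le_pi_norm (pm R) i)).trans (norm_pm_le R)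
  simp only [Pi.sub_apply, rat]
  rw [div_sub_div _ _ hP0 hQ0, norm_div, norm_mul]
  have h1 : ‖pm P i j * pm Q j j - pm P j j * pm Q i j‖ ≤ 2 * ‖pm P - pm Q‖ := by
    have : pm P i j * pm Q j j - pm P j j * pm Q i j
      = (pm P i j - pm Q i j) * pm Q j j - (pm P j j - pm Q j j) * pm Q i j := by ring
    rw [this]
    refine (norm_sub_le _ _).trans ?_
    rw [norm_mul, norm_mul]
    have a1 := hij i j
    have a2 := hij j j
    have a3 := hle Q j j
    have a4 := hle Q i j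
    nlinarith [norm_nonneg (pm P i j - pm Q i j), norm_nonneg (pm Q j j),
      norm_nonneg (pm P j j - pm Q j j), norm_nonneg (pm Q i j), norm_nonneg (pm P - pm Q),
      mul_le_mul a1 a3 (norm_nonneg _) (norm_nonneg _),
      mul_le_mul a2 a4 (norm_nonneg _) (norm_nonneg _)]
  calc _ ≤ (2 * ‖pm P - pm Q‖) / (c * c) := by gcongr
    _ = _ := by ring

theorem exists_limit {X : Set (PSpace ι)} (hX : IsProjClosed X) (l : ℕ → ℂ → PSpace ι)
    (hl : ∀ (n : ℕ) (z : ℂ), ‖z‖ < n → HolomorphicAt (l n) z ∧ l n z ∈ X ∧ speed (l n) z ≤ 2)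
    (h0 : ∀ n, speed (l n) 0 = 1) :
    ∃ L : ℂ → PSpace ι, (∀ z, HolomorphicAt L z ∧ L z ∈ X) ∧ ¬ (∀ᶠ t in 𝓝 0, L t = L 0) := by
  classical
  have hlarge : ∀ R : ℝ, ∀ᶠ n : ℕ in (hyperfilter ℕ : Filter ℕ), R ≤ n := fun R =>
    (Nat.hyperfilter_le_atTop) (tendsto_natCast_atTop_atTop.eventually_ge_atTop R)
  have hlim : ∀ z, ∃ P ∈ X, Tendsto (fun n => pm (l n z)) (hyperfilter ℕ : Filter ℕ)
      (𝓝 (pm P)) := by
    intro z
    have hK := isCompact_image_pm hX
    have h1 : (((hyperfilter ℕ).map (fun n => pm (l n z)) : Ultrafilter _) : Filter _)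
        ≤ 𝓟 (pm '' X) := by
      rw [le_principal_iff]
      show ∀ᶠ n in (hyperfilter ℕ : Filter ℕ), pm (l n z) ∈ pm '' X
      filter_upwards [hlarge (‖z‖ + 1)] with n hn
      exact ⟨_, (hl n z (by linarith)).2.1, rfl⟩
    obtain ⟨A, ⟨P, hP, rfl⟩, hA⟩ := hK.ultrafilter_le_nhds _ h1
    exact ⟨P, hP, hA⟩
  choose L hLX hL using hlim
  -- uniform Lipschitz estimates
  have hlip : ∀ (R : ℝ) (n : ℕ), R ≤ n → ∀ z ∈ ball (0 : ℂ) R, ∀ w ∈ ball (0 : ℂ) R,
      ‖pm (l n z) - pm (l n w)‖ ≤ 2 * ‖z - w‖ := by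
    intro R n hn z hz w hw
    refine (convex_ball (0 : ℂ) R).norm_image_sub_le_of_norm_fderiv_le (𝕜 := ℝ)
      (f := fun t => pm (l n t)) ?_ ?_ hw hz
    · intro t ht
      rw [mem_ball_zero_iff] at ht
      exact (hl n t (by linarith)).1.differentiableAt
    · intro t ht
      rw [mem_ball_zero_iff] at ht
      exact (hl n t (by linarith)).2.2
  have hLlip : ∀ z w, ‖pm (L z) - pm (L w)‖ ≤ 2 * ‖z - w‖ := by
    intro z w
    refine le_of_tendsto ((hL z).sub (hL w)).norm ?_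
    filter_upwards [hlarge (‖z‖ + ‖w‖ + 1)] with n hn
    refine hlip (‖z‖ + ‖w‖ + 1) n hn z ?_ w ?_
    · rw [mem_ball_zero_iff]; linarith [norm_nonneg w]
    · rw [mem_ball_zero_iff]; linarith [norm_nonneg z]
  -- locally uniform convergence
  have hunif : ∀ z : ℂ, ∀ ε > 0, ∃ δ > 0, ∀ᶠ n in (hyperfilter ℕ : Filter ℕ),
      ∀ y ∈ ball z δ, ‖pm (L y) - pm (l n y)‖ < ε := by
    intro z ε hε
    refine ⟨min 1 (ε / 8), by positivity, ?_⟩
    have h1 := (Metric.tendsto_nhds.1 (hL z)) (ε / 4) (by positivity)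
    filter_upwards [h1, hlarge (‖z‖ + 1)] with n hn1 hn2 y hy
    rw [mem_ball, dist_eq_norm] at hy
    have hy1 : ‖y - z‖ < 1 := hy.trans_le (min_le_left _ _)
    have hy2 : ‖y - z‖ < ε / 8 := hy.trans_le (min_le_right _ _)
    have hyn : ‖y‖ < ‖z‖ + 1 := by
      calc ‖y‖ = ‖z + (y - z)‖ := by ring_nf
        _ ≤ ‖z‖ + ‖y - z‖ := norm_add_le _ _
        _ < _ := by linarith
    have h2 := hlip (‖z‖ + 1) n hn2 z (by rw [mem_ball_zero_iff]; linarith) y
      (by rw [mem_ball_zero_iff]; exact hyn)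
    have h3 := hLlip y z
    rw [dist_eq_norm] at hn1
    rw [norm_sub_rev z y] at h2
    calc ‖pm (L y) - pm (l n y)‖
        = ‖(pm (L y) - pm (L z)) + (-(pm (l n z) - pm (L z)) + (pm (l n z) - pm (l n y)))‖ := by
          congr 1; abel
      _ ≤ ‖pm (L y) - pm (L z)‖ + ‖-(pm (l n z) - pm (L z)) + (pm (l n z) - pm (l n y))‖ :=
          norm_add_le _ _
      _ ≤ ‖pm (L y) - pm (L z)‖ + (‖pm (l n z) - pm (L z)‖ + ‖pm (l n z) - pm (l n y)‖) := by
          gcongr
          exact (norm_add_le _ _).trans (by rw [norm_neg])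
      _ < ε := by linarith
  -- local analysis at a point
  have hloc : ∀ z₀ : ℂ, ∀ j, pm (L z₀) j j ≠ 0 → ∃ δ > 0,
      (∀ z ∈ ball z₀ δ, pm (L z) j j ≠ 0) ∧
      (∀ᶠ n in (hyperfilter ℕ : Filter ℕ),
        DifferentiableOn ℂ (fun t => rat j (l n t)) (ball z₀ δ) ∧
        ∀ z ∈ ball z₀ δ, pm (l n z) j j ≠ 0) ∧
      TendstoLocallyUniformlyOn (fun n t => rat j (l n t)) (fun t => rat j (L t))
        (hyperfilter ℕ : Filter ℕ) (ball z₀ δ) := by
    intro z₀ j hj
    set c := ‖pm (L z₀) j j‖ with hc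
    have hc0 : 0 < c := norm_pos_iff.2 hj
    have hij : ∀ (P Q : PSpace ι), ‖pm P j j - pm Q j j‖ ≤ ‖pm P - pm Q‖ := fun P Q =>
      (norm_le_pi_norm ((pm P - pm Q) j) j).trans (norm_le_pi_norm (pm P - pm Q) j)
    refine ⟨min 1 (c / 8), by positivity, ?_, ?_, ?_⟩
    · intro z hz h
      rw [mem_ball, dist_eq_norm] at hz
      have h1 := hLlip z z₀
      have h2 := hij (L z) (L z₀)
      rw [h, zero_sub, norm_neg, ← hc] at h2
      have := hz.trans_le (min_le_right _ _)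
      linarith
    · have h1 := (Metric.tendsto_nhds.1 (hL z₀)) (c / 4) (by positivity)
      filter_upwards [h1, hlarge (‖z₀‖ + 1)] with n hn1 hn2
      have hne : ∀ z ∈ ball z₀ (min 1 (c / 8)), pm (l n z) j j ≠ 0 := by
        intro z hz h
        rw [mem_ball, dist_eq_norm] at hz
        have hz1 := hz.trans_le (min_le_left _ _)
        have hz2 := hz.trans_le (min_le_right _ _)
        have hzn : ‖z‖ < ‖z₀‖ + 1 := by
          calc ‖z‖ = ‖z₀ + (z - z₀)‖ := by ring_nf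
            _ ≤ ‖z₀‖ + ‖z - z₀‖ := norm_add_le _ _
            _ < _ := by linarith
        have h2 := hlip (‖z₀‖ + 1) n hn2 z (by rw [mem_ball_zero_iff]; linarith) z₀
          (by rw [mem_ball_zero_iff]; linarith)
        have h3 := hij (l n z) (l n z₀)
        have h4 := hij (l n z₀) (L z₀)
        rw [dist_eq_norm] at hn1
        rw [h, zero_sub, norm_neg] at h3
        have h5 : c ≤ ‖pm (l n z₀) j j - pm (L z₀) j j‖ + ‖pm (l n z₀) j j‖ := by
          rw [hc]
          calc ‖pm (L z₀) j j‖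
              = ‖-(pm (l n z₀) j j - pm (L z₀) j j) + pm (l n z₀) j j‖ := by ring_nf
            _ ≤ ‖-(pm (l n z₀) j j - pm (L z₀) j j)‖ + ‖pm (l n z₀) j j‖ := norm_add_le _ _
            _ = _ := by rw [norm_neg]
        linarith
      refine ⟨fun z hz => ?_, hne⟩
      have hz' := hz
      rw [mem_ball, dist_eq_norm] at hz
      have hz1 := hz.trans_le (min_le_left _ _)
      have hzn : ‖z‖ < ‖z₀‖ + 1 := by
        calc ‖z‖ = ‖z₀ + (z - z₀)‖ := by ring_nf
          _ ≤ ‖z₀‖ + ‖z - z₀‖ := norm_add_le _ _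
          _ < _ := by linarith
      exact ((hl n z (by linarith)).1.analyticAt_rat (hne z hz')).differentiableAt.differentiableWithinAt
    · rw [Metric.tendstoLocallyUniformlyOn_iff]
      intro ε hε z hz
      obtain ⟨δ, hδ, h1⟩ := hunif z (min (c / 4) (ε * (c / 4) ^ 2 / 2)) (by positivity)
      refine ⟨ball z δ ∩ ball z₀ (min 1 (c / 8)), ?_, ?_⟩
      · rw [Set.inter_comm]
        exact inter_mem_nhdsWithin _ (ball_mem_nhds z hδ)
      · filter_upwards [h1] with n hn y hy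
        have hn' := hn y hy.1
        have hy2 := hy.2
        rw [mem_ball, dist_eq_norm] at hy2
        have hz2 := hy2.trans_le (min_le_right _ _)
        have e1 := hLlip y z₀
        have e2 := hij (L y) (L z₀)
        have e3 : c ≤ ‖pm (L y) j j - pm (L z₀) j j‖ + ‖pm (L y) j j‖ := by
          rw [hc]
          calc ‖pm (L z₀) j j‖
              = ‖-(pm (L y) j j - pm (L z₀) j j) + pm (L y) j j‖ := by ring_nf
            _ ≤ ‖-(pm (L y) j j - pm (L z₀) j j)‖ + ‖pm (L y) j j‖ := norm_add_le _ _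
            _ = _ := by rw [norm_neg]
        have e4 : c / 4 ≤ ‖pm (L y) j j‖ := by linarith
        have e5 := hij (L y) (l n y)
        have e6 := hn'.trans_le (min_le_left _ _)
        have e7 := hn'.trans_le (min_le_right _ _)
        have e8 : ‖pm (L y) j j‖ ≤ ‖pm (L y) j j - pm (l n y) j j‖ + ‖pm (l n y) j j‖ := by
          calc ‖pm (L y) j j‖ = ‖(pm (L y) j j - pm (l n y) j j) + pm (l n y) j j‖ := by ring_nf
            _ ≤ _ := norm_add_le _ _
        have e9 : c / 4 ≤ ‖pm (l n y) j j‖ := by linarith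
        rw [dist_eq_norm]
        refine (norm_rat_sub_le (by positivity) e4 e9).trans_lt ?_
        rw [div_mul_eq_mul_div, div_lt_iff₀ (by positivity)]
        linarith
  refine ⟨L, fun z₀ => ⟨?_, hLX z₀⟩, ?_⟩
  · obtain ⟨j, hj⟩ := exists_pm_ne (L z₀)
    obtain ⟨δ, hδ, h1, h2, h3⟩ := hloc z₀ j hj
    have h4 : DifferentiableOn ℂ (fun t => rat j (L t)) (ball z₀ δ) :=
      h3.differentiableOn (h2.mono fun n hn => hn.1) isOpen_ball
    refine ⟨fun t => rat j (L t), h4.analyticAt (ball_mem_nhds z₀ hδ), ?_⟩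
    filter_upwards [ball_mem_nhds z₀ hδ] with t ht
    exact ⟨rat_ne_zero (h1 t ht), mk_rat (h1 t ht)⟩
  · intro hcon
    obtain ⟨j, hj⟩ := exists_pm_ne (L 0)
    obtain ⟨δ, hδ, h1, h2, h3⟩ := hloc 0 j hj
    have hd := h3.deriv (h2.mono fun n hn => hn.1) isOpen_ball
    have hd0 : Tendsto (fun n => deriv (fun t => rat j (l n t)) 0) (hyperfilter ℕ : Filter ℕ)
        (𝓝 (deriv (fun t => rat j (L t)) 0)) := hd.tendsto_at (mem_ball_self hδ)
    have hr0 : Tendsto (fun n => rat j (l n 0)) (hyperfilter ℕ : Filter ℕ)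
        (𝓝 (rat j (L 0))) := h3.tendsto_at (mem_ball_self hδ)
    have hdz : deriv (fun t => rat j (L t)) 0 = 0 := by
      have : (fun t => rat j (L t)) =ᶠ[𝓝 0] fun _ => rat j (L 0) := by
        filter_upwards [hcon] with t ht
        rw [ht]
      rw [this.deriv_eq]
      simp
    rw [hdz] at hd0
    have hne := rat_ne_zero hj
    have hcont : ContinuousAt (fderiv ℝ (Psi : (ι → ℂ) → _)) (rat j (L 0)) :=
      ((contDiffAt_Psi hne).fderiv_right (m := 0) (by norm_cast)).continuousAt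
    have hlim2 : Tendsto (fun n => ‖fderiv ℝ (Psi : (ι → ℂ) → _) (rat j (l n 0))‖
        * ‖deriv (fun t => rat j (l n t)) 0‖) (hyperfilter ℕ : Filter ℕ)
        (𝓝 (‖fderiv ℝ (Psi : (ι → ℂ) → _) (rat j (L 0))‖ * ‖(0 : ι → ℂ)‖)) :=
      (hcont.tendsto.comp hr0).norm.mul hd0.norm
    rw [norm_zero, mul_zero] at hlim2
    have hge : (1 : ℝ) ≤ 0 := by
      refine ge_of_tendsto hlim2 ?_
      filter_upwards [h2, hlarge 1] with n hn hn1
      rw [← h0 n]
      refine speed_eq_of_eventuallyEq (r := fun t => rat j (l n t)) ?_ ?_ ?_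
      · filter_upwards [ball_mem_nhds (0 : ℂ) hδ] with t ht
        exact (Psi_rat (hn.2 t ht)).symm
      · exact hn.1.differentiableAt (ball_mem_nhds _ hδ)
      · exact rat_ne_zero (hn.2 0 (mem_ball_self hδ))
    linarith

end Pool.Agent.Lib.MP_225e67_ag
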