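import Pool.Agent.Lib.MP_225e67_ag.Proj

open scoped LinearAlgebra.Projectivization Topology ENNReal ContDiff
open Metric Filter

namespace Pool.Agent.Lib.MP_225e67_ag

/-- Moebius automorphism of the disc sending `0` to `a`. -/
noncomputable def mob (a u : ℂ) : ℂ := (u + a) / (1 + (starRingEnd ℂ) a * u)

lemma mob_den_ne {a u : ℂ} (ha : ‖a‖ < 1) (hu : ‖u‖ < 1) : 1 + (starRingEnd ℂ) a * u ≠ 0 := by
  intro h
  have h1 : (starRingEnd ℂ) a * u = -1 := by linear_combination h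
  have h2 : ‖a‖ * ‖u‖ = 1 := by
    have := congrArg norm h1
    rwa [norm_mul, RCLike.norm_conj, norm_neg, norm_one] at this
  nlinarith [norm_nonneg a, norm_nonneg u]

lemma one_sub_mob {a u : ℂ} (ha : ‖a‖ < 1) (hu : ‖u‖ < 1) :
    1 - ‖mob a u‖ ^ 2 = (1 - ‖a‖ ^ 2) * (1 - ‖u‖ ^ 2) / ‖1 + (starRingEnd ℂ) a * u‖ ^ 2 := by
  have h0 := mob_den_ne ha hu
  have h1 : 0 < ‖1 + (starRingEnd ℂ) a * u‖ := norm_pos_iff.2 h0
  unfold mob
  rw [norm_div, div_pow, eq_div_iff (by positivity), sub_mul, div_mul_cancel₀ _ (by positivity)]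
  have key : ((‖1 + (starRingEnd ℂ) a * u‖ ^ 2 - ‖u + a‖ ^ 2 : ℝ) : ℂ)
      = (((1 - ‖a‖ ^ 2) * (1 - ‖u‖ ^ 2) : ℝ) : ℂ) := by
    push_cast
    simp only [← Complex.mul_conj']
    simp only [map_add, map_mul, map_one, Complex.conj_conj]
    ring
  have := Complex.ofReal_injective key
  linarith

lemma norm_mob_lt {a u : ℂ} (ha : ‖a‖ < 1) (hu : ‖u‖ < 1) : ‖mob a u‖ < 1 := by
  have h := one_sub_mob ha hu
  have h0 := mob_den_ne ha hu
  have h1 : 0 < ‖1 + (starRingEnd ℂ) a * u‖ := norm_pos_iff.2 h0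
  have h2 : 0 < (1 - ‖a‖ ^ 2) * (1 - ‖u‖ ^ 2) / ‖1 + (starRingEnd ℂ) a * u‖ ^ 2 := by
    have h3 : 0 < 1 - ‖a‖ ^ 2 := by nlinarith [norm_nonneg a]
    have h4 : 0 < 1 - ‖u‖ ^ 2 := by nlinarith [norm_nonneg u]
    positivity
  rw [← h] at h2
  nlinarith [norm_nonneg (mob a u)]

lemma hasDerivAt_mob {a u : ℂ} (ha : ‖a‖ < 1) (hu : ‖u‖ < 1) :
    HasDerivAt (mob a) ((1 - (starRingEnd ℂ) a * a) / (1 + (starRingEnd ℂ) a * u) ^ 2) u := by
  have h0 := mob_den_ne ha hu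
  have h1 : HasDerivAt (fun u : ℂ => u + a) 1 u := (hasDerivAt_id u).add_const a
  have h2 : HasDerivAt (fun u : ℂ => 1 + (starRingEnd ℂ) a * u) ((starRingEnd ℂ) a) u := by
    simpa using ((hasDerivAt_id u).const_mul ((starRingEnd ℂ) a)).const_add 1
  have h3 := h1.div h2 h0
  have h4 : (1 * (1 + (starRingEnd ℂ) a * u) - (u + a) * (starRingEnd ℂ) a)
      = (1 - (starRingEnd ℂ) a * a) := by ring
  rw [h4] at h3
  exact h3

lemma analyticAt_mob {a u : ℂ} (ha : ‖a‖ < 1) (hu : ‖u‖ < 1) : AnalyticAt ℂ (mob a) u := by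
  have h0 := mob_den_ne ha hu
  unfold mob
  exact ((analyticAt_id.add analyticAt_const).div
    (analyticAt_const.add (analyticAt_const.mul analyticAt_id)) h0)

lemma norm_deriv_mob {a u : ℂ} (ha : ‖a‖ < 1) (hu : ‖u‖ < 1) :
    ‖deriv (mob a) u‖ = (1 - ‖mob a u‖ ^ 2) / (1 - ‖u‖ ^ 2) := by
  rw [(hasDerivAt_mob ha hu).deriv, one_sub_mob ha hu, norm_div, norm_pow]
  have h3 : 0 < 1 - ‖a‖ ^ 2 := by nlinarith [norm_nonneg a]
  have h4 : 0 < 1 - ‖u‖ ^ 2 := by nlinarith [norm_nonneg u]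
  have h5 : ‖1 - (starRingEnd ℂ) a * a‖ = 1 - ‖a‖ ^ 2 := by
    rw [Complex.conj_mul', show (1 : ℂ) - (‖a‖ : ℂ) ^ 2 = ((1 - ‖a‖ ^ 2 : ℝ) : ℂ) by push_cast; ring,
      Complex.norm_real, Real.norm_of_nonneg h3.le]
  rw [h5]
  have h0 := mob_den_ne ha hu
  have h1 : 0 < ‖1 + (starRingEnd ℂ) a * u‖ := norm_pos_iff.2 h0
  field_simp

lemma mob_zero (a : ℂ) : mob a 0 = a := by simp [mob]

lemma mob_inv {a b : ℂ} (ha : ‖a‖ < 1) (hb : ‖b‖ < 1) :
    mob a ((b - a) / (1 - (starRingEnd ℂ) a * b)) = b := by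
  have h0 : 1 - (starRingEnd ℂ) a * b ≠ 0 := by
    have := mob_den_ne (a := -a) (u := b) (by simpa using ha) hb
    simpa [sub_eq_add_neg] using this
  have h1 : 1 - (starRingEnd ℂ) a * a ≠ 0 := by
    have := mob_den_ne (a := -a) (u := a) (by simpa using ha) ha
    simpa [sub_eq_add_neg] using this
  unfold mob
  have h2 : 1 + (starRingEnd ℂ) a * ((b - a) / (1 - (starRingEnd ℂ) a * b))
      = (1 - (starRingEnd ℂ) a * a) / (1 - (starRingEnd ℂ) a * b) := by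
    field_simp
    ring
  have h3 : (b - a) / (1 - (starRingEnd ℂ) a * b) + a
      = b * (1 - (starRingEnd ℂ) a * a) / (1 - (starRingEnd ℂ) a * b) := by
    rw [div_add' _ _ _ h0]
    congr 1
    ring
  rw [h2, h3, div_div_div_cancel_right₀ h0, mul_div_cancel_right₀ _ h1]

lemma norm_mob_inv_lt {a b : ℂ} (ha : ‖a‖ < 1) (hb : ‖b‖ < 1) :
    ‖(b - a) / (1 - (starRingEnd ℂ) a * b)‖ < 1 := by
  have := norm_mob_lt (a := -a) (u := b) (by simpa using ha) hb
  simpa [mob, sub_eq_add_neg] using this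

lemma le_log_ratio {x : ℝ} (h0 : 0 ≤ x) (h1 : x < 1) : x ≤ Real.log ((1 + x) / (1 - x)) := by
  rw [Real.le_log_iff_exp_le (by apply div_pos <;> linarith), le_div_iff₀ (by linarith)]
  have h2 : 1 - x ≤ Real.exp (-x) := by
    have := Real.add_one_le_exp (-x)
    linarith
  calc Real.exp x * (1 - x) ≤ Real.exp x * Real.exp (-x) := by gcongr
    _ = 1 := by rw [← Real.exp_add]; simp
    _ ≤ 1 + x := by linarith

variable {ι : Type} [Fintype ι]

lemma poincareDist_nonneg {a b : ℂ} (ha : ‖a‖ < 1) (hb : ‖b‖ < 1) : 0 ≤ poincareDist a b := by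
  unfold poincareDist
  have h1 : ‖(a - b) / (1 - (starRingEnd ℂ) a * b)‖ < 1 := by
    rw [show (a - b) / (1 - (starRingEnd ℂ) a * b) = -((b - a) / (1 - (starRingEnd ℂ) a * b)) by
      rw [← neg_div, neg_sub], norm_neg]
    exact norm_mob_inv_lt ha hb
  exact (norm_nonneg _).trans (le_log_ratio (norm_nonneg _) h1)

lemma IsDisc.comp_mob {X : Set (PSpace ι)} {f : ℂ → PSpace ι} (hf : IsDisc X f) {a : ℂ}
    (ha : ‖a‖ < 1) : IsDisc X (fun u => f (mob a u)) := by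
  intro z hz
  rw [mem_ball_zero_iff] at hz
  have h1 : mob a z ∈ ball (0 : ℂ) 1 := by
    rw [mem_ball_zero_iff]
    exact norm_mob_lt ha hz
  exact ⟨HolomorphicAt.comp (hf _ h1).1 (analyticAt_mob ha hz), (hf _ h1).2⟩

/-- a uniform bound on the speed of discs at the origin gives a bound by the Poincare distance -/
lemma norm_pm_sub_le {X : Set (PSpace ι)} {C : ℝ} (hC : 0 ≤ C)
    (H : ∀ f : ℂ → PSpace ι, IsDisc X f → speed f 0 ≤ C) {f : ℂ → PSpace ι} (hf : IsDisc X f)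
    {a b : ℂ} (ha : a ∈ ball (0 : ℂ) 1) (hb : b ∈ ball (0 : ℂ) 1) :
    ‖pm (f a) - pm (f b)‖ ≤ (2 * C + 4) * poincareDist a b := by
  rw [mem_ball_zero_iff] at ha hb
  set g : ℂ → PSpace ι := fun u => f (mob a u) with hg
  have hgd : IsDisc X g := hf.comp_mob ha
  set u : ℂ := (b - a) / (1 - (starRingEnd ℂ) a * b) with hu
  have hu1 : ‖u‖ < 1 := norm_mob_inv_lt ha hb
  have hg0 : g 0 = f a := by rw [hg]; simp only; rw [mob_zero]
  have hgu : g u = f b := by rw [hg]; simp only; rw [hu, mob_inv ha hb]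
  have hsp : ∀ z ∈ ball (0 : ℂ) 1, speed g z ≤ C / (1 - ‖z‖ ^ 2) := by
    intro z hz
    rw [mem_ball_zero_iff] at hz
    have h1 := H _ (hgd.comp_mob hz)
    have h2 : mob z 0 ∈ ball (0 : ℂ) 1 := by rw [mob_zero, mem_ball_zero_iff]; exact hz
    have h3 := speed_comp (f := g) (φ := mob z) (z := 0) (hgd _ h2).1
      (hasDerivAt_mob hz (by simp)).differentiableAt
    rw [h3, norm_deriv_mob hz (by simp), mob_zero] at h1
    have h4 : 0 < 1 - ‖z‖ ^ 2 := by nlinarith [norm_nonneg z]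
    rw [le_div_iff₀ h4]
    simp at h1
    linarith
  have hlog : ‖u‖ ≤ poincareDist a b := by
    unfold poincareDist
    have h1 : ‖(a - b) / (1 - (starRingEnd ℂ) a * b)‖ = ‖u‖ := by
      rw [hu, show (a - b) / (1 - (starRingEnd ℂ) a * b)
        = -((b - a) / (1 - (starRingEnd ℂ) a * b)) by rw [← neg_div, neg_sub], norm_neg]
    rw [h1]
    exact le_log_ratio (norm_nonneg _) hu1
  have key : ‖pm (g 0) - pm (g u)‖ ≤ (2 * C + 4) * ‖u‖ := by
    rcases le_or_gt ‖u‖ (1 / 2) with h | h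
    · have h1 : ∀ z ∈ closedBall (0 : ℂ) (1 / 2), DifferentiableAt ℝ (fun t => pm (g t)) z := by
        intro z hz
        rw [mem_closedBall_zero_iff] at hz
        exact HolomorphicAt.differentiableAt (hgd z (by rw [mem_ball_zero_iff]; linarith)).1
      have h2 : ∀ z ∈ closedBall (0 : ℂ) (1 / 2), ‖fderiv ℝ (fun t => pm (g t)) z‖ ≤ 2 * C := by
        intro z hz
        rw [mem_closedBall_zero_iff] at hz
        refine (hsp z (by rw [mem_ball_zero_iff]; linarith)).trans ?_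
        have h4 : 1 / 2 ≤ 1 - ‖z‖ ^ 2 := by nlinarith [norm_nonneg z]
        rw [div_le_iff₀ (by linarith)]
        nlinarith
      have h3 := (convex_closedBall (0 : ℂ) (1 / 2)).norm_image_sub_le_of_norm_fderiv_le
        (𝕜 := ℝ) h1 h2 (x := u) (y := 0) (by rw [mem_closedBall_zero_iff]; exact h) (by simp)
      rw [zero_sub, norm_neg] at h3
      refine h3.trans ?_
      nlinarith [norm_nonneg u]
    · have h1 : ‖pm (g 0) - pm (g u)‖ ≤ 1 + 1 :=
        (norm_sub_le _ _).trans (add_le_add (norm_pm_le _) (norm_pm_le _))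
      nlinarith [norm_nonneg u]
  rw [hg0, hgu] at key
  refine key.trans ?_
  gcongr

/-- the bound for chains of discs -/
lemma chain_bound {X : Set (PSpace ι)} {C : ℝ} (hC : 0 ≤ C)
    (H : ∀ f : ℂ → PSpace ι, IsDisc X f → speed f 0 ≤ C)
    (k : ℕ) (g : ℕ → ℂ → PSpace ι) (a b : ℕ → ℂ)
    (hg : ∀ i, IsDisc X (g i) ∧ a i ∈ ball (0 : ℂ) 1 ∧ b i ∈ ball (0 : ℂ) 1)
    (hch : ∀ i, i < k → g i (b i) = g (i + 1) (a (i + 1))) :
    ‖pm (g 0 (a 0)) - pm (g k (b k))‖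
      ≤ (2 * C + 4) * ∑ i ∈ Finset.range (k + 1), poincareDist (a i) (b i) := by
  induction k with
  | zero =>
    rw [zero_add, Finset.sum_range_one]
    exact norm_pm_sub_le hC H (hg 0).1 (hg 0).2.1 (hg 0).2.2
  | succ k ih =>
    have h1 := ih fun i hi => hch i (by omega)
    have h2 := norm_pm_sub_le hC H (hg (k + 1)).1 (hg (k + 1)).2.1 (hg (k + 1)).2.2
    rw [← hch k (by omega)] at h2
    rw [Finset.sum_range_succ]
    calc ‖pm (g 0 (a 0)) - pm (g (k + 1) (b (k + 1)))‖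
        = ‖(pm (g 0 (a 0)) - pm (g k (b k))) + (pm (g k (b k)) - pm (g (k + 1) (b (k + 1))))‖ := by
          rw [sub_add_sub_cancel]
      _ ≤ ‖pm (g 0 (a 0)) - pm (g k (b k))‖ + ‖pm (g k (b k)) - pm (g (k + 1) (b (k + 1)))‖ :=
          norm_add_le _ _
      _ ≤ (2 * C + 4) * (∑ i ∈ Finset.range (k + 1), poincareDist (a i) (b i))
          + (2 * C + 4) * poincareDist (a (k + 1)) (b (k + 1)) := add_le_add h1 h2
      _ = _ := by ring

theorem hyperbolic_of_speed_bound {X : Set (PSpace ι)} {C : ℝ} (hC : 0 ≤ C)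
    (H : ∀ f : ℂ → PSpace ι, IsDisc X f → speed f 0 ≤ C) : IsKobayashiHyperbolic X := by
  intro p _ q _ h
  have hne : pm p - pm q ≠ 0 := fun h0 => h (pm_injective (sub_eq_zero.1 h0))
  have hpos : 0 < ‖pm p - pm q‖ := norm_pos_iff.2 hne
  refine ⟨‖pm p - pm q‖ / (2 * C + 4), by positivity, ?_⟩
  intro k g a b hg h0 hk hch
  have h1 := chain_bound hC H k g a b hg hch
  rw [h0, hk] at h1
  rw [div_le_iff₀ (by positivity)]
  linarith

end Pool.Agent.Lib.MP_225e67_ag
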