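import Mathlib
import Pool.Agent.Lib.MP_225e67_ag.Fermat

open Metric Filter Topology Complex

namespace Pool.Agent.Lib.MP_225e67_ag

/-- A nonvanishing holomorphic function on a disc has a holomorphic `n`-th root. -/
lemma exists_root_ball {R : ℝ} {e : ℂ → ℂ} (he : DifferentiableOn ℂ e (ball 0 R))
    (hne : ∀ z ∈ ball (0 : ℂ) R, e z ≠ 0) {n : ℕ} (hn : n ≠ 0) :
    ∃ k : ℂ → ℂ, DifferentiableOn ℂ k (ball 0 R) ∧
      ∀ z ∈ ball (0 : ℂ) R, k z ≠ 0 ∧ k z ^ n = e z := by
  rcases le_or_gt R 0 with hR | hR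
  · refine ⟨fun _ => 1, differentiableOn_const _, ?_⟩
    intro z hz
    rw [ball_eq_empty.mpr hR] at hz
    exact absurd hz (Set.notMem_empty z)
  have hq : DifferentiableOn ℂ (fun z => deriv e z / e z) (ball 0 R) :=
    (he.deriv isOpen_ball).div he hne
  obtain ⟨F, hF0, hF⟩ := (hq.isExactOn_ball).with_val_at 0 (Complex.log (e 0))
  have h0 : (0 : ℂ) ∈ ball (0 : ℂ) R := mem_ball_self hR
  have hconst : ∀ z ∈ ball (0 : ℂ) R, e z * Complex.exp (-F z) = 1 := by
    have hd : ∀ z ∈ ball (0 : ℂ) R,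
        HasDerivAt (fun t => e t * Complex.exp (-F t)) 0 z := by
      intro z hz
      have he' : HasDerivAt e (deriv e z) z :=
        (he.differentiableAt (isOpen_ball.mem_nhds hz)).hasDerivAt
      have h1 : HasDerivAt (fun t => e t * Complex.exp (-F t)) (deriv e z * Complex.exp (-F z) +
          e z * (Complex.exp (-F z) * -(deriv e z / e z))) z := he'.mul ((hF z hz).neg.cexp)
      have h2 : deriv e z * Complex.exp (-F z) + e z * (Complex.exp (-F z) *
          -(deriv e z / e z)) = 0 := by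
        have := hne z hz
        field_simp
        ring
      rw [h2] at h1
      exact h1
    intro z hz
    have h1 := (convex_ball (0 : ℂ) R).is_const_of_fderivWithin_eq_zero
      (f := fun t => e t * Complex.exp (-F t)) (𝕜 := ℂ)
      (fun t ht => (hd t ht).differentiableAt.differentiableWithinAt) ?_ hz h0
    · rw [h1, hF0, Complex.exp_neg, Complex.exp_log (hne 0 h0), mul_inv_cancel₀ (hne 0 h0)]
    · intro t ht
      have h3 := (hd t ht).hasFDerivAt.hasFDerivWithinAt (s := ball (0 : ℂ) R)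
      have h4 := h3.fderivWithin (isOpen_ball.uniqueDiffWithinAt ht)
      rw [h4]
      ext
      simp
  refine ⟨fun z => Complex.exp (F z / n), ?_, ?_⟩
  · intro z hz
    exact (((hF z hz).div_const _).cexp).differentiableAt.differentiableWithinAt
  · intro z hz
    refine ⟨Complex.exp_ne_zero _, ?_⟩
    rw [← Complex.exp_nat_mul, mul_div_cancel₀ _ (Nat.cast_ne_zero.mpr hn)]
    have h1 := hconst z hz
    rw [Complex.exp_neg] at h1
    have h2 : Complex.exp (F z) ≠ 0 := Complex.exp_ne_zero _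
    field_simp at h1
    exact h1.symm

/-- Extraction of fourth roots of a meromorphic function on a disc all of whose orders are
divisible by four. -/
lemma extract4 {r r' : ℝ} (hrr : r < r') {φ : ℂ → ℂ}
    (hφ : MeromorphicOn φ (closedBall 0 r'))
    (h1 : ∀ z ∈ closedBall (0 : ℂ) r', meromorphicOrderAt φ z ≠ ⊤)
    (h2 : ∀ z ∈ closedBall (0 : ℂ) r', (4 : ℤ) ∣ (meromorphicOrderAt φ z).untop₀) :
    ∃ A B : ℂ → ℂ, AnalyticOnNhd ℂ A (closedBall 0 r) ∧ AnalyticOnNhd ℂ B (closedBall 0 r) ∧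
      (∀ z ∈ closedBall (0 : ℂ) r, A z ≠ 0 ∨ B z ≠ 0) ∧
      ∀ z ∈ closedBall (0 : ℂ) r, ∀ᶠ t in 𝓝[≠] z, B t ≠ 0 ∧ φ t * B t ^ 4 = A t ^ 4 := by
  classical
  set U : Set ℂ := closedBall (0 : ℂ) r' with hU
  have hUb : closedBall (0 : ℂ) r ⊆ ball (0 : ℂ) r' := closedBall_subset_ball hrr
  have hfin : (MeromorphicOn.divisor φ U).support.Finite :=
    (MeromorphicOn.divisor φ U).finiteSupport (isCompact_closedBall _ _)
  obtain ⟨g, hga, hgne, hgeq⟩ := hφ.extract_zeros_poles (fun u => h1 u u.2) hfin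
  have hgd : DifferentiableOn ℂ g (ball 0 r') := fun z hz =>
    (hga z (ball_subset_closedBall hz)).differentiableAt.differentiableWithinAt
  obtain ⟨k, hkd, hk⟩ := exists_root_ball hgd
    (fun z hz => hgne ⟨z, ball_subset_closedBall hz⟩) (n := 4) (by norm_num)
  set D : ℂ → ℤ := fun u => MeromorphicOn.divisor φ U u with hD
  have hDfin : (Function.support D).Finite := hfin
  set T : Finset ℂ := hDfin.toFinset with hT
  have hD4 : ∀ u, (4 : ℤ) ∣ D u := by
    intro u
    by_cases hu : u ∈ U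
    · simp only [hD]
      rw [MeromorphicOn.divisor_apply hφ hu]
      exact h2 u hu
    · have : D u = 0 := by
        by_contra hc
        exact hu ((MeromorphicOn.divisor φ U).supportWithinDomain hc)
      rw [this]; exact dvd_zero _
  have hD' : ∀ u, ∃ m n : ℕ, D u = 4 * (m : ℤ) - 4 * (n : ℤ) ∧ (m = 0 ∨ n = 0) := by
    intro u
    obtain ⟨c, hc⟩ := hD4 u
    rcases le_total 0 c with h | h
    · exact ⟨c.toNat, 0, by rw [hc]; simp [Int.toNat_of_nonneg h], Or.inr rfl⟩
    · exact ⟨0, (-c).toNat, by rw [hc]; simp [Int.toNat_of_nonneg (neg_nonneg.mpr h)], Or.inl rfl⟩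
  choose m n hmn hmn0 using hD'
  refine ⟨fun z => (∏ u ∈ T, (z - u) ^ m u) * k z, fun z => ∏ u ∈ T, (z - u) ^ n u, ?_, ?_, ?_, ?_⟩
  · intro z hz
    refine AnalyticAt.mul ?_ ?_
    · fun_prop
    · exact (hkd.analyticAt (isOpen_ball.mem_nhds (hUb hz)))
  · intro z hz
    fun_prop
  · intro z hz
    by_contra hc
    push Not at hc
    obtain ⟨hA, hB⟩ := hc
    have hkz := (hk z (hUb hz)).1
    have hA' : (∏ u ∈ T, (z - u) ^ m u) = 0 := by
      rcases mul_eq_zero.mp hA with h | h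
      · exact h
      · exact absurd h hkz
    obtain ⟨u, hu, hu2⟩ := Finset.prod_eq_zero_iff.mp hA'
    obtain ⟨v, hv, hv2⟩ := Finset.prod_eq_zero_iff.mp hB
    have hzu : z - u = 0 := by
      by_contra hcc; exact pow_ne_zero _ hcc hu2
    have hzv : z - v = 0 := by
      by_contra hcc; exact pow_ne_zero _ hcc hv2
    have huz : u = z := (sub_eq_zero.mp hzu).symm
    have hvz : v = z := (sub_eq_zero.mp hzv).symm
    subst huz
    subst hvz
    rcases hmn0 v with h | h
    · rw [h, pow_zero] at hu2; exact one_ne_zero hu2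
    · rw [h, pow_zero] at hv2; exact one_ne_zero hv2
  · intro z hz
    have hzU : z ∈ U := ball_subset_closedBall (hUb hz)
    have h3 := (mem_codiscreteWithin_iff_forall_mem_nhdsNE.mp hgeq) z hzU
    have hball : ∀ᶠ t in 𝓝[≠] z, t ∈ ball (0 : ℂ) r' :=
      (isOpen_ball.eventually_mem (hUb hz)).filter_mono nhdsWithin_le_nhds
    have hTev : ∀ᶠ t in 𝓝[≠] z, t ∉ (T : Set ℂ) := by
      have : IsClosed ((T : Set ℂ) \ {z}) := (T.finite_toSet.subset Set.sdiff_subset).isClosed
      have h4 : ((T : Set ℂ) \ {z})ᶜ ∈ 𝓝 z := this.isOpen_compl.mem_nhds (by simp)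
      have h5 : ∀ᶠ t in 𝓝[≠] z, t ∈ ((T : Set ℂ) \ {z})ᶜ := mem_nhdsWithin_of_mem_nhds h4
      have h6 : ∀ᶠ t in 𝓝[≠] z, t ≠ z := self_mem_nhdsWithin
      filter_upwards [h5, h6] with t ht1 ht2 ht3
      exact ht1 ⟨ht3, ht2⟩
    have h3' : ∀ᶠ t in 𝓝[≠] z, t ∈ {x | φ x = ((∏ᶠ u, (· - u) ^ MeromorphicOn.divisor φ U u) • g) x}
        ∪ Uᶜ := h3
    filter_upwards [h3', hball, hTev] with t ht1 ht2 ht3
    have htU : t ∈ U := ball_subset_closedBall ht2
    have hφt : φ t = ((∏ᶠ u, (· - u) ^ MeromorphicOn.divisor φ U u) • g) t := by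
      rcases ht1 with h | h
      · exact h
      · exact absurd htU h
    have hne : ∀ u ∈ T, t - u ≠ 0 := by
      intro u hu hc
      rw [sub_eq_zero] at hc
      exact ht3 (hc ▸ hu)
    have hBne : (∏ u ∈ T, (t - u) ^ n u) ≠ 0 :=
      Finset.prod_ne_zero_iff.mpr fun u hu => pow_ne_zero _ (hne u hu)
    refine ⟨hBne, ?_⟩
    have hfp : (∏ᶠ u, (· - u) ^ MeromorphicOn.divisor φ U u : ℂ → ℂ) t = ∏ u ∈ T, (t - u) ^ D u := by
      have h7 := Function.FactorizedRational.finprod_eq_fun (𝕜 := ℂ)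
        (d := MeromorphicOn.divisor φ U) hfin
      have h8 := congrFun h7 t
      rw [h8]
      refine finprod_eq_prod_of_mulSupport_subset _ ?_
      intro u hu
      simp only [Function.mem_mulSupport] at hu
      rw [hT, Set.Finite.coe_toFinset, Function.mem_support]
      intro hc
      apply hu
      have : MeromorphicOn.divisor φ U u = 0 := hc
      rw [this, zpow_zero]
    have hkt := (hk t ht2).2
    rw [hφt]
    simp only [Pi.smul_apply', smul_eq_mul]
    rw [hfp, ← hkt]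
    have hprod : (∏ u ∈ T, (t - u) ^ D u) * (∏ u ∈ T, (t - u) ^ n u) ^ 4 =
        (∏ u ∈ T, (t - u) ^ m u) ^ 4 := by
      rw [← Finset.prod_pow, ← Finset.prod_pow, ← Finset.prod_mul_distrib]
      refine Finset.prod_congr rfl fun u hu => ?_
      have h9 := hne u hu
      rw [← pow_mul, ← pow_mul, ← zpow_natCast (t - u) (n u * 4), ← zpow_natCast (t - u) (m u * 4),
        ← zpow_add₀ h9, hmn u]
      congr 1
      push_cast
      ring
    calc (∏ u ∈ T, (t - u) ^ D u) * k t ^ 4 * (∏ u ∈ T, (t - u) ^ n u) ^ 4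
        = ((∏ u ∈ T, (t - u) ^ D u) * (∏ u ∈ T, (t - u) ^ n u) ^ 4) * k t ^ 4 := by ring
      _ = ((∏ u ∈ T, (t - u) ^ m u) * k t) ^ 4 := by rw [hprod]; ring

lemma eq_of_eventually_nhdsNE {f g : ℂ → ℂ} {z : ℂ} (hf : ContinuousAt f z)
    (hg : ContinuousAt g z) (h : ∀ᶠ t in 𝓝[≠] z, f t = g t) : f z = g z := by
  have h1 : Tendsto f (𝓝[≠] z) (𝓝 (f z)) := hf.tendsto.mono_left nhdsWithin_le_nhds
  have h2 : Tendsto g (𝓝[≠] z) (𝓝 (g z)) := hg.tendsto.mono_left nhdsWithin_le_nhds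
  have h3 : Tendsto f (𝓝[≠] z) (𝓝 (g z)) := h2.congr' (h.mono fun t ht => ht.symm)
  exact tendsto_nhds_unique h1 h3

lemma eventually_nhds_of_nhdsNE {p : ℂ → Prop} {z : ℂ} (h : ∀ᶠ t in 𝓝[≠] z, p t) (hz : p z) :
    ∀ᶠ t in 𝓝 z, p t := by
  have h1 := eventually_nhdsWithin_iff.mp h
  filter_upwards [h1] with t ht
  by_cases htz : t = z
  · rw [htz]; exact hz
  · exact ht htz

theorem picard4_zero {R : ℂ → ℂ} (hR : MeromorphicOn R Set.univ)
    (h1 : ∀ z, meromorphicOrderAt R z ≠ ⊤)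
    (h2 : ∀ z, meromorphicOrderAt (fun t => R t + 1) z ≠ ⊤)
    (h3 : ∀ z, (4 : ℤ) ∣ (meromorphicOrderAt R z).untop₀)
    (h4 : ∀ z, (4 : ℤ) ∣ (meromorphicOrderAt (fun t => R t + 1) z).untop₀)
    (ha : AnalyticAt ℂ R 0) : deriv R 0 = 0 := by
  set a : ℝ := 1 + ‖R 0‖ with hadef
  set c : ℝ := 2 + ‖R 0‖ with hcdef
  set N : ℝ := a ^ 2 + 1 + c ^ 2 with hN
  set K : ℝ := 288 * a ^ 6 * N ^ 2 with hK
  have ha1 : 1 ≤ a := by have := norm_nonneg (R 0); linarith
  have hc1 : 1 ≤ c := by have := norm_nonneg (R 0); linarith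
  have hK0 : 0 ≤ K := by positivity
  have hbound : ∀ r : ℝ, 0 < r → ‖deriv R 0‖ ^ 2 * r ^ 2 ≤ K := by
    intro r hr
    obtain ⟨A, B, hA, hB, hAB, hRAB⟩ := extract4 (r := r + 1) (r' := r + 2) (by linarith)
      (fun z _ => hR z (Set.mem_univ z)) (fun z _ => h1 z) (fun z _ => h3 z)
    set φ : ℂ → ℂ := fun z => -(A z ^ 4 + B z ^ 4) with hφ
    have hφan : ∀ z ∈ closedBall (0 : ℂ) (r + 1), AnalyticAt ℂ φ z := fun z hz =>
      (((hA z hz).pow 4).add ((hB z hz).pow 4)).neg
    have hφcongr : ∀ z ∈ closedBall (0 : ℂ) (r + 1),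
        φ =ᶠ[𝓝[≠] z] -((fun t => R t + 1) * B ^ 4) := by
      intro z hz
      filter_upwards [hRAB z hz] with t ht
      simp only [hφ, Pi.neg_apply, Pi.mul_apply, Pi.pow_apply]
      rw [← ht.2]; ring
    have hBne : ∀ z ∈ closedBall (0 : ℂ) (r + 1), meromorphicOrderAt B z ≠ ⊤ := by
      intro z hz
      rw [meromorphicOrderAt_ne_top_iff_eventually_ne_zero (hB z hz).meromorphicAt]
      exact (hRAB z hz).mono fun t ht => ht.1
    have hφord : ∀ z ∈ closedBall (0 : ℂ) (r + 1), meromorphicOrderAt φ z =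
        meromorphicOrderAt (fun t => R t + 1) z + 4 * meromorphicOrderAt B z := by
      intro z hz
      have hR1 : MeromorphicAt (fun t => R t + 1) z :=
        (hR z (Set.mem_univ z)).add (MeromorphicAt.const 1 z)
      rw [meromorphicOrderAt_congr (hφcongr z hz), ← meromorphicOrderAt_neg,
        meromorphicOrderAt_mul hR1 ((hB z hz).meromorphicAt.pow 4),
        meromorphicOrderAt_pow (hB z hz).meromorphicAt]
      norm_cast
    have hφtop : ∀ z ∈ closedBall (0 : ℂ) (r + 1), meromorphicOrderAt φ z ≠ ⊤ := by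
      intro z hz
      rw [hφord z hz]
      lift meromorphicOrderAt (fun t => R t + 1) z to ℤ using h2 z with p hp
      lift meromorphicOrderAt B z to ℤ using hBne z hz with q hq
      have : ((p : WithTop ℤ) + 4 * (q : WithTop ℤ)) = ((p + 4 * q : ℤ) : WithTop ℤ) := by
        norm_cast
      rw [this]
      exact WithTop.coe_ne_top
    have hφ4 : ∀ z ∈ closedBall (0 : ℂ) (r + 1),
        (4 : ℤ) ∣ (meromorphicOrderAt φ z).untop₀ := by
      intro z hz
      have h5 := h4 z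
      rw [hφord z hz]
      lift meromorphicOrderAt (fun t => R t + 1) z to ℤ using h2 z with p hp
      lift meromorphicOrderAt B z to ℤ using hBne z hz with q hq
      have : ((p : WithTop ℤ) + 4 * (q : WithTop ℤ)) = ((p + 4 * q : ℤ) : WithTop ℤ) := by
        norm_cast
      rw [this]
      rw [WithTop.untop₀_coe] at h5 ⊢
      exact dvd_add h5 (dvd_mul_right _ _)
    obtain ⟨A', B', hA', hB', hAB', hφAB⟩ := extract4 (r := r) (r' := r + 1) (by linarith)
      (fun z hz => (hφan z hz).meromorphicAt) hφtop hφ4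
    have hsub : closedBall (0 : ℂ) r ⊆ closedBall (0 : ℂ) (r + 1) :=
      closedBall_subset_closedBall (by linarith)
    have hφeq : ∀ z ∈ closedBall (0 : ℂ) r, φ z * B' z ^ 4 = A' z ^ 4 := by
      intro z hz
      refine eq_of_eventually_nhdsNE (f := fun t => φ t * B' t ^ 4) (g := fun t => A' t ^ 4)
        ((hφan z (hsub hz)).mul ((hB' z hz).pow 4)).continuousAt
        ((hA' z hz).pow 4).continuousAt ?_
      exact (hφAB z hz).mono fun t ht => ht.2
    have hB'ne : ∀ z ∈ closedBall (0 : ℂ) r, B' z ≠ 0 := by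
      intro z hz hc
      have h5 := hφeq z hz
      rw [hc] at h5
      have h6 : A' z ^ 4 = 0 := by rw [← h5]; ring
      have h7 : A' z = 0 := by
        by_contra hcc; exact pow_ne_zero 4 hcc h6
      rcases hAB' z hz with h | h
      · exact h h7
      · exact h hc
    set G : ℂ → ℂ := fun z => A' z / B' z with hG
    have hGan : ∀ z ∈ closedBall (0 : ℂ) r, AnalyticAt ℂ G z := fun z hz =>
      (hA' z hz).div (hB' z hz) (hB'ne z hz)
    have hG4 : ∀ z ∈ closedBall (0 : ℂ) r, G z ^ 4 = -(A z ^ 4 + B z ^ 4) := by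
      intro z hz
      have h5 := hφeq z hz
      have h6 := hB'ne z hz
      simp only [hG, div_pow]
      rw [div_eq_iff (pow_ne_zero 4 h6)]
      exact h5.symm
    set g : ℂ → Fin 3 → ℂ := fun z => ![A z, B z, G z] with hg
    have hgan : AnalyticOnNhd ℂ g (closedBall 0 r) := by
      intro z hz
      rw [analyticAt_pi_iff]
      intro i
      fin_cases i
      · exact hA z (hsub hz)
      · exact hB z (hsub hz)
      · exact hGan z hz
    have hgne : ∀ z ∈ closedBall (0 : ℂ) r, g z ≠ 0 := by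
      intro z hz hc
      rcases hAB z (hsub hz) with h | h
      · exact h (by simpa [hg] using congrFun hc 0)
      · exact h (by simpa [hg] using congrFun hc 1)
    have hgF : ∀ z ∈ closedBall (0 : ℂ) r, g z 0 ^ 4 + g z 1 ^ 4 + g z 2 ^ 4 = 0 := by
      intro z hz
      have h5 := hG4 z hz
      simp only [hg, Matrix.cons_val_zero, Matrix.cons_val_one, Matrix.cons_val]
      rw [h5]; ring
    have hfb := fermat_bound hr hgan hgne hgF
    have h0 : (0 : ℂ) ∈ closedBall (0 : ℂ) r := mem_closedBall_self hr.le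
    have h0' : (0 : ℂ) ∈ closedBall (0 : ℂ) (r + 1) := hsub h0
    -- derivatives at 0
    have hRAB0 : R 0 * B 0 ^ 4 = A 0 ^ 4 :=
      eq_of_eventually_nhdsNE (f := fun t => R t * B t ^ 4) (g := fun t => A t ^ 4)
        (ha.mul ((hB 0 h0').pow 4)).continuousAt ((hA 0 h0').pow 4).continuousAt
        ((hRAB 0 h0').mono fun t ht => ht.2)
    have hRABn : ∀ᶠ t in 𝓝 0, R t * B t ^ 4 = A t ^ 4 :=
      eventually_nhds_of_nhdsNE ((hRAB 0 h0').mono fun t ht => ht.2) hRAB0
    have hB0 : B 0 ≠ 0 := by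
      intro hc
      rw [hc] at hRAB0
      have h6 : A 0 ^ 4 = 0 := by rw [← hRAB0]; ring
      have h7 : A 0 = 0 := by
        by_contra hcc; exact pow_ne_zero 4 hcc h6
      rcases hAB 0 h0' with h | h
      · exact h h7
      · exact h hc
    have hAd : HasDerivAt A (deriv A 0) 0 := (hA 0 h0').differentiableAt.hasDerivAt
    have hBd : HasDerivAt B (deriv B 0) 0 := (hB 0 h0').differentiableAt.hasDerivAt
    have hRd : HasDerivAt R (deriv R 0) 0 := ha.differentiableAt.hasDerivAt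
    have hgd : HasDerivAt g (deriv g 0) 0 := (hgan 0 h0).differentiableAt.hasDerivAt
    have hg'0 : deriv g 0 0 = deriv A 0 :=
      ((hasDerivAt_pi.mp hgd) 0).unique hAd
    have hg'1 : deriv g 0 1 = deriv B 0 :=
      ((hasDerivAt_pi.mp hgd) 1).unique hBd
    have hder : deriv R 0 * B 0 ^ 4 + R 0 * (4 * B 0 ^ 3 * deriv B 0) =
        4 * A 0 ^ 3 * deriv A 0 := by
      have e1 : HasDerivAt (fun t => R t * B t ^ 4)
          (deriv R 0 * B 0 ^ 4 + R 0 * (((4 : ℕ) : ℂ) * B 0 ^ 3 * deriv B 0)) 0 :=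
        hRd.mul (hBd.pow 4)
      have e2 : HasDerivAt (fun t => A t ^ 4) (((4 : ℕ) : ℂ) * A 0 ^ 3 * deriv A 0) 0 :=
        hAd.pow 4
      have e3 := (e2.congr_of_eventuallyEq hRABn).unique e1
      push_cast at e3
      exact e3.symm
    have hkey : deriv R 0 * B 0 ^ 5 = 4 * A 0 ^ 3 * (deriv A 0 * B 0 - A 0 * deriv B 0) := by
      linear_combination B 0 * hder - 4 * deriv B 0 * hRAB0
    have hw : ‖deriv A 0 * B 0 - A 0 * deriv B 0‖ ^ 2 ≤ wsq (g 0) (deriv g 0) := by
      unfold wsq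
      rw [hg'0, hg'1]
      have e4 : g 0 0 = A 0 := rfl
      have e5 : g 0 1 = B 0 := rfl
      rw [e4, e5]
      have e6 : ‖deriv A 0 * B 0 - A 0 * deriv B 0‖ = ‖A 0 * deriv B 0 - B 0 * deriv A 0‖ := by
        rw [← norm_neg]; congr 1; ring
      rw [e6]
      have := sq_nonneg ‖B 0 * deriv g 0 2 - g 0 2 * deriv B 0‖
      have := sq_nonneg ‖g 0 2 * deriv A 0 - A 0 * deriv g 0 2‖
      linarith
    set b : ℝ := ‖B 0‖ with hb
    have hbpos : 0 < b := norm_pos_iff.mpr hB0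
    have hAle : ‖A 0‖ ≤ a * b := by
      have e7 : ‖A 0‖ ^ 4 ≤ (a * b) ^ 4 := by
        have e8 : ‖A 0‖ ^ 4 = ‖R 0‖ * b ^ 4 := by
          rw [← norm_pow, ← hRAB0, norm_mul, norm_pow]
        rw [e8, mul_pow]
        have e9 : ‖R 0‖ ≤ a ^ 4 := by
          have e10 : ‖R 0‖ ≤ a := by linarith
          have e11 : a ≤ a ^ 4 := le_self_pow₀ ha1 (by norm_num)
          linarith
        exact mul_le_mul_of_nonneg_right e9 (by positivity)
      exact le_of_pow_le_pow_left₀ (by norm_num) (by positivity) e7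
    have hGle : ‖G 0‖ ≤ c * b := by
      have e7 : ‖G 0‖ ^ 4 ≤ (c * b) ^ 4 := by
        have e8 : ‖G 0‖ ^ 4 = ‖R 0 + 1‖ * b ^ 4 := by
          rw [← norm_pow, hG4 0 h0, ← hRAB0, norm_neg, ← norm_pow, ← norm_mul]
          congr 1; ring
        rw [e8, mul_pow]
        have e9 : ‖R 0 + 1‖ ≤ c ^ 4 := by
          have e10 : ‖R 0 + 1‖ ≤ c := by
            have := norm_add_le (R 0) 1
            rw [norm_one] at this
            linarith
          have e11 : c ≤ c ^ 4 := le_self_pow₀ hc1 (by norm_num)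
          linarith
        exact mul_le_mul_of_nonneg_right e9 (by positivity)
      exact le_of_pow_le_pow_left₀ (by norm_num) (by positivity) e7
    have hnsq : nsq (g 0) ≤ N * b ^ 2 := by
      unfold nsq
      have e4 : g 0 0 = A 0 := rfl
      have e5 : g 0 1 = B 0 := rfl
      have e6 : g 0 2 = G 0 := rfl
      rw [e4, e5, e6]
      have e7 : ‖A 0‖ ^ 2 ≤ (a * b) ^ 2 := pow_le_pow_left₀ (norm_nonneg _) hAle 2
      have e8 : ‖G 0‖ ^ 2 ≤ (c * b) ^ 2 := pow_le_pow_left₀ (norm_nonneg _) hGle 2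
      rw [mul_pow] at e7 e8
      rw [hN]
      nlinarith
    have hnsq2 : nsq (g 0) ^ 2 ≤ N ^ 2 * b ^ 4 := by
      have := pow_le_pow_left₀ (nsq_nonneg _) hnsq 2
      calc nsq (g 0) ^ 2 ≤ (N * b ^ 2) ^ 2 := this
        _ = N ^ 2 * b ^ 4 := by ring
    have hA6 : ‖A 0‖ ^ 6 ≤ a ^ 6 * b ^ 6 := by
      have := pow_le_pow_left₀ (norm_nonneg _) hAle 6
      rwa [mul_pow] at this
    have hk2 : ‖deriv R 0‖ ^ 2 * b ^ 10 =
        16 * ‖A 0‖ ^ 6 * ‖deriv A 0 * B 0 - A 0 * deriv B 0‖ ^ 2 := by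
      have e7 := congrArg (fun x => ‖x‖ ^ 2) hkey
      simp only [norm_mul, norm_pow, mul_pow] at e7
      have e8 : ‖(4 : ℂ)‖ = 4 := by norm_num
      rw [e8] at e7
      calc ‖deriv R 0‖ ^ 2 * b ^ 10 = ‖deriv R 0‖ ^ 2 * (‖B 0‖ ^ 5) ^ 2 := by rw [hb]; ring
        _ = _ := by rw [e7]; ring
    have hfinal : (‖deriv R 0‖ ^ 2 * r ^ 2) * b ^ 10 ≤ K * b ^ 10 := by
      calc (‖deriv R 0‖ ^ 2 * r ^ 2) * b ^ 10 = (‖deriv R 0‖ ^ 2 * b ^ 10) * r ^ 2 := by ring
        _ = 16 * ‖A 0‖ ^ 6 * (‖deriv A 0 * B 0 - A 0 * deriv B 0‖ ^ 2 * r ^ 2) := by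
          rw [hk2]; ring
        _ ≤ 16 * ‖A 0‖ ^ 6 * (wsq (g 0) (deriv g 0) * r ^ 2) := by
          refine mul_le_mul_of_nonneg_left ?_ (by positivity)
          exact mul_le_mul_of_nonneg_right hw (by positivity)
        _ ≤ 16 * ‖A 0‖ ^ 6 * (18 * nsq (g 0) ^ 2) :=
          mul_le_mul_of_nonneg_left hfb (by positivity)
        _ ≤ 16 * ‖A 0‖ ^ 6 * (18 * (N ^ 2 * b ^ 4)) := by
          refine mul_le_mul_of_nonneg_left ?_ (by positivity)
          linarith
        _ ≤ 16 * (a ^ 6 * b ^ 6) * (18 * (N ^ 2 * b ^ 4)) := by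
          refine mul_le_mul_of_nonneg_right ?_ (by positivity)
          linarith
        _ = K * b ^ 10 := by rw [hK]; ring
    exact le_of_mul_le_mul_right hfinal (by positivity)
  by_contra hne
  have hpos : 0 < ‖deriv R 0‖ := norm_pos_iff.mpr hne
  have h5 := hbound ((K + 1) / ‖deriv R 0‖) (by positivity)
  have h6 : ‖deriv R 0‖ ^ 2 * ((K + 1) / ‖deriv R 0‖) ^ 2 = (K + 1) ^ 2 := by
    field_simp
  rw [h6] at h5
  nlinarith

/-- An analytic function with vanishing derivative near a point is locally constant there. -/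
lemma eventually_const_of_deriv {g : ℂ → ℂ} {z : ℂ} (hg : AnalyticAt ℂ g z)
    (h : ∀ᶠ t in 𝓝[≠] z, deriv g t = 0) : ∀ᶠ t in 𝓝 z, g t = g z := by
  have h0 : deriv g z = 0 :=
    eq_of_eventually_nhdsNE (f := deriv g) (g := fun _ => 0) hg.deriv.continuousAt
      continuousAt_const h
  have h1 : ∀ᶠ t in 𝓝 z, deriv g t = 0 := eventually_nhds_of_nhdsNE h h0
  have h2 : ∀ᶠ t in 𝓝 z, DifferentiableAt ℂ g t :=
    hg.eventually_analyticAt.mono fun t ht => ht.differentiableAt
  obtain ⟨ε, hε, hball⟩ := Metric.eventually_nhds_iff_ball.mp (h1.and h2)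
  filter_upwards [ball_mem_nhds z hε] with t ht
  refine (convex_ball z ε).is_const_of_fderivWithin_eq_zero (𝕜 := ℂ) (f := g)
    (fun s hs => (hball s hs).2.differentiableWithinAt) ?_ ht (mem_ball_self hε)
  intro s hs
  rw [fderivWithin_of_isOpen isOpen_ball hs]
  ext
  simpa using (hball s hs).1

/-- A meromorphic function with vanishing derivative is locally constant near each point. -/
lemma eventually_const_of_meromorphic {f : ℂ → ℂ} {z : ℂ} (hf : MeromorphicAt f z)
    (h : ∀ᶠ t in 𝓝[≠] z, deriv f t = 0) : ∃ c, ∀ᶠ t in 𝓝[≠] z, f t = c := by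
  have hnn : 0 ≤ meromorphicOrderAt f z := by
    by_contra hc
    push Not at hc
    have hne : meromorphicOrderAt f z ≠ ⊤ := hc.ne_top
    lift meromorphicOrderAt f z to ℤ using hne with n hn
    have hn0 : n < 0 := by exact_mod_cast hc
    have h1 := meromorphicOrderAt_deriv_eq_sub_one (n := n) (f := f) (x := z)
      (by exact_mod_cast hn0.ne) hn.symm
    have h2 : meromorphicOrderAt (deriv f) z = ⊤ := meromorphicOrderAt_eq_top_iff.mpr h
    rw [h2] at h1
    exact WithTop.coe_ne_top h1.symm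
  obtain ⟨g, hg, hfg⟩ := hf.meromorphicOrderAt_nonneg_iff.mp hnn
  have h1 : ∀ᶠ t in 𝓝[≠] z, deriv g t = 0 := by
    filter_upwards [hfg.nhdsNE_deriv, h] with t h2 h3
    rw [← h2, h3]
  refine ⟨g z, ?_⟩
  have h2 := (eventually_const_of_deriv hg h1).filter_mono (nhdsWithin_le_nhds (s := {z}ᶜ))
  filter_upwards [hfg, h2] with t h3 h4
  rw [h3, h4]

theorem picard4_deriv {R : ℂ → ℂ} (hR : MeromorphicOn R Set.univ)
    (h1 : ∀ z, meromorphicOrderAt R z ≠ ⊤)
    (h2 : ∀ z, meromorphicOrderAt (fun t => R t + 1) z ≠ ⊤)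
    (h3 : ∀ z, (4 : ℤ) ∣ (meromorphicOrderAt R z).untop₀)
    (h4 : ∀ z, (4 : ℤ) ∣ (meromorphicOrderAt (fun t => R t + 1) z).untop₀)
    (z : ℂ) (ha : AnalyticAt ℂ R z) : deriv R z = 0 := by
  have hS : MeromorphicOn (R ∘ (· + z)) Set.univ := by
    intro t _
    have : MeromorphicAt R (t + z) := hR _ (Set.mem_univ _)
    exact meromorphicAt_comp_add_const_iff_meromorphicAt.mpr this
  have e1 : ∀ t, meromorphicOrderAt (R ∘ (· + z)) t = meromorphicOrderAt R (t + z) := fun t =>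
    meromorphicOrderAt_comp_add_const_eq_meromorphicOrderAt
  have e2 : ∀ t, meromorphicOrderAt (fun s => (R ∘ (· + z)) s + 1) t =
      meromorphicOrderAt (fun s => R s + 1) (t + z) := fun t =>
    meromorphicOrderAt_comp_add_const_eq_meromorphicOrderAt (f := fun s => R s + 1)
  have h := picard4_zero hS (fun t => by rw [e1]; exact h1 _) (fun t => by rw [e2]; exact h2 _)
    (fun t => by rw [e1]; exact h3 _) (fun t => by rw [e2]; exact h4 _) ?_
  · have h5 : deriv (R ∘ (· + z)) 0 = deriv R (0 + z) := deriv_comp_add_const R z 0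
    rw [h5, zero_add] at h
    exact h
  · have h6 : AnalyticAt ℂ (fun t : ℂ => t + z) 0 := by fun_prop
    exact ha.comp_of_eq h6 (by simp)

/-- A meromorphic function `R` on the plane such that all orders of `R` and of `R + 1` are
divisible by four is constant (near every point, off the point itself). -/
theorem picard4 {R : ℂ → ℂ} (hR : MeromorphicOn R Set.univ)
    (h3 : ∀ z, (4 : ℤ) ∣ (meromorphicOrderAt R z).untop₀)
    (h4 : ∀ z, (4 : ℤ) ∣ (meromorphicOrderAt (fun t => R t + 1) z).untop₀) (z : ℂ) :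
    ∃ c, ∀ᶠ t in 𝓝[≠] z, R t = c := by
  have hR1 : MeromorphicOn (fun t => R t + 1) Set.univ := fun t ht =>
    (hR t ht).add (MeromorphicAt.const 1 t)
  by_cases h1 : ∀ z, meromorphicOrderAt R z ≠ ⊤
  · by_cases h2 : ∀ z, meromorphicOrderAt (fun t => R t + 1) z ≠ ⊤
    · refine eventually_const_of_meromorphic (hR z (Set.mem_univ z)) ?_
      have h5 : ∀ᶠ t in 𝓝[≠] z, AnalyticAt ℂ R t :=
        (hR z (Set.mem_univ z)).eventually_analyticAt
      filter_upwards [h5] with t ht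
      exact picard4_deriv hR h1 h2 h3 h4 t ht
    · push Not at h2
      obtain ⟨u, hu⟩ := h2
      refine ⟨-1, ?_⟩
      have h5 : meromorphicOrderAt (fun t => R t + 1) z = ⊤ := by
        by_contra hc
        exact (hR1.meromorphicOrderAt_ne_top_of_isPreconnected isPreconnected_univ
          (Set.mem_univ z) (Set.mem_univ u) hc) hu
      filter_upwards [meromorphicOrderAt_eq_top_iff.mp h5] with t ht
      exact eq_neg_of_add_eq_zero_left ht
  · push Not at h1
    obtain ⟨u, hu⟩ := h1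
    refine ⟨0, ?_⟩
    have h5 : meromorphicOrderAt R z = ⊤ := by
      by_contra hc
      exact (hR.meromorphicOrderAt_ne_top_of_isPreconnected isPreconnected_univ
        (Set.mem_univ z) (Set.mem_univ u) hc) hu
    exact meromorphicOrderAt_eq_top_iff.mp h5

end Pool.Agent.Lib.MP_225e67_ag
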