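import Pool.Agent.Lib.MP_225e67_ag.DX
import Pool.Agent.Lib.MP_225e67_ag.Picard

open scoped LinearAlgebra.Projectivization Topology ENNReal ContDiff
open Metric Filter

namespace Pool.Agent.Lib.MP_225e67_ag

section Orders

variable {z : ℂ}

lemma dvd_order_of_pow {R g : ℂ → ℂ} {c : ℂ} (hc : c ≠ 0) (hg : MeromorphicAt g z)
    (h : R =ᶠ[𝓝[≠] z] fun t => c * g t ^ 4) : (4 : ℤ) ∣ (meromorphicOrderAt R z).untop₀ := by
  have h0 : (fun t => c * g t ^ 4) = (fun _ => c) * (g ^ 4) := by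
    funext t; simp
  have h1 : meromorphicOrderAt ((fun _ => c) * (g ^ 4)) z = meromorphicOrderAt (g ^ 4) z :=
    meromorphicOrderAt_mul_of_ne_zero (g := fun _ => c) (f := g ^ 4) analyticAt_const hc
  rw [meromorphicOrderAt_congr h, h0, h1, meromorphicOrderAt_pow hg]
  cases h2 : meromorphicOrderAt g z with
  | top => simp
  | coe n =>
    have : ((4 : ℕ) : WithTop ℤ) * ((n : ℤ) : WithTop ℤ) = ((4 * n : ℤ) : WithTop ℤ) := by
      push_cast; rfl
    rw [this, WithTop.untop₀_coe]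
    exact dvd_mul_right _ _

lemma dvd_order_of_eq {y l U : ℂ → ℂ} {m : ℕ} (hm : m = 1 ∨ m = 3) (hy : AnalyticAt ℂ y z)
    (hl : AnalyticAt ℂ l z) (hU : AnalyticAt ℂ U z) (hU0 : U z ≠ 0)
    (h : ∀ᶠ t in 𝓝 z, y t ^ 4 = U t * l t ^ m) : (4 : ℤ) ∣ (meromorphicOrderAt l z).untop₀ := by
  have h1 : meromorphicOrderAt (y ^ 4) z = meromorphicOrderAt (l ^ m) z := by
    rw [← meromorphicOrderAt_mul_of_ne_zero (f := l ^ m) hU hU0]
    refine meromorphicOrderAt_congr ?_
    exact (Filter.Eventually.filter_mono nhdsWithin_le_nhds h : ∀ᶠ t in 𝓝[≠] z, _)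
  rw [meromorphicOrderAt_pow hy.meromorphicAt, meromorphicOrderAt_pow hl.meromorphicAt] at h1
  cases h2 : meromorphicOrderAt l z with
  | top => simp
  | coe n =>
    rw [h2] at h1
    cases h3 : meromorphicOrderAt y z with
    | top =>
      exfalso
      rw [h3] at h1
      have : ((m : ℕ) : WithTop ℤ) * ((n : ℤ) : WithTop ℤ) = ((m * n : ℤ) : WithTop ℤ) := by
        push_cast; rfl
      rw [this] at h1
      have h4 : ((4 : ℕ) : WithTop ℤ) * ⊤ = ⊤ := by simp
      rw [h4] at h1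
      exact WithTop.top_ne_coe h1
    | coe k =>
      rw [h3] at h1
      have e1 : ((m : ℕ) : WithTop ℤ) * ((n : ℤ) : WithTop ℤ) = ((m * n : ℤ) : WithTop ℤ) := by
        push_cast; rfl
      have e2 : ((4 : ℕ) : WithTop ℤ) * ((k : ℤ) : WithTop ℤ) = ((4 * k : ℤ) : WithTop ℤ) := by
        push_cast; rfl
      rw [e1, e2] at h1
      have h4 : (4 * k : ℤ) = m * n := by exact_mod_cast h1
      rw [WithTop.untop₀_coe]
      rcases hm with rfl | rfl
      · push_cast at h4; omega
      · push_cast at h4; omega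

/-- an analytic function with locally constant power is locally constant -/
lemma eventually_const_of_pow {g : ℂ → ℂ} {c : ℂ} {e : ℕ} (he : e ≠ 0) (hg : AnalyticAt ℂ g z)
    (h : ∀ᶠ t in 𝓝[≠] z, g t ^ e = c) : ∀ᶠ t in 𝓝 z, g t = g z := by
  have h' : ∀ᶠ t in 𝓝 z, g t ^ e = c := by
    refine eventually_nhds_of_nhdsNE h ?_
    exact eq_of_eventually_nhdsNE (f := fun t => g t ^ e) (g := fun _ => c)
      (hg.continuousAt.pow e) continuousAt_const h
  apply eventually_const_of_deriv hg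
  refine Filter.Eventually.filter_mono nhdsWithin_le_nhds ?_
  filter_upwards [h'.eventually_nhds, hg.eventually_analyticAt] with t ht hgt
  have h1 : deriv (fun t => g t ^ e) t = 0 := by
    have : (fun t => g t ^ e) =ᶠ[𝓝 t] fun _ => c := ht
    rw [this.deriv_eq]; simp
  have h2 := (hgt.differentiableAt.hasDerivAt.pow e).deriv
  have h3 : (g ^ e) = fun t => g t ^ e := rfl
  rw [h3, h1] at h2
  by_cases hc : c = 0
  · have h4 : g =ᶠ[𝓝 t] fun _ => (0 : ℂ) := by
      filter_upwards [ht] with s hs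
      rw [hc] at hs
      exact pow_eq_zero_iff he |>.1 hs
    rw [h4.deriv_eq]; simp
  · have h5 : g t ≠ 0 := by
      intro h6
      have := ht.self_of_nhds
      rw [h6, zero_pow he] at this
      exact hc this.symm
    have h6 : (e : ℂ) * g t ^ (e - 1) ≠ 0 :=
      mul_ne_zero (by exact_mod_cast he) (pow_ne_zero _ h5)
    exact (mul_eq_zero.1 h2.symm).resolve_left h6

end Orders

end Pool.Agent.Lib.MP_225e67_ag
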