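import Pool.Agent.Lib.MP_225e67_ag.NE1

open scoped LinearAlgebra.Projectivization Topology ENNReal ContDiff
open Metric Filter

namespace Pool.Agent.Lib.MP_225e67_ag

/-- two parametrisations of proportional vectors are proportional -/
lemma parallel {b b' : Fin 3 → ℂ} {x w y x' w' y' c : ℂ} (hc : c ≠ 0) (hb : b ≠ 0)
    (hxw : x ≠ 0 ∨ w ≠ 0) (hxw' : x' ≠ 0 ∨ w' ≠ 0) (h : Th b x w y = c • Th b' x' w' y') :
    (∃ μ : ℂ, μ ≠ 0 ∧ b = μ • b') ∧ (∃ ν : ℂ, ν ≠ 0 ∧ x = ν * x' ∧ w = ν * w') := by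
  have hij : ∀ i j, b i * mon x w j = c * (b' i * mon x' w' j) := by
    intro i j
    have := congrFun h (some (i, j))
    simpa using this
  obtain ⟨k, hk⟩ := Function.ne_iff.1 hb
  have hk : b k ≠ 0 := hk
  have key : ∀ j, mon x w j ≠ 0 → mon x' w' j ≠ 0 ∧
      (c * mon x' w' j / mon x w j ≠ 0 ∧ b = (c * mon x' w' j / mon x w j) • b') := by
    intro j hj
    have h1 := hij k j
    have h2 : b k * mon x w j ≠ 0 := mul_ne_zero hk hj
    rw [h1] at h2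
    have h3 : mon x' w' j ≠ 0 := by
      intro h4; rw [h4] at h2; simp at h2
    refine ⟨h3, div_ne_zero (mul_ne_zero hc h3) hj, ?_⟩
    funext i
    simp only [Pi.smul_apply, smul_eq_mul]
    field_simp
    linear_combination hij i j
  have hbk : ∀ μ : ℂ, b = μ • b' → b' k ≠ 0 := by
    intro μ hμ h0
    apply hk
    rw [hμ]
    simp [h0]
  by_cases hw : w = 0
  · have hx : x ≠ 0 := by
      rcases hxw with h | h
      · exact h
      · exact absurd hw h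
    have hj : mon x w 0 ≠ 0 := by simp [hx]
    obtain ⟨h1, h2, h3⟩ := key 0 hj
    refine ⟨⟨_, h2, h3⟩, ?_⟩
    have hx' : x' ≠ 0 := by
      intro h0; apply h1; simp [h0]
    have hw' : w' = 0 := by
      have h4 := hij k 3
      rw [hw] at h4
      simp only [mon_three] at h4
      have h5 : c * b' k * w' ^ 3 = 0 := by linear_combination -h4
      have h6 : c * b' k ≠ 0 := mul_ne_zero hc (hbk _ h3)
      have := (mul_eq_zero.1 h5).resolve_left h6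
      exact pow_eq_zero_iff (by norm_num) |>.1 this
    refine ⟨x / x', div_ne_zero hx hx', by field_simp, ?_⟩
    rw [hw, hw']; simp
  · have hj : mon x w 3 ≠ 0 := by simp [hw]
    obtain ⟨h1, h2, h3⟩ := key 3 hj
    refine ⟨⟨_, h2, h3⟩, ?_⟩
    have hw' : w' ≠ 0 := by
      intro h0; apply h1; simp [h0]
    refine ⟨w / w', div_ne_zero hw hw', ?_, by field_simp⟩
    have h4 := hij k 3
    have h5 := hij k 2
    simp only [mon_two, mon_three] at h4 h5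
    have h6 : c * b' k * w' ^ 2 ≠ 0 := mul_ne_zero (mul_ne_zero hc (hbk _ h3)) (pow_ne_zero _ hw')
    have h7 : b k * w ^ 2 ≠ 0 := mul_ne_zero hk (pow_ne_zero _ hw)
    -- x w' = w x'
    have h8 : x * w' = w * x' := by
      apply mul_left_cancel₀ h6
      apply mul_left_cancel₀ h7
      linear_combination (b k * w ^ 2 * x) * (-h4) + (b k * w ^ 3) * h5
    field_simp
    linear_combination h8

/-- data of a local lift -/
structure Lift (f : ℂ → PSpace Ix) (z : ℂ) (b : ℂ → Fin 3 → ℂ) (x w y : ℂ → ℂ) : Prop where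
  hb : ∀ i, AnalyticAt ℂ (fun t => b t i) z
  hx : AnalyticAt ℂ x z
  hw : AnalyticAt ℂ w z
  hy : AnalyticAt ℂ y z
  one : (∀ t, x t = 1) ∨ (∀ t, w t = 1)
  eq : ∀ᶠ t in 𝓝 z, b t ≠ 0 ∧ (∃ h, f t = Projectivization.mk ℂ (Th (b t) (x t) (w t) (y t)) h) ∧
    b t 0 ^ 4 + b t 1 ^ 4 = 2 * b t 2 ^ 4 ∧ y t ^ 4 = FF (b t) (x t) (w t)

lemma exists_lift {f : ℂ → PSpace Ix} (hf : ∀ z, HolomorphicAt f z ∧ f z ∈ XX) (z : ℂ) :
    ∃ b x w y, Lift f z b x w y := by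
  obtain ⟨F, hF, hFe⟩ := (hf z).1
  have hFi : ∀ a, AnalyticAt ℂ (fun t => F t a) z := fun a => (analyticAt_pi_iff.1 hF) a
  have hcone : ∀ᶠ t in 𝓝 z, F t ≠ 0 ∧ XEq (F t) := by
    filter_upwards [hFe] with t ht
    obtain ⟨h0, h1⟩ := ht
    have h2 : F t ∈ cone XX := ⟨h0, by rw [← h1]; exact (hf t).2⟩
    exact mem_cone_XX.1 h2
  obtain ⟨h0, h1⟩ := hcone.self_of_nhds
  obtain ⟨k, hk | hk⟩ := h1.exists_ne h0
  · refine ⟨fun t i => F t (some (i, 3)), fun t => F t (some (k, 2)) / F t (some (k, 3)),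
      fun _ => 1, fun t => F t none, fun i => hFi _, (hFi _).div (hFi _) hk, analyticAt_const,
      hFi _, Or.inr fun _ => rfl, ?_⟩
    filter_upwards [hcone, hFe, (hFi (some (k, 3))).continuousAt.eventually_ne hk] with t h2 h3 h4
    have h5 := h2.2.param3 h4
    have h6 := h2.2
    rw [h5, xEq_Th_iff _ _ (Or.inr one_ne_zero)] at h6
    refine ⟨fun h7 => h4 (congrFun h7 k), ?_, h6.1, h6.2⟩
    obtain ⟨h7, h8⟩ := h3
    refine ⟨by rw [← h5]; exact h7, ?_⟩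
    rw [h8]
    congr 1
  · refine ⟨fun t i => F t (some (i, 0)), fun _ => 1,
      fun t => F t (some (k, 1)) / F t (some (k, 0)), fun t => F t none, fun i => hFi _,
      analyticAt_const, (hFi _).div (hFi _) hk, hFi _, Or.inl fun _ => rfl, ?_⟩
    filter_upwards [hcone, hFe, (hFi (some (k, 0))).continuousAt.eventually_ne hk] with t h2 h3 h4
    have h5 := h2.2.param0 h4
    have h6 := h2.2
    rw [h5, xEq_Th_iff _ _ (Or.inl one_ne_zero)] at h6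
    refine ⟨fun h7 => h4 (congrFun h7 k), ?_, h6.1, h6.2⟩
    obtain ⟨h7, h8⟩ := h3
    refine ⟨by rw [← h5]; exact h7, ?_⟩
    rw [h8]
    congr 1

lemma Lift.xw {f z b x w y} (h : Lift f z b x w y) (t : ℂ) : x t ≠ 0 ∨ w t ≠ 0 := by
  rcases h.one with h | h
  · left; rw [h t]; exact one_ne_zero
  · right; rw [h t]; exact one_ne_zero

/-- a choice of parameters at every point -/
lemma exists_choice {f : ℂ → PSpace Ix} (hf : ∀ z, f z ∈ XX) :
    ∃ (b : ℂ → Fin 3 → ℂ) (x w y : ℂ → ℂ), ∀ z, b z ≠ 0 ∧ (x z ≠ 0 ∨ w z ≠ 0) ∧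
      (∃ h, f z = Projectivization.mk ℂ (Th (b z) (x z) (w z) (y z)) h) ∧
      b z 0 ^ 4 + b z 1 ^ 4 = 2 * b z 2 ^ 4 := by
  have : ∀ z, ∃ (b : Fin 3 → ℂ) (x w y : ℂ), b ≠ 0 ∧ (x ≠ 0 ∨ w ≠ 0) ∧
      (∃ h, f z = Projectivization.mk ℂ (Th b x w y) h) ∧ b 0 ^ 4 + b 1 ^ 4 = 2 * b 2 ^ 4 := by
    intro z
    have h1 := hf z
    obtain ⟨v, hv, hvz⟩ : ∃ v, ∃ hv : v ≠ 0, f z = Projectivization.mk ℂ v hv :=
      ⟨(f z).rep, (f z).rep_nonzero, (Projectivization.mk_rep _).symm⟩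
    have h2 : v ∈ cone XX := ⟨hv, by rw [← hvz]; exact h1⟩
    obtain ⟨b, x, w, y, hb, hxw, hveq, h3, -⟩ := exists_param h2
    refine ⟨b, x, w, y, hb, hxw, ⟨Th_ne_zero y hb hxw, ?_⟩, h3⟩
    rw [hvz]
    congr 1
  choose b x w y h using this
  exact ⟨b, x, w, y, h⟩

/-- the relation between the chosen parameters and a local lift -/
lemma Lift.parallel {f z b x w y} (h : Lift f z b x w y) {B : ℂ → Fin 3 → ℂ} {X W Y : ℂ → ℂ}
    (hB : ∀ z, B z ≠ 0 ∧ (X z ≠ 0 ∨ W z ≠ 0) ∧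
      (∃ h, f z = Projectivization.mk ℂ (Th (B z) (X z) (W z) (Y z)) h) ∧
      B z 0 ^ 4 + B z 1 ^ 4 = 2 * B z 2 ^ 4) :
    ∀ᶠ t in 𝓝 z, (∃ μ : ℂ, μ ≠ 0 ∧ B t = μ • b t) ∧
      (∃ ν : ℂ, ν ≠ 0 ∧ X t = ν * x t ∧ W t = ν * w t) := by
  filter_upwards [h.eq] with t ht
  obtain ⟨h1, ⟨h2, h3⟩, -, -⟩ := ht
  obtain ⟨e1, e2, ⟨e3, e4⟩, -⟩ := hB t
  rw [h3] at e4
  obtain ⟨a, ha⟩ := (Projectivization.mk_eq_mk_iff' ℂ _ _ _ _).1 e4
  have ha0 : a ≠ 0 := by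
    rintro rfl
    rw [zero_smul] at ha
    exact h2 ha.symm
  refine MP_225e67_ag.parallel (c := a⁻¹) (y := Y t) (y' := y t) (inv_ne_zero ha0) e1 e2 (h.xw t) ?_
  rw [← ha, smul_smul, inv_mul_cancel₀ ha0, one_smul]

end Pool.Agent.Lib.MP_225e67_ag
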