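import Pool.Agent.Lib.MP_225e67_ag.NE2

open scoped LinearAlgebra.Projectivization Topology ENNReal ContDiff
open Metric Filter

namespace Pool.Agent.Lib.MP_225e67_ag

/-- the choice data -/
def Choice (f : ℂ → PSpace Ix) (B : ℂ → Fin 3 → ℂ) (X W Y : ℂ → ℂ) : Prop :=
  ∀ z, B z ≠ 0 ∧ (X z ≠ 0 ∨ W z ≠ 0) ∧
    (∃ h, f z = Projectivization.mk ℂ (Th (B z) (X z) (W z) (Y z)) h) ∧
    B z 0 ^ 4 + B z 1 ^ 4 = 2 * B z 2 ^ 4

lemma base_ratio {f : ℂ → PSpace Ix} (hf : ∀ z, HolomorphicAt f z ∧ f z ∈ XX)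
    {B : ℂ → Fin 3 → ℂ} {X W Y : ℂ → ℂ} (hB : Choice f B X W Y) (z : ℂ) :
    ∃ c, ∀ᶠ t in 𝓝[≠] z, (B t 0 / B t 1) ^ 4 = c := by
  have hloc : ∀ z, ∃ b x w y, Lift f z b x w y ∧
      ∀ᶠ t in 𝓝 z, B t 0 / B t 1 = b t 0 / b t 1 := by
    intro z
    obtain ⟨b, x, w, y, h⟩ := exists_lift hf z
    refine ⟨b, x, w, y, h, ?_⟩
    filter_upwards [h.parallel hB] with t ht
    obtain ⟨⟨μ, hμ, h1⟩, -⟩ := ht
    rw [h1]
    simp only [Pi.smul_apply, smul_eq_mul]
    exact mul_div_mul_left _ _ hμ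
  have hmer : MeromorphicOn (fun t => (B t 0 / B t 1) ^ 4) Set.univ := by
    intro z _
    obtain ⟨b, x, w, y, h, he⟩ := hloc z
    have h1 : MeromorphicAt (fun t => (b t 0 / b t 1) ^ 4) z :=
      ((h.hb 0).meromorphicAt.div (h.hb 1).meromorphicAt).pow 4
    refine h1.congr ?_
    refine Filter.Eventually.filter_mono nhdsWithin_le_nhds ?_
    filter_upwards [he] with t ht
    rw [ht]
  refine picard4 hmer ?_ ?_ z
  · intro z
    obtain ⟨b, x, w, y, h, he⟩ := hloc z
    refine dvd_order_of_pow (c := 1) one_ne_zero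
      ((h.hb 0).meromorphicAt.div (h.hb 1).meromorphicAt) ?_
    refine Filter.Eventually.filter_mono nhdsWithin_le_nhds ?_
    filter_upwards [he] with t ht
    rw [ht, one_mul]; rfl
  · intro z
    obtain ⟨b, x, w, y, h, he⟩ := hloc z
    rcases (h.hb 1).eventually_eq_zero_or_eventually_ne_zero with h1 | h1
    · refine dvd_order_of_pow (c := 1) (g := fun _ => 1) one_ne_zero
        (MeromorphicAt.const 1 z) ?_
      refine Filter.Eventually.filter_mono nhdsWithin_le_nhds ?_
      filter_upwards [he, h1] with t ht ht1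
      rw [ht, ht1]; simp
    · refine dvd_order_of_pow (c := 2) two_ne_zero
        ((h.hb 2).meromorphicAt.div (h.hb 1).meromorphicAt) ?_
      filter_upwards [Filter.Eventually.filter_mono nhdsWithin_le_nhds he, h1,
        Filter.Eventually.filter_mono nhdsWithin_le_nhds h.eq] with t ht ht1 ht2
      rw [ht]
      obtain ⟨-, -, h2, -⟩ := ht2
      show (b t 0 / b t 1) ^ 4 + 1 = 2 * (b t 2 / b t 1) ^ 4
      field_simp
      linear_combination h2

/-- proportionality of the base points -/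
def Par (u v : Fin 3 → ℂ) : Prop := ∃ μ : ℂ, μ ≠ 0 ∧ u = μ • v

lemma Par.symm {u v : Fin 3 → ℂ} (h : Par u v) : Par v u := by
  obtain ⟨μ, hμ, rfl⟩ := h
  exact ⟨μ⁻¹, inv_ne_zero hμ, by rw [smul_smul, inv_mul_cancel₀ hμ, one_smul]⟩

lemma Par.trans {u v w : Fin 3 → ℂ} (h : Par u v) (h' : Par v w) : Par u w := by
  obtain ⟨μ, hμ, rfl⟩ := h
  obtain ⟨ν, hν, rfl⟩ := h'
  exact ⟨μ * ν, mul_ne_zero hμ hν, by rw [smul_smul]⟩

/-- a vector of analytic functions whose ratios to one nonvanishing entry have constant fourth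
powers is locally proportional to a constant vector -/
lemma par_of_pow {b : ℂ → Fin 3 → ℂ} {z : ℂ} (hb : ∀ i, AnalyticAt ℂ (fun t => b t i) z)
    (k : Fin 3) (hk : b z k ≠ 0)
    (h : ∀ i, ∃ c, ∀ᶠ t in 𝓝[≠] z, (b t i / b t k) ^ 4 = c) : ∀ᶠ t in 𝓝 z, Par (b t) (b z) := by
  have h1 : ∀ i, ∀ᶠ t in 𝓝 z, b t i / b t k = b z i / b z k := by
    intro i
    obtain ⟨c, hc⟩ := h i
    exact eventually_const_of_pow (g := fun t => b t i / b t k) (e := 4) (by norm_num)
      ((hb i).div (hb k) hk) hc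
  have h2 : ∀ᶠ t in 𝓝 z, ∀ i, b t i / b t k = b z i / b z k := eventually_all.2 h1
  filter_upwards [h2, (hb k).continuousAt.eventually_ne hk] with t ht htk
  refine ⟨b t k / b z k, div_ne_zero htk hk, ?_⟩
  funext i
  have := ht i
  simp only [Pi.smul_apply, smul_eq_mul]
  field_simp at this ⊢
  linear_combination this

lemma base_par_local {f : ℂ → PSpace Ix} (hf : ∀ z, HolomorphicAt f z ∧ f z ∈ XX)
    {B : ℂ → Fin 3 → ℂ} {X W Y : ℂ → ℂ} (hB : Choice f B X W Y) (z : ℂ) :
    ∀ᶠ t in 𝓝 z, Par (B t) (B z) := by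
  obtain ⟨b, x, w, y, h⟩ := exists_lift hf z
  obtain ⟨c, hc⟩ := base_ratio hf hB z
  have hpar : ∀ᶠ t in 𝓝 z, Par (B t) (b t) := by
    filter_upwards [h.parallel hB] with t ht
    exact ht.1
  have hc' : ∀ᶠ t in 𝓝[≠] z, (b t 0 / b t 1) ^ 4 = c := by
    filter_upwards [hc, Filter.Eventually.filter_mono nhdsWithin_le_nhds hpar] with t h1 h2
    obtain ⟨μ, hμ, h3⟩ := h2
    rw [h3] at h1
    simp only [Pi.smul_apply, smul_eq_mul] at h1
    rwa [mul_div_mul_left _ _ hμ] at h1
  have heq : ∀ᶠ t in 𝓝[≠] z, b t 0 ^ 4 + b t 1 ^ 4 = 2 * b t 2 ^ 4 := by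
    refine Filter.Eventually.filter_mono nhdsWithin_le_nhds ?_
    filter_upwards [h.eq] with t ht
    exact ht.2.2.1
  have heqz := h.eq.self_of_nhds.2.2.1
  have hbz := h.eq.self_of_nhds.1
  have hmain : ∀ᶠ t in 𝓝 z, Par (b t) (b z) := by
    by_cases h1 : b z 1 = 0
    · have hb0 : b z 0 ≠ 0 := by
        intro h0
        apply hbz
        rw [h0, h1] at heqz
        have h2 : b z 2 ^ 4 = 0 := by linear_combination (-1 / 2) * heqz
        have h3 : b z 2 = 0 := pow_eq_zero_iff (by norm_num) |>.1 h2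
        funext i
        fin_cases i
        · exact h0
        · exact h1
        · exact h3
      have hb1 : ∀ᶠ t in 𝓝 z, b t 1 = 0 := by
        rcases (h.hb 1).eventually_eq_zero_or_eventually_ne_zero with h2 | h2
        · exact h2
        · exfalso
          have h3 : ∀ᶠ t in 𝓝[≠] z, b t 0 ^ 4 = c * b t 1 ^ 4 := by
            filter_upwards [hc', h2] with t h4 h5
            field_simp at h4
            linear_combination h4
          have h4 := eq_of_eventually_nhdsNE (f := fun t => b t 0 ^ 4)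
            (g := fun t => c * b t 1 ^ 4) ((h.hb 0).continuousAt.pow 4)
            (continuousAt_const.mul ((h.hb 1).continuousAt.pow 4)) h3
          simp only [h1] at h4
          apply hb0
          exact pow_eq_zero_iff (n := 4) (by norm_num) |>.1 (by rw [h4]; ring)
      refine par_of_pow h.hb 0 hb0 fun i => ?_
      have hne : ∀ᶠ t in 𝓝[≠] z, b t 0 ≠ 0 :=
        Filter.Eventually.filter_mono nhdsWithin_le_nhds ((h.hb 0).continuousAt.eventually_ne hb0)
      have hb1' := Filter.Eventually.filter_mono (nhdsWithin_le_nhds (s := {z}ᶜ)) hb1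
      fin_cases i
      · refine ⟨1, ?_⟩
        filter_upwards [hne] with t ht
        show (b t 0 / b t 0) ^ 4 = 1
        rw [div_self ht, one_pow]
      · refine ⟨0, ?_⟩
        filter_upwards [hb1'] with t ht
        show (b t 1 / b t 0) ^ 4 = 0
        rw [ht]; simp
      · refine ⟨1 / 2, ?_⟩
        filter_upwards [hne, hb1', heq] with t h2 h3 h4
        show (b t 2 / b t 0) ^ 4 = 1 / 2
        rw [h3] at h4
        field_simp
        linear_combination -h4
    · refine par_of_pow h.hb 1 h1 fun i => ?_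
      have hne : ∀ᶠ t in 𝓝[≠] z, b t 1 ≠ 0 :=
        Filter.Eventually.filter_mono nhdsWithin_le_nhds ((h.hb 1).continuousAt.eventually_ne h1)
      fin_cases i
      · exact ⟨c, hc'⟩
      · refine ⟨1, ?_⟩
        filter_upwards [hne] with t ht
        show (b t 1 / b t 1) ^ 4 = 1
        rw [div_self ht, one_pow]
      · refine ⟨(c + 1) / 2, ?_⟩
        filter_upwards [hne, hc', heq] with t h2 h3 h4
        show (b t 2 / b t 1) ^ 4 = (c + 1) / 2
        rw [← h3]
        field_simp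
        linear_combination -h4
  have hz := hpar.self_of_nhds
  filter_upwards [hpar, hmain] with t h1 h2
  exact (h1.trans h2).trans hz.symm

lemma base_par {f : ℂ → PSpace Ix} (hf : ∀ z, HolomorphicAt f z ∧ f z ∈ XX)
    {B : ℂ → Fin 3 → ℂ} {X W Y : ℂ → ℂ} (hB : Choice f B X W Y) (z : ℂ) :
    Par (B z) (B 0) := by
  have hloc := base_par_local hf hB
  have hclopen : IsClopen {z | Par (B z) (B 0)} := by
    constructor
    · rw [← isOpen_compl_iff, isOpen_iff_mem_nhds]
      intro u hu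
      filter_upwards [hloc u] with t ht h
      exact hu (ht.symm.trans h)
    · rw [isOpen_iff_mem_nhds]
      intro u hu
      filter_upwards [hloc u] with t ht
      exact ht.trans hu
  have := hclopen.eq_univ ⟨0, 1, one_ne_zero, (one_smul _ _).symm⟩
  have h2 : z ∈ {z | Par (B z) (B 0)} := by rw [this]; trivial
  exact h2

end Pool.Agent.Lib.MP_225e67_ag
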