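import Pool.Agent.Lib.MP_225e67_ag.NE3
import Pool.Agent.Lib.MP_225e67_ag.Brody

open scoped LinearAlgebra.Projectivization Topology ENNReal ContDiff
open Metric Filter

namespace Pool.Agent.Lib.MP_225e67_ag

lemma dvd_order_div {g h : ℂ → ℂ} {z : ℂ} (hg : MeromorphicAt g z) (hh : MeromorphicAt h z)
    (h1 : (4 : ℤ) ∣ (meromorphicOrderAt g z).untop₀) (h2 : (4 : ℤ) ∣ (meromorphicOrderAt h z).untop₀) :
    (4 : ℤ) ∣ (meromorphicOrderAt (fun t => g t / h t) z).untop₀ := by
  have h3 : (fun t => g t / h t) = g / h := rfl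
  rw [h3, meromorphicOrderAt_div hg hh]
  cases h4 : meromorphicOrderAt g z with
  | top => simp
  | coe m =>
    cases h5 : meromorphicOrderAt h z with
    | top =>
      have : ((m : ℤ) : WithTop ℤ) - ⊤ = ⊤ := rfl
      rw [this]; simp
    | coe n =>
      rw [h4, WithTop.untop₀_coe] at h1
      rw [h5, WithTop.untop₀_coe] at h2
      have : ((m : ℤ) : WithTop ℤ) - ((n : ℤ) : WithTop ℤ) = ((m - n : ℤ) : WithTop ℤ) := rfl
      rw [this, WithTop.untop₀_coe]
      exact dvd_sub h1 h2

lemma step2 {f : ℂ → PSpace Ix} (hf : ∀ z, HolomorphicAt f z ∧ f z ∈ XX)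
    {B : ℂ → Fin 3 → ℂ} {X W Y : ℂ → ℂ} (hB : Choice f B X W Y) {e : ℕ} (he : e ≠ 0)
    {α β : Fin 3 → ℂ} (hα : α 0 + α 1 + α 2 = 0) (hβ : β 0 + β 1 + β 2 = 0)
    (hdet : α 1 * β 2 - α 2 * β 1 ≠ 0)
    (H : ∀ z b x w y, Lift f z b x w y → ∀ j,
      (4 : ℤ) ∣ (meromorphicOrderAt (fun t => α j * x t ^ e + β j * w t ^ e) z).untop₀)
    {z : ℂ} {b : ℂ → Fin 3 → ℂ} {x w y : ℂ → ℂ} (hL : Lift f z b x w y) :
    ∀ᶠ t in 𝓝 z, x t = x z ∧ w t = w z := by
  have hloc : ∀ z b x w y, Lift f z b x w y → ∀ᶠ t in 𝓝 z,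
      (α 1 * X t ^ e + β 1 * W t ^ e) / (α 2 * X t ^ e + β 2 * W t ^ e)
      = (α 1 * x t ^ e + β 1 * w t ^ e) / (α 2 * x t ^ e + β 2 * w t ^ e) := by
    intro z b x w y h
    filter_upwards [h.parallel hB] with t ht
    obtain ⟨-, ν, hν, h1, h2⟩ := ht
    rw [h1, h2]
    have e1 : ∀ j, α j * (ν * x t) ^ e + β j * (ν * w t) ^ e
        = ν ^ e * (α j * x t ^ e + β j * w t ^ e) := by
      intro j; rw [mul_pow, mul_pow]; ring
    rw [e1, e1, mul_div_mul_left _ _ (pow_ne_zero _ hν)]
  have han : ∀ z b x w y, Lift f z b x w y → ∀ j,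
      AnalyticAt ℂ (fun t => α j * x t ^ e + β j * w t ^ e) z := by
    intro z b x w y h j
    exact (analyticAt_const.mul (h.hx.pow e)).add (analyticAt_const.mul (h.hw.pow e))
  have hsum : ∀ x w : ℂ, (α 1 * x ^ e + β 1 * w ^ e) + (α 2 * x ^ e + β 2 * w ^ e)
      = -(α 0 * x ^ e + β 0 * w ^ e) := by
    intro x w
    linear_combination x ^ e * hα + w ^ e * hβ
  have hmer : MeromorphicOn (fun t => (α 1 * X t ^ e + β 1 * W t ^ e)
      / (α 2 * X t ^ e + β 2 * W t ^ e)) Set.univ := by
    intro z _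
    obtain ⟨b, x, w, y, h⟩ := exists_lift hf z
    have h1 := (han z b x w y h 1).meromorphicAt.div (han z b x w y h 2).meromorphicAt
    refine h1.congr ?_
    refine Filter.Eventually.filter_mono nhdsWithin_le_nhds ?_
    filter_upwards [hloc z b x w y h] with t ht
    rw [ht]; rfl
  have hconst : ∀ z, ∃ c, ∀ᶠ t in 𝓝[≠] z, (α 1 * X t ^ e + β 1 * W t ^ e)
      / (α 2 * X t ^ e + β 2 * W t ^ e) = c := by
    intro z
    refine picard4 hmer ?_ ?_ z
    · intro z
      obtain ⟨b, x, w, y, h⟩ := exists_lift hf z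
      rw [meromorphicOrderAt_congr (Filter.Eventually.filter_mono nhdsWithin_le_nhds
        (hloc z b x w y h))]
      exact dvd_order_div (han z b x w y h 1).meromorphicAt (han z b x w y h 2).meromorphicAt
        (H z b x w y h 1) (H z b x w y h 2)
    · intro z
      obtain ⟨b, x, w, y, h⟩ := exists_lift hf z
      rcases (han z b x w y h 2).eventually_eq_zero_or_eventually_ne_zero with h1 | h1
      · refine dvd_order_of_pow (c := 1) (g := fun _ => 1) one_ne_zero
          (MeromorphicAt.const 1 z) ?_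
        refine Filter.Eventually.filter_mono nhdsWithin_le_nhds ?_
        filter_upwards [hloc z b x w y h, h1] with t ht ht1
        rw [ht, ht1]; simp
      · have h2 : (fun t => (α 1 * X t ^ e + β 1 * W t ^ e)
            / (α 2 * X t ^ e + β 2 * W t ^ e) + 1) =ᶠ[𝓝[≠] z]
            fun t => (-(fun t => (α 0 * x t ^ e + β 0 * w t ^ e))) t
              / (fun t => (α 2 * x t ^ e + β 2 * w t ^ e)) t := by
          filter_upwards [Filter.Eventually.filter_mono nhdsWithin_le_nhds (hloc z b x w y h),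
            h1] with t ht ht1
          rw [ht]
          simp only [Pi.neg_apply]
          rw [← hsum, div_add_one ht1]
        rw [meromorphicOrderAt_congr h2]
        refine dvd_order_div (han z b x w y h 0).meromorphicAt.neg
          (han z b x w y h 2).meromorphicAt ?_ (H z b x w y h 2)
        have h5 : meromorphicOrderAt (-(fun t => (α 0 * x t ^ e + β 0 * w t ^ e))) z
            = meromorphicOrderAt (fun t => (α 0 * x t ^ e + β 0 * w t ^ e)) z :=
          meromorphicOrderAt_neg.symm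
        rw [h5]
        exact H z b x w y h 0
  -- a linear relation between the powers
  obtain ⟨μ, ν, hμν, hrel⟩ : ∃ μ ν : ℂ, (μ ≠ 0 ∨ ν ≠ 0) ∧
      ∀ᶠ t in 𝓝 z, μ * (α 1 * x t ^ e + β 1 * w t ^ e) + ν * (α 2 * x t ^ e + β 2 * w t ^ e)
        = 0 := by
    rcases (han z b x w y hL 2).eventually_eq_zero_or_eventually_ne_zero with h1 | h1
    · refine ⟨0, 1, Or.inr one_ne_zero, ?_⟩
      filter_upwards [h1] with t ht
      rw [ht]; ring
    · obtain ⟨c, hc⟩ := hconst z
      refine ⟨1, -c, Or.inl one_ne_zero, ?_⟩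
      have h2 : ∀ᶠ t in 𝓝[≠] z, 1 * (α 1 * x t ^ e + β 1 * w t ^ e)
          + -c * (α 2 * x t ^ e + β 2 * w t ^ e) = 0 := by
        filter_upwards [hc, h1, Filter.Eventually.filter_mono nhdsWithin_le_nhds
          (hloc z b x w y hL)] with t h3 h4 h5
        rw [h5, div_eq_iff h4] at h3
        linear_combination h3
      refine eventually_nhds_of_nhdsNE h2 ?_
      have h3 : AnalyticAt ℂ (fun t => 1 * (α 1 * x t ^ e + β 1 * w t ^ e)
          + -c * (α 2 * x t ^ e + β 2 * w t ^ e)) z :=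
        (analyticAt_const.mul (han z b x w y hL 1)).add
          (analyticAt_const.mul (han z b x w y hL 2))
      exact eq_of_eventually_nhdsNE (f := fun t => 1 * (α 1 * x t ^ e + β 1 * w t ^ e)
          + -c * (α 2 * x t ^ e + β 2 * w t ^ e)) (g := fun _ => 0) h3.continuousAt
          continuousAt_const h2
  have hne : μ * α 1 + ν * α 2 ≠ 0 ∨ μ * β 1 + ν * β 2 ≠ 0 := by
    by_contra hcon
    push Not at hcon
    obtain ⟨h1, h2⟩ := hcon
    have h3 : μ * (α 1 * β 2 - α 2 * β 1) = 0 := by linear_combination β 2 * h1 - α 2 * h2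
    have h4 : ν * (α 1 * β 2 - α 2 * β 1) = 0 := by linear_combination α 1 * h2 - β 1 * h1
    have h5 := (mul_eq_zero.1 h3).resolve_right hdet
    have h6 := (mul_eq_zero.1 h4).resolve_right hdet
    exact hμν.elim (fun h => h h5) (fun h => h h6)
  set A := μ * α 1 + ν * α 2 with hA
  set D := μ * β 1 + ν * β 2 with hD
  have hrel' : ∀ᶠ t in 𝓝 z, A * x t ^ e + D * w t ^ e = 0 := by
    filter_upwards [hrel] with t ht
    rw [hA, hD]
    linear_combination ht
  rcases hL.one with h1 | h1
  · have hD0 : D ≠ 0 := by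
      intro h2
      have h3 := hrel'.self_of_nhds
      rw [h2, h1, one_pow, mul_one, zero_mul, add_zero] at h3
      exact hne.elim (fun h => h h3) (fun h => h h2)
    have h3 : ∀ᶠ t in 𝓝[≠] z, w t ^ e = -A / D := by
      refine Filter.Eventually.filter_mono nhdsWithin_le_nhds ?_
      filter_upwards [hrel'] with t ht
      rw [h1, one_pow, mul_one] at ht
      field_simp
      linear_combination ht
    filter_upwards [eventually_const_of_pow he hL.hw h3] with t ht
    exact ⟨by rw [h1, h1], ht⟩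
  · have hA0 : A ≠ 0 := by
      intro h2
      have h3 := hrel'.self_of_nhds
      rw [h2, h1, one_pow, mul_one, zero_mul, zero_add] at h3
      exact hne.elim (fun h => h h2) (fun h => h h3)
    have h3 : ∀ᶠ t in 𝓝[≠] z, x t ^ e = -D / A := by
      refine Filter.Eventually.filter_mono nhdsWithin_le_nhds ?_
      filter_upwards [hrel'] with t ht
      rw [h1, one_pow, mul_one] at ht
      field_simp
      linear_combination ht
    filter_upwards [eventually_const_of_pow he hL.hx h3] with t ht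
    exact ⟨ht, by rw [h1, h1]⟩

end Pool.Agent.Lib.MP_225e67_ag
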