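import Pool.Agent.Lib.MP_225e67_ag.NE4

open scoped LinearAlgebra.Projectivization Topology ENNReal ContDiff
open Metric Filter

namespace Pool.Agent.Lib.MP_225e67_ag

lemma dvd_order_of_ne {l : ℂ → ℂ} {z : ℂ} (hl : AnalyticAt ℂ l z) (h0 : l z ≠ 0) :
    (4 : ℤ) ∣ (meromorphicOrderAt l z).untop₀ := by
  refine dvd_order_of_eq (m := 1) (y := fun _ => 1) (U := fun t => (l t)⁻¹) (Or.inl rfl)
    analyticAt_const hl (hl.inv h0) (inv_ne_zero h0) ?_
  filter_upwards [hl.continuousAt.eventually_ne h0] with t ht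
  rw [one_pow, pow_one, inv_mul_cancel₀ ht]

lemma FF_smul (c : ℂ) (b : Fin 3 → ℂ) (x w : ℂ) : FF (c • b) x w = c ^ 4 * FF b x w := by
  unfold FF pp qq
  simp only [Pi.smul_apply, smul_eq_mul]
  ring

lemma exists_lambda {f : ℂ → PSpace Ix} (hf : ∀ z, HolomorphicAt f z ∧ f z ∈ XX)
    {B : ℂ → Fin 3 → ℂ} {X W Y : ℂ → ℂ} (hB : Choice f B X W Y)
    {z : ℂ} {b : ℂ → Fin 3 → ℂ} {x w y : ℂ → ℂ} (hL : Lift f z b x w y) :
    ∃ lam : ℂ → ℂ, AnalyticAt ℂ lam z ∧ lam z ≠ 0 ∧ ∀ᶠ t in 𝓝 z, lam t ≠ 0 ∧ b t = lam t • B 0 ∧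
      y t ^ 4 = lam t ^ 4 * FF (B 0) (x t) (w t) := by
  obtain ⟨k, hk⟩ := Function.ne_iff.1 (hB 0).1
  have hk : B 0 k ≠ 0 := hk
  have h1 : ∀ᶠ t in 𝓝 z, b t k / B 0 k ≠ 0 ∧ b t = (b t k / B 0 k) • B 0 := by
    filter_upwards [hL.parallel hB] with t ht
    have h2 : Par (b t) (B 0) := (Par.symm ht.1).trans (base_par hf hB t)
    obtain ⟨μ, hμ, h3⟩ := h2
    have h4 : b t k / B 0 k = μ := by
      rw [h3]
      simp only [Pi.smul_apply, smul_eq_mul]
      field_simp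
    rw [h4]
    exact ⟨hμ, h3⟩
  refine ⟨fun t => b t k / B 0 k, (hL.hb k).div_const, h1.self_of_nhds.1, ?_⟩
  filter_upwards [h1, hL.eq] with t h2 h3
  refine ⟨h2.1, h2.2, ?_⟩
  have h4 := h3.2.2.2
  rw [h2.2, FF_smul] at h4
  exact h4

lemma H_of {f : ℂ → PSpace Ix} (hf : ∀ z, HolomorphicAt f z ∧ f z ∈ XX)
    {B : ℂ → Fin 3 → ℂ} {X W Y : ℂ → ℂ} (hB : Choice f B X W Y) {e m : ℕ} (he : e ≠ 0)
    (hm : m = 1 ∨ m = 3) {α β : Fin 3 → ℂ} {κ a d c : ℂ} (hκ : κ ≠ 0)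
    (hdet : ∀ j k, j ≠ k → α j * β k - α k * β j ≠ 0)
    (hF : ∀ x w, FF (B 0) x w = κ * ((α 0 * x ^ e + β 0 * w ^ e) * (α 1 * x ^ e + β 1 * w ^ e)
      * (α 2 * x ^ e + β 2 * w ^ e) * (a * x ^ e + d * w ^ e + c)) ^ m)
    (hM : ∀ x w j, (x ≠ 0 ∨ w ≠ 0) → α j * x ^ e + β j * w ^ e = 0 →
      a * x ^ e + d * w ^ e + c ≠ 0)
    {z : ℂ} {b : ℂ → Fin 3 → ℂ} {x w y : ℂ → ℂ} (hL : Lift f z b x w y) (j : Fin 3) :
    (4 : ℤ) ∣ (meromorphicOrderAt (fun t => α j * x t ^ e + β j * w t ^ e) z).untop₀ := by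
  have han : ∀ j, AnalyticAt ℂ (fun t => α j * x t ^ e + β j * w t ^ e) z := fun j =>
    (analyticAt_const.mul (hL.hx.pow e)).add (analyticAt_const.mul (hL.hw.pow e))
  by_cases h0 : α j * x z ^ e + β j * w z ^ e = 0
  swap
  · exact dvd_order_of_ne (han j) h0
  have hxw := hL.xw z
  have hne : ∀ k, k ≠ j → α k * x z ^ e + β k * w z ^ e ≠ 0 := by
    intro k hk h1
    have h2 := hdet k j hk
    have h3 : (α k * β j - α j * β k) * x z ^ e = 0 := by
      linear_combination β j * h1 - β k * h0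
    have h4 : (α k * β j - α j * β k) * w z ^ e = 0 := by
      linear_combination α k * h0 - α j * h1
    have h5 := pow_eq_zero_iff he |>.1 ((mul_eq_zero.1 h3).resolve_left h2)
    have h6 := pow_eq_zero_iff he |>.1 ((mul_eq_zero.1 h4).resolve_left h2)
    exact hxw.elim (fun h => h h5) (fun h => h h6)
  have hMz := hM _ _ j hxw h0
  have hMan : AnalyticAt ℂ (fun t => a * x t ^ e + d * w t ^ e + c) z :=
    ((analyticAt_const.mul (hL.hx.pow e)).add (analyticAt_const.mul (hL.hw.pow e))).add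
      analyticAt_const
  obtain ⟨lam, hlam, hlam0, hlame⟩ := exists_lambda hf hB hL
  have key : ∀ k l : Fin 3, k ≠ j → l ≠ j →
      (∀ x w : ℂ, (α 0 * x ^ e + β 0 * w ^ e) * (α 1 * x ^ e + β 1 * w ^ e)
        * (α 2 * x ^ e + β 2 * w ^ e) = (α j * x ^ e + β j * w ^ e)
        * ((α k * x ^ e + β k * w ^ e) * (α l * x ^ e + β l * w ^ e))) →
      (4 : ℤ) ∣ (meromorphicOrderAt (fun t => α j * x t ^ e + β j * w t ^ e) z).untop₀ := by
    intro k l hk hl hprod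
    refine dvd_order_of_eq (m := m) (y := y) (U := fun t => lam t ^ 4 * (κ *
      ((α k * x t ^ e + β k * w t ^ e) * (α l * x t ^ e + β l * w t ^ e)
        * (a * x t ^ e + d * w t ^ e + c)) ^ m)) hm hL.hy (han j) ?_ ?_ ?_
    · exact (hlam.pow 4).mul (analyticAt_const.mul ((((han k).mul (han l)).mul hMan).pow m))
    · have h1 := hne k hk
      have h2 := hne l hl
      exact mul_ne_zero (pow_ne_zero _ hlam0) (mul_ne_zero hκ (pow_ne_zero _
        (mul_ne_zero (mul_ne_zero h1 h2) hMz)))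
    · filter_upwards [hlame] with t ht
      rw [ht.2.2, hF, hprod, mul_assoc (α j * x t ^ e + β j * w t ^ e), mul_pow]
      ring
  fin_cases j
  · refine key 1 2 (by decide) (by decide) fun x w => ?_
    show _ = (α 0 * x ^ e + β 0 * w ^ e) * _
    ring
  · refine key 0 2 (by decide) (by decide) fun x w => ?_
    show _ = (α 1 * x ^ e + β 1 * w ^ e) * _
    ring
  · refine key 0 1 (by decide) (by decide) fun x w => ?_
    show _ = (α 2 * x ^ e + β 2 * w ^ e) * _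
    ring

lemma exists_omega : ∃ om : ℂ, om ^ 2 + om + 1 = 0 := by
  obtain ⟨r, hr⟩ := IsAlgClosed.exists_pow_nat_eq (-3 : ℂ) (n := 2) (by norm_num)
  refine ⟨(-1 + r) / 2, ?_⟩
  linear_combination (1 / 4) * hr

/-- the binary form in terms of the sum and the difference -/
lemma FF_eq (b : Fin 3 → ℂ) (x w : ℂ) :
    FF b x w = (pp b - qq b) / 2 * (x ^ 4 - w ^ 4) ^ 3 + (pp b + qq b) / 2 * (x ^ 4 + w ^ 4) ^ 3 := by
  unfold FF
  ring

lemma not_both {b : Fin 3 → ℂ} (hb : b ≠ 0) (h : b 0 ^ 4 + b 1 ^ 4 = 2 * b 2 ^ 4) :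
    ¬ (pp b - qq b = 0 ∧ pp b + qq b = 0) := by
  rintro ⟨h1, h2⟩
  unfold pp qq at h1 h2
  have e2 : b 2 ^ 4 = 0 := by linear_combination (3 / 2) * h1 + (1 / 2) * h2
  have e0 : b 0 ^ 4 = 0 := by linear_combination (1 / 2) * h + e2 - (1 / 2) * h1
  have e1 : b 1 ^ 4 = 0 := by linear_combination h - e0 + 2 * e2
  apply hb
  funext i
  fin_cases i
  · exact pow_eq_zero_iff (by norm_num) |>.1 e0
  · exact pow_eq_zero_iff (by norm_num) |>.1 e1
  · exact pow_eq_zero_iff (by norm_num) |>.1 e2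

/-- the direction of the binary variables is locally constant -/
lemma xw_const {f : ℂ → PSpace Ix} (hf : ∀ z, HolomorphicAt f z ∧ f z ∈ XX)
    {B : ℂ → Fin 3 → ℂ} {X W Y : ℂ → ℂ} (hB : Choice f B X W Y)
    {z : ℂ} {b : ℂ → Fin 3 → ℂ} {x w y : ℂ → ℂ} (hL : Lift f z b x w y) :
    ∀ᶠ t in 𝓝 z, x t = x z ∧ w t = w z := by
  have hnb := not_both (hB 0).1 (hB 0).2.2.2
  -- degenerate fibres
  have caseA : ∀ (κ ζ : ℂ), κ ≠ 0 → ζ ≠ 0 →
      (∀ x w, FF (B 0) x w = κ * (x ^ 4 - ζ ^ 4 * w ^ 4) ^ 3) →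
      ∀ᶠ t in 𝓝 z, x t = x z ∧ w t = w z := by
    intro κ ζ hκ hζ hF
    have hI : Complex.I ^ 2 = -1 := Complex.I_sq
    set α : Fin 3 → ℂ := ![-1 - Complex.I, -1 + Complex.I, 2] with hα
    set β : Fin 3 → ℂ := ![(1 + Complex.I) * ζ, (-1 + Complex.I) * ζ, -2 * Complex.I * ζ] with hβ
    have a0 : α 0 = -1 - Complex.I := rfl
    have a1 : α 1 = -1 + Complex.I := rfl
    have a2 : α 2 = 2 := rfl
    have b0 : β 0 = (1 + Complex.I) * ζ := rfl
    have b1 : β 1 = (-1 + Complex.I) * ζ := rfl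
    have b2 : β 2 = -2 * Complex.I * ζ := rfl
    have h12 : α 1 * β 2 - α 2 * β 1 = 4 * ζ := by
      rw [a1, a2, b1, b2]; linear_combination (-2 * ζ) * hI
    have h01 : α 0 * β 1 - α 1 * β 0 = 4 * ζ := by
      rw [a0, a1, b0, b1]; linear_combination (-2 * ζ) * hI
    have h02 : α 0 * β 2 - α 2 * β 0 = -4 * ζ := by
      rw [a0, a2, b0, b2]; linear_combination (2 * ζ) * hI
    have h4ζ : 4 * ζ ≠ 0 := mul_ne_zero (by norm_num) hζ
    have h4ζ' : -4 * ζ ≠ 0 := mul_ne_zero (by norm_num) hζ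
    have hdet : ∀ j k, j ≠ k → α j * β k - α k * β j ≠ 0 := by
      intro j k hjk
      fin_cases j <;> fin_cases k
      · exact absurd rfl hjk
      · show α 0 * β 1 - α 1 * β 0 ≠ 0
        rw [h01]; exact h4ζ
      · show α 0 * β 2 - α 2 * β 0 ≠ 0
        rw [h02]; exact h4ζ'
      · show α 1 * β 0 - α 0 * β 1 ≠ 0
        intro h; apply h4ζ; linear_combination -h01 - h
      · exact absurd rfl hjk
      · show α 1 * β 2 - α 2 * β 1 ≠ 0
        rw [h12]; exact h4ζ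
      · show α 2 * β 0 - α 0 * β 2 ≠ 0
        intro h; apply h4ζ'; linear_combination -h02 - h
      · show α 2 * β 1 - α 1 * β 2 ≠ 0
        intro h; apply h4ζ; linear_combination -h12 - h
      · exact absurd rfl hjk
    refine step2 hf hB (e := 1) one_ne_zero (α := α) (β := β) ?_ ?_ (by rw [h12]; exact h4ζ)
      ?_ hL
    · rw [a0, a1, a2]; ring
    · rw [b0, b1, b2]; ring
    · intro z b x w y hL j
      refine H_of hf hB (e := 1) (m := 3) one_ne_zero (Or.inr rfl) (α := α) (β := β)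
        (κ := κ / 64) (a := 1) (d := Complex.I * ζ) (c := 0) (div_ne_zero hκ (by norm_num)) hdet
        ?_ ?_ hL j
      · intro x w
        rw [hF]
        have : (α 0 * x ^ 1 + β 0 * w ^ 1) * (α 1 * x ^ 1 + β 1 * w ^ 1)
          * (α 2 * x ^ 1 + β 2 * w ^ 1) * (1 * x ^ 1 + Complex.I * ζ * w ^ 1 + 0)
          = 4 * (x ^ 4 - ζ ^ 4 * w ^ 4) := by
          have h1 : (α 0 * x ^ 1 + β 0 * w ^ 1) * (α 1 * x ^ 1 + β 1 * w ^ 1)
              = 2 * (x ^ 2 - ζ ^ 2 * w ^ 2) := by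
            rw [a0, a1, b0, b1]; linear_combination (-(x ^ 2 - ζ ^ 2 * w ^ 2)) * hI
          have h2 : (α 2 * x ^ 1 + β 2 * w ^ 1) * (1 * x ^ 1 + Complex.I * ζ * w ^ 1 + 0)
              = 2 * (x ^ 2 + ζ ^ 2 * w ^ 2) := by
            rw [a2, b2]; linear_combination (-2 * ζ ^ 2 * w ^ 2) * hI
          rw [mul_assoc ((α 0 * x ^ 1 + β 0 * w ^ 1) * (α 1 * x ^ 1 + β 1 * w ^ 1)), h1, h2]
          ring
        rw [this]
        ring
      · intro x w j hxw h1 h2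
        have h3 : x + Complex.I * ζ * w = 0 := by linear_combination h2
        have hx : x = -(Complex.I * ζ * w) := by linear_combination h3
        have hw : w = 0 := by
          rw [hx] at h1
          have e1 : ∀ q : ℂ, q * ζ * w = 0 → q ≠ 0 → w = 0 := by
            intro q hq hq0
            exact (mul_eq_zero.1 hq).resolve_left (mul_ne_zero hq0 hζ)
          fin_cases j
          · have h4 : α 0 * (-(Complex.I * ζ * w)) ^ 1 + β 0 * w ^ 1 = 0 := h1
            rw [a0, b0] at h4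
            refine e1 (2 * Complex.I) ?_ (mul_ne_zero two_ne_zero Complex.I_ne_zero)
            linear_combination h4 - ζ * w * hI
          · have h4 : α 1 * (-(Complex.I * ζ * w)) ^ 1 + β 1 * w ^ 1 = 0 := h1
            rw [a1, b1] at h4
            refine e1 (2 * Complex.I) ?_ (mul_ne_zero two_ne_zero Complex.I_ne_zero)
            linear_combination h4 + ζ * w * hI
          · have h4 : α 2 * (-(Complex.I * ζ * w)) ^ 1 + β 2 * w ^ 1 = 0 := h1
            rw [a2, b2] at h4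
            refine e1 (-4 * Complex.I) ?_ (mul_ne_zero (by norm_num) Complex.I_ne_zero)
            linear_combination h4
        rw [hw] at hx
        simp at hx
        exact hxw.elim (fun h => h hx) (fun h => h hw)
  by_cases hs : pp (B 0) - qq (B 0) = 0
  · have ht : pp (B 0) + qq (B 0) ≠ 0 := fun h => hnb ⟨hs, h⟩
    obtain ⟨ζ, hζ⟩ := IsAlgClosed.exists_pow_nat_eq (-1 : ℂ) (n := 4) (by norm_num)
    have hζ0 : ζ ≠ 0 := by
      rintro rfl
      norm_num at hζ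
    refine caseA ((pp (B 0) + qq (B 0)) / 2) ζ (div_ne_zero ht two_ne_zero) hζ0 fun x w => ?_
    rw [FF_eq, hs, hζ]
    ring
  by_cases ht : pp (B 0) + qq (B 0) = 0
  · refine caseA ((pp (B 0) - qq (B 0)) / 2) 1 (div_ne_zero hs two_ne_zero) one_ne_zero
      fun x w => ?_
    rw [FF_eq, ht]
    ring
  -- generic fibres
  obtain ⟨om, hom⟩ := exists_omega
  have hom3 : om ^ 3 = 1 := by linear_combination (om - 1) * hom
  obtain ⟨σ, hσ⟩ := IsAlgClosed.exists_pow_nat_eq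
    ((pp (B 0) + qq (B 0)) / (pp (B 0) - qq (B 0))) (n := 3) (by norm_num)
  have hσ0 : σ ≠ 0 := by
    rintro rfl
    rw [zero_pow (by norm_num)] at hσ
    exact (div_ne_zero ht hs) hσ.symm
  have hom0 : om ≠ 0 := by
    rintro rfl
    norm_num at hom3
  have hom1 : om ≠ 1 := by
    rintro rfl
    norm_num at hom
  set α : Fin 3 → ℂ := ![1 + σ, om + om ^ 2 * σ, om ^ 2 + om * σ] with hα
  set β : Fin 3 → ℂ := ![-1 + σ, -om + om ^ 2 * σ, -om ^ 2 + om * σ] with hβ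
  have a0 : α 0 = 1 + σ := rfl
  have a1 : α 1 = om + om ^ 2 * σ := rfl
  have a2 : α 2 = om ^ 2 + om * σ := rfl
  have b0 : β 0 = -1 + σ := rfl
  have b1 : β 1 = -om + om ^ 2 * σ := rfl
  have b2 : β 2 = -om ^ 2 + om * σ := rfl
  have hsa : α 0 + α 1 + α 2 = 0 := by
    rw [a0, a1, a2]; linear_combination (1 + σ) * hom
  have hsb : β 0 + β 1 + β 2 = 0 := by
    rw [b0, b1, b2]; linear_combination (-1 + σ) * hom
  have hδ : 2 * σ * (om * (om - 1)) ≠ 0 :=
    mul_ne_zero (mul_ne_zero two_ne_zero hσ0) (mul_ne_zero hom0 (sub_ne_zero.2 hom1))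
  have h12 : α 1 * β 2 - α 2 * β 1 = 2 * σ * (om * (om - 1)) := by
    rw [a1, a2, b1, b2]; linear_combination (-2 * σ * om) * hom3
  have h01 : α 0 * β 1 - α 1 * β 0 = 2 * σ * (om * (om - 1)) := by
    rw [a0, a1, b0, b1]; ring
  have h02 : α 0 * β 2 - α 2 * β 0 = -(2 * σ * (om * (om - 1))) := by
    rw [a0, a2, b0, b2]; ring
  have hdet : ∀ j k, j ≠ k → α j * β k - α k * β j ≠ 0 := by
    intro j k hjk
    fin_cases j <;> fin_cases k
    · exact absurd rfl hjk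
    · show α 0 * β 1 - α 1 * β 0 ≠ 0
      rw [h01]; exact hδ
    · show α 0 * β 2 - α 2 * β 0 ≠ 0
      rw [h02]; exact neg_ne_zero.2 hδ
    · show α 1 * β 0 - α 0 * β 1 ≠ 0
      intro h; apply hδ; linear_combination -h01 - h
    · exact absurd rfl hjk
    · show α 1 * β 2 - α 2 * β 1 ≠ 0
      rw [h12]; exact hδ
    · show α 2 * β 0 - α 0 * β 2 ≠ 0
      intro h; apply hδ; linear_combination h02 + h
    · show α 2 * β 1 - α 1 * β 2 ≠ 0
      intro h; apply hδ; linear_combination -h12 - h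
    · exact absurd rfl hjk
  refine step2 hf hB (e := 4) (by norm_num) (α := α) (β := β) hsa hsb
    (by rw [h12]; exact hδ) ?_ hL
  intro z b x w y hL j
  refine H_of hf hB (e := 4) (m := 1) (by norm_num) (Or.inl rfl) (α := α) (β := β)
    (κ := (pp (B 0) - qq (B 0)) / 2) (a := 0) (d := 0) (c := 1) (div_ne_zero hs two_ne_zero) hdet
    ?_ ?_ hL j
  · intro x w
    rw [FF_eq]
    have h1 : (α 0 * x ^ 4 + β 0 * w ^ 4) * (α 1 * x ^ 4 + β 1 * w ^ 4)
        * (α 2 * x ^ 4 + β 2 * w ^ 4)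
        = (x ^ 4 - w ^ 4) ^ 3 + σ ^ 3 * (x ^ 4 + w ^ 4) ^ 3 := by
      rw [a0, a1, a2, b0, b1, b2]
      obtain ⟨Q, hQ⟩ : ∃ Q, Q = x ^ 4 - w ^ 4 := ⟨_, rfl⟩
      obtain ⟨R, hR⟩ : ∃ R, R = x ^ 4 + w ^ 4 := ⟨_, rfl⟩
      rw [← hQ, ← hR]
      have e0 : (1 + σ) * x ^ 4 + (-1 + σ) * w ^ 4 = Q + σ * R := by rw [hQ, hR]; ring
      have e1 : (om + om ^ 2 * σ) * x ^ 4 + (-om + om ^ 2 * σ) * w ^ 4
          = om * (Q + om * σ * R) := by rw [hQ, hR]; ring
      have e2 : (om ^ 2 + om * σ) * x ^ 4 + (-om ^ 2 + om * σ) * w ^ 4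
          = om * (om * Q + σ * R) := by rw [hQ, hR]; ring
      rw [e0, e1, e2]
      have e3 : om ^ 3 = 1 := hom3
      have e4 : om ^ 2 = - om - 1 := by linear_combination hom
      have : (Q + σ * R) * (om * (Q + om * σ * R)) * (om * (om * Q + σ * R))
        = om ^ 2 * (Q + σ * R) * (om * Q ^ 2 + (om ^ 2 + 1) * (σ * Q * R) + om * σ ^ 2 * R ^ 2) := by
        ring
      rw [this, e4]
      linear_combination (-(Q + σ * R) * (Q ^ 2 - σ * Q * R + σ ^ 2 * R ^ 2)) * hom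
    have h2 : σ ^ 3 * (pp (B 0) - qq (B 0)) = pp (B 0) + qq (B 0) := by
      rw [hσ]; field_simp
    rw [h1]
    linear_combination (-1 / 2 * (x ^ 4 + w ^ 4) ^ 3) * h2
  · intro x w j _ _
    simp

/-- the surface contains no entire curves -/
theorem no_entire (f : ℂ → PSpace Ix) (hf : ∀ z, HolomorphicAt f z ∧ f z ∈ XX) :
    ∀ᶠ t in 𝓝 0, f t = f 0 := by
  obtain ⟨B, X, W, Y, hB⟩ := exists_choice (fun z => (hf z).2)
  have hB : Choice f B X W Y := hB
  obtain ⟨b, x, w, y, hL⟩ := exists_lift hf 0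
  have h1 := xw_const hf hB hL
  obtain ⟨lam, hlam, hlam0, hlame⟩ := exists_lambda hf hB hL
  have h2 : ∀ᶠ t in 𝓝 0, y t / lam t = y 0 / lam 0 := by
    refine eventually_const_of_pow (g := fun t => y t / lam t) (e := 4)
      (c := FF (B 0) (x 0) (w 0)) (by norm_num) (hL.hy.div hlam hlam0) ?_
    refine Filter.Eventually.filter_mono nhdsWithin_le_nhds ?_
    filter_upwards [h1, hlame] with t h3 h4
    rw [div_pow, h4.2.2, h3.1, h3.2]
    have := h4.1
    field_simp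
  have h0 := (hL.eq.and hlame).self_of_nhds
  obtain ⟨⟨-, ⟨h5, h6⟩, -, -⟩, -, h7, -⟩ := h0
  filter_upwards [h1, h2, hlame, hL.eq] with t e1 e2 e3 e4
  obtain ⟨-, ⟨e5, e6⟩, -, -⟩ := e4
  rw [e6, h6, Projectivization.mk_eq_mk_iff']
  refine ⟨lam t / lam 0, ?_⟩
  have e7 := e3.1
  funext a
  rcases a with _ | ⟨i, j⟩
  · simp only [Pi.smul_apply, Th_none, smul_eq_mul]
    field_simp at e2 ⊢
    linear_combination -e2
  · simp only [Pi.smul_apply, Th_some, smul_eq_mul]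
    rw [e3.2.1, e1.1, e1.2]
    conv_lhs => rw [h7]
    simp only [Pi.smul_apply, smul_eq_mul]
    field_simp

theorem isKobayashiHyperbolic_XX : IsKobayashiHyperbolic XX :=
  brody isProjClosed_XX no_entire

end Pool.Agent.Lib.MP_225e67_ag
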