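import Pool.Agent.Lib.MP_225e67_ag.Surf

open scoped LinearAlgebra.Projectivization Topology ENNReal ContDiff
open Metric Filter

namespace Pool.Agent.Lib.MP_225e67_ag

def pp (b : Fin 3 → ℂ) : ℂ := b 0 ^ 4 - b 1 ^ 4 + b 2 ^ 4
def qq (b : Fin 3 → ℂ) : ℂ := 2 * b 0 ^ 4 - 2 * b 1 ^ 4 + b 2 ^ 4
def FF (b : Fin 3 → ℂ) (x w : ℂ) : ℂ :=
  pp b * (x ^ 12 + 3 * x ^ 4 * w ^ 8) + qq b * (3 * x ^ 8 * w ^ 4 + w ^ 12)

lemma xEq_Th_iff (b : Fin 3 → ℂ) {x w : ℂ} (y : ℂ) (hxw : x ≠ 0 ∨ w ≠ 0) :
    XEq (Th b x w y) ↔ b 0 ^ 4 + b 1 ^ 4 = 2 * b 2 ^ 4 ∧ y ^ 4 = FF b x w := by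
  constructor
  · intro h
    constructor
    · rcases hxw with hx | hw
      · have := h.base 0
        simp only [Th_some, mon_zero] at this
        have h2 : x ^ 12 ≠ 0 := pow_ne_zero _ hx
        apply mul_left_cancel₀ h2
        linear_combination this
      · have := h.base 3
        simp only [Th_some, mon_three] at this
        have h2 : w ^ 12 ≠ 0 := pow_ne_zero _ hw
        apply mul_left_cancel₀ h2
        linear_combination this
    · have := h.top
      simp only [Th_some, Th_none, mon_zero, mon_one, mon_two, mon_three] at this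
      unfold FF pp qq
      linear_combination this
  · rintro ⟨h1, h2⟩
    refine ⟨?_, ?_, ?_, ?_, ?_, ?_⟩
    · intro i k j l
      simp only [Th_some]
      ring
    · intro i k
      simp only [Th_some, mon_zero, mon_one, mon_two, mon_three]
      ring
    · intro i k
      simp only [Th_some, mon_zero, mon_one, mon_two, mon_three]
      ring
    · intro i k
      simp only [Th_some, mon_zero, mon_one, mon_two, mon_three]
      ring
    · intro j
      simp only [Th_some]
      linear_combination (mon x w j) ^ 4 * h1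
    · simp only [Th_some, Th_none, mon_zero, mon_one, mon_two, mon_three]
      unfold FF pp qq at h2
      linear_combination h2

lemma XEq.param3 {v : Ix → ℂ} (h : XEq v) {k : Fin 3} (hk : v (some (k, 3)) ≠ 0) :
    v = Th (fun i => v (some (i, 3))) (v (some (k, 2)) / v (some (k, 3))) 1 (v none) := by
  have e2 : ∀ i, v (some (i, 2)) = v (some (i, 3)) * (v (some (k, 2)) / v (some (k, 3))) := by
    intro i
    field_simp
    linear_combination h.minor i k 2 3
  have e1 : ∀ i, v (some (i, 1)) = v (some (i, 3)) * (v (some (k, 2)) / v (some (k, 3))) ^ 2 := by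
    intro i
    have h1 : v (some (i, 1)) * v (some (k, 3)) = v (some (i, 2)) * v (some (k, 2)) := by
      linear_combination h.cat13 i k
    rw [e2 i] at h1
    field_simp at h1 ⊢
    linear_combination h1
  have e0 : ∀ i, v (some (i, 0)) = v (some (i, 3)) * (v (some (k, 2)) / v (some (k, 3))) ^ 3 := by
    intro i
    have h1 : v (some (i, 0)) * v (some (k, 3)) = v (some (i, 1)) * v (some (k, 2)) := by
      linear_combination h.cat03 i k
    rw [e1 i] at h1
    field_simp at h1 ⊢
    linear_combination h1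
  funext a
  rcases a with _ | ⟨i, j⟩
  · rfl
  · fin_cases j
    · simpa using e0 i
    · simpa using e1 i
    · simpa using e2 i
    · simp

lemma XEq.param0 {v : Ix → ℂ} (h : XEq v) {k : Fin 3} (hk : v (some (k, 0)) ≠ 0) :
    v = Th (fun i => v (some (i, 0))) 1 (v (some (k, 1)) / v (some (k, 0))) (v none) := by
  have e1 : ∀ i, v (some (i, 1)) = v (some (i, 0)) * (v (some (k, 1)) / v (some (k, 0))) := by
    intro i
    field_simp
    linear_combination h.minor i k 1 0
  have e2 : ∀ i, v (some (i, 2)) = v (some (i, 0)) * (v (some (k, 1)) / v (some (k, 0))) ^ 2 := by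
    intro i
    have h1 : v (some (i, 2)) * v (some (k, 0)) = v (some (i, 1)) * v (some (k, 1)) := by
      linear_combination h.cat02 k i
    rw [e1 i] at h1
    field_simp at h1 ⊢
    linear_combination h1
  have e3 : ∀ i, v (some (i, 3)) = v (some (i, 0)) * (v (some (k, 1)) / v (some (k, 0))) ^ 3 := by
    intro i
    have h1 : v (some (i, 3)) * v (some (k, 0)) = v (some (i, 2)) * v (some (k, 1)) := by
      linear_combination h.cat03 k i
    rw [e2 i] at h1
    field_simp at h1 ⊢
    linear_combination h1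
  funext a
  rcases a with _ | ⟨i, j⟩
  · rfl
  · fin_cases j
    · simp
    · simpa using e1 i
    · simpa using e2 i
    · simpa using e3 i

lemma XEq.exists_ne {v : Ix → ℂ} (h : XEq v) (hv : v ≠ 0) :
    ∃ k : Fin 3, v (some (k, 3)) ≠ 0 ∨ v (some (k, 0)) ≠ 0 := by
  by_contra hcon
  push Not at hcon
  apply hv
  have h2 : ∀ k, v (some (k, 2)) = 0 := by
    intro k
    have := h.cat13 k k
    rw [(hcon k).1] at this
    have h3 : v (some (k, 2)) ^ 2 = 0 := by linear_combination -this
    exact pow_eq_zero_iff (by norm_num) |>.1 h3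
  have h1 : ∀ k, v (some (k, 1)) = 0 := by
    intro k
    have := h.cat02 k k
    rw [(hcon k).2] at this
    have h3 : v (some (k, 1)) ^ 2 = 0 := by linear_combination -this
    exact pow_eq_zero_iff (by norm_num) |>.1 h3
  have hy : v none = 0 := by
    have := h.top
    simp only [h1, h2, (hcon _).1, (hcon _).2] at this
    have h3 : v none ^ 4 = 0 := by linear_combination this
    exact pow_eq_zero_iff (by norm_num) |>.1 h3
  funext a
  rcases a with _ | ⟨i, j⟩
  · exact hy
  · fin_cases j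
    · exact (hcon i).2
    · exact h1 i
    · exact h2 i
    · exact (hcon i).1

lemma exists_param {v : Ix → ℂ} (hv : v ∈ cone XX) :
    ∃ (b : Fin 3 → ℂ) (x w y : ℂ), b ≠ 0 ∧ (x ≠ 0 ∨ w ≠ 0) ∧ v = Th b x w y ∧
      b 0 ^ 4 + b 1 ^ 4 = 2 * b 2 ^ 4 ∧ y ^ 4 = FF b x w := by
  obtain ⟨h0, h⟩ := mem_cone_XX.1 hv
  obtain ⟨k, hk | hk⟩ := h.exists_ne h0
  · have h1 := h.param3 hk
    have h2 := h
    rw [h1, xEq_Th_iff _ _ (Or.inr one_ne_zero)] at h2
    refine ⟨_, _, _, _, ?_, Or.inr one_ne_zero, h1, h2.1, h2.2⟩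
    intro h3
    exact hk (congrFun h3 k)
  · have h1 := h.param0 hk
    have h2 := h
    rw [h1, xEq_Th_iff _ _ (Or.inl one_ne_zero)] at h2
    refine ⟨_, _, _, _, ?_, Or.inl one_ne_zero, h1, h2.1, h2.2⟩
    intro h3
    exact hk (congrFun h3 k)

lemma Th_ne_zero {b : Fin 3 → ℂ} {x w : ℂ} (y : ℂ) (hb : b ≠ 0) (hxw : x ≠ 0 ∨ w ≠ 0) :
    Th b x w y ≠ 0 := by
  obtain ⟨i, hi⟩ := Function.ne_iff.1 hb
  intro h
  rcases hxw with hx | hw
  · have := congrFun h (some (i, 0))
    simp only [Th_some, mon_zero, Pi.zero_apply, mul_eq_zero, pow_eq_zero_iff, ne_eq,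
      OfNat.ofNat_ne_zero, not_false_eq_true] at this
    exact this.elim hi hx
  · have := congrFun h (some (i, 3))
    simp only [Th_some, mon_three, Pi.zero_apply, mul_eq_zero, pow_eq_zero_iff, ne_eq,
      OfNat.ofNat_ne_zero, not_false_eq_true] at this
    exact this.elim hi hw

lemma Th_mem_cone {b : Fin 3 → ℂ} {x w y : ℂ} (hb : b ≠ 0) (hxw : x ≠ 0 ∨ w ≠ 0)
    (h1 : b 0 ^ 4 + b 1 ^ 4 = 2 * b 2 ^ 4) (h2 : y ^ 4 = FF b x w) : Th b x w y ∈ cone XX :=
  mem_cone_XX.2 ⟨Th_ne_zero y hb hxw, (xEq_Th_iff b y hxw).2 ⟨h1, h2⟩⟩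

end Pool.Agent.Lib.MP_225e67_ag
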