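import Pool.Agent.Lib.MP_225e67_ag.Par

open scoped LinearAlgebra.Projectivization Topology ENNReal ContDiff
open Metric Filter

namespace Pool.Agent.Lib.MP_225e67_ag

/-- the first three entries -/
def bb (c : Fin 6 → ℂ) : Fin 3 → ℂ := ![c 0, c 1, c 2]

@[simp] lemma bb_zero (c : Fin 6 → ℂ) : bb c 0 = c 0 := rfl
@[simp] lemma bb_one (c : Fin 6 → ℂ) : bb c 1 = c 1 := rfl
@[simp] lemma bb_two (c : Fin 6 → ℂ) : bb c 2 = c 2 := rfl

def GG (c : Fin 6 → ℂ) : ℂ := c 0 ^ 4 + c 1 ^ 4 - 2 * c 2 ^ 4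

def PP (c : Fin 6 → ℂ) : ℂ :=
  c 5 ^ 4 - ((c 0 ^ 4 - c 1 ^ 4 + c 2 ^ 4) * (c 3 ^ 12 + 3 * (c 3 ^ 4 * c 4 ^ 8))
    + (2 * c 0 ^ 4 - 2 * c 1 ^ 4 + c 2 ^ 4) * (3 * (c 3 ^ 8 * c 4 ^ 4) + c 4 ^ 12))

lemma PP_eq (c : Fin 6 → ℂ) : PP c = c 5 ^ 4 - FF (bb c) (c 3) (c 4) := by
  unfold PP FF pp qq
  simp only [bb_zero, bb_one, bb_two]
  ring

noncomputable def prj (i : Fin 6) : (Fin 6 → ℂ) →L[ℂ] ℂ := ContinuousLinearMap.proj i

noncomputable def dG (c : Fin 6 → ℂ) : (Fin 6 → ℂ) →L[ℂ] ℂ :=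
  (4 * c 0 ^ 3) • prj 0 + (4 * c 1 ^ 3) • prj 1 + (-8 * c 2 ^ 3) • prj 2

/-- partial derivatives of the binary form -/
noncomputable def Fx (c : Fin 6 → ℂ) : ℂ :=
  12 * c 3 ^ 3 * (pp (bb c) * (c 3 ^ 8 + c 4 ^ 8) + 2 * qq (bb c) * (c 3 ^ 4 * c 4 ^ 4))

noncomputable def Fw (c : Fin 6 → ℂ) : ℂ :=
  12 * c 4 ^ 3 * (2 * pp (bb c) * (c 3 ^ 4 * c 4 ^ 4) + qq (bb c) * (c 3 ^ 8 + c 4 ^ 8))

noncomputable def fp (c : Fin 6 → ℂ) : ℂ := c 3 ^ 12 + 3 * (c 3 ^ 4 * c 4 ^ 8)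
noncomputable def fq (c : Fin 6 → ℂ) : ℂ := 3 * (c 3 ^ 8 * c 4 ^ 4) + c 4 ^ 12

noncomputable def dP (c : Fin 6 → ℂ) : (Fin 6 → ℂ) →L[ℂ] ℂ :=
  (4 * c 5 ^ 3) • prj 5 + (-(4 * c 0 ^ 3 * (fp c + 2 * fq c))) • prj 0
    + (4 * c 1 ^ 3 * (fp c + 2 * fq c)) • prj 1 + (-(4 * c 2 ^ 3 * (fp c + fq c))) • prj 2
    + (-Fx c) • prj 3 + (-Fw c) • prj 4

lemma strict_G (c : Fin 6 → ℂ) : HasStrictFDerivAt GG (dG c) c := by
  have h : ∀ i : Fin 6, HasStrictFDerivAt (fun c : Fin 6 → ℂ => c i) (prj i) c := fun i =>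
    hasStrictFDerivAt_apply i c
  refine ((((h 0).pow 4).add ((h 1).pow 4)).sub (((h 2).pow 4).const_mul 2)).congr_fderiv ?_
  ext e
  simp [dG]
  ring

lemma strict_P (c : Fin 6 → ℂ) : HasStrictFDerivAt PP (dP c) c := by
  have h : ∀ i : Fin 6, HasStrictFDerivAt (fun c : Fin 6 → ℂ => c i) (prj i) c := fun i =>
    hasStrictFDerivAt_apply i c
  have h1 := (((h 0).pow 4).sub ((h 1).pow 4)).add ((h 2).pow 4)
  have h2 := ((((h 0).pow 4).const_mul 2).sub (((h 1).pow 4).const_mul 2)).add ((h 2).pow 4)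
  have h3 := ((h 3).pow 12).add ((((h 3).pow 4).mul ((h 4).pow 8)).const_mul 3)
  have h4 := ((((h 3).pow 8).mul ((h 4).pow 4)).const_mul 3).add ((h 4).pow 12)
  refine (((h 5).pow 4).sub ((h1.mul h3).add (h2.mul h4))).congr_fderiv ?_
  ext e
  simp [dP, fp, fq, Fx, Fw, pp, qq]
  ring

noncomputable def JJ (c : Fin 6 → ℂ) : (Fin 6 → ℂ) →L[ℂ] ℂ × ℂ := (dG c).prod (dP c)

lemma strict_J (c : Fin 6 → ℂ) :
    HasStrictFDerivAt (fun c => (GG c, PP c)) (JJ c) c := (strict_G c).prodMk (strict_P c)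

lemma surj_of {V : Type*} [AddCommGroup V] [Module ℂ V] (f : V →ₗ[ℂ] ℂ × ℂ) (e1 e2 : V)
    (h1 : (f e1).1 ≠ 0) (h2 : (f e2).1 = 0) (h3 : (f e2).2 ≠ 0) : Function.Surjective f := by
  rintro ⟨a, b⟩
  refine ⟨(a / (f e1).1) • e1 + ((b - (a / (f e1).1) * (f e1).2) / (f e2).2) • e2, ?_⟩
  rw [map_add, map_smul, map_smul]
  ext
  · simp only [Prod.fst_add, Prod.smul_fst, smul_eq_mul, h2]
    field_simp
    ring
  · simp only [Prod.snd_add, Prod.smul_snd, smul_eq_mul]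
    field_simp
    ring

lemma dG_apply (c e : Fin 6 → ℂ) :
    dG c e = 4 * c 0 ^ 3 * e 0 + 4 * c 1 ^ 3 * e 1 - 8 * c 2 ^ 3 * e 2 := by
  simp [dG, prj]
  ring

lemma dP_apply (c e : Fin 6 → ℂ) :
    dP c e = 4 * c 5 ^ 3 * e 5 - 4 * c 0 ^ 3 * (fp c + 2 * fq c) * e 0
      + 4 * c 1 ^ 3 * (fp c + 2 * fq c) * e 1 - 4 * c 2 ^ 3 * (fp c + fq c) * e 2
      - Fx c * e 3 - Fw c * e 4 := by
  simp [dP, prj]
  ring

lemma JJ_apply (c e : Fin 6 → ℂ) : JJ c e = (dG c e, dP c e) := rfl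

lemma JJ_surj {c : Fin 6 → ℂ} (hb : bb c ≠ 0) (hxw : c 3 ≠ 0 ∨ c 4 ≠ 0) (hG : GG c = 0) :
    Function.Surjective (JJ c) := by
  have hb' : c 0 ≠ 0 ∨ c 1 ≠ 0 ∨ c 2 ≠ 0 := by
    by_contra h
    push Not at h
    apply hb
    funext i
    fin_cases i
    · exact h.1
    · exact h.2.1
    · exact h.2.2
  have hG' : c 0 ^ 4 + c 1 ^ 4 - 2 * c 2 ^ 4 = 0 := hG
  -- first vector
  obtain ⟨e1, he1⟩ : ∃ e1, dG c e1 ≠ 0 := by
    rcases hb' with h | h | h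
    · refine ⟨![1, 0, 0, 0, 0, 0], ?_⟩
      rw [dG_apply]; simp [h]
    · refine ⟨![0, 1, 0, 0, 0, 0], ?_⟩
      rw [dG_apply]; simp [h]
    · refine ⟨![0, 0, 1, 0, 0, 0], ?_⟩
      rw [dG_apply]; simp [h]
  -- second vector
  obtain ⟨e2, he2, he3⟩ : ∃ e2, dG c e2 = 0 ∧ dP c e2 ≠ 0 := by
    by_cases h5 : c 5 = 0
    swap
    · refine ⟨![0, 0, 0, 0, 0, 1], ?_, ?_⟩
      · rw [dG_apply]; simp
      · rw [dP_apply]; simp [h5]
    by_cases hx : Fx c = 0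
    swap
    · refine ⟨![0, 0, 0, 1, 0, 0], ?_, ?_⟩
      · rw [dG_apply]; simp
      · rw [dP_apply]; simp [hx]
    by_cases hw : Fw c = 0
    swap
    · refine ⟨![0, 0, 0, 0, 1, 0], ?_, ?_⟩
      · rw [dG_apply]; simp
      · rw [dP_apply]; simp [hw]
    have key : pp (bb c) * qq (bb c) * (pp (bb c) ^ 2 - qq (bb c) ^ 2) = 0 := by
      unfold Fx at hx
      unfold Fw at hw
      set p := pp (bb c)
      set q := qq (bb c)
      by_cases h3 : c 3 = 0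
      · have h4 : c 4 ≠ 0 := by
          rcases hxw with h | h
          · exact absurd h3 h
          · exact h
        rw [h3] at hw
        have : q = 0 := by
          have h6 : (12 * c 4 ^ 11) * q = 0 := by linear_combination hw
          rcases mul_eq_zero.1 h6 with h7 | h7
          · exfalso
            apply h4
            simpa using h7
          · exact h7
        rw [this]; ring
      by_cases h4 : c 4 = 0
      · rw [h4] at hx
        have : p = 0 := by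
          have h6 : (12 * c 3 ^ 11) * p = 0 := by linear_combination hx
          rcases mul_eq_zero.1 h6 with h7 | h7
          · exfalso
            apply h3
            simpa using h7
          · exact h7
        rw [this]; ring
      · have e1 : p * (c 3 ^ 8 + c 4 ^ 8) + 2 * q * (c 3 ^ 4 * c 4 ^ 4) = 0 := by
          rcases mul_eq_zero.1 hx with h7 | h7
          · exfalso
            apply h3
            simpa using h7
          · exact h7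
        have e2 : 2 * p * (c 3 ^ 4 * c 4 ^ 4) + q * (c 3 ^ 8 + c 4 ^ 8) = 0 := by
          rcases mul_eq_zero.1 hw with h7 | h7
          · exfalso
            apply h4
            simpa using h7
          · exact h7
        have e3 : (2 * (c 3 ^ 4 * c 4 ^ 4)) * (p ^ 2 - q ^ 2) = 0 := by
          linear_combination p * e2 - q * e1
        rcases mul_eq_zero.1 e3 with h7 | h7
        · exfalso
          simp [h3, h4] at h7
        · rw [h7]; ring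
    have hpp : pp (bb c) = c 0 ^ 4 - c 1 ^ 4 + c 2 ^ 4 := rfl
    have hqq : qq (bb c) = 2 * c 0 ^ 4 - 2 * c 1 ^ 4 + c 2 ^ 4 := rfl
    rw [hpp, hqq] at key
    have hc0 : c 0 ≠ 0 := by
      intro h0
      have e1 : c 1 ^ 4 = 2 * c 2 ^ 4 := by rw [h0] at hG'; linear_combination hG'
      rw [h0, e1] at key
      have e2 : c 2 ^ 16 = 0 := by linear_combination (-1 / 24) * key
      have e3 : c 2 = 0 := pow_eq_zero_iff (by norm_num) |>.1 e2
      have e4 : c 1 ^ 4 = 0 := by rw [e1, e3]; ring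
      have e5 : c 1 = 0 := pow_eq_zero_iff (by norm_num) |>.1 e4
      rcases hb' with h | h | h
      · exact h h0
      · exact h e5
      · exact h e3
    have hc1 : c 1 ≠ 0 := by
      intro h0
      have e1 : c 0 ^ 4 = 2 * c 2 ^ 4 := by rw [h0] at hG'; linear_combination hG'
      rw [h0, e1] at key
      have e2 : c 2 ^ 16 = 0 := by linear_combination (-1 / 240) * key
      have e3 : c 2 = 0 := pow_eq_zero_iff (by norm_num) |>.1 e2
      rw [e3] at e1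
      exact hc0 (pow_eq_zero_iff (n := 4) (by norm_num) |>.1 (by rw [e1]; ring))
    have hc2 : c 2 ≠ 0 := by
      intro h0
      have e1 : c 1 ^ 4 = - c 0 ^ 4 := by rw [h0] at hG'; linear_combination hG'
      rw [h0, e1] at key
      have e2 : c 0 ^ 16 = 0 := by linear_combination (-1 / 96) * key
      exact hc0 (pow_eq_zero_iff (n := 16) (by norm_num) |>.1 e2)
    by_cases hφ : fp c + 2 * fq c = 0
    swap
    · refine ⟨![c 1 ^ 3, - c 0 ^ 3, 0, 0, 0, 0], ?_, ?_⟩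
      · rw [dG_apply]; simp; ring
      · rw [dP_apply]
        have : 4 * c 5 ^ 3 * (![c 1 ^ 3, - c 0 ^ 3, 0, 0, 0, 0] : Fin 6 → ℂ) 5
          - 4 * c 0 ^ 3 * (fp c + 2 * fq c) * (![c 1 ^ 3, - c 0 ^ 3, 0, 0, 0, 0] : Fin 6 → ℂ) 0
          + 4 * c 1 ^ 3 * (fp c + 2 * fq c) * (![c 1 ^ 3, - c 0 ^ 3, 0, 0, 0, 0] : Fin 6 → ℂ) 1
          - 4 * c 2 ^ 3 * (fp c + fq c) * (![c 1 ^ 3, - c 0 ^ 3, 0, 0, 0, 0] : Fin 6 → ℂ) 2
          - Fx c * (![c 1 ^ 3, - c 0 ^ 3, 0, 0, 0, 0] : Fin 6 → ℂ) 3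
          - Fw c * (![c 1 ^ 3, - c 0 ^ 3, 0, 0, 0, 0] : Fin 6 → ℂ) 4
          = -8 * (c 0 ^ 3 * c 1 ^ 3 * (fp c + 2 * fq c)) := by
          simp; ring
        rw [this]
        simp [hc0, hc1, hφ]
    · have hχ : fp c + fq c ≠ 0 := by
        intro h
        have h1 : fq c = 0 := by linear_combination hφ - h
        have h2 : fp c = 0 := by linear_combination h - h1
        unfold fp at h2
        unfold fq at h1
        have e1 : (c 3 ^ 4 + c 4 ^ 4) ^ 3 = 0 := by linear_combination h1 + h2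
        have e2 : (c 3 ^ 4 - c 4 ^ 4) ^ 3 = 0 := by linear_combination h2 - h1
        have e3 := pow_eq_zero_iff (by norm_num) |>.1 e1
        have e4 := pow_eq_zero_iff (by norm_num) |>.1 e2
        have e5 : c 3 ^ 4 = 0 := by linear_combination (1 / 2) * e3 + (1 / 2) * e4
        have e6 : c 4 ^ 4 = 0 := by linear_combination (1 / 2) * e3 - (1 / 2) * e4
        rcases hxw with h | h
        · exact h (pow_eq_zero_iff (by norm_num) |>.1 e5)
        · exact h (pow_eq_zero_iff (by norm_num) |>.1 e6)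
      refine ⟨![2 * c 2 ^ 3, 0, c 0 ^ 3, 0, 0, 0], ?_, ?_⟩
      · rw [dG_apply]; simp; ring
      · rw [dP_apply, hφ]
        have : 4 * c 5 ^ 3 * (![2 * c 2 ^ 3, 0, c 0 ^ 3, 0, 0, 0] : Fin 6 → ℂ) 5
          - 4 * c 0 ^ 3 * 0 * (![2 * c 2 ^ 3, 0, c 0 ^ 3, 0, 0, 0] : Fin 6 → ℂ) 0
          + 4 * c 1 ^ 3 * 0 * (![2 * c 2 ^ 3, 0, c 0 ^ 3, 0, 0, 0] : Fin 6 → ℂ) 1
          - 4 * c 2 ^ 3 * (fp c + fq c) * (![2 * c 2 ^ 3, 0, c 0 ^ 3, 0, 0, 0] : Fin 6 → ℂ) 2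
          - Fx c * (![2 * c 2 ^ 3, 0, c 0 ^ 3, 0, 0, 0] : Fin 6 → ℂ) 3
          - Fw c * (![2 * c 2 ^ 3, 0, c 0 ^ 3, 0, 0, 0] : Fin 6 → ℂ) 4
          = -4 * (c 0 ^ 3 * c 2 ^ 3 * (fp c + fq c)) := by
          simp; ring
        rw [this]
        simp [hc0, hc2, hχ]
  exact surj_of (JJ c).toLinearMap e1 e2 he1 he2 he3

end Pool.Agent.Lib.MP_225e67_ag
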