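import Pool.Agent.Lib.MP_225e67_ag.Tan

open scoped LinearAlgebra.Projectivization Topology ENNReal ContDiff
open Metric Filter

namespace Pool.Agent.Lib.MP_225e67_ag

/-- the thirteen homogeneous coordinates -/
abbrev Ix : Type := Option (Fin 3 × Fin 4)

/-- the rational normal cubic cone -/
def mon (x w : ℂ) : Fin 4 → ℂ := ![x ^ 3, x ^ 2 * w, x * w ^ 2, w ^ 3]

/-- the parametrisation -/
def Th (b : Fin 3 → ℂ) (x w y : ℂ) : Ix → ℂ
  | none => y
  | some (i, j) => b i * mon x w j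

@[simp] lemma Th_none (b : Fin 3 → ℂ) (x w y : ℂ) : Th b x w y none = y := rfl
@[simp] lemma Th_some (b : Fin 3 → ℂ) (x w y : ℂ) (i : Fin 3) (j : Fin 4) :
    Th b x w y (some (i, j)) = b i * mon x w j := rfl
@[simp] lemma mon_zero (x w : ℂ) : mon x w 0 = x ^ 3 := rfl
@[simp] lemma mon_one (x w : ℂ) : mon x w 1 = x ^ 2 * w := rfl
@[simp] lemma mon_two (x w : ℂ) : mon x w 2 = x * w ^ 2 := rfl
@[simp] lemma mon_three (x w : ℂ) : mon x w 3 = w ^ 3 := rfl

/-- the equations of the surface -/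
structure XEq (v : Ix → ℂ) : Prop where
  minor : ∀ (i k : Fin 3) (j l : Fin 4),
    v (some (i, j)) * v (some (k, l)) - v (some (i, l)) * v (some (k, j)) = 0
  cat02 : ∀ i k : Fin 3, v (some (i, 0)) * v (some (k, 2)) - v (some (i, 1)) * v (some (k, 1)) = 0
  cat13 : ∀ i k : Fin 3, v (some (i, 1)) * v (some (k, 3)) - v (some (i, 2)) * v (some (k, 2)) = 0
  cat03 : ∀ i k : Fin 3, v (some (i, 0)) * v (some (k, 3)) - v (some (i, 1)) * v (some (k, 2)) = 0
  base : ∀ j : Fin 4, v (some (0, j)) ^ 4 + v (some (1, j)) ^ 4 - 2 * v (some (2, j)) ^ 4 = 0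
  top : v none ^ 4 - ((v (some (0, 0)) ^ 4 - v (some (1, 0)) ^ 4 + v (some (2, 0)) ^ 4)
    + 3 * (2 * v (some (0, 1)) ^ 4 - 2 * v (some (1, 1)) ^ 4 + v (some (2, 1)) ^ 4)
    + 3 * (v (some (0, 2)) ^ 4 - v (some (1, 2)) ^ 4 + v (some (2, 2)) ^ 4)
    + (2 * v (some (0, 3)) ^ 4 - 2 * v (some (1, 3)) ^ 4 + v (some (2, 3)) ^ 4)) = 0

/-- the additional equations of the curve -/
def ZEq (v : Ix → ℂ) : Prop :=
  XEq v ∧ ∀ j : Fin 4, v (some (0, j)) - v (some (2, j)) = 0 ∧ v (some (1, j)) - v (some (2, j)) = 0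

section Equations

open MvPolynomial

/-- equations as polynomials -/
inductive XPoly : MvPolynomial Ix ℂ → Prop
  | minor (i k : Fin 3) (j l : Fin 4) :
      XPoly (X (some (i, j)) * X (some (k, l)) - X (some (i, l)) * X (some (k, j)))
  | cat02 (i k : Fin 3) :
      XPoly (X (some (i, 0)) * X (some (k, 2)) - X (some (i, 1)) * X (some (k, 1)))
  | cat13 (i k : Fin 3) :
      XPoly (X (some (i, 1)) * X (some (k, 3)) - X (some (i, 2)) * X (some (k, 2)))
  | cat03 (i k : Fin 3) :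
      XPoly (X (some (i, 0)) * X (some (k, 3)) - X (some (i, 1)) * X (some (k, 2)))
  | base (j : Fin 4) :
      XPoly (X (some (0, j)) ^ 4 + X (some (1, j)) ^ 4 - C 2 * X (some (2, j)) ^ 4)
  | top : XPoly (X none ^ 4 - ((X (some (0, 0)) ^ 4 - X (some (1, 0)) ^ 4 + X (some (2, 0)) ^ 4)
    + C 3 * (C 2 * X (some (0, 1)) ^ 4 - C 2 * X (some (1, 1)) ^ 4 + X (some (2, 1)) ^ 4)
    + C 3 * (X (some (0, 2)) ^ 4 - X (some (1, 2)) ^ 4 + X (some (2, 2)) ^ 4)
    + (C 2 * X (some (0, 3)) ^ 4 - C 2 * X (some (1, 3)) ^ 4 + X (some (2, 3)) ^ 4)))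

inductive ZPoly : MvPolynomial Ix ℂ → Prop
  | ofX (f : MvPolynomial Ix ℂ) (hf : XPoly f) : ZPoly f
  | zero (j : Fin 4) : ZPoly (X (some (0, j)) - X (some (2, j)))
  | one (j : Fin 4) : ZPoly (X (some (1, j)) - X (some (2, j)))

lemma hX2 (a b : Ix) : (X a * X b : MvPolynomial Ix ℂ).IsHomogeneous 2 :=
  (isHomogeneous_X ℂ a).mul (isHomogeneous_X ℂ b)

lemma hX4 (a : Ix) : (X a ^ 4 : MvPolynomial Ix ℂ).IsHomogeneous 4 := by
  simpa using (isHomogeneous_X ℂ a).pow 4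

lemma hC4 (c : ℂ) {f : MvPolynomial Ix ℂ} (hf : f.IsHomogeneous 4) :
    (C c * f).IsHomogeneous 4 := by
  simpa using (isHomogeneous_C Ix c).mul hf

lemma XPoly.homog {f : MvPolynomial Ix ℂ} (h : XPoly f) : ∃ n, f.IsHomogeneous n := by
  cases h with
  | minor i k j l => exact ⟨2, (hX2 _ _).sub (hX2 _ _)⟩
  | cat02 i k => exact ⟨2, (hX2 _ _).sub (hX2 _ _)⟩
  | cat13 i k => exact ⟨2, (hX2 _ _).sub (hX2 _ _)⟩
  | cat03 i k => exact ⟨2, (hX2 _ _).sub (hX2 _ _)⟩
  | base j => exact ⟨4, ((hX4 _).add (hX4 _)).sub (hC4 _ (hX4 _))⟩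
  | top =>
    refine ⟨4, (hX4 _).sub (((IsHomogeneous.add ?_ (hC4 _ ?_)).add (hC4 _ ?_)).add ?_)⟩
    · exact ((hX4 _).sub (hX4 _)).add (hX4 _)
    · exact ((hC4 _ (hX4 _)).sub (hC4 _ (hX4 _))).add (hX4 _)
    · exact ((hX4 _).sub (hX4 _)).add (hX4 _)
    · exact ((hC4 _ (hX4 _)).sub (hC4 _ (hX4 _))).add (hX4 _)

lemma ZPoly.homog {f : MvPolynomial Ix ℂ} (h : ZPoly f) : ∃ n, f.IsHomogeneous n := by
  cases h with
  | ofX f hf => exact hf.homog
  | zero j => exact ⟨1, (isHomogeneous_X ℂ _).sub (isHomogeneous_X ℂ _)⟩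
  | one j => exact ⟨1, (isHomogeneous_X ℂ _).sub (isHomogeneous_X ℂ _)⟩

lemma xEq_iff (v : Ix → ℂ) : XEq v ↔ ∀ f, XPoly f → eval v f = 0 := by
  constructor
  · intro h f hf
    cases hf with
    | minor i k j l => simpa using h.minor i k j l
    | cat02 i k => simpa using h.cat02 i k
    | cat13 i k => simpa using h.cat13 i k
    | cat03 i k => simpa using h.cat03 i k
    | base j => simpa using h.base j
    | top => simpa using h.top
  · intro h
    exact ⟨fun i k j l => by simpa using h _ (.minor i k j l),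
      fun i k => by simpa using h _ (.cat02 i k),
      fun i k => by simpa using h _ (.cat13 i k),
      fun i k => by simpa using h _ (.cat03 i k),
      fun j => by simpa using h _ (.base j),
      by simpa using h _ .top⟩

lemma zEq_iff (v : Ix → ℂ) : ZEq v ↔ ∀ f, ZPoly f → eval v f = 0 := by
  constructor
  · intro h f hf
    cases hf with
    | ofX f hf => exact (xEq_iff v).1 h.1 f hf
    | zero j => simpa using (h.2 j).1
    | one j => simpa using (h.2 j).2
  · intro h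
    refine ⟨(xEq_iff v).2 fun f hf => h f (.ofX f hf), fun j => ⟨?_, ?_⟩⟩
    · simpa using h _ (.zero j)
    · simpa using h _ (.one j)

end Equations

/-- scaling does not affect the vanishing of homogeneous polynomials -/
lemma eval_smul_eq_zero_iff {ι : Type} {f : MvPolynomial ι ℂ} {n : ℕ} (hf : f.IsHomogeneous n)
    {c : ℂ} (hc : c ≠ 0) (v : ι → ℂ) :
    MvPolynomial.eval (c • v) f = 0 ↔ MvPolynomial.eval v f = 0 := by
  have : MvPolynomial.eval (c • v) f = c ^ n * MvPolynomial.eval v f := by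
    rw [MvPolynomial.eval_eq, MvPolynomial.eval_eq, Finset.mul_sum]
    refine Finset.sum_congr rfl fun d hd => ?_
    have h1 : d.degree = n := by
      have := hf (MvPolynomial.mem_support_iff.1 hd)
      rw [← this]
      simp only [Finsupp.weight_apply, Finsupp.sum, Pi.one_apply, smul_eq_mul, mul_one]
      rfl
    have h2 : ∏ i ∈ d.support, (c • v) i ^ d i = c ^ n * ∏ i ∈ d.support, v i ^ d i := by
      simp only [Pi.smul_apply, smul_eq_mul, mul_pow, Finset.prod_mul_distrib]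
      rw [Finset.prod_pow_eq_pow_sum]
      congr 2
    rw [h2]
    ring
  rw [this, mul_eq_zero]
  simp [hc]

/-- zero loci of homogeneous polynomials are closed -/
lemma closed_and_cone {ι : Type} (Q : (ι → ℂ) → Prop) (J : MvPolynomial ι ℂ → Prop)
    (hJ : ∀ f, J f → ∃ n, f.IsHomogeneous n)
    (hQ : ∀ v, Q v ↔ ∀ f, J f → MvPolynomial.eval v f = 0) :
    IsProjClosed {P : PSpace ι | Q P.rep} ∧
      cone {P : PSpace ι | Q P.rep} = {v | v ≠ 0 ∧ Q v} := by
  have key : ∀ (v : ι → ℂ) (h : v ≠ 0), Q (Projectivization.mk ℂ v h).rep ↔ Q v := by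
    intro v h
    obtain ⟨a, ha⟩ := Projectivization.exists_smul_eq_mk_rep ℂ v h
    rw [← ha, hQ, hQ]
    refine forall_congr' fun f => ?_
    refine imp_congr_right fun hf => ?_
    obtain ⟨n, hn⟩ := hJ f hf
    exact eval_smul_eq_zero_iff hn a.ne_zero v
  constructor
  · refine ⟨{f | J f}, hJ, fun v h => ?_⟩
    rw [Set.mem_ofPred_eq, key v h, hQ]
    rfl
  · ext v
    constructor
    · rintro ⟨h, h1⟩
      exact ⟨h, (key v h).1 h1⟩
    · rintro ⟨h, h1⟩
      exact ⟨h, (key v h).2 h1⟩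

/-- the surface -/
def XX : Set (PSpace Ix) := {P | XEq P.rep}

/-- the curve -/
def ZZ : Set (PSpace Ix) := {P | ZEq P.rep}

lemma isProjClosed_XX : IsProjClosed XX :=
  (closed_and_cone XEq XPoly (fun _ h => h.homog) xEq_iff).1

lemma isProjClosed_ZZ : IsProjClosed ZZ :=
  (closed_and_cone ZEq ZPoly (fun _ h => h.homog) zEq_iff).1

lemma mem_cone_XX {v : Ix → ℂ} : v ∈ cone XX ↔ v ≠ 0 ∧ XEq v := by
  have := (closed_and_cone XEq XPoly (fun _ h => h.homog) xEq_iff).2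
  unfold XX
  rw [this]
  rfl

lemma mem_cone_ZZ {v : Ix → ℂ} : v ∈ cone ZZ ↔ v ≠ 0 ∧ ZEq v := by
  have := (closed_and_cone ZEq ZPoly (fun _ h => h.homog) zEq_iff).2
  unfold ZZ
  rw [this]
  rfl

lemma ZZ_subset : ZZ ⊆ XX := fun _ h => h.1

end Pool.Agent.Lib.MP_225e67_ag
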