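import Pool.Agent.Lib.MP_225e67_ag.Smo

open scoped LinearAlgebra.Projectivization Topology ENNReal ContDiff
open Metric Filter

namespace Pool.Agent.Lib.MP_225e67_ag

/-- derivative of `mon` -/
def dmon (x w a d : ℂ) : Fin 4 → ℂ :=
  ![3 * x ^ 2 * a, 2 * x * w * a + x ^ 2 * d, w ^ 2 * a + 2 * x * w * d, 3 * w ^ 2 * d]

@[simp] lemma dmon_zero (x w a d : ℂ) : dmon x w a d 0 = 3 * x ^ 2 * a := rfl
@[simp] lemma dmon_one (x w a d : ℂ) : dmon x w a d 1 = 2 * x * w * a + x ^ 2 * d := rfl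
@[simp] lemma dmon_two (x w a d : ℂ) : dmon x w a d 2 = w ^ 2 * a + 2 * x * w * d := rfl
@[simp] lemma dmon_three (x w a d : ℂ) : dmon x w a d 3 = 3 * w ^ 2 * d := rfl

lemma dmon_add (x w a d a' d' : ℂ) (j : Fin 4) :
    dmon x w (a + a') (d + d') j = dmon x w a d j + dmon x w a' d' j := by
  fin_cases j <;> simp <;> ring

lemma dmon_smul (x w a d r : ℂ) (j : Fin 4) :
    dmon x w (r * a) (r * d) j = r * dmon x w a d j := by
  fin_cases j <;> simp <;> ring

lemma hasDerivAt_mon {x w : ℂ → ℂ} {a d t : ℂ} (hx : HasDerivAt x a t) (hw : HasDerivAt w d t)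
    (j : Fin 4) : HasDerivAt (fun t => mon (x t) (w t) j) (dmon (x t) (w t) a d j) t := by
  fin_cases j
  · simp only [Fin.zero_eta, mon_zero, dmon_zero]
    refine (hx.pow 3).congr_deriv ?_
    simp
  · simp only [Fin.mk_one, mon_one, dmon_one]
    refine ((hx.pow 2).mul hw).congr_deriv ?_
    simp
    ring
  · simp only [Fin.reduceFinMk, mon_two, dmon_two]
    refine (hx.mul (hw.pow 2)).congr_deriv ?_
    simp
    ring
  · simp only [Fin.reduceFinMk, mon_three, dmon_three]
    refine (hw.pow 3).congr_deriv ?_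
    simp

/-- derivative of the parametrisation -/
def dTh (c : Fin 6 → ℂ) : (Fin 6 → ℂ) →ₗ[ℂ] (Ix → ℂ) where
  toFun e a := match a with
    | none => e 5
    | some (i, j) => bb e i * mon (c 3) (c 4) j + bb c i * dmon (c 3) (c 4) (e 3) (e 4) j
  map_add' e e' := by
    funext a
    rcases a with _ | ⟨i, j⟩
    · rfl
    · simp only [Pi.add_apply, dmon_add]
      have : bb (e + e') i = bb e i + bb e' i := by fin_cases i <;> rfl
      rw [this]
      ring
  map_smul' r e := by
    funext a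
    rcases a with _ | ⟨i, j⟩
    · rfl
    · simp only [Pi.smul_apply, smul_eq_mul, dmon_smul, RingHom.id_apply]
      have : bb (r • e) i = r * bb e i := by fin_cases i <;> rfl
      rw [this]
      ring

@[simp] lemma dTh_none (c e : Fin 6 → ℂ) : dTh c e none = e 5 := rfl
@[simp] lemma dTh_some (c e : Fin 6 → ℂ) (i : Fin 3) (j : Fin 4) :
    dTh c e (some (i, j)) = bb e i * mon (c 3) (c 4) j
      + bb c i * dmon (c 3) (c 4) (e 3) (e 4) j := rfl

lemma hasDerivAt_bb {γ : ℂ → Fin 6 → ℂ} {e : Fin 6 → ℂ} {t : ℂ} (h : HasDerivAt γ e t)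
    (i : Fin 3) : HasDerivAt (fun t => bb (γ t) i) (bb e i) t := by
  rw [hasDerivAt_pi] at h
  fin_cases i
  · exact h 0
  · exact h 1
  · exact h 2

/-- the parametrisation as a function of six variables -/
def T6 (c : Fin 6 → ℂ) : Ix → ℂ := Th (bb c) (c 3) (c 4) (c 5)

lemma dTh_mem_coneTangent {c e : Fin 6 → ℂ} (hb : bb c ≠ 0) (hxw : c 3 ≠ 0 ∨ c 4 ≠ 0)
    (hG : GG c = 0) (hP : PP c = 0) (he : JJ c e = 0) : dTh c e ∈ coneTangent XX (T6 c) := by
  obtain ⟨γ, hγ0, hγd, hγ⟩ := exists_curve (strict_J c) (JJ_surj hb hxw hG) he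
  have hγ1 : T6 c = T6 (γ 0) := by rw [hγ0]
  rw [hγ1]
  refine mem_coneTangent_of_curve (u := fun t => T6 (γ t)) ?_ ?_
  · have hc : ∀ i, ContinuousAt (fun t => γ t i) 0 := fun i =>
      ((hasDerivAt_pi.1 hγd) i).continuousAt
    have e1 : ∀ᶠ t in 𝓝 (0 : ℂ), bb (γ t) ≠ 0 := by
      obtain ⟨i, hi⟩ := Function.ne_iff.1 hb
      have h1 : ContinuousAt (fun t => bb (γ t) i) 0 := (hasDerivAt_bb hγd i).continuousAt
      have h2 := h1.eventually_ne (y := 0) (by rw [hγ0]; exact hi)
      filter_upwards [h2] with t ht h3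
      exact ht (congrFun h3 i)
    have e2 : ∀ᶠ t in 𝓝 (0 : ℂ), γ t 3 ≠ 0 ∨ γ t 4 ≠ 0 := by
      rcases hxw with h | h
      · filter_upwards [(hc 3).eventually_ne (y := 0) (by rw [hγ0]; exact h)] with t ht
        exact Or.inl ht
      · filter_upwards [(hc 4).eventually_ne (y := 0) (by rw [hγ0]; exact h)] with t ht
        exact Or.inr ht
    filter_upwards [e1, e2, hγ] with t h1 h2 h3
    have hG' : GG (γ t) = 0 := by rw [← hG]; exact congrArg Prod.fst h3
    have hP' : PP (γ t) = 0 := by rw [← hP]; exact congrArg Prod.snd h3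
    refine Th_mem_cone h1 h2 ?_ ?_
    · simp only [bb_zero, bb_one, bb_two]
      unfold GG at hG'
      linear_combination hG'
    · rw [PP_eq] at hP'
      linear_combination hP'
  · intro a
    rcases a with _ | ⟨i, j⟩
    · exact (hasDerivAt_pi.1 hγd) 5
    · simp only [T6, Th_some, dTh_some]
      have h1 := (hasDerivAt_bb hγd i).mul
        (hasDerivAt_mon ((hasDerivAt_pi.1 hγd) 3) ((hasDerivAt_pi.1 hγd) 4) j)
      simp only [hγ0] at h1
      exact h1

section Linearised

open MvPolynomial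

lemma lin_of_mem {v N : Ix → ℂ} (hN : N ∈ coneTangent XX v) :
    (∀ (i k : Fin 3) (j l : Fin 4),
      v (some (i, j)) * N (some (k, l)) + v (some (k, l)) * N (some (i, j))
        - (v (some (i, l)) * N (some (k, j)) + v (some (k, j)) * N (some (i, l))) = 0) ∧
    (∀ i k : Fin 3, v (some (i, 0)) * N (some (k, 2)) + v (some (k, 2)) * N (some (i, 0))
        - (v (some (i, 1)) * N (some (k, 1)) + v (some (k, 1)) * N (some (i, 1))) = 0) ∧
    (∀ i k : Fin 3, v (some (i, 1)) * N (some (k, 3)) + v (some (k, 3)) * N (some (i, 1))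
        - (v (some (i, 2)) * N (some (k, 2)) + v (some (k, 2)) * N (some (i, 2))) = 0) ∧
    (∀ i k : Fin 3, v (some (i, 0)) * N (some (k, 3)) + v (some (k, 3)) * N (some (i, 0))
        - (v (some (i, 1)) * N (some (k, 2)) + v (some (k, 2)) * N (some (i, 1))) = 0) ∧
    (∀ j : Fin 4, 4 * v (some (0, j)) ^ 3 * N (some (0, j)) + 4 * v (some (1, j)) ^ 3 * N (some (1, j))
        - 8 * v (some (2, j)) ^ 3 * N (some (2, j)) = 0) ∧
    (4 * v none ^ 3 * N none -
      ((4 * v (some (0, 0)) ^ 3 * N (some (0, 0)) - 4 * v (some (1, 0)) ^ 3 * N (some (1, 0))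
          + 4 * v (some (2, 0)) ^ 3 * N (some (2, 0)))
        + 3 * (8 * v (some (0, 1)) ^ 3 * N (some (0, 1)) - 8 * v (some (1, 1)) ^ 3 * N (some (1, 1))
          + 4 * v (some (2, 1)) ^ 3 * N (some (2, 1)))
        + 3 * (4 * v (some (0, 2)) ^ 3 * N (some (0, 2)) - 4 * v (some (1, 2)) ^ 3 * N (some (1, 2))
          + 4 * v (some (2, 2)) ^ 3 * N (some (2, 2)))
        + (8 * v (some (0, 3)) ^ 3 * N (some (0, 3)) - 8 * v (some (1, 3)) ^ 3 * N (some (1, 3))
          + 4 * v (some (2, 3)) ^ 3 * N (some (2, 3)))) = 0) := by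
  rw [mem_coneTangent] at hN
  have hN' : ∀ f, XPoly f → dir v N f = 0 := by
    intro f hf
    refine hN f fun u hu => ?_
    exact (xEq_iff u).1 (mem_cone_XX.1 hu).2 f hf
  refine ⟨fun i k j l => ?_, fun i k => ?_, fun i k => ?_, fun i k => ?_, fun j => ?_, ?_⟩
  · have := hN' _ (.minor i k j l)
    simpa only [dir_sub, dir_mul, dir_X, eval_X] using this
  · have := hN' _ (.cat02 i k)
    simpa only [dir_sub, dir_mul, dir_X, eval_X] using this
  · have := hN' _ (.cat13 i k)
    simpa only [dir_sub, dir_mul, dir_X, eval_X] using this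
  · have := hN' _ (.cat03 i k)
    simpa only [dir_sub, dir_mul, dir_X, eval_X] using this
  · have := hN' _ (.base j)
    simp only [dir_sub, dir_add, dir_mul, dir_X, eval_X, dir_pow, dir_C, eval_C] at this
    push_cast at this
    linear_combination this
  · have := hN' _ .top
    simp only [dir_sub, dir_add, dir_mul, dir_X, eval_X, dir_pow, dir_C, eval_C] at this
    push_cast at this
    linear_combination this

end Linearised

lemma eq_dTh_of {c N} (hxw : c 3 ≠ 0 ∨ c 4 ≠ 0) (hb : bb c ≠ 0)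
    (hN : N ∈ coneTangent XX (T6 c)) : ∃ e, dTh c e = N := by
  obtain ⟨k, hk⟩ := Function.ne_iff.1 hb
  have hk' : bb c k ≠ 0 := hk
  obtain ⟨m, c02, c13, c03, -, -⟩ := lin_of_mem hN
  simp only [T6, Th_some, mon_zero, mon_one, mon_two, mon_three] at m c02 c13 c03
  by_cases hw : c 4 = 0
  swap
  · have hbw : bb c k * c 4 ^ 3 ≠ 0 := mul_ne_zero hk' (pow_ne_zero _ hw)
    obtain ⟨β, hβ⟩ : ∃ β : Fin 3 → ℂ, ∀ i, N (some (i, 3)) = β i * c 4 ^ 3 :=
      ⟨fun i => N (some (i, 3)) / c 4 ^ 3, fun i => by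
        simp only; rw [div_mul_cancel₀ _ (pow_ne_zero _ hw)]⟩
    obtain ⟨ξ, hξ⟩ : ∃ ξ, N (some (k, 2)) = β k * (c 3 * c 4 ^ 2) + bb c k * (c 4 ^ 2 * ξ) :=
      ⟨(N (some (k, 2)) - β k * (c 3 * c 4 ^ 2)) / (bb c k * c 4 ^ 2), by
        field_simp; ring⟩
    have e2 : ∀ i, N (some (i, 2)) = β i * (c 3 * c 4 ^ 2) + bb c i * (c 4 ^ 2 * ξ) := by
      intro i
      have h1 := m i k 2 3
      simp only [mon_two, mon_three] at h1
      rw [hβ i, hβ k, hξ] at h1
      apply mul_left_cancel₀ hbw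
      linear_combination h1
    have e1 : ∀ i, N (some (i, 1)) = β i * (c 3 ^ 2 * c 4) + bb c i * (2 * c 3 * c 4 * ξ) := by
      intro i
      have h1 := c13 i k
      rw [hβ k, e2 k, e2 i] at h1
      apply mul_left_cancel₀ hbw
      linear_combination h1
    have e0 : ∀ i, N (some (i, 0)) = β i * c 3 ^ 3 + bb c i * (3 * c 3 ^ 2 * ξ) := by
      intro i
      have h1 := c03 i k
      rw [hβ k, e2 k, e1 i] at h1
      apply mul_left_cancel₀ hbw
      linear_combination h1
    refine ⟨![β 0, β 1, β 2, ξ, 0, N none], ?_⟩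
    obtain ⟨e, he⟩ : ∃ e : Fin 6 → ℂ, e = ![β 0, β 1, β 2, ξ, 0, N none] := ⟨_, rfl⟩
    rw [← he]
    have hbe : ∀ i, bb e i = β i := by
      intro i; rw [he]; fin_cases i <;> rfl
    have he3 : e 3 = ξ := by rw [he]; rfl
    have he4 : e 4 = 0 := by rw [he]; rfl
    have he5 : e 5 = N none := by rw [he]; rfl
    funext a
    rcases a with _ | ⟨i, j⟩
    · exact he5
    · rw [dTh_some, hbe, he3, he4]
      fin_cases j
      · simp only [Fin.zero_eta, mon_zero, dmon_zero, e0 i]
      · simp only [Fin.mk_one, mon_one, dmon_one, e1 i]; ring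
      · simp only [Fin.reduceFinMk, mon_two, dmon_two, e2 i]; ring
      · simp only [Fin.reduceFinMk, mon_three, dmon_three, hβ i]; ring
  · have hx : c 3 ≠ 0 := by
      rcases hxw with h | h
      · exact h
      · exact absurd hw h
    have hbx : bb c k * c 3 ^ 3 ≠ 0 := mul_ne_zero hk' (pow_ne_zero _ hx)
    obtain ⟨β, hβ⟩ : ∃ β : Fin 3 → ℂ, ∀ i, N (some (i, 0)) = β i * c 3 ^ 3 :=
      ⟨fun i => N (some (i, 0)) / c 3 ^ 3, fun i => by
        simp only; rw [div_mul_cancel₀ _ (pow_ne_zero _ hx)]⟩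
    obtain ⟨ξ, hξ⟩ : ∃ ξ, N (some (k, 1)) = β k * (c 3 ^ 2 * c 4) + bb c k * (c 3 ^ 2 * ξ) :=
      ⟨(N (some (k, 1)) - β k * (c 3 ^ 2 * c 4)) / (bb c k * c 3 ^ 2), by
        field_simp; ring⟩
    have e1 : ∀ i, N (some (i, 1)) = β i * (c 3 ^ 2 * c 4) + bb c i * (c 3 ^ 2 * ξ) := by
      intro i
      have h1 := m i k 1 0
      simp only [mon_one, mon_zero] at h1
      rw [hβ i, hβ k, hξ] at h1
      apply mul_left_cancel₀ hbx
      linear_combination h1
    have e2 : ∀ i, N (some (i, 2)) = β i * (c 3 * c 4 ^ 2) + bb c i * (2 * c 3 * c 4 * ξ) := by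
      intro i
      have h1 := c02 k i
      rw [hβ k, e1 k, e1 i] at h1
      apply mul_left_cancel₀ hbx
      linear_combination h1
    have e3 : ∀ i, N (some (i, 3)) = β i * c 4 ^ 3 + bb c i * (3 * c 4 ^ 2 * ξ) := by
      intro i
      have h1 := c03 k i
      rw [hβ k, e1 k, e2 i] at h1
      apply mul_left_cancel₀ hbx
      linear_combination h1
    refine ⟨![β 0, β 1, β 2, 0, ξ, N none], ?_⟩
    obtain ⟨e, he⟩ : ∃ e : Fin 6 → ℂ, e = ![β 0, β 1, β 2, 0, ξ, N none] := ⟨_, rfl⟩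
    rw [← he]
    have hbe : ∀ i, bb e i = β i := by
      intro i; rw [he]; fin_cases i <;> rfl
    have he3 : e 3 = 0 := by rw [he]; rfl
    have he4 : e 4 = ξ := by rw [he]; rfl
    have he5 : e 5 = N none := by rw [he]; rfl
    funext a
    rcases a with _ | ⟨i, j⟩
    · exact he5
    · rw [dTh_some, hbe, he3, he4]
      fin_cases j
      · simp only [Fin.zero_eta, mon_zero, dmon_zero, hβ i]; ring
      · simp only [Fin.mk_one, mon_one, dmon_one, e1 i]; ring
      · simp only [Fin.reduceFinMk, mon_two, dmon_two, e2 i]; ring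
      · simp only [Fin.reduceFinMk, mon_three, dmon_three, e3 i]

/-- the tangent vectors come from the kernel of the Jacobian -/
lemma mem_coneTangent_iff {c N} (hb : bb c ≠ 0) (hxw : c 3 ≠ 0 ∨ c 4 ≠ 0)
    (hG : GG c = 0) (hP : PP c = 0) :
    N ∈ coneTangent XX (T6 c) ↔ ∃ e, JJ c e = 0 ∧ dTh c e = N := by
  constructor
  · intro hN
    obtain ⟨e, he⟩ := eq_dTh_of hxw hb hN
    refine ⟨e, ?_, he⟩
    obtain ⟨-, -, -, -, hbase, htop⟩ := lin_of_mem hN
    rw [← he] at hbase htop
    unfold GG at hG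
    have h1 : dG c e = 0 := by
      rw [dG_apply]
      rcases hxw with h | h
      · have := hbase 0
        simp only [T6, Th_some, dTh_some, mon_zero, dmon_zero, bb_zero, bb_one, bb_two] at this
        apply mul_left_cancel₀ (pow_ne_zero 12 h)
        linear_combination this - 12 * c 3 ^ 11 * e 3 * hG
      · have := hbase 3
        simp only [T6, Th_some, dTh_some, mon_three, dmon_three, bb_zero, bb_one, bb_two] at this
        apply mul_left_cancel₀ (pow_ne_zero 12 h)
        linear_combination this - 12 * c 4 ^ 11 * e 4 * hG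
    have h2 : dP c e = 0 := by
      rw [dP_apply]
      simp only [T6, Th_some, Th_none, dTh_none, dTh_some, mon_zero, dmon_zero, mon_one, dmon_one,
        mon_two, dmon_two, mon_three, dmon_three, bb_zero, bb_one, bb_two] at htop
      unfold fp fq Fx Fw pp qq
      simp only [bb_zero, bb_one, bb_two]
      linear_combination htop
    rw [JJ_apply, h1, h2]; rfl
  · rintro ⟨e, he, rfl⟩
    exact dTh_mem_coneTangent hb hxw hG hP he

end Pool.Agent.Lib.MP_225e67_ag
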