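import Pool.Agent.Lib.MP_225e67_ag.Base

open scoped LinearAlgebra.Projectivization Topology ENNReal ContDiff
open Metric Filter

namespace Pool.Agent.Lib.MP_225e67_ag

section Dir

variable {ι : Type} [Fintype ι]

/-- directional derivative of a polynomial -/
noncomputable def dir (v N : ι → ℂ) (f : MvPolynomial ι ℂ) : ℂ :=
  ∑ i, MvPolynomial.eval v (MvPolynomial.pderiv i f) * N i

lemma dir_add (v N : ι → ℂ) (f g : MvPolynomial ι ℂ) :
    dir v N (f + g) = dir v N f + dir v N g := by
  unfold dir
  simp only [map_add, add_mul, Finset.sum_add_distrib]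

lemma dir_sub (v N : ι → ℂ) (f g : MvPolynomial ι ℂ) :
    dir v N (f - g) = dir v N f - dir v N g := by
  unfold dir
  simp only [map_sub, sub_mul, Finset.sum_sub_distrib]

lemma dir_mul (v N : ι → ℂ) (f g : MvPolynomial ι ℂ) :
    dir v N (f * g) = MvPolynomial.eval v f * dir v N g + MvPolynomial.eval v g * dir v N f := by
  unfold dir
  rw [Finset.mul_sum, Finset.mul_sum, ← Finset.sum_add_distrib]
  refine Finset.sum_congr rfl fun i _ => ?_
  rw [MvPolynomial.pderiv_mul]
  simp only [map_add, map_mul]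
  ring

lemma dir_C (v N : ι → ℂ) (c : ℂ) : dir v N (MvPolynomial.C c) = 0 := by
  unfold dir
  simp

lemma dir_X [DecidableEq ι] (v N : ι → ℂ) (j : ι) : dir v N (MvPolynomial.X j) = N j := by
  unfold dir
  rw [Finset.sum_eq_single j]
  · simp
  · intro i _ hi
    rw [MvPolynomial.pderiv_X_of_ne (Ne.symm hi)]
    simp
  · simp

lemma dir_pow (v N : ι → ℂ) (f : MvPolynomial ι ℂ) (n : ℕ) :
    dir v N (f ^ n) = n * MvPolynomial.eval v f ^ (n - 1) * dir v N f := by
  induction n with
  | zero =>
    have : (f ^ 0 : MvPolynomial ι ℂ) = MvPolynomial.C 1 := by simp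
    rw [this, dir_C]; simp
  | succ n ih =>
    rw [pow_succ, dir_mul, ih]
    rcases n with _ | n
    · simp
    · simp only [map_pow, Nat.add_sub_cancel, Nat.cast_add, Nat.cast_one]
      ring

lemma dir_add_right (v N M : ι → ℂ) (f : MvPolynomial ι ℂ) :
    dir v (N + M) f = dir v N f + dir v M f := by
  unfold dir
  simp only [Pi.add_apply, mul_add, Finset.sum_add_distrib]

lemma dir_smul_right (v N : ι → ℂ) (c : ℂ) (f : MvPolynomial ι ℂ) :
    dir v (c • N) f = c * dir v N f := by
  unfold dir
  rw [Finset.mul_sum]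
  refine Finset.sum_congr rfl fun i _ => ?_
  simp only [Pi.smul_apply, smul_eq_mul]
  ring

lemma dir_zero_right (v : ι → ℂ) (f : MvPolynomial ι ℂ) : dir v 0 f = 0 := by
  unfold dir
  simp

/-- the defining set of the tangent space is a subspace -/
lemma mem_coneTangent {X : Set (PSpace ι)} {v N : ι → ℂ} :
    N ∈ coneTangent X v ↔ ∀ f : MvPolynomial ι ℂ, (∀ u ∈ cone X, MvPolynomial.eval u f = 0) →
      dir v N f = 0 := by
  constructor
  · intro h f hf
    refine Submodule.span_induction (p := fun N _ => dir v N f = 0) ?_ ?_ ?_ ?_ h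
    · intro w hw
      exact hw f hf
    · exact dir_zero_right v f
    · intro a b _ _ ha hb
      rw [dir_add_right, ha, hb, add_zero]
    · intro c a _ ha
      rw [dir_smul_right, ha, mul_zero]
  · intro h
    exact Submodule.subset_span h

lemma coneTangent_mono {Z X : Set (PSpace ι)} (h : Z ⊆ X) (v : ι → ℂ) :
    coneTangent Z v ≤ coneTangent X v := by
  intro N hN
  rw [mem_coneTangent] at hN ⊢
  intro f hf
  refine hN f fun u hu => hf u ?_
  obtain ⟨h0, h1⟩ := hu
  exact ⟨h0, h h1⟩

lemma hasDerivAt_eval (f : MvPolynomial ι ℂ) {u : ℂ → ι → ℂ} {N : ι → ℂ} {t : ℂ}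
    (hu : ∀ i, HasDerivAt (fun t => u t i) (N i) t) :
    HasDerivAt (fun t => MvPolynomial.eval (u t) f) (dir (u t) N f) t := by
  classical
  induction f using MvPolynomial.induction_on with
  | C a => simpa [dir_C] using hasDerivAt_const t a
  | add p q hp hq =>
    rw [dir_add]
    have := hp.add hq
    simp only [map_add]
    exact this
  | mul_X p i hp =>
    rw [dir_mul, dir_X]
    have := hp.mul (hu i)
    simp only [map_mul, MvPolynomial.eval_X]
    refine this.congr_deriv ?_
    ring

/-- velocity vectors of curves in the cone are tangent vectors -/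
lemma mem_coneTangent_of_curve {X : Set (PSpace ι)} {u : ℂ → ι → ℂ} {N : ι → ℂ} {t : ℂ}
    (hX : ∀ᶠ s in 𝓝 t, u s ∈ cone X) (hu : ∀ i, HasDerivAt (fun t => u t i) (N i) t) :
    N ∈ coneTangent X (u t) := by
  rw [mem_coneTangent]
  intro f hf
  have h1 := hasDerivAt_eval f hu
  have h2 : (fun s => MvPolynomial.eval (u s) f) =ᶠ[𝓝 t] fun _ => (0 : ℂ) := by
    filter_upwards [hX] with s hs
    exact hf _ hs
  have h3 := h1.congr_of_eventuallyEq h2.symm
  exact h3.unique (hasDerivAt_const t 0)

lemma continuous_dir (f : MvPolynomial ι ℂ) :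
    Continuous (fun p : (ι → ℂ) × (ι → ℂ) => dir p.1 p.2 f) := by
  unfold dir
  refine continuous_finsetSum _ fun i _ => ?_
  exact ((MvPolynomial.continuous_eval _).comp continuous_fst).mul
    ((continuous_apply i).comp continuous_snd)

end Dir

/-- curves in a level set with prescribed velocity, from the implicit function theorem -/
lemma exists_curve {E F : Type*} [NormedAddCommGroup E] [NormedSpace ℂ E] [CompleteSpace E]
    [NormedAddCommGroup F] [NormedSpace ℂ F] [FiniteDimensional ℂ F] {f : E → F}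
    {f' : E →L[ℂ] F} {a : E} (hf : HasStrictFDerivAt f f' a) (hs : Function.Surjective f')
    {e : E} (he : f' e = 0) :
    ∃ γ : ℂ → E, γ 0 = a ∧ HasDerivAt γ e 0 ∧ ∀ᶠ t in 𝓝 0, f (γ t) = f a := by
  have hr : f'.range = ⊤ := LinearMap.range_eq_top.2 hs
  set k : f'.ker := ⟨e, he⟩ with hk
  refine ⟨fun t => hf.implicitFunction f f' hr (f a) (t • k), ?_, ?_, ?_⟩
  · simp
  · have h1 : HasDerivAt (fun t : ℂ => t • k) k 0 := by
      simpa using (hasDerivAt_id (0 : ℂ)).smul_const k
    have h2 := (hf.to_implicitFunction hr).hasFDerivAt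
    have h3 : HasFDerivAt (hf.implicitFunction f f' hr (f a)) f'.ker.subtypeL ((0 : ℂ) • k) := by
      rw [zero_smul]; exact h2
    exact h3.comp_hasDerivAt (0 : ℂ) h1
  · have h1 := hf.map_implicitFunction_eq hr
    have h2 : Tendsto (fun t : ℂ => (f a, t • k)) (𝓝 0) (𝓝 (f a, 0)) := by
      have : Continuous (fun t : ℂ => (f a, t • k)) := by fun_prop
      simpa using this.tendsto 0
    exact h2.eventually h1

end Pool.Agent.Lib.MP_225e67_ag
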