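import Pool.Agent.Lib.MP_225e67_ag.DX

open scoped LinearAlgebra.Projectivization Topology ENNReal ContDiff
open Metric Filter

namespace Pool.Agent.Lib.MP_225e67_ag

/-- the parametrisation of the curve -/
def ZT (x w y : ℂ) : Ix → ℂ := Th (fun _ => 1) x w y

@[simp] lemma ZT_none (x w y : ℂ) : ZT x w y none = y := rfl
@[simp] lemma ZT_some (x w y : ℂ) (i : Fin 3) (j : Fin 4) :
    ZT x w y (some (i, j)) = mon x w j := by
  simp [ZT]

lemma FF_one (x w : ℂ) : FF (fun _ => 1) x w = (x ^ 4 + w ^ 4) ^ 3 := by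
  unfold FF pp qq
  ring

lemma mem_cone_ZZ_iff {v : Ix → ℂ} : v ∈ cone ZZ ↔
    ∃ x w y, (x ≠ 0 ∨ w ≠ 0) ∧ v = ZT x w y ∧ y ^ 4 = (x ^ 4 + w ^ 4) ^ 3 := by
  constructor
  · intro hv
    obtain ⟨h0, hX, hZ⟩ := mem_cone_ZZ.1 hv
    obtain ⟨b, x, w, y, hb, hxw, hveq, h1, h2⟩ := exists_param (mem_cone_XX.2 ⟨h0, hX⟩)
    have hb02 : b 0 = b 2 := by
      rcases hxw with h | h
      · have := (hZ 0).1
        rw [hveq] at this
        simp only [Th_some, mon_zero] at this
        exact mul_right_cancel₀ (pow_ne_zero 3 h) (sub_eq_zero.1 this)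
      · have := (hZ 3).1
        rw [hveq] at this
        simp only [Th_some, mon_three] at this
        exact mul_right_cancel₀ (pow_ne_zero 3 h) (sub_eq_zero.1 this)
    have hb12 : b 1 = b 2 := by
      rcases hxw with h | h
      · have := (hZ 0).2
        rw [hveq] at this
        simp only [Th_some, mon_zero] at this
        exact mul_right_cancel₀ (pow_ne_zero 3 h) (sub_eq_zero.1 this)
      · have := (hZ 3).2
        rw [hveq] at this
        simp only [Th_some, mon_three] at this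
        exact mul_right_cancel₀ (pow_ne_zero 3 h) (sub_eq_zero.1 this)
    obtain ⟨c, hc⟩ := IsAlgClosed.exists_pow_nat_eq (b 2) (n := 3) (by norm_num)
    have hbi : ∀ i, b i = c ^ 3 := by
      intro i
      fin_cases i
      · exact hb02.trans hc.symm
      · exact hb12.trans hc.symm
      · exact hc.symm
    have hc0 : c ≠ 0 := by
      rintro rfl
      apply hb
      funext i
      rw [hbi i]; simp
    refine ⟨c * x, c * w, y, ?_, ?_, ?_⟩
    · rcases hxw with h | h
      · exact Or.inl (mul_ne_zero hc0 h)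
      · exact Or.inr (mul_ne_zero hc0 h)
    · rw [hveq]
      funext a
      rcases a with _ | ⟨i, j⟩
      · rfl
      · rw [Th_some, ZT_some, hbi i]
        fin_cases j
        · simp only [Fin.zero_eta, mon_zero]; ring
        · simp only [Fin.mk_one, mon_one]; ring
        · simp only [Fin.reduceFinMk, mon_two]; ring
        · simp only [Fin.reduceFinMk, mon_three]; ring
    · rw [h2]
      unfold FF pp qq
      rw [hbi 0, hbi 1, hbi 2]
      ring
  · rintro ⟨x, w, y, hxw, rfl, hy⟩
    have h1 : ZT x w y ∈ cone XX := by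
      refine Th_mem_cone ?_ hxw ?_ ?_
      · intro h
        have := congrFun h 0
        simp at this
      · norm_num
      · rw [FF_one]; exact hy
    obtain ⟨h2, h3⟩ := mem_cone_XX.1 h1
    refine mem_cone_ZZ.2 ⟨h2, h3, fun j => ?_⟩
    simp

/-- `4`-th power of the exponential trick -/
lemma exp_three_quarter (z : ℂ) (hz : z ≠ 0) :
    (Complex.exp (3 / 4 * Complex.log z)) ^ 4 = z ^ 3 := by
  rw [← Complex.exp_nat_mul]
  have : ((4 : ℕ) : ℂ) * (3 / 4 * Complex.log z) = ((3 : ℕ) : ℂ) * Complex.log z := by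
    push_cast; ring
  rw [this, Complex.exp_nat_mul, Complex.exp_log hz]

/-- tangent vectors of the curve -/
noncomputable def LZ (x w y : ℂ) : (Fin 2 → ℂ) →ₗ[ℂ] (Ix → ℂ) where
  toFun e a := match a with
    | none => 3 * (x ^ 4 + w ^ 4) ^ 2 * (x ^ 3 * e 0 + w ^ 3 * e 1) / y ^ 3
    | some (_, j) => dmon x w (e 0) (e 1) j
  map_add' e e' := by
    funext a
    rcases a with _ | ⟨i, j⟩
    · simp only [Pi.add_apply]; ring
    · simp only [Pi.add_apply, dmon_add]
  map_smul' r e := by
    funext a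
    rcases a with _ | ⟨i, j⟩
    · simp only [Pi.smul_apply, smul_eq_mul, RingHom.id_apply]; ring
    · simp only [Pi.smul_apply, smul_eq_mul, dmon_smul, RingHom.id_apply]

@[simp] lemma LZ_none (x w y : ℂ) (e : Fin 2 → ℂ) : LZ x w y e none
    = 3 * (x ^ 4 + w ^ 4) ^ 2 * (x ^ 3 * e 0 + w ^ 3 * e 1) / y ^ 3 := rfl
@[simp] lemma LZ_some (x w y : ℂ) (e : Fin 2 → ℂ) (i : Fin 3) (j : Fin 4) :
    LZ x w y e (some (i, j)) = dmon x w (e 0) (e 1) j := rfl

lemma dmon_eq_zero {x w a d : ℂ} (hxw : x ≠ 0 ∨ w ≠ 0) (h : ∀ j, dmon x w a d j = 0) :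
    a = 0 ∧ d = 0 := by
  have h0 := h 0
  have h1 := h 1
  have h2 := h 2
  have h3 := h 3
  simp only [dmon_zero, dmon_one, dmon_two, dmon_three] at h0 h1 h2 h3
  by_cases hx : x = 0
  · have hw : w ≠ 0 := by
      rcases hxw with h | h
      · exact absurd hx h
      · exact h
    rw [hx] at h2
    have e1 : a = 0 := by
      apply mul_left_cancel₀ (pow_ne_zero 2 hw)
      linear_combination h2
    have e2 : d = 0 := by
      apply mul_left_cancel₀ (pow_ne_zero 2 hw)
      linear_combination (1 / 3) * h3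
    exact ⟨e1, e2⟩
  · have e1 : a = 0 := by
      apply mul_left_cancel₀ (pow_ne_zero 2 hx)
      linear_combination (1 / 3) * h0
    rw [e1] at h1
    have e2 : d = 0 := by
      apply mul_left_cancel₀ (pow_ne_zero 2 hx)
      linear_combination h1
    exact ⟨e1, e2⟩

lemma LZ_mem {x w y : ℂ} (hxw : x ≠ 0 ∨ w ≠ 0) (hy : y ≠ 0) (hZ : y ^ 4 = (x ^ 4 + w ^ 4) ^ 3)
    (e : Fin 2 → ℂ) : LZ x w y e ∈ coneTangent ZZ (ZT x w y) := by
  set A : ℂ := x ^ 4 + w ^ 4 with hA
  have hA0 : A ≠ 0 := by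
    intro h
    rw [h] at hZ
    exact hy (pow_eq_zero_iff (n := 4) (by norm_num) |>.1 (by rw [hZ]; ring))
  set At : ℂ → ℂ := fun t => (x + t * e 0) ^ 4 + (w + t * e 1) ^ 4 with hAt
  have hAt0 : At 0 = A := by simp [hAt, hA]
  have hx1 : HasDerivAt (fun t : ℂ => x + t * e 0) (e 0) 0 := by
    simpa using ((hasDerivAt_id (0 : ℂ)).mul_const (e 0)).const_add x
  have hw1 : HasDerivAt (fun t : ℂ => w + t * e 1) (e 1) 0 := by
    simpa using ((hasDerivAt_id (0 : ℂ)).mul_const (e 1)).const_add w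
  have hAd : HasDerivAt At (4 * x ^ 3 * e 0 + 4 * w ^ 3 * e 1) 0 := by
    have := (hx1.pow 4).add (hw1.pow 4)
    refine this.congr_deriv ?_
    simp
  set Yt : ℂ → ℂ := fun t => y * Complex.exp (3 / 4 * Complex.log (At t / A)) with hYt
  have hYd : HasDerivAt Yt (3 * A ^ 2 * (x ^ 3 * e 0 + w ^ 3 * e 1) / y ^ 3) 0 := by
    have h1 : HasDerivAt (fun t => At t / A) ((4 * x ^ 3 * e 0 + 4 * w ^ 3 * e 1) / A) 0 :=
      hAd.div_const A
    have h2 : At 0 / A = 1 := by rw [hAt0, div_self hA0]
    have h3 : HasDerivAt (fun t => Complex.log (At t / A))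
        ((4 * x ^ 3 * e 0 + 4 * w ^ 3 * e 1) / A / (At 0 / A)) 0 :=
      h1.clog (by rw [h2]; exact Complex.one_mem_slitPlane)
    have h4 := ((h3.const_mul (3 / 4 : ℂ)).cexp).const_mul y
    refine h4.congr_deriv ?_
    rw [h2, Complex.log_one, mul_zero, Complex.exp_zero]
    have hy3 : y ^ 3 ≠ 0 := pow_ne_zero _ hy
    field_simp
    linear_combination (x ^ 3 * e 0 + w ^ 3 * e 1) * hZ
  have hu : ZT x w y = (fun t => ZT (x + t * e 0) (w + t * e 1) (Yt t)) 0 := by
    simp only [hYt, hAt0, div_self hA0, Complex.log_one, mul_zero, Complex.exp_zero, mul_one,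
      zero_mul, add_zero]
  rw [hu]
  refine mem_coneTangent_of_curve (u := fun t => ZT (x + t * e 0) (w + t * e 1) (Yt t)) ?_ ?_
  · have e1 : ∀ᶠ t in 𝓝 (0 : ℂ), x + t * e 0 ≠ 0 ∨ w + t * e 1 ≠ 0 := by
      rcases hxw with h | h
      · filter_upwards [hx1.continuousAt.eventually_ne (y := 0) (by simpa using h)] with t ht
        exact Or.inl ht
      · filter_upwards [hw1.continuousAt.eventually_ne (y := 0) (by simpa using h)] with t ht
        exact Or.inr ht
    have e2 : ∀ᶠ t in 𝓝 (0 : ℂ), At t ≠ 0 :=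
      hAd.continuousAt.eventually_ne (y := 0) (by rw [hAt0]; exact hA0)
    filter_upwards [e1, e2] with t h1 h2
    refine mem_cone_ZZ_iff.2 ⟨_, _, _, h1, rfl, ?_⟩
    rw [hYt]
    simp only
    rw [mul_pow, exp_three_quarter _ (div_ne_zero h2 hA0), hZ]
    rw [hAt]
    field_simp
  · intro a
    rcases a with _ | ⟨i, j⟩
    · exact hYd
    · simp only [ZT_some, LZ_some]
      have := hasDerivAt_mon hx1 hw1 j
      simpa using this

section Linearised

open MvPolynomial

lemma linZ_of_mem {v N : Ix → ℂ} (hN : N ∈ coneTangent ZZ v) (j : Fin 4) :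
    N (some (0, j)) = N (some (2, j)) ∧ N (some (1, j)) = N (some (2, j)) := by
  rw [mem_coneTangent] at hN
  have hN' : ∀ f, ZPoly f → dir v N f = 0 := by
    intro f hf
    refine hN f fun u hu => ?_
    exact (zEq_iff u).1 (mem_cone_ZZ.1 hu).2 f hf
  constructor
  · have := hN' _ (.zero j)
    simp only [dir_sub, dir_X] at this
    exact sub_eq_zero.1 this
  · have := hN' _ (.one j)
    simp only [dir_sub, dir_X] at this
    exact sub_eq_zero.1 this

end Linearised

lemma coneTangent_ZZ_eq {x w y : ℂ} (hxw : x ≠ 0 ∨ w ≠ 0) (hy : y ≠ 0)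
    (hZ : y ^ 4 = (x ^ 4 + w ^ 4) ^ 3) :
    coneTangent ZZ (ZT x w y) = (LZ x w y).range := by
  apply le_antisymm
  · intro N hN
    set c : Fin 6 → ℂ := ![1, 1, 1, x, w, y] with hc
    have hT : T6 c = ZT x w y := by
      show Th (bb c) x w y = Th _ x w y
      congr 1
      funext i
      fin_cases i <;> rfl
    have hbc : ∀ i, bb c i = 1 := by intro i; fin_cases i <;> rfl
    have hb : bb c ≠ 0 := by
      intro h
      have := congrFun h 0
      rw [hbc] at this
      simp at this
    have hG : GG c = 0 := by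
      show (1 : ℂ) ^ 4 + 1 ^ 4 - 2 * 1 ^ 4 = 0
      norm_num
    have hP : PP c = 0 := by
      rw [PP_eq]
      have : bb c = fun _ => 1 := by funext i; exact hbc i
      rw [this, FF_one]
      show y ^ 4 - _ = 0
      rw [hZ]
      exact sub_self _
    have hNX : N ∈ coneTangent XX (T6 c) := by
      rw [hT]
      exact coneTangent_mono ZZ_subset _ hN
    obtain ⟨e, he, hNe⟩ := (mem_coneTangent_iff hb hxw hG hP).1 hNX
    have hl := linZ_of_mem hN
    have c3 : c 3 = x := rfl
    have c4 : c 4 = w := rfl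
    have c5 : c 5 = y := rfl
    have hee : bb e 0 = bb e 2 ∧ bb e 1 = bb e 2 := by
      rcases hxw with h | h
      · have := hl 0
        rw [← hNe] at this
        simp only [dTh_some, hbc, mon_zero, dmon_zero, c3, c4] at this
        constructor
        · exact mul_right_cancel₀ (pow_ne_zero 3 h) (by linear_combination this.1)
        · exact mul_right_cancel₀ (pow_ne_zero 3 h) (by linear_combination this.2)
      · have := hl 3
        rw [← hNe] at this
        simp only [dTh_some, hbc, mon_three, dmon_three, c3, c4] at this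
        constructor
        · exact mul_right_cancel₀ (pow_ne_zero 3 h) (by linear_combination this.1)
        · exact mul_right_cancel₀ (pow_ne_zero 3 h) (by linear_combination this.2)
    obtain ⟨h02, h12⟩ := hee
    have hbe : ∀ i, bb e i = e 2 := by
      intro i
      fin_cases i
      · exact h02
      · exact h12
      · rfl
    refine ⟨![e 3 + e 2 * x / 3, e 4 + e 2 * w / 3], ?_⟩
    have hdP : dP c e = 0 := congrArg Prod.snd he
    rw [dP_apply] at hdP
    have e02 : e 0 = e 2 := h02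
    have e12 : e 1 = e 2 := h12
    have c0 : c 0 = 1 := rfl
    have c1 : c 1 = 1 := rfl
    have c2 : c 2 = 1 := rfl
    unfold fp fq Fx Fw pp qq at hdP
    rw [hbc, hbc, hbc, c0, c1, c2, c3, c4, c5, e02, e12] at hdP
    rw [← hNe]
    funext a
    rcases a with _ | ⟨i, j⟩
    · simp only [LZ_none, dTh_none, Matrix.cons_val_zero, Matrix.cons_val_one]
      have hy3 : y ^ 3 ≠ 0 := pow_ne_zero _ hy
      rw [div_eq_iff hy3]
      linear_combination (-1 / 4) * hdP
    · simp only [LZ_some, dTh_some, Matrix.cons_val_zero, Matrix.cons_val_one, hbc, hbe, c3, c4]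
      fin_cases j
      · simp only [Fin.zero_eta, mon_zero, dmon_zero]; ring
      · simp only [Fin.mk_one, mon_one, dmon_one]; ring
      · simp only [Fin.reduceFinMk, mon_two, dmon_two]; ring
      · simp only [Fin.reduceFinMk, mon_three, dmon_three]; ring
  · rintro N ⟨e, rfl⟩
    exact LZ_mem hxw hy hZ e

lemma LZ_injective {x w : ℂ} (y : ℂ) (hxw : x ≠ 0 ∨ w ≠ 0) :
    Function.Injective (LZ x w y) := by
  rw [injective_iff_map_eq_zero]
  intro e he
  have h : ∀ j, dmon x w (e 0) (e 1) j = 0 := fun j => congrFun he (some (0, j))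
  obtain ⟨h0, h1⟩ := dmon_eq_zero hxw h
  funext i
  fin_cases i
  · exact h0
  · exact h1

lemma finrank_coneTangent_ZZ {x w y : ℂ} (hxw : x ≠ 0 ∨ w ≠ 0) (hy : y ≠ 0)
    (hZ : y ^ 4 = (x ^ 4 + w ^ 4) ^ 3) :
    Module.finrank ℂ (coneTangent ZZ (ZT x w y)) = 2 := by
  rw [coneTangent_ZZ_eq hxw hy hZ, LinearMap.finrank_range_of_inj (LZ_injective y hxw)]
  simp

end Pool.Agent.Lib.MP_225e67_ag
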