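import Pool.Agent.Lib.MP_225e67_ag.ZC1

open scoped LinearAlgebra.Projectivization Topology ENNReal
open Metric Filter

namespace Pool.Agent.Lib.MP_225e67_ag

/-- coefficient ring -/
abbrev RR : Type := MvPolynomial (Fin 2) ℂ

noncomputable def AA : RR := MvPolynomial.X 0 ^ 4 + MvPolynomial.X 1 ^ 4

/-- evaluation -/
noncomputable def ev (x w y : ℂ) : Polynomial RR →+* ℂ :=
  Polynomial.eval₂RingHom (MvPolynomial.eval ![x, w]) y

lemma ev_C (x w y : ℂ) (r : RR) : ev x w y (Polynomial.C r) = MvPolynomial.eval ![x, w] r := by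
  simp [ev]

lemma ev_X (x w y : ℂ) : ev x w y Polynomial.X = y := by
  simp [ev]

lemma eval_AA (x w : ℂ) : MvPolynomial.eval ![x, w] AA = x ^ 4 + w ^ 4 := by
  simp [AA]

noncomputable def DD (k : ℕ) : Polynomial RR := Polynomial.X ^ 4 - Polynomial.C (AA ^ k)

lemma DD_monic (k : ℕ) : (DD k).Monic := Polynomial.monic_X_pow_sub_C _ (by norm_num)

lemma DD_natDegree (k : ℕ) : (DD k).natDegree = 4 := Polynomial.natDegree_X_pow_sub_C

lemma ev_DD (x w y : ℂ) (k : ℕ) : ev x w y (DD k) = y ^ 4 - (x ^ 4 + w ^ 4) ^ k := by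
  simp only [DD, map_sub, map_pow, ev_X, ev_C, eval_AA]

lemma AA_ne_zero : AA ≠ 0 := by
  intro h
  have := eval_AA 1 0
  rw [h] at this
  simp at this

/-- a polynomial of degree less than four vanishing at all fourth roots is zero -/
lemma small_zero (p : Polynomial ℂ) (hp : p.natDegree < 4) {a : ℂ} (ha : a ≠ 0)
    (h : ∀ y, y ^ 4 = a → p.eval y = 0) : p = 0 := by
  obtain ⟨y0, hy0⟩ := IsAlgClosed.exists_pow_nat_eq a (n := 4) (by norm_num)
  have hy00 : y0 ≠ 0 := by
    rintro rfl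
    apply ha
    rw [← hy0]; norm_num
  have hζ := Complex.isPrimitiveRoot_exp 4 (by norm_num)
  set ζ := Complex.exp (2 * Real.pi * Complex.I / ((4 : ℕ) : ℂ)) with hζd
  refine Polynomial.eq_zero_of_natDegree_lt_card_of_eval_eq_zero p
    (f := fun i : Fin 4 => ζ ^ (i : ℕ) * y0) ?_ ?_ (by simpa using hp)
  · intro i j hij
    have h1 : ζ ^ (i : ℕ) = ζ ^ (j : ℕ) := mul_right_cancel₀ hy00 hij
    exact Fin.ext (hζ.pow_inj i.2 j.2 h1)
  · intro i
    apply h
    rw [mul_pow, hy0, ← pow_mul, mul_comm (i : ℕ) 4, pow_mul, hζ.pow_eq_one, one_pow, one_mul]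

lemma ev_eq (x w y : ℂ) (p : Polynomial RR) :
    ev x w y p = (p.map (MvPolynomial.eval ![x, w])).eval y := by
  simp [ev, Polynomial.eval_map]

/-- divisibility from vanishing -/
lemma dvd_of_vanish (k : ℕ) (p : Polynomial RR)
    (h : ∀ x w y : ℂ, (x ≠ 0 ∨ w ≠ 0) → y ^ 4 = (x ^ 4 + w ^ 4) ^ k → ev x w y p = 0) :
    DD k ∣ p := by
  rw [← Polynomial.modByMonic_eq_zero_iff_dvd (DD_monic k)]
  set r := p %ₘ DD k with hr
  have hdeg : r.natDegree < 4 := by
    rw [← DD_natDegree k]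
    refine Polynomial.natDegree_modByMonic_lt p (DD_monic k) ?_
    intro h1
    have := DD_natDegree k
    rw [h1] at this
    simp at this
  have hrv : ∀ x w y : ℂ, (x ≠ 0 ∨ w ≠ 0) → y ^ 4 = (x ^ 4 + w ^ 4) ^ k → ev x w y r = 0 := by
    intro x w y hxw hy
    have h1 := Polynomial.modByMonic_add_div p (DD k)
    have h2 := congrArg (ev x w y) h1
    rw [map_add, map_mul, ev_DD, hy, sub_self, zero_mul, add_zero, h x w y hxw hy] at h2
    exact h2
  ext1 i
  rw [Polynomial.coeff_zero]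
  have h1 : r.coeff i * AA = 0 := by
    apply MvPolynomial.funext
    intro u
    obtain ⟨x, w, rfl⟩ : ∃ x w, u = ![x, w] := ⟨u 0, u 1, by
      funext i; fin_cases i <;> rfl⟩
    rw [map_mul, eval_AA, map_zero]
    by_cases hA : x ^ 4 + w ^ 4 = 0
    · rw [hA, mul_zero]
    · have hxw : x ≠ 0 ∨ w ≠ 0 := by
        by_contra hcon
        push Not at hcon
        apply hA
        rw [hcon.1, hcon.2]; norm_num
      have h2 : r.map (MvPolynomial.eval ![x, w]) = 0 := by
        refine small_zero _ ?_ (pow_ne_zero k hA) ?_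
        · exact lt_of_le_of_lt Polynomial.natDegree_map_le hdeg
        · intro y hy
          rw [← ev_eq]
          exact hrv x w y hxw hy
      have h3 := congrArg (fun q => Polynomial.coeff q i) h2
      simp only [Polynomial.coeff_map, Polynomial.coeff_zero] at h3
      rw [h3, zero_mul]
  exact (mul_eq_zero.1 h1).resolve_right AA_ne_zero

/-- pulling back a polynomial to the parameters -/
noncomputable def pull (k : ℕ) : MvPolynomial Ix ℂ →ₐ[ℂ] Polynomial RR :=
  MvPolynomial.aeval (fun a : Ix => match a with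
    | none => Polynomial.X ^ k
    | some (_, j) => Polynomial.C (![MvPolynomial.X 0 ^ 3,
        MvPolynomial.X 0 ^ 2 * MvPolynomial.X 1, MvPolynomial.X 0 * MvPolynomial.X 1 ^ 2,
        MvPolynomial.X 1 ^ 3] j))

lemma ev_pull (k : ℕ) (x w y : ℂ) (f : MvPolynomial Ix ℂ) :
    ev x w y (pull k f) = MvPolynomial.eval (ZT x w (y ^ k)) f := by
  induction f using MvPolynomial.induction_on with
  | C a =>
    rw [MvPolynomial.eval_C, pull, MvPolynomial.aeval_C]
    have : (algebraMap ℂ (Polynomial RR)) a = Polynomial.C (MvPolynomial.C a) := rfl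
    rw [this, ev_C, MvPolynomial.eval_C]
  | add p q hp hq => rw [map_add, map_add, map_add, hp, hq]
  | mul_X p a hp =>
    rw [map_mul, map_mul, map_mul, hp, MvPolynomial.eval_X]
    congr 1
    rw [pull, MvPolynomial.aeval_X]
    rcases a with _ | ⟨i, j⟩
    · simp only [map_pow, ev_X, ZT_none]
    · simp only [ev_C, ZT_some]
      fin_cases j
      · simp
      · simp
      · simp
      · simp

/-- the ideal of the curve in terms of the parameters, first form -/
lemma vanish_iff_one (f : MvPolynomial Ix ℂ) :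
    (∀ v ∈ cone ZZ, MvPolynomial.eval v f = 0) ↔ DD 1 ∣ pull 3 f := by
  constructor
  · intro h
    refine dvd_of_vanish 1 _ fun x w z hxw hz => ?_
    rw [ev_pull]
    apply h
    refine mem_cone_ZZ_iff.2 ⟨x, w, z ^ 3, hxw, rfl, ?_⟩
    rw [pow_one] at hz
    rw [← hz]; ring
  · rintro ⟨q, hq⟩ v hv
    obtain ⟨x, w, y, hxw, rfl, hy⟩ := mem_cone_ZZ_iff.1 hv
    obtain ⟨z, hz4, hz3⟩ : ∃ z : ℂ, z ^ 4 = x ^ 4 + w ^ 4 ∧ z ^ 3 = y := by
      by_cases hA : x ^ 4 + w ^ 4 = 0
      · rw [hA] at hy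
        have hy0 : y = 0 := pow_eq_zero_iff (n := 4) (by norm_num) |>.1 (by rw [hy]; norm_num)
        exact ⟨0, by rw [hA]; norm_num, by rw [hy0]; norm_num⟩
      · have hy0 : y ≠ 0 := by
          rintro rfl
          exact (pow_ne_zero 3 hA) (by rw [← hy]; norm_num)
        have h3 : ((x ^ 4 + w ^ 4) / y) ^ 3 = y := by
          rw [div_pow, ← hy]
          field_simp
        refine ⟨(x ^ 4 + w ^ 4) / y, ?_, h3⟩
        rw [pow_succ, h3]
        field_simp
    rw [← hz3, ← ev_pull, hq, map_mul, ev_DD, hz4, pow_one, sub_self, zero_mul]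

/-- second form -/
lemma vanish_iff_three (f : MvPolynomial Ix ℂ) :
    (∀ v ∈ cone ZZ, MvPolynomial.eval v f = 0) → DD 3 ∣ pull 1 f := by
  intro h
  refine dvd_of_vanish 3 _ fun x w y hxw hy => ?_
  rw [ev_pull, pow_one]
  exact h _ (mem_cone_ZZ_iff.2 ⟨x, w, y, hxw, rfl, hy⟩)

/-- the prime ideal used in Eisenstein's criterion -/
noncomputable def phi (ζ : ℂ) : RR →+* Polynomial ℂ :=
  (MvPolynomial.aeval ![Polynomial.C ζ * Polynomial.X, Polynomial.X] : RR →ₐ[ℂ] Polynomial ℂ)

lemma phi_X0 (ζ : ℂ) : phi ζ (MvPolynomial.X 0) = Polynomial.C ζ * Polynomial.X := by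
  simp [phi]

lemma phi_X1 (ζ : ℂ) : phi ζ (MvPolynomial.X 1) = Polynomial.X := by
  simp [phi]

lemma irreducible_DD : Irreducible (DD 1) := by
  obtain ⟨ζ, hζ⟩ := IsAlgClosed.exists_pow_nat_eq (-1 : ℂ) (n := 4) (by norm_num)
  have hζ0 : ζ ≠ 0 := by
    rintro rfl
    norm_num at hζ
  set PI : Ideal RR := RingHom.ker (phi ζ) with hP
  have hprime : PI.IsPrime := RingHom.ker_isPrime _
  have hAA : AA ∈ PI := by
    rw [hP, RingHom.mem_ker, AA, map_add, map_pow, map_pow, phi_X0, phi_X1, mul_pow,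
      ← Polynomial.C_pow, hζ]
    simp
  have hAA2 : AA ∉ PI ^ 2 := by
    intro h
    have key : ∀ r ∈ PI ^ 2, phi ζ (MvPolynomial.pderiv 0 r) = 0 := by
      intro r hr
      rw [pow_two] at hr
      refine Submodule.mul_induction_on hr ?_ ?_
      · intro a ha b hb
        rw [hP, RingHom.mem_ker] at ha hb
        rw [MvPolynomial.pderiv_mul, map_add, map_mul, map_mul, ha, hb]
        simp
      · intro a b ha hb
        rw [map_add, map_add, ha, hb, add_zero]
    have h1 := key _ h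
    have h2 : MvPolynomial.pderiv 0 AA = (4 : RR) * MvPolynomial.X 0 ^ 3 := by
      rw [AA, map_add, MvPolynomial.pderiv_pow, MvPolynomial.pderiv_pow,
        MvPolynomial.pderiv_X_self, MvPolynomial.pderiv_X_of_ne (by decide)]
      simp
    rw [h2, map_mul, map_pow, phi_X0] at h1
    have h3 : phi ζ (4 : RR) = 4 := map_ofNat _ 4
    rw [h3] at h1
    have h4 : (Polynomial.C ζ * Polynomial.X : Polynomial ℂ) ≠ 0 :=
      mul_ne_zero (Polynomial.C_ne_zero.2 hζ0) Polynomial.X_ne_zero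
    have h5 : (4 : Polynomial ℂ) ≠ 0 := by
      have : (4 : Polynomial ℂ) = Polynomial.C 4 := rfl
      rw [this]
      exact Polynomial.C_ne_zero.2 (by norm_num)
    exact mul_ne_zero h5 (pow_ne_zero 3 h4) h1
  have hE : (DD 1).IsEisensteinAt PI := by
    refine ⟨?_, ?_, ?_⟩
    · rw [(DD_monic 1).leadingCoeff]
      exact fun h => hprime.ne_top ((Ideal.eq_top_iff_one _).2 h)
    · intro n hn
      rw [DD_natDegree] at hn
      rw [DD, Polynomial.coeff_sub, Polynomial.coeff_X_pow, if_neg hn.ne, zero_sub,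
        Polynomial.coeff_C]
      split_ifs with h0
      · rw [pow_one]; exact neg_mem hAA
      · rw [neg_zero]; exact zero_mem _
    · rw [DD, Polynomial.coeff_sub, Polynomial.coeff_X_pow, Polynomial.coeff_C]
      simp only [pow_one]
      norm_num
      exact hAA2
  refine hE.irreducible hprime (DD_monic 1).isPrimitive ?_
  rw [DD_natDegree]; norm_num

lemma prime_DD : Prime (DD 1) := irreducible_DD.prime

theorem isIrred_ZZ : IsIrredSubvariety ZZ XX := by
  refine ⟨ZZ_subset, isProjClosed_ZZ, ?_, ?_⟩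
  · have h : ZT 0 1 1 ∈ cone ZZ :=
      mem_cone_ZZ_iff.2 ⟨0, 1, 1, Or.inr one_ne_zero, rfl, by norm_num⟩
    obtain ⟨h1, h2⟩ := h
    exact ⟨_, h2⟩
  · intro f g hfg
    rw [vanish_iff_one, map_mul] at hfg
    rw [vanish_iff_one, vanish_iff_one]
    exact prime_DD.dvd_or_dvd hfg

end Pool.Agent.Lib.MP_225e67_ag
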