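import Pool.Agent.Lib.MP_225e67_ag.ZC2

open scoped LinearAlgebra.Projectivization Topology ENNReal
open Metric Filter

namespace Pool.Agent.Lib.MP_225e67_ag

lemma differentiableAt_ev {x w y : ℂ → ℂ} {a d c t : ℂ} (hx : HasDerivAt x a t)
    (hw : HasDerivAt w d t) (hy : HasDerivAt y c t) (q : Polynomial RR) :
    DifferentiableAt ℂ (fun t => ev (x t) (w t) (y t) q) t := by
  induction q using Polynomial.induction_on' with
  | add p q hp hq =>
    simp only [map_add]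
    exact hp.add hq
  | monomial n r =>
    have h1 : ∀ t, ev (x t) (w t) (y t) (Polynomial.monomial n r)
        = MvPolynomial.eval ![x t, w t] r * y t ^ n := by
      intro t
      rw [← Polynomial.C_mul_X_pow_eq_monomial, map_mul, map_pow, ev_C, ev_X]
    simp only [h1]
    have h2 : HasDerivAt (fun t => MvPolynomial.eval ((fun t => ![x t, w t]) t) r)
        (dir (![x t, w t]) ![a, d] r) t := by
      refine hasDerivAt_eval r (u := fun t => ![x t, w t]) (N := ![a, d]) ?_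
      intro i
      fin_cases i
      · exact hx
      · exact hw
    exact h2.differentiableAt.mul (hy.differentiableAt.pow n)

/-- tangent vectors of the curve at a singular point -/
def L0 (x w : ℂ) : (Fin 3 → ℂ) →ₗ[ℂ] (Ix → ℂ) where
  toFun e a := match a with
    | none => e 2
    | some (_, j) => dmon x w (e 0) (e 1) j
  map_add' e e' := by
    funext a
    rcases a with _ | ⟨i, j⟩
    · rfl
    · simp only [Pi.add_apply, dmon_add]
  map_smul' r e := by
    funext a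
    rcases a with _ | ⟨i, j⟩
    · rfl
    · simp only [Pi.smul_apply, smul_eq_mul, dmon_smul, RingHom.id_apply]

@[simp] lemma L0_none (x w : ℂ) (e : Fin 3 → ℂ) : L0 x w e none = e 2 := rfl
@[simp] lemma L0_some (x w : ℂ) (e : Fin 3 → ℂ) (i : Fin 3) (j : Fin 4) :
    L0 x w e (some (i, j)) = dmon x w (e 0) (e 1) j := rfl

lemma L0_injective {x w : ℂ} (hxw : x ≠ 0 ∨ w ≠ 0) : Function.Injective (L0 x w) := by
  rw [injective_iff_map_eq_zero]
  intro e he
  have h : ∀ j, dmon x w (e 0) (e 1) j = 0 := fun j => congrFun he (some (0, j))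
  obtain ⟨h0, h1⟩ := dmon_eq_zero hxw h
  funext i
  fin_cases i
  · exact h0
  · exact h1
  · exact congrFun he none

lemma L0_mem {x w : ℂ} (hA : x ^ 4 + w ^ 4 = 0) (e : Fin 3 → ℂ) :
    L0 x w e ∈ coneTangent ZZ (ZT x w 0) := by
  rw [mem_coneTangent]
  intro f hf
  obtain ⟨q, hq⟩ := vanish_iff_three f hf
  have hx1 : HasDerivAt (fun t : ℂ => x + t * e 0) (e 0) 0 := by
    simpa using ((hasDerivAt_id (0 : ℂ)).mul_const (e 0)).const_add x
  have hw1 : HasDerivAt (fun t : ℂ => w + t * e 1) (e 1) 0 := by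
    simpa using ((hasDerivAt_id (0 : ℂ)).mul_const (e 1)).const_add w
  have hy1 : HasDerivAt (fun t : ℂ => t * e 2) (e 2) 0 := by
    simpa using ((hasDerivAt_id (0 : ℂ)).mul_const (e 2))
  have h1 : HasDerivAt (fun t => MvPolynomial.eval
      ((fun t => ZT (x + t * e 0) (w + t * e 1) (t * e 2)) t) f)
      (dir (ZT (x + 0 * e 0) (w + 0 * e 1) (0 * e 2)) (L0 x w e) f) 0 := by
    refine hasDerivAt_eval f (u := fun t => ZT (x + t * e 0) (w + t * e 1) (t * e 2))
      (N := L0 x w e) ?_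
    intro a
    rcases a with _ | ⟨i, j⟩
    · exact hy1
    · simp only [ZT_some, L0_some]
      have := hasDerivAt_mon hx1 hw1 j
      simpa using this
  have h2 : (fun t => MvPolynomial.eval ((fun t => ZT (x + t * e 0) (w + t * e 1) (t * e 2)) t) f)
      = fun t => ((t * e 2) ^ 4 - ((x + t * e 0) ^ 4 + (w + t * e 1) ^ 4) ^ 3)
        * ev (x + t * e 0) (w + t * e 1) (t * e 2) q := by
    funext t
    have := ev_pull 1 (x + t * e 0) (w + t * e 1) (t * e 2) f
    rw [pow_one] at this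
    simp only
    rw [← this, hq, map_mul, ev_DD]
  rw [h2] at h1
  have h3 : HasDerivAt (fun t : ℂ => (t * e 2) ^ 4 - ((x + t * e 0) ^ 4 + (w + t * e 1) ^ 4) ^ 3)
      0 0 := by
    have := (hy1.pow 4).sub (((hx1.pow 4).add (hw1.pow 4)).pow 3)
    refine this.congr_deriv ?_
    simp [hA]
  have h4 := differentiableAt_ev hx1 hw1 hy1 q
  have h5 := h3.mul h4.hasDerivAt
  have h6 := h1.unique h5
  simp only [zero_mul, add_zero] at h6
  rw [h6]
  simp [hA]

lemma three_le_finrank {x w : ℂ} (hxw : x ≠ 0 ∨ w ≠ 0) (hA : x ^ 4 + w ^ 4 = 0) :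
    3 ≤ Module.finrank ℂ (coneTangent ZZ (ZT x w 0)) := by
  have h1 : (L0 x w).range ≤ coneTangent ZZ (ZT x w 0) := by
    rintro N ⟨e, rfl⟩
    exact L0_mem hA e
  have h2 := Submodule.finrank_mono h1
  rw [LinearMap.finrank_range_of_inj (L0_injective hxw)] at h2
  simpa using h2

/-- the smooth points of the curve -/
lemma mem_regCone_iff {v : Ix → ℂ} : v ∈ regCone ZZ ↔ v ∈ cone ZZ ∧ v none ≠ 0 := by
  have key : ∀ u ∈ cone ZZ, (u none ≠ 0 → Module.finrank ℂ (coneTangent ZZ u) = 2) ∧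
      (u none = 0 → 3 ≤ Module.finrank ℂ (coneTangent ZZ u)) := by
    intro u hu
    obtain ⟨x, w, y, hxw, rfl, hy⟩ := mem_cone_ZZ_iff.1 hu
    constructor
    · intro h
      exact finrank_coneTangent_ZZ hxw h hy
    · intro h
      have hy0 : y = 0 := h
      subst hy0
      refine three_le_finrank hxw ?_
      have : (x ^ 4 + w ^ 4) ^ 3 = 0 := by rw [← hy]; norm_num
      exact pow_eq_zero_iff (by norm_num) |>.1 this
  constructor
  · rintro ⟨h1, h2⟩
    refine ⟨h1, fun h0 => ?_⟩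
    have h3 := (key v h1).2 h0
    have h4 : ZT 0 1 1 ∈ cone ZZ :=
      mem_cone_ZZ_iff.2 ⟨0, 1, 1, Or.inr one_ne_zero, rfl, by norm_num⟩
    have h5 := (key _ h4).1 one_ne_zero
    have h6 := h2 _ h4
    omega
  · rintro ⟨h1, h2⟩
    refine ⟨h1, fun u hu => ?_⟩
    have h3 := (key v h1).1 h2
    by_cases h0 : u none = 0
    · have := (key u hu).2 h0
      omega
    · have := (key u hu).1 h0
      omega

lemma tendsto_pair {ι α : Type*} [Fintype ι] {l : Filter α} {f g : α → ι → ℂ} {a b : ι → ℂ}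
    (hf : Tendsto f l (𝓝 a)) (hg : Tendsto g l (𝓝 b)) :
    Tendsto (fun t => ∑ i, f t i * g t i) l (𝓝 (∑ i, a i * b i)) :=
  tendsto_finsetSum _ fun i _ => (tendsto_pi_nhds.1 hf i).mul (tendsto_pi_nhds.1 hg i)

/-- limits of tangent vectors are killed by limits of conormal vectors and are tangent -/
lemma closure_kill {ι : Type} [Fintype ι] {Z : Set (PSpace ι)} {v ζ e : ι → ℂ}
    {E : (ι → ℂ) → (ι → ℂ)}
    (hE : Tendsto E (𝓝[regCone Z] v) (𝓝 e))
    (hT : ∀ᶠ u in 𝓝[regCone Z] v, E u ∈ coneTangent Z u)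
    (h : (v, ζ) ∈ conormalClosure Z) :
    ∑ i, ζ i * e i = 0 ∧ e ∈ coneTangent Z v := by
  obtain ⟨S, hS⟩ : ∃ S : Set ((ι → ℂ) × (ι → ℂ)), S =
    {x | x.1 ∈ regCone Z ∧ ∀ w ∈ coneTangent Z x.1, ∑ i, x.2 i * w i = 0} := ⟨_, rfl⟩
  have hSmem : ∀ p ∈ S, p.1 ∈ regCone Z ∧ ∀ w ∈ coneTangent Z p.1, ∑ i, p.2 i * w i = 0 := by
    intro p hp
    rw [hS] at hp
    exact hp
  have h : (v, ζ) ∈ closure S := by rw [hS]; exact h
  have hne : (𝓝[S] (v, ζ)).NeBot := mem_closure_iff_nhdsWithin_neBot.1 h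
  have hfst' : Tendsto (fun p : (ι → ℂ) × (ι → ℂ) => p.1) (𝓝[S] (v, ζ)) (𝓝 v) :=
    (continuous_fst.tendsto (v, ζ)).mono_left nhdsWithin_le_nhds
  have hfst : Tendsto (fun p : (ι → ℂ) × (ι → ℂ) => p.1) (𝓝[S] (v, ζ)) (𝓝[regCone Z] v) := by
    refine tendsto_nhdsWithin_iff.2 ⟨hfst', ?_⟩
    filter_upwards [self_mem_nhdsWithin] with p hp
    exact (hSmem p hp).1
  have hsnd : Tendsto (fun p : (ι → ℂ) × (ι → ℂ) => p.2) (𝓝[S] (v, ζ)) (𝓝 ζ) :=
    (continuous_snd.tendsto (v, ζ)).mono_left nhdsWithin_le_nhds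
  have hE' : Tendsto (fun p : (ι → ℂ) × (ι → ℂ) => E p.1) (𝓝[S] (v, ζ)) (𝓝 e) := hE.comp hfst
  have hT' : ∀ᶠ p in 𝓝[S] (v, ζ), E p.1 ∈ coneTangent Z p.1 := hfst.eventually hT
  constructor
  · have h1 := tendsto_pair hsnd hE'
    have h2 : (fun p : (ι → ℂ) × (ι → ℂ) => ∑ i, p.2 i * E p.1 i) =ᶠ[𝓝[S] (v, ζ)]
        fun _ => 0 := by
      filter_upwards [hT', self_mem_nhdsWithin] with p hp hpS
      exact (hSmem p hpS).2 _ hp
    exact tendsto_nhds_unique h1 ((tendsto_congr' h2).2 tendsto_const_nhds)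
  · rw [mem_coneTangent]
    intro f hf
    have h1 : Tendsto (fun p : (ι → ℂ) × (ι → ℂ) => dir p.1 (E p.1) f) (𝓝[S] (v, ζ))
        (𝓝 (dir v e f)) := by
      have h3 : Tendsto (fun q : (ι → ℂ) × (ι → ℂ) => dir q.1 q.2 f) (𝓝 (v, e))
        (𝓝 (dir v e f)) := (continuous_dir f).tendsto (v, e)
      have h4 : Tendsto (fun p : (ι → ℂ) × (ι → ℂ) => (p.1, E p.1)) (𝓝[S] (v, ζ)) (𝓝 (v, e)) :=
        hfst'.prodMk_nhds hE'
      exact Tendsto.comp (g := fun q : (ι → ℂ) × (ι → ℂ) => dir q.1 q.2 f)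
        (f := fun p : (ι → ℂ) × (ι → ℂ) => (p.1, E p.1)) h3 h4
    have h2 : (fun p : (ι → ℂ) × (ι → ℂ) => dir p.1 (E p.1) f) =ᶠ[𝓝[S] (v, ζ)]
        fun _ => 0 := by
      filter_upwards [hT'] with p hp
      have h5 : dir p.1 (E p.1) f = 0 := mem_coneTangent.1 hp f hf
      rw [h5]
    exact tendsto_nhds_unique h1 ((tendsto_congr' h2).2 tendsto_const_nhds)

end Pool.Agent.Lib.MP_225e67_ag
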